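import Pool.Agent.Lib_helper45.W2.Evol

/-!
The asymptotic lemma: a periodic pointwise constraint passes to the ergodic mean.
-/

open MeasureTheory Set Filter Topology
open scoped NNReal ENNReal

namespace Pool.Agent.Lib_helper45.W2

variable {H : Type*} [NormedAddCommGroup H] [InnerProductSpace ℝ H]

section
variable {U : ℝ → H →L[ℝ] H} (hU : IsEvo U)
include hU

theorem pull_continuous {χ : ℝ → H} (hχ : Continuous χ) : Continuous fun s => U (-s) (χ s) :=
  hU.continuous_apply continuous_neg hχ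

/-- Integral of the pulled back periodic curve over `[T, T + n]`. -/
theorem integral_pull [CompleteSpace H] {χ : ℝ → H} (hχ : Continuous χ)
    (hper : ∀ t, χ (t + 1) = χ t) (T n : ℕ) :
    ∫ s in (T : ℝ)..(T + n : ℝ), U (-s) (χ s) =
      U (-T) (∑ k ∈ Finset.range n, (U (-1))^[k] (∫ s in (0 : ℝ)..1, U (-s) (χ s))) := by
  have hc := pull_continuous hU hχ
  have hperN : ∀ m : ℕ, ∀ t, χ (t + m) = χ t := by
    intro m
    induction m with
    | zero => intro t; simp
    | succ m ih => intro t; push_cast; rw [← add_assoc, hper, ih]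
  have hiter : ∀ k : ℕ, ∀ x, (U (-1))^[k] x = U (-k) x := by
    intro k
    induction k with
    | zero => intro x; simp [hU.zero]
    | succ k ih =>
      intro x
      rw [Function.iterate_succ_apply', ih, ← hU.add]
      congr 2
      push_cast
      ring
  have hone : ∀ m : ℕ, ∫ s in (m : ℝ)..(m + 1 : ℝ), U (-s) (χ s) =
      U (-m) (∫ s in (0 : ℝ)..1, U (-s) (χ s)) := by
    intro m
    have h1 : ∫ s in (m : ℝ)..(m + 1 : ℝ), U (-s) (χ s) =
        ∫ s in (0 : ℝ)..1, U (-(s + m)) (χ (s + m)) := by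
      rw [intervalIntegral.integral_comp_add_right (fun s => U (-s) (χ s))]
      rw [zero_add, add_comm 1 (m : ℝ)]
    rw [h1, ← ContinuousLinearMap.intervalIntegral_comp_comm _ (hc.intervalIntegrable _ _)]
    refine intervalIntegral.integral_congr fun s _ => ?_
    change U (-(s + m)) (χ (s + m)) = U (-m) (U (-s) (χ s))
    rw [hperN m, ← hU.add]
    congr 2
    ring
  induction n with
  | zero => simp
  | succ n ih =>
    rw [Finset.sum_range_succ, map_add, ← ih, hiter, ← hU.add]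
    have h2 := hone (T + n)
    push_cast at h2
    have h3 : (-(T : ℝ) + -(n : ℝ)) = -(T + n : ℝ) := by ring
    rw [h3, ← h2]
    push_cast
    rw [← add_assoc]
    exact (intervalIntegral.integral_add_adjacent_intervals (hc.intervalIntegrable _ _)
      (hc.intervalIntegrable _ _)).symm

omit [NormedAddCommGroup H] [InnerProductSpace ℝ H] hU in
theorem integral_per {c : ℝ → ℝ} (hc : Continuous c) (hper : ∀ t, c (t + 1) = c t) (T n : ℕ) :
    ∫ s in (T : ℝ)..(T + n : ℝ), c s = n * ∫ s in (0 : ℝ)..1, c s := by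
  have hP : Function.Periodic c 1 := hper
  have h1 := hP.intervalIntegral_add_zsmul_eq (n : ℤ) (T : ℝ)
    (fun a b => hc.intervalIntegrable a b)
  have h2 : (T : ℝ) + (n : ℤ) • (1 : ℝ) = T + n := by simp
  rw [h2] at h1
  rw [h1]
  rw [hP.intervalIntegral_add_eq (T : ℝ) 0]
  simp

end

section
variable {U : ℝ → H →L[ℝ] H} {N : H → H} (hU : IsEvo U) (hN : IsFirm N)
include hU hN

/-- The squared distance to `ω` converges, hence the dissipation over long windows is small. -/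
theorem IsTraj.small_diss [CompleteSpace H] {ω : H} {W : ℝ → H} (hW : IsTraj U N ω W) (n : ℕ)
    {Δ : ℝ} (hΔ : 0 < Δ) :
    ∃ T₀ : ℕ, ∀ T : ℕ, T₀ ≤ T → ∫ r in (T : ℝ)..(T + n : ℝ), ‖qd U N ω W r‖ ≤ Δ := by
  -- limit of the distance
  have hmono : Antitone fun k : ℕ => ‖W k - ω‖ ^ 2 := by
    intro a b hab
    have h1 := hW.bound hU hN (s := a) (t := b) (by positivity) (by exact_mod_cast hab)
    exact (sq_le_sq₀ (norm_nonneg _) (norm_nonneg _)).2 h1
  have hbdd : BddBelow (Set.range fun k : ℕ => ‖W k - ω‖ ^ 2) :=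
    ⟨0, by rintro _ ⟨k, rfl⟩; positivity⟩
  have hlim := tendsto_atTop_ciInf hmono hbdd
  set ℓ := ⨅ k : ℕ, ‖W k - ω‖ ^ 2 with hℓ
  set lam : ℝ := (n + 1) / Δ with hlam
  have hlampos : 0 < lam := by positivity
  have hev : ∀ᶠ k : ℕ in atTop, ‖W k - ω‖ ^ 2 < ℓ + Δ / lam := by
    refine hlim.eventually_lt_const ?_
    have : 0 < Δ / lam := by positivity
    linarith
  obtain ⟨T₀, hT₀⟩ := eventually_atTop.1 hev
  refine ⟨T₀, fun T hT => ?_⟩
  have hqc : Continuous fun r => ‖qd U N ω W r‖ := (qd_continuous hU hN hW.cont).norm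
  have hE := hW.energy hU hN (s := (T : ℝ)) (t := (T + n : ℝ)) (by positivity) (by simp)
  have h1 : ‖W (T + n : ℝ) - ω‖ ^ 2 ≥ ℓ := by
    have := ciInf_le hbdd (T + n)
    push_cast at this
    exact this
  have h2 := hT₀ T hT
  have hle : (T : ℝ) ≤ T + n := by simp
  have h3 : ∫ r in (T : ℝ)..(T + n : ℝ), ‖qd U N ω W r‖ ≤
      ∫ r in (T : ℝ)..(T + n : ℝ), (lam * ‖qd U N ω W r‖ ^ 2 + 1 / lam) / 2 := by
    refine intervalIntegral.integral_mono_on hle (hqc.intervalIntegrable _ _)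
      ((((continuous_const.mul (hqc.pow 2)).add continuous_const).div_const 2).intervalIntegrable
        _ _) fun r _ => ?_
    rw [le_div_iff₀ (by norm_num : (0 : ℝ) < 2)]
    have h4 : 0 ≤ (lam * ‖qd U N ω W r‖ - 1) ^ 2 / lam := by positivity
    have h5 : (lam * ‖qd U N ω W r‖ - 1) ^ 2 / lam =
        lam * ‖qd U N ω W r‖ ^ 2 - 2 * ‖qd U N ω W r‖ + 1 / lam := by
      field_simp
      ring
    linarith
  have h6 : ∫ r in (T : ℝ)..(T + n : ℝ), (lam * ‖qd U N ω W r‖ ^ 2 + 1 / lam) / 2 =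
      lam / 2 * (∫ r in (T : ℝ)..(T + n : ℝ), ‖qd U N ω W r‖ ^ 2) + n * (1 / lam) / 2 := by
    have i1 : IntervalIntegrable (fun r => lam * ‖qd U N ω W r‖ ^ 2) volume (T : ℝ) (T + n) :=
      (continuous_const.mul (hqc.pow 2)).intervalIntegrable _ _
    have i2 : IntervalIntegrable (fun _ : ℝ => 1 / lam) volume (T : ℝ) (T + n) :=
      continuous_const.intervalIntegrable _ _
    rw [intervalIntegral.integral_div, intervalIntegral.integral_add i1 i2,
      intervalIntegral.integral_const_mul]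
    simp only [intervalIntegral.integral_const, smul_eq_mul]
    ring
  rw [h6] at h3
  have h7 : lam * (∫ r in (T : ℝ)..(T + n : ℝ), ‖qd U N ω W r‖ ^ 2) ≤ Δ / 2 := by
    have h8 : (∫ r in (T : ℝ)..(T + n : ℝ), ‖qd U N ω W r‖ ^ 2) ≤ Δ / lam / 2 := by linarith
    have h9 := mul_le_mul_of_nonneg_left h8 hlampos.le
    have h10 : lam * (Δ / lam / 2) = Δ / 2 := by field_simp
    linarith
  have h11 : (n : ℝ) * (1 / lam) ≤ Δ := by
    rw [hlam]
    field_simp
    linarith
  linarith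

/-- The asymptotic lemma. -/
theorem IsTraj.asym [CompleteSpace H] {ω : H} {W : ℝ → H} (hW : IsTraj U N ω W) {M K : ℝ}
    (hM : ‖W 0 - ω‖ ≤ M) (hK : 0 ≤ K) {χ : ℝ → H} (hχ : Continuous χ)
    (hper : ∀ t, χ (t + 1) = χ t) {c : ℝ → ℝ} (hc : Continuous c) (hcper : ∀ t, c (t + 1) = c t)
    (hineq : ∀ t w, ‖w‖ ≤ M → -(c t) - K * ‖N (U t (ω + w)) - N (U t ω)‖ ≤ inner ℝ (χ t) (U t w))
    {p : H} (hpfix : ∀ m : ℕ, U (-m) p = p)
    (hp : Tendsto (fun n : ℕ => (n : ℝ)⁻¹ • ∑ k ∈ Finset.range n,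
      (U (-1))^[k] (∫ s in (0 : ℝ)..1, U (-s) (χ s))) atTop (𝓝 p))
    {τ : ℝ} (hτ : 0 < τ) :
    ∃ T₀ : ℕ, ∀ T : ℕ, T₀ ≤ T → -(∫ s in (0 : ℝ)..1, c s) - τ ≤ inner ℝ (W T - ω) p := by
  have hM0 : 0 ≤ M := (norm_nonneg _).trans hM
  -- bound for `χ`
  obtain ⟨Kχ, hKχ⟩ : ∃ Kχ, ∀ t, ‖χ t‖ ≤ Kχ := by
    obtain ⟨B, hB⟩ := isCompact_Icc.exists_bound_of_continuousOn (s := Icc (0 : ℝ) 1)
      hχ.continuousOn
    refine ⟨B, fun t => ?_⟩
    have hP : Function.Periodic χ 1 := hper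
    obtain ⟨y, hy, hty⟩ := hP.exists_mem_Ico₀ one_pos t
    rw [hty]
    exact hB y ⟨hy.1, hy.2.le⟩
  have hKχ0 : 0 ≤ Kχ := (norm_nonneg _).trans (hKχ 0)
  -- choose the number of periods
  obtain ⟨n, hn1, hn⟩ : ∃ n : ℕ, 1 ≤ n ∧ M * ‖(n : ℝ)⁻¹ • ∑ k ∈ Finset.range n,
      (U (-1))^[k] (∫ s in (0 : ℝ)..1, U (-s) (χ s)) - p‖ ≤ τ / 2 := by
    have h1 : Tendsto (fun n : ℕ => M * ‖(n : ℝ)⁻¹ • ∑ k ∈ Finset.range n,
      (U (-1))^[k] (∫ s in (0 : ℝ)..1, U (-s) (χ s)) - p‖) atTop (𝓝 0) := by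
      have := (tendsto_iff_norm_sub_tendsto_zero.1 hp).const_mul M
      simpa using this
    have h2 := (h1.eventually_lt_const (show (0 : ℝ) < τ / 2 by positivity)).and
      (eventually_ge_atTop 1)
    obtain ⟨n, h3, h4⟩ := h2.exists
    exact ⟨n, h4, h3.le⟩
  set A := (n : ℝ)⁻¹ • ∑ k ∈ Finset.range n,
      (U (-1))^[k] (∫ s in (0 : ℝ)..1, U (-s) (χ s)) with hA
  have hnpos : (0 : ℝ) < n := by exact_mod_cast hn1
  set Δ : ℝ := τ / (2 * (K + n * Kχ + 1)) with hΔ
  have hΔpos : 0 < Δ := by positivity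
  obtain ⟨T₀, hT₀⟩ := hW.small_diss hU hN n hΔpos
  refine ⟨T₀, fun T hT => ?_⟩
  have hq := hT₀ T hT
  have hqc : Continuous fun r => ‖qd U N ω W r‖ := (qd_continuous hU hN hW.cont).norm
  have hle : (T : ℝ) ≤ T + n := by simp
  -- deviation of W
  have hdev : ∀ t ∈ Icc (T : ℝ) (T + n), ‖W t - W T‖ ≤ Δ := by
    intro t ht
    refine (hW.norm_sub_le hU hN (by positivity) ht.1).trans (le_trans ?_ hq)
    refine intervalIntegral.integral_mono_interval le_rfl ht.1 ht.2
      (Eventually.of_forall fun r => norm_nonneg _) (hqc.intervalIntegrable _ _)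
  -- integrated inequality
  have hVc := pull_continuous hU hχ
  have hpt : ∀ t ∈ Icc (T : ℝ) (T + n), -(c t) - K * ‖qd U N ω W t‖ - Kχ * Δ ≤
      inner ℝ (W T - ω) (U (-t) (χ t)) := by
    intro t ht
    have h1 := hineq t (W t - ω) ((hW.bound hU hN (s := 0) (t := t) le_rfl
      ((by positivity : (0 : ℝ) ≤ T).trans ht.1)).trans hM)
    rw [add_sub_cancel] at h1
    have h2 : inner ℝ (χ t) (U t (W t - ω)) =
        inner ℝ (W T - ω) (U (-t) (χ t)) + inner ℝ (W t - W T) (U (-t) (χ t)) := by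
      rw [← inner_add_left, ← hU.inner_neg, real_inner_comm]
      congr 1
      abel
    have h3 : inner ℝ (W t - W T) (U (-t) (χ t)) ≤ Kχ * Δ := by
      refine (real_inner_le_norm _ _).trans ?_
      rw [hU.norm, mul_comm]
      exact mul_le_mul (hKχ t) (hdev t ht) (norm_nonneg _) hKχ0
    have h4 : ‖qd U N ω W t‖ = ‖N (U t (W t)) - N (U t ω)‖ := rfl
    rw [h4]
    linarith
  have hint : ∫ t in (T : ℝ)..(T + n : ℝ), (-(c t) - K * ‖qd U N ω W t‖ - Kχ * Δ) ≤
      ∫ t in (T : ℝ)..(T + n : ℝ), inner ℝ (W T - ω) (U (-t) (χ t)) := by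
    refine intervalIntegral.integral_mono_on hle ?_ ?_ hpt
    · exact ((hc.neg.sub (continuous_const.mul hqc)).sub continuous_const).intervalIntegrable _ _
    · exact (continuous_const.inner hVc).intervalIntegrable _ _
  have hL : ∫ t in (T : ℝ)..(T + n : ℝ), (-(c t) - K * ‖qd U N ω W t‖ - Kχ * Δ) =
      -(n * ∫ s in (0 : ℝ)..1, c s) - K * (∫ t in (T : ℝ)..(T + n : ℝ), ‖qd U N ω W t‖) -
        n * (Kχ * Δ) := by
    rw [intervalIntegral.integral_sub (by
        exact (hc.neg.sub (continuous_const.mul hqc)).intervalIntegrable _ _)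
      (by exact continuous_const.intervalIntegrable _ _),
      intervalIntegral.integral_sub (by exact hc.neg.intervalIntegrable _ _)
      (by exact (continuous_const.mul hqc).intervalIntegrable _ _),
      intervalIntegral.integral_neg, intervalIntegral.integral_const_mul,
      integral_per hc hcper]
    simp only [intervalIntegral.integral_const, smul_eq_mul]
    ring
  have hR : ∫ t in (T : ℝ)..(T + n : ℝ), inner ℝ (W T - ω) (U (-t) (χ t)) =
      n * inner ℝ (W T - ω) (U (-T) A) := by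
    have h1 : ∫ t in (T : ℝ)..(T + n : ℝ), inner ℝ (W T - ω) (U (-t) (χ t)) =
        inner ℝ (W T - ω) (∫ t in (T : ℝ)..(T + n : ℝ), U (-t) (χ t)) := by
      have := ContinuousLinearMap.intervalIntegral_comp_comm (innerSL ℝ (W T - ω))
        (hVc.intervalIntegrable (T : ℝ) (T + n : ℝ)) (μ := volume)
      simpa only [innerSL_apply_apply] using this
    rw [h1, integral_pull hU hχ hper, hA, map_smul, inner_smul_right]
    field_simp
  rw [hL, hR] at hint
  have h5 : inner ℝ (W T - ω) (U (-T) A) ≤ inner ℝ (W T - ω) p + M * ‖A - p‖ := by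
    have h6 : U (-T) A = p + U (-T) (A - p) := by
      rw [map_sub, hpfix T]; abel
    rw [h6, inner_add_right]
    have h7 : inner ℝ (W T - ω) (U (-T) (A - p)) ≤ M * ‖A - p‖ := by
      refine (real_inner_le_norm _ _).trans ?_
      rw [hU.norm]
      exact mul_le_mul_of_nonneg_right ((hW.bound hU hN (s := 0) (t := T) le_rfl
        (by positivity)).trans hM) (norm_nonneg _)
    linarith
  have h8 : K * (∫ t in (T : ℝ)..(T + n : ℝ), ‖qd U N ω W t‖) + n * (Kχ * Δ) ≤ n * (τ / 2) := by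
    have h9 : K * (∫ t in (T : ℝ)..(T + n : ℝ), ‖qd U N ω W t‖) ≤ K * Δ :=
      mul_le_mul_of_nonneg_left hq hK
    have h10 : (K + n * Kχ) * Δ ≤ τ / 2 := by
      rw [hΔ]
      rw [← mul_div_assoc, div_le_iff₀ (by positivity)]
      nlinarith [mul_nonneg hnpos.le hKχ0]
    have h11 : (1 : ℝ) ≤ n := by exact_mod_cast hn1
    nlinarith
  have h12 : (n : ℝ) * (-(∫ s in (0 : ℝ)..1, c s) - τ) ≤ n * inner ℝ (W T - ω) p := by
    have h13 : (n : ℝ) * inner ℝ (W T - ω) (U (-T) A) ≤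
        n * (inner ℝ (W T - ω) p + M * ‖A - p‖) := mul_le_mul_of_nonneg_left h5 hnpos.le
    have h14 : (n : ℝ) * (M * ‖A - p‖) ≤ n * (τ / 2) := mul_le_mul_of_nonneg_left hn hnpos.le
    nlinarith
  exact le_of_mul_le_mul_left h12 hnpos

end

end Pool.Agent.Lib_helper45.W2
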