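import Mathlib

/-!
Hilbert basis tools and the Fourier basis of `L²` of the torus.
-/

open MeasureTheory Set Filter Topology
open scoped NNReal ENNReal ComplexConjugate

namespace Pool.Agent.Lib_helper45.W2

noncomputable section

section general

variable {ι : Type*} {E : Type*} [NormedAddCommGroup E] [InnerProductSpace ℂ E]

theorem hb_induct (b : HilbertBasis ι ℂ E) {p : E → Prop} (hc : IsClosed {x | p x})
    (h0 : p 0) (hadd : ∀ x y, p x → p y → p (x + y)) (hb : ∀ (c : ℂ) (i : ι), p (c • b i)) (x : E) :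
    p x := by
  have h1 := b.hasSum_repr x
  refine hc.mem_of_tendsto h1 (Eventually.of_forall fun s => ?_)
  change p (∑ i ∈ s, b.repr x i • b i)
  classical
  induction s using Finset.induction_on with
  | empty => simpa using h0
  | insert a s ha ih => rw [Finset.sum_insert ha]; exact hadd _ _ (hb _ _) ih

theorem hb_ext {F : Type*} [NormedAddCommGroup F] [NormedSpace ℂ F] (b : HilbertBasis ι ℂ E)
    {S T : E →L[ℂ] F} (h : ∀ i, S (b i) = T (b i)) : S = T := by
  ext x
  refine hb_induct b (p := fun x => S x = T x) (isClosed_eq S.continuous T.continuous) (by simp)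
    (fun x y hx hy => by rw [map_add, map_add, hx, hy])
    (fun c i => by rw [map_smul, map_smul, h i]) x

variable {F : Type*} [NormedAddCommGroup F] [InnerProductSpace ℂ F] [CompleteSpace F]

/-- The linear isometry which maps a Hilbert basis to an orthonormal family. -/
def isoOf (b : HilbertBasis ι ℂ E) {v : ι → F} (hv : Orthonormal ℂ v) : E →ₗᵢ[ℂ] F :=
  hv.orthogonalFamily.linearIsometry.comp b.repr.toLinearIsometry

theorem isoOf_basis (b : HilbertBasis ι ℂ E) {v : ι → F} (hv : Orthonormal ℂ v) (i : ι) :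
    isoOf b hv (b i) = v i := by
  classical
  change hv.orthogonalFamily.linearIsometry (b.repr (b i)) = v i
  rw [b.repr_self, OrthogonalFamily.linearIsometry_apply_single]
  simp

theorem orthonormal_smul_basis (b : HilbertBasis ι ℂ E) {a : ι → ℂ} (ha : ∀ i, ‖a i‖ = 1) :
    Orthonormal ℂ fun i => a i • b i := by
  refine ⟨fun i => by rw [norm_smul, ha, b.orthonormal.1 i, one_mul], fun i j hij => ?_⟩
  change inner ℂ (a i • b i) (a j • b j) = 0
  rw [inner_smul_left, inner_smul_right, b.orthonormal.2 hij]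
  simp

/-- A Fourier multiplier with unimodular symbol. -/
def mulOf [CompleteSpace E] (b : HilbertBasis ι ℂ E) {a : ι → ℂ} (ha : ∀ i, ‖a i‖ = 1) :
    E →ₗᵢ[ℂ] E := isoOf b (orthonormal_smul_basis b ha)

theorem mulOf_basis [CompleteSpace E] (b : HilbertBasis ι ℂ E) {a : ι → ℂ} (ha : ∀ i, ‖a i‖ = 1)
    (i : ι) : mulOf b ha (b i) = a i • b i := isoOf_basis b _ i

end general

/-- Normalized Haar measure on the torus. -/
abbrev mu (d : ℕ) : Measure (UnitAddTorus (Fin d)) :=
  Measure.pi fun _ => (AddCircle.haarAddCircle : Measure (AddCircle (1 : ℝ)))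

/-- `L²` of the torus. -/
abbrev K (d : ℕ) : Type := Lp ℂ 2 (mu d)

/-- The characters as elements of `L²`. -/
def ev {d : ℕ} (k : Fin d → ℤ) : K d :=
  ContinuousMap.toLp (E := ℂ) 2 (mu d) ℂ (UnitAddTorus.mFourier k)

/-- The Fourier basis. -/
def eb (d : ℕ) : HilbertBasis (Fin d → ℤ) ℂ (K d) := UnitAddTorus.mFourierBasis

theorem coe_eb (d : ℕ) : ⇑(eb d) = ev := UnitAddTorus.coe_mFourierBasis

theorem eb_apply {d : ℕ} (k : Fin d → ℤ) : eb d k = ev k := by rw [coe_eb]

theorem coeFn_ev {d : ℕ} (k : Fin d → ℤ) :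
    (ev k : UnitAddTorus (Fin d) → ℂ) =ᵐ[mu d] UnitAddTorus.mFourier k :=
  UnitAddTorus.coeFn_mFourierLp 2 k

theorem repr_eb {d : ℕ} (f : K d) (k : Fin d → ℤ) :
    (eb d).repr f k = ∫ x, UnitAddTorus.mFourier (-k) x * f x ∂(mu d) :=
  UnitAddTorus.mFourierBasis_repr f k

theorem repr_eb_inner {d : ℕ} (f : K d) (k : Fin d → ℤ) :
    (eb d).repr f k = inner ℂ (ev k) f := by
  rw [← eb_apply]; exact (eb d).repr_apply_apply f k

theorem ev_orthonormal (d : ℕ) : Orthonormal ℂ (ev : (Fin d → ℤ) → K d) := by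
  rw [← coe_eb]; exact (eb d).orthonormal

theorem norm_ev {d : ℕ} (k : Fin d → ℤ) : ‖(ev k : K d)‖ = 1 := (ev_orthonormal d).1 k

theorem inner_ev {d : ℕ} (k l : Fin d → ℤ) [Decidable (k = l)] :
    inner ℂ (ev k : K d) (ev l) = if k = l then 1 else 0 := by
  split_ifs with h
  · subst h
    rw [inner_self_eq_norm_sq_to_K, norm_ev]; simp
  · exact (ev_orthonormal d).2 h

/-- Induction over the Fourier basis. -/
theorem K_induct {d : ℕ} {p : K d → Prop} (hc : IsClosed {x | p x})
    (h0 : p 0) (hadd : ∀ x y, p x → p y → p (x + y)) (hb : ∀ (c : ℂ) k, p (c • ev k)) (x : K d) :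
    p x :=
  hb_induct (eb d) hc h0 hadd (fun c k => by rw [eb_apply]; exact hb c k) x

theorem K_ext {d : ℕ} {F : Type*} [NormedAddCommGroup F] [NormedSpace ℂ F] {S T : K d →L[ℂ] F}
    (h : ∀ k, S (ev k) = T (ev k)) : S = T :=
  hb_ext (eb d) fun k => by rw [eb_apply]; exact h k

theorem K_ext' {d : ℕ} {x y : K d} (h : ∀ k, inner ℂ (ev k) x = inner ℂ (ev k) y) : x = y := by
  apply (eb d).repr.injective
  ext k
  rw [repr_eb_inner, repr_eb_inner, h]

end

end Pool.Agent.Lib_helper45.W2
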