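import Pool.Agent.Lib_helper45.WaveNDefs

/-!
Smooth functions vanishing on the boundary belong to `H¹₀`.
-/

open MeasureTheory Set Filter Topology
open scoped NNReal ENNReal ContDiff

namespace Pool.Agent.Lib_helper45.W2

open Pool.Agent.WaveND

noncomputable section

/-! ### The cutoff function -/

/-- The bump function. -/
def bmp : ContDiffBump (0 : ℝ) := { rIn := 1, rOut := 2, rIn_pos := one_pos, rIn_lt_rOut := by norm_num }

/-- A smooth function which vanishes near zero and is the identity away from zero. -/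
def th (s : ℝ) : ℝ := s * (1 - bmp s)

theorem contDiff_th : ContDiff ℝ ∞ th :=
  contDiff_id.mul (contDiff_const.sub bmp.contDiff)

theorem th_zero {s : ℝ} (h : |s| ≤ 1) : th s = 0 := by
  unfold th
  have : bmp s = 1 := bmp.one_of_mem_closedBall (by
    rw [Metric.mem_closedBall, dist_zero_right, Real.norm_eq_abs]; exact h)
  rw [this]; ring

theorem th_id {s : ℝ} (h : 2 ≤ |s|) : th s = s := by
  unfold th
  have : bmp s = 0 := bmp.zero_of_le_dist (by
    rw [dist_zero_right, Real.norm_eq_abs]; exact h)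
  rw [this]; ring

theorem th_abs_le (s : ℝ) : |th s| ≤ |s| := by
  unfold th
  rw [abs_mul]
  have h1 : 0 ≤ bmp s := bmp.nonneg
  have h2 : bmp s ≤ 1 := bmp.le_one
  have h3 : |1 - bmp s| ≤ 1 := by rw [abs_le]; constructor <;> linarith
  exact mul_le_of_le_one_right (abs_nonneg _) h3

theorem deriv_th_one {s : ℝ} (h : 2 < |s|) : deriv th s = 1 := by
  have h1 : th =ᶠ[𝓝 s] id := by
    have hc : Continuous fun s : ℝ => |s| := continuous_abs
    filter_upwards [hc.continuousAt.eventually (lt_mem_nhds h)] with x hx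
    exact th_id hx.le
  rw [h1.deriv_eq]; simp

theorem exists_deriv_th_bound : ∃ C : ℝ, 0 ≤ C ∧ ∀ s, |deriv th s| ≤ C := by
  have hc : Continuous (deriv th) := contDiff_th.continuous_deriv (by simp)
  obtain ⟨C, hC⟩ := (isCompact_Icc (a := (-3 : ℝ)) (b := 3)).exists_bound_of_continuousOn
    hc.continuousOn
  refine ⟨max C 1, by positivity, fun s => ?_⟩
  by_cases h : |s| ≤ 3
  · have := hC s ⟨(abs_le.1 h).1, (abs_le.1 h).2⟩
    rw [Real.norm_eq_abs] at this
    exact this.trans (le_max_left _ _)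
  · push Not at h
    rw [deriv_th_one (by linarith)]
    simp

/-- Rescaled cutoff. -/
def thn (n : ℕ) (s : ℝ) : ℝ := th ((n + 1) * s) / (n + 1)

theorem contDiff_thn (n : ℕ) : ContDiff ℝ ∞ (thn n) :=
  (contDiff_th.comp (contDiff_const.mul contDiff_id)).div_const _

theorem thn_zero {n : ℕ} {s : ℝ} (h : |s| ≤ 1 / (n + 1)) : thn n s = 0 := by
  unfold thn
  have hn : (0 : ℝ) < n + 1 := by positivity
  rw [th_zero, zero_div]
  rw [abs_mul, abs_of_pos hn]
  rw [le_div_iff₀ hn] at h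
  linarith

theorem thn_abs_le (n : ℕ) (s : ℝ) : |thn n s| ≤ |s| := by
  unfold thn
  have hn : (0 : ℝ) < n + 1 := by positivity
  rw [abs_div, abs_of_pos hn, div_le_iff₀ hn]
  refine (th_abs_le _).trans (le_of_eq ?_)
  rw [abs_mul, abs_of_pos hn, mul_comm]

theorem hasDerivAt_thn (n : ℕ) (s : ℝ) : HasDerivAt (thn n) (deriv th ((n + 1) * s)) s := by
  have hn : (n : ℝ) + 1 ≠ 0 := by positivity
  have h1 : HasDerivAt th (deriv th ((n + 1) * s)) ((n + 1) * s) :=
    (contDiff_th.differentiable (by simp) _).hasDerivAt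
  have h2 : HasDerivAt (fun s : ℝ => ((n : ℝ) + 1) * s) ((n : ℝ) + 1) s := by
    have := (hasDerivAt_id s).const_mul ((n : ℝ) + 1)
    simpa using this
  have h3 := (h1.comp s h2).div_const ((n : ℝ) + 1)
  refine h3.congr_deriv ?_
  field_simp

theorem tendsto_thn {s : ℝ} : Tendsto (fun n => thn n s) atTop (𝓝 s) := by
  by_cases hs : s = 0
  · subst hs
    refine tendsto_const_nhds.congr fun n => ?_
    exact (thn_zero (by simp; positivity)).symm
  · refine tendsto_const_nhds.congr' ?_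
    obtain ⟨N, hN⟩ := exists_nat_ge (2 / |s|)
    filter_upwards [eventually_ge_atTop N] with n hn
    have h1 : (N : ℝ) ≤ n := by exact_mod_cast hn
    have h2 : 0 < |s| := abs_pos.2 hs
    rw [div_le_iff₀ h2] at hN
    unfold thn
    rw [th_id]
    · field_simp
    · rw [abs_mul, abs_of_pos (by positivity)]
      nlinarith

theorem tendsto_deriv_thn {s : ℝ} (hs : s ≠ 0) :
    Tendsto (fun n : ℕ => deriv th ((n + 1) * s)) atTop (𝓝 1) := by
  refine tendsto_const_nhds.congr' ?_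
  obtain ⟨N, hN⟩ := exists_nat_ge (2 / |s|)
  filter_upwards [eventually_ge_atTop N] with n hn
  have h1 : (N : ℝ) ≤ n := by exact_mod_cast hn
  have h2 : 0 < |s| := abs_pos.2 hs
  rw [div_le_iff₀ h2] at hN
  rw [deriv_th_one]
  rw [abs_mul, abs_of_pos (by positivity)]
  nlinarith

/-! ### Dominated convergence in `L²` -/

section
variable {α : Type*} [MeasurableSpace α] {μ : Measure α} [IsFiniteMeasure μ] {E : Type*}
  [NormedAddCommGroup E] [InnerProductSpace ℝ E]

theorem tendsto_L2_of_dominated {h : ℕ → Lp E 2 μ} {k : Lp E 2 μ} {M : ℝ}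
    (hb : ∀ n, ∀ᵐ x ∂μ, ‖h n x - k x‖ ≤ M)
    (hl : ∀ᵐ x ∂μ, Tendsto (fun n => h n x) atTop (𝓝 (k x))) :
    Tendsto h atTop (𝓝 k) := by
  rw [tendsto_iff_norm_sub_tendsto_zero]
  have h1 : Tendsto (fun n => ∫ x, ‖h n x - k x‖ ^ 2 ∂μ) atTop (𝓝 (∫ _x, (0 : ℝ) ∂μ)) := by
    refine tendsto_integral_of_dominated_convergence (fun _ => M ^ 2) ?_ ?_ ?_ ?_
    · intro n
      exact ((Lp.aestronglyMeasurable (h n)).sub (Lp.aestronglyMeasurable k)).norm.pow 2
    · exact integrable_const _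
    · intro n
      filter_upwards [hb n] with x hx
      rw [Real.norm_eq_abs, abs_pow, abs_norm]
      exact pow_le_pow_left₀ (norm_nonneg _) hx 2
    · filter_upwards [hl] with x hx
      have := ((hx.sub_const (k x)).norm).pow 2
      simpa using this
  rw [integral_zero] at h1
  have h2 : ∀ n, ‖h n - k‖ = Real.sqrt (∫ x, ‖h n x - k x‖ ^ 2 ∂μ) := by
    intro n
    have e : ‖h n - k‖ ^ 2 = ∫ x, ‖h n x - k x‖ ^ 2 ∂μ := by
      rw [← real_inner_self_eq_norm_sq, MeasureTheory.L2.inner_def]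
      refine integral_congr_ae ?_
      filter_upwards [Lp.coeFn_sub (h n) k] with x hx
      rw [hx, Pi.sub_apply, real_inner_self_eq_norm_sq]
    rw [← e, Real.sqrt_sq (norm_nonneg _)]
  have h3 := (Real.continuous_sqrt.tendsto 0).comp h1
  rw [Real.sqrt_zero] at h3
  exact h3.congr fun n => (h2 n).symm

end

/-! ### The cut functions -/

section
variable {N : ℕ} {Ω : Set (EN N)}

open Classical in
/-- The cut function. -/
def cutf (Ω : Set (EN N)) (φ : EN N → ℝ) (n : ℕ) (x : EN N) : ℝ := if x ∈ Ω then thn n (φ x) else 0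

theorem cutf_eq_zero {φ : EN N → ℝ} {n : ℕ} {x : EN N} (h : |φ x| ≤ 1 / (n + 1)) :
    cutf Ω φ n x = 0 := by
  unfold cutf
  split_ifs
  · exact thn_zero h
  · rfl

theorem cutf_eventually (hΩ : IsOpen Ω) {φ : EN N → ℝ} (n : ℕ) {x : EN N} (hx : x ∈ Ω) :
    cutf Ω φ n =ᶠ[𝓝 x] fun x => thn n (φ x) := by
  filter_upwards [hΩ.mem_nhds hx] with y hy
  unfold cutf
  rw [if_pos hy]

theorem cutf_contDiff (hΩ : IsOpen Ω) {φ : EN N → ℝ} (hφ : ContDiff ℝ ∞ φ)
    (h0 : ∀ x ∈ frontier Ω, φ x = 0) (n : ℕ) : ContDiff ℝ ∞ (cutf Ω φ n) := by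
  rw [contDiff_iff_contDiffAt]
  intro x
  by_cases hx : x ∈ Ω
  · exact (((contDiff_thn n).comp hφ).contDiffAt).congr_of_eventuallyEq (cutf_eventually hΩ n hx)
  · have hz : cutf Ω φ n =ᶠ[𝓝 x] fun _ => 0 := by
      by_cases hc : x ∈ closure Ω
      · have hf : x ∈ frontier Ω := by
          rw [hΩ.frontier_eq]; exact ⟨hc, hx⟩
        have h1 : ∀ᶠ y in 𝓝 x, |φ y| < 1 / (n + 1) := by
          have hcont : Continuous fun y => |φ y| := continuous_abs.comp hφ.continuous
          refine hcont.continuousAt.eventually (gt_mem_nhds ?_)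
          change |φ x| < _
          rw [h0 x hf, abs_zero]; positivity
        filter_upwards [h1] with y hy
        exact cutf_eq_zero hy.le
      · filter_upwards [isClosed_closure.isOpen_compl.mem_nhds hc] with y hy
        unfold cutf
        rw [if_neg fun h => hy (subset_closure h)]
    exact contDiffAt_const.congr_of_eventuallyEq hz

theorem cutf_tsupport (hΩ : IsOpen Ω) {φ : EN N → ℝ} (hφ : ContDiff ℝ ∞ φ)
    (h0 : ∀ x ∈ frontier Ω, φ x = 0) (n : ℕ) :
    tsupport (cutf Ω φ n) ⊆ Ω ∧ tsupport (cutf Ω φ n) ⊆ closure Ω := by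
  have h1 : tsupport (cutf Ω φ n) ⊆ closure Ω ∩ {x | 1 / (n + 1) ≤ |φ x|} := by
    refine closure_minimal ?_ (isClosed_closure.inter
      (isClosed_le continuous_const (continuous_abs.comp hφ.continuous)))
    intro x hx
    constructor
    · apply subset_closure
      by_contra h
      apply hx
      unfold cutf
      rw [if_neg h]
    · by_contra h
      have h' : ¬ (1 / ((n : ℝ) + 1) ≤ |φ x|) := h
      exact hx (cutf_eq_zero (not_le.1 h').le)
  refine ⟨fun x hx => ?_, fun x hx => (h1 hx).1⟩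
  by_contra h
  have h2 := h1 hx
  have hf : x ∈ frontier Ω := by
    rw [hΩ.frontier_eq]; exact ⟨h2.1, h⟩
  have h3 : 1 / ((n : ℝ) + 1) ≤ |φ x| := h2.2
  rw [h0 x hf, abs_zero] at h3
  have : (0 : ℝ) < 1 / (n + 1) := by positivity
  linarith

theorem cutf_isTest (hΩ : IsOpen Ω) (hb : Bornology.IsBounded Ω) {φ : EN N → ℝ}
    (hφ : ContDiff ℝ ∞ φ) (h0 : ∀ x ∈ frontier Ω, φ x = 0) (n : ℕ) : IsTest Ω (cutf Ω φ n) := by
  refine ⟨cutf_contDiff hΩ hφ h0 n, ?_, (cutf_tsupport hΩ hφ h0 n).1⟩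
  exact hb.isCompact_closure.of_isClosed_subset (isClosed_tsupport _) (cutf_tsupport hΩ hφ h0 n).2

theorem cutf_partialD (hΩ : IsOpen Ω) {φ : EN N → ℝ} (hφ : ContDiff ℝ ∞ φ) (n : ℕ) (j : Fin N)
    {x : EN N} (hx : x ∈ Ω) :
    partialD (cutf Ω φ n) j x = deriv th ((n + 1) * φ x) * partialD φ j x := by
  unfold partialD
  rw [(cutf_eventually hΩ n hx).fderiv_eq]
  have h1 : HasFDerivAt (fun x => thn n (φ x)) (deriv th ((n + 1) * φ x) • fderiv ℝ φ x) x :=
    (hasDerivAt_thn n (φ x)).comp_hasFDerivAt x (hφ.differentiable (by simp) x).hasFDerivAt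
  rw [h1.fderiv]
  rfl

theorem continuous_partialD {φ : EN N → ℝ} (hφ : ContDiff ℝ ∞ φ) (j : Fin N) :
    Continuous (partialD φ j) := by
  have h1 : Continuous (fderiv ℝ φ) := hφ.continuous_fderiv (by simp)
  exact h1.clm_apply continuous_const

theorem memLp_bounded {F : Type*} [NormedAddCommGroup F] (hΩ : IsOpen Ω)
    (hb : Bornology.IsBounded Ω) {φ : EN N → F} (hφ : Continuous φ) :
    MemLp φ 2 (volume.restrict Ω) ∧ ∃ M, 0 ≤ M ∧ ∀ x ∈ Ω, ‖φ x‖ ≤ M := by
  have hfin : IsFiniteMeasure (volume.restrict Ω) :=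
    ⟨by rw [Measure.restrict_apply_univ]; exact hb.measure_lt_top⟩
  obtain ⟨M, hM⟩ := hb.isCompact_closure.exists_bound_of_continuousOn hφ.continuousOn
  have hM' : ∀ x ∈ Ω, ‖φ x‖ ≤ M := fun x hx => hM x (subset_closure hx)
  refine ⟨?_, |M|, abs_nonneg _, fun x hx => (hM' x hx).trans (le_abs_self _)⟩
  refine MemLp.of_bound ?_ M ?_
  · exact hφ.aestronglyMeasurable
  · filter_upwards [ae_restrict_mem hΩ.measurableSet] with x hx
    exact hM' x hx

/-- Smooth functions which vanish on the boundary are in `H¹₀`. -/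
theorem mem_H10_of_smooth (hΩ : IsOpen Ω) (hb : Bornology.IsBounded Ω) {φ : EN N → ℝ}
    (hφ : ContDiff ℝ ∞ φ) (h0 : ∀ x ∈ frontier Ω, φ x = 0)
    (hae : ∀ᵐ x ∂(volume.restrict Ω), φ x ≠ 0) {z : L2 Ω × (Fin N → L2 Ω)}
    (h1 : z.1 =ᵐ[volume.restrict Ω] φ)
    (h2 : ∀ j, z.2 j =ᵐ[volume.restrict Ω] partialD φ j) :
    z ∈ H10 Ω := by
  have hfin : IsFiniteMeasure (volume.restrict Ω) :=
    ⟨by rw [Measure.restrict_apply_univ]; exact hb.measure_lt_top⟩
  have hT := cutf_isTest hΩ hb hφ h0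
  have hA : ∀ n, MemLp (cutf Ω φ n) 2 (volume.restrict Ω) := fun n =>
    (memLp_bounded hΩ hb (hT n).1.continuous).1
  have hB : ∀ n j, MemLp (partialD (cutf Ω φ n) j) 2 (volume.restrict Ω) := fun n j =>
    (memLp_bounded hΩ hb (continuous_partialD (hT n).1 j)).1
  obtain ⟨M, hM0, hM⟩ := (memLp_bounded hΩ hb hφ.continuous).2
  obtain ⟨C, hC0, hC⟩ := exists_deriv_th_bound
  have hmem := ae_restrict_mem (μ := (volume : Measure (EN N))) hΩ.measurableSet
  have hlimA : Tendsto (fun n => (hA n).toLp _) atTop (𝓝 z.1) := by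
    refine tendsto_L2_of_dominated (M := 2 * M) (fun n => ?_) ?_
    · filter_upwards [MemLp.coeFn_toLp (hA n), h1, hmem] with x g1 g2 g3
      rw [g1, g2]
      refine (norm_sub_le _ _).trans ?_
      have g4 := hM x g3
      have g5 : ‖cutf Ω φ n x‖ ≤ ‖φ x‖ := by
        unfold cutf
        rw [if_pos g3]
        exact thn_abs_le _ _
      linarith
    · have hall : ∀ᵐ x ∂(volume.restrict Ω), ∀ n, (hA n).toLp _ x = cutf Ω φ n x :=
        ae_all_iff.2 fun n => MemLp.coeFn_toLp (hA n)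
      filter_upwards [hall, h1, hmem] with x g1 g2 g3
      rw [g2]
      refine (tendsto_thn (s := φ x)).congr fun n => ?_
      rw [g1 n, cutf, if_pos g3]
  have hlimB : ∀ j, Tendsto (fun n => (hB n j).toLp _) atTop (𝓝 (z.2 j)) := by
    intro j
    obtain ⟨M', hM0', hM'⟩ := (memLp_bounded hΩ hb (continuous_partialD hφ j)).2
    refine tendsto_L2_of_dominated (M := (C + 1) * M') (fun n => ?_) ?_
    · filter_upwards [MemLp.coeFn_toLp (hB n j), h2 j, hmem] with x g1 g2 g3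
      rw [g1, g2, cutf_partialD hΩ hφ n j g3]
      refine (norm_sub_le _ _).trans ?_
      rw [norm_mul, Real.norm_eq_abs]
      have g4 := hM' x g3
      have g5 := hC ((n + 1) * φ x)
      have g6 := mul_le_mul g5 g4 (norm_nonneg _) hC0
      linarith
    · have hall : ∀ᵐ x ∂(volume.restrict Ω), ∀ n, (hB n j).toLp _ x =
          partialD (cutf Ω φ n) j x := ae_all_iff.2 fun n => MemLp.coeFn_toLp (hB n j)
      filter_upwards [hall, h2 j, hmem, hae] with x g1 g2 g3 g4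
      rw [g2]
      have g5 := (tendsto_deriv_thn g4).mul_const (partialD φ j x)
      rw [one_mul] at g5
      refine g5.congr fun n => ?_
      rw [g1 n, cutf_partialD hΩ hφ n j g3]
  have hlim : Tendsto (fun n => ((hA n).toLp _, fun j => (hB n j).toLp _)) atTop (𝓝 z) :=
    hlimA.prodMk_nhds (tendsto_pi_nhds.2 hlimB)
  refine mem_closure_of_tendsto hlim (Eventually.of_forall fun n => ?_)
  exact ⟨cutf Ω φ n, hT n, MemLp.coeFn_toLp (hA n), fun j => MemLp.coeFn_toLp (hB n j)⟩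

/-! ### `H¹₀` is a subspace -/

theorem zero_mem_H10 : (0 : L2 Ω × (Fin N → L2 Ω)) ∈ H10 Ω := by
  refine subset_closure ⟨fun _ => 0, ⟨contDiff_const, HasCompactSupport.zero, ?_⟩, ?_, fun j => ?_⟩
  · change tsupport (0 : EN N → ℝ) ⊆ Ω
    rw [tsupport_zero]; exact empty_subset _
  · exact Lp.coeFn_zero ℝ 2 (volume.restrict Ω)
  · have h1 : (partialD (fun _ : EN N => (0 : ℝ)) j) = 0 := by
      funext x; simp [partialD]
    rw [h1]
    exact Lp.coeFn_zero ℝ 2 (volume.restrict Ω)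

theorem partialD_add {φ ψ : EN N → ℝ} (hφ : ContDiff ℝ ∞ φ) (hψ : ContDiff ℝ ∞ ψ) (j : Fin N) :
    partialD (φ + ψ) j = partialD φ j + partialD ψ j := by
  funext x
  unfold partialD
  rw [fderiv_add (hφ.differentiable (by simp) x) (hψ.differentiable (by simp) x)]
  rfl

theorem partialD_smul {φ : EN N → ℝ} (c : ℝ) (hφ : ContDiff ℝ ∞ φ) (j : Fin N) :
    partialD (c • φ) j = c • partialD φ j := by
  funext x
  unfold partialD
  rw [fderiv_const_smul (hφ.differentiable (by simp) x)]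
  rfl

theorem add_mem_H10 {z w : L2 Ω × (Fin N → L2 Ω)} (hz : z ∈ H10 Ω) (hw : w ∈ H10 Ω) :
    z + w ∈ H10 Ω := by
  refine map_mem_closure₂ continuous_add hz hw ?_
  rintro a ⟨φ, hφ, h1, h2⟩ b ⟨ψ, hψ, h3, h4⟩
  refine ⟨φ + ψ, ⟨hφ.1.add hψ.1, hφ.2.1.add hψ.2.1, ?_⟩, ?_, fun j => ?_⟩
  · refine (tsupport_add φ ψ).trans (union_subset hφ.2.2 hψ.2.2)
  · filter_upwards [h1, h3, Lp.coeFn_add a.1 b.1] with x g1 g2 g3
    rw [Prod.fst_add, g3, Pi.add_apply, g1, g2]; rfl
  · rw [partialD_add hφ.1 hψ.1]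
    filter_upwards [h2 j, h4 j, Lp.coeFn_add (a.2 j) (b.2 j)] with x g1 g2 g3
    rw [Prod.snd_add, Pi.add_apply, g3, Pi.add_apply, g1, g2]; rfl

theorem smul_mem_H10 {z : L2 Ω × (Fin N → L2 Ω)} (c : ℝ) (hz : z ∈ H10 Ω) : c • z ∈ H10 Ω := by
  refine map_mem_closure (continuous_const_smul c) hz ?_
  rintro a ⟨φ, hφ, h1, h2⟩
  refine ⟨c • φ, ⟨hφ.1.const_smul c, hφ.2.1.smul_left (f := fun _ => c), ?_⟩, ?_, fun j => ?_⟩
  · exact (tsupport_smul_subset_right (fun _ => c) φ).trans hφ.2.2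
  · filter_upwards [h1, Lp.coeFn_smul c a.1] with x g1 g3
    rw [Prod.smul_fst, g3, Pi.smul_apply, g1]; rfl
  · rw [partialD_smul c hφ.1]
    filter_upwards [h2 j, Lp.coeFn_smul c (a.2 j)] with x g1 g3
    rw [Prod.smul_snd, Pi.smul_apply, g3, Pi.smul_apply, g1]; rfl

end

end

end Pool.Agent.Lib_helper45.W2
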