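import Pool.Agent.Lib_helper45.W2.GFun

/-!
Digit combinatorics: admissible coefficient vectors do not change the value of the nonlinearity.
-/

open Set

namespace Pool.Agent.Lib_helper45.W2

noncomputable section

/-- A group of pulses: block index, kind, pattern on older groups, target, cap, radius, dilation. -/
structure Gp where
  /-- block index -/
  j : ℕ
  /-- auxiliary or main -/
  aux : Bool
  /-- pattern on the older groups -/
  p : ℕ → ℤ
  /-- block index of the target -/
  tg : ℕ
  /-- cap for the coefficients -/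
  κ : ℝ
  /-- radius of the pulses -/
  ε : ℝ
  /-- dilation -/
  i : ℕ × ℕ

/-- Amplitude. -/
def Gp.μ (g : Gp) : ℝ := if g.aux = true then Cb g.j else 2 * Cb g.j

theorem Gp.le_μ (g : Gp) : Cb g.j ≤ g.μ := by
  unfold Gp.μ; have := Cb_pos g.j; split_ifs <;> linarith

theorem Gp.μ_le (g : Gp) : g.μ ≤ 2 * Cb g.j := by
  unfold Gp.μ; have := Cb_pos g.j; split_ifs <;> linarith

theorem Gp.μ_pos (g : Gp) : 0 < g.μ := (Cb_pos g.j).trans_le g.le_μ

/-- Sums over a list of groups. -/
def sm (L : List Gp) (f : Gp → ℝ) : ℝ := (L.map f).sum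

theorem sm_nil (f : Gp → ℝ) : sm [] f = 0 := rfl

theorem sm_cons (t : Gp) (L : List Gp) (f : Gp → ℝ) : sm (t :: L) f = f t + sm L f := by
  simp [sm]

theorem sm_congr {L : List Gp} {f h : Gp → ℝ} (hfh : ∀ g ∈ L, f g = h g) : sm L f = sm L h := by
  induction L with
  | nil => rfl
  | cons t L ih =>
    rw [sm_cons, sm_cons, hfh t (by simp), ih fun g hg => hfh g (by simp [hg])]

theorem sm_add (L : List Gp) (f h : Gp → ℝ) : sm L (fun g => f g + h g) = sm L f + sm L h := by
  induction L with
  | nil => simp [sm]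
  | cons t L ih => rw [sm_cons, sm_cons, sm_cons, ih]; ring

theorem sm_neg (L : List Gp) (f : Gp → ℝ) : sm L (fun g => -f g) = -sm L f := by
  induction L with
  | nil => simp [sm]
  | cons t L ih => rw [sm_cons, sm_cons, ih]; ring

theorem sm_mul (L : List Gp) (a : ℝ) (f : Gp → ℝ) : sm L (fun g => a * f g) = a * sm L f := by
  induction L with
  | nil => simp [sm]
  | cons t L ih => rw [sm_cons, sm_cons, ih]; ring

theorem sm_mono {L : List Gp} {f h : Gp → ℝ} (hfh : ∀ g ∈ L, f g ≤ h g) : sm L f ≤ sm L h := by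
  induction L with
  | nil => exact le_rfl
  | cons t L ih =>
    rw [sm_cons, sm_cons]
    exact add_le_add (hfh t (by simp)) (ih fun g hg => hfh g (by simp [hg]))

theorem sm_nonneg {L : List Gp} {f : Gp → ℝ} (hf : ∀ g ∈ L, 0 ≤ f g) : 0 ≤ sm L f := by
  induction L with
  | nil => exact le_rfl
  | cons t L ih =>
    rw [sm_cons]
    exact add_nonneg (hf t (by simp)) (ih fun g hg => hf g (by simp [hg]))

theorem le_sm {L : List Gp} {f : Gp → ℝ} (hf : ∀ g ∈ L, 0 ≤ f g) {g : Gp} (hg : g ∈ L) :
    f g ≤ sm L f := by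
  induction L with
  | nil => simp at hg
  | cons t L ih =>
    rw [sm_cons]
    rcases List.mem_cons.1 hg with h | h
    · subst h
      have := sm_nonneg (L := L) (f := f) fun g hg => hf g (by simp [hg])
      linarith
    · have h1 := ih (fun g hg => hf g (by simp [hg])) h
      have h2 := hf t (by simp)
      linarith

theorem abs_sm_le {L : List Gp} {f k : Gp → ℝ} (h : ∀ g ∈ L, |f g| ≤ k g) : |sm L f| ≤ sm L k := by
  rw [abs_le]
  constructor
  · rw [← sm_neg]
    exact sm_mono fun g hg => (abs_le.1 (h g hg)).1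
  · exact sm_mono fun g hg => (abs_le.1 (h g hg)).2

/-- Condition for adding the group `t` to the list `L`. -/
structure Cond (t : Gp) (L : List Gp) : Prop where
  big : 10 ^ 4 * (1 + sm L fun g => g.κ + g.μ) ≤ Cb t.j
  kap : 0 ≤ t.κ
  main : t.aux = false → t.κ ≤ Cb (t.j + 1) / 10 ^ 3
  auxk : t.aux = true → 10 ^ 4 * t.κ ≤ Cb t.j
  auxp : t.aux = true → ∀ g ∈ L, t.p g.j = 0 ∨ t.p g.j = -1
  auxu : t.aux = true → (uj t.j : ℝ) = -sm L fun g => g.μ * t.p g.j
  auxt : t.aux = true → ∃ J ∈ L, J.j = t.tg ∧ J.aux = false ∧ (vj t.j : ℝ) = Cb J.j ∧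
    ∀ g ∈ L, J.j < g.j → g.aux = true

/-- Well formed lists. -/
def WF : List Gp → Prop
  | [] => True
  | t :: L => WF L ∧ Cond t L

/-- Admissible coefficients. -/
def Adm (c : ℕ → ℝ) : List Gp → Prop
  | [] => True
  | t :: L => Adm c L ∧ 0 ≤ c t.j ∧ c t.j ≤ t.κ ∧
      (t.aux = true → c t.j + (sm L fun g => c g.j * t.p g.j) = 0 ∧ c t.j ≤ c t.tg)

theorem WF.kap {L : List Gp} (h : WF L) : ∀ g ∈ L, 0 ≤ g.κ := by
  induction L with
  | nil => simp
  | cons t L ih =>
    intro g hg
    rcases List.mem_cons.1 hg with h1 | h1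
    · subst h1; exact h.2.kap
    · exact ih h.1 g h1

theorem WF.big {L : List Gp} (h : WF L) : ∀ g ∈ L, 10 ^ 4 ≤ Cb g.j := by
  induction L with
  | nil => simp
  | cons t L ih =>
    intro g hg
    rcases List.mem_cons.1 hg with h1 | h1
    · subst h1
      have h2 := h.2.big
      have h3 : 0 ≤ sm L fun g => g.κ + g.μ :=
        sm_nonneg fun g hg => add_nonneg (h.1.kap g hg) g.μ_pos.le
      linarith
    · exact ih h.1 g h1

theorem Cond.mem_le {t : Gp} {L : List Gp} (hL : WF L) (h : Cond t L) {g : Gp} (hg : g ∈ L) :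
    10 ^ 4 * (g.κ + g.μ) ≤ Cb t.j := by
  have h1 := le_sm (f := fun g => g.κ + g.μ) (fun g hg => add_nonneg (hL.kap g hg) g.μ_pos.le) hg
  have h2 := h.big
  linarith

theorem Cond.lt {t : Gp} {L : List Gp} (hL : WF L) (h : Cond t L) {g : Gp} (hg : g ∈ L) :
    g.j < t.j := by
  have h1 := h.mem_le hL hg
  have h2 := g.le_μ
  have h3 := hL.kap g hg
  have h4 := Cb_pos g.j
  by_contra hcon
  push Not at hcon
  have h5 := Cb_mono hcon
  linarith

theorem Adm.bounds {c : ℕ → ℝ} {L : List Gp} (h : Adm c L) :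
    ∀ g ∈ L, 0 ≤ c g.j ∧ c g.j ≤ g.κ := by
  induction L with
  | nil => simp
  | cons t L ih =>
    intro g hg
    rcases List.mem_cons.1 hg with h1 | h1
    · subst h1; exact ⟨h.2.1, h.2.2.1⟩
    · exact ih h.1 g h1

theorem small_mu {t : Gp} {L : List Gp} (hL : WF L) (h : Cond t L) {e : Gp → ℤ} {B : ℝ}
    (hB : 0 ≤ B) (he : ∀ g, |(e g : ℝ)| ≤ B) :
    |sm L fun g => g.μ * e g| ≤ B * (Cb t.j / 10 ^ 4) := by
  have h1 : |sm L fun g => g.μ * e g| ≤ sm L fun g => B * (g.κ + g.μ) := by
    refine abs_sm_le fun g hg => ?_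
    rw [abs_mul, abs_of_pos g.μ_pos]
    have := he g
    have := hL.kap g hg
    have := g.μ_pos
    nlinarith
  rw [sm_mul] at h1
  refine h1.trans (mul_le_mul_of_nonneg_left ?_ hB)
  rw [le_div_iff₀ (by norm_num)]
  have := h.big
  linarith

theorem small_c {t : Gp} {L : List Gp} (hL : WF L) (h : Cond t L) {c : ℕ → ℝ}
    (hc : ∀ g ∈ L, 0 ≤ c g.j ∧ c g.j ≤ g.κ) {e : Gp → ℤ} {B : ℝ}
    (hB : 0 ≤ B) (he : ∀ g, |(e g : ℝ)| ≤ B) :
    |sm L fun g => c g.j * e g| ≤ B * (Cb t.j / 10 ^ 4) := by
  have h1 : |sm L fun g => c g.j * e g| ≤ sm L fun g => B * (g.κ + g.μ) := by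
    refine abs_sm_le fun g hg => ?_
    rw [abs_mul, abs_of_nonneg (hc g hg).1]
    have := he g
    have := (hc g hg).1
    have := (hc g hg).2
    have := g.μ_pos
    nlinarith
  rw [sm_mul] at h1
  refine h1.trans (mul_le_mul_of_nonneg_left ?_ hB)
  rw [le_div_iff₀ (by norm_num)]
  have := h.big
  linarith

/-- Comparison of the amplitude sum and the coefficient sum. -/
theorem compare {c : ℕ → ℝ} {e : Gp → ℤ} (he : ∀ g, |e g| ≤ 3) {L : List Gp} (hL : WF L)
    (hc : ∀ g ∈ L, 0 ≤ c g.j ∧ c g.j ≤ g.κ) :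
    ((sm L fun g => g.μ * e g) = 0 ∧ (sm L fun g => c g.j * e g) = 0) ∨
    (2 ≤ (sm L fun g => g.μ * e g) ∧
      -(sm L fun g => g.μ * e g) ≤ 2 * (sm L fun g => c g.j * e g)) ∨
    ((sm L fun g => g.μ * e g) ≤ -2 ∧
      2 * (sm L fun g => c g.j * e g) ≤ -(sm L fun g => g.μ * e g)) := by
  induction L with
  | nil => left; exact ⟨rfl, rfl⟩
  | cons s L ih =>
    have he' : ∀ g, |(e g : ℝ)| ≤ 3 := fun g => by exact_mod_cast he g
    rw [sm_cons, sm_cons]
    have hc' : ∀ g ∈ L, 0 ≤ c g.j ∧ c g.j ≤ g.κ := fun g hg => hc g (by simp [hg])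
    rcases lt_trichotomy (e s) 0 with h0 | h0 | h0
    · right; right
      have h1 := abs_le.1 (small_mu hL.1 hL.2 (by norm_num : (0 : ℝ) ≤ 3) he')
      have h2 := abs_le.1 (small_c hL.1 hL.2 hc' (by norm_num : (0 : ℝ) ≤ 3) he')
      have h3 : (e s : ℝ) ≤ -1 := by exact_mod_cast (by omega : e s ≤ -1)
      have h4 := hL.big s (by simp)
      have h5 := s.le_μ
      have h6 := (hc s (by simp)).1
      have h7 : s.μ * e s ≤ -s.μ := by nlinarith [s.μ_pos]
      have h8 : c s.j * e s ≤ 0 := by nlinarith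
      constructor <;> linarith
    · rw [h0]
      simp only [Int.cast_zero, mul_zero, zero_add]
      exact ih hL.1 hc'
    · right; left
      have h1 := abs_le.1 (small_mu hL.1 hL.2 (by norm_num : (0 : ℝ) ≤ 3) he')
      have h2 := abs_le.1 (small_c hL.1 hL.2 hc' (by norm_num : (0 : ℝ) ≤ 3) he')
      have h3 : (1 : ℝ) ≤ e s := by exact_mod_cast (by omega : 1 ≤ e s)
      have h4 := hL.big s (by simp)
      have h5 := s.le_μ
      have h6 := (hc s (by simp)).1
      have h7 : s.μ ≤ s.μ * e s := by nlinarith [s.μ_pos]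
      have h8 : 0 ≤ c s.j * e s := by positivity
      constructor <;> linarith

/-- Non crossing of the second ramp. -/
theorem noncross {c : ℕ → ℝ} {e : Gp → ℤ} (he : ∀ g, |e g| ≤ 2) {L : List Gp} (hL : WF L)
    (hc : ∀ g ∈ L, 0 ≤ c g.j ∧ c g.j ≤ g.κ) {J : Gp} (hJ : J ∈ L) (hJm : J.aux = false)
    (hup : ∀ g ∈ L, J.j < g.j → g.aux = true) {ct : ℝ} (hct : 0 ≤ ct) (hct' : ct ≤ c J.j) :
    (-(Cb J.j / 2) ≤ (sm L fun g => g.μ * e g) ∧
      -(Cb J.j / 2) ≤ (sm L fun g => g.μ * e g) + (ct + sm L fun g => c g.j * e g)) ∨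
    ((sm L fun g => g.μ * e g) ≤ -(3 / 2 * Cb J.j) ∧
      (sm L fun g => g.μ * e g) + (ct + sm L fun g => c g.j * e g) ≤ -(3 / 2 * Cb J.j)) := by
  induction L with
  | nil => simp at hJ
  | cons s L ih =>
    have he' : ∀ g, |(e g : ℝ)| ≤ 2 := fun g => by exact_mod_cast he g
    rw [sm_cons, sm_cons]
    have hc' : ∀ g ∈ L, 0 ≤ c g.j ∧ c g.j ≤ g.κ := fun g hg => hc g (by simp [hg])
    have h1 := abs_le.1 (small_mu hL.1 hL.2 (by norm_num : (0 : ℝ) ≤ 2) he')
    have h2 := abs_le.1 (small_c hL.1 hL.2 hc' (by norm_num : (0 : ℝ) ≤ 2) he')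
    have hes := abs_le.1 (he' s)
    have hcs := hc s (by simp)
    have hbig := hL.big s (by simp)
    rcases List.mem_cons.1 hJ with hJs | hJL
    · subst hJs
      have hμ : J.μ = 2 * Cb J.j := by unfold Gp.μ; simp [hJm]
      rcases lt_or_ge (e J) 0 with h0 | h0
      · right
        have h3 : (e J : ℝ) ≤ -1 := by exact_mod_cast (by omega : e J ≤ -1)
        have h7 : J.μ * e J ≤ -J.μ := by nlinarith [J.μ_pos]
        have h8 : c J.j * e J ≤ -c J.j := by nlinarith
        rw [hμ] at h7 ⊢
        constructor <;> linarith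
      · left
        have h3 : (0 : ℝ) ≤ e J := by exact_mod_cast h0
        have h7 : 0 ≤ J.μ * e J := mul_nonneg J.μ_pos.le h3
        have h8 : 0 ≤ c J.j * e J := mul_nonneg hcs.1 h3
        constructor <;> linarith
    · have hlt := hL.2.lt hL.1 hJL
      have hsaux := hup s (by simp) hlt
      have hμ : s.μ = Cb s.j := by unfold Gp.μ; simp [hsaux]
      have hκ := hL.2.auxk hsaux
      have hJle := hL.2.mem_le hL.1 hJL
      have hcJ := (hc' J hJL).2
      have hJμ := J.le_μ
      have hJκ := hL.1.kap J hJL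
      have hCJ := Cb_pos J.j
      rcases lt_trichotomy (e s) 0 with h0 | h0 | h0
      · right
        have h3 : (e s : ℝ) ≤ -1 := by exact_mod_cast (by omega : e s ≤ -1)
        have h7 : s.μ * e s ≤ -s.μ := by nlinarith [s.μ_pos]
        have h8 : c s.j * e s ≤ 0 := by nlinarith
        rw [hμ] at h7 ⊢
        constructor <;> linarith
      · rw [h0]
        simp only [Int.cast_zero, mul_zero, zero_add]
        exact ih hL.1 hc' hJL (fun g hg => hup g (by simp [hg]))
      · left
        have h3 : (1 : ℝ) ≤ e s := by exact_mod_cast (by omega : 1 ≤ e s)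
        have h7 : s.μ ≤ s.μ * e s := by nlinarith [s.μ_pos]
        have h8 : 0 ≤ c s.j * e s := mul_nonneg hcs.1 (by linarith)
        rw [hμ] at h7 ⊢
        constructor <;> linarith

/-- The top digit is positive. -/
theorem flat_pos {c : ℕ → ℝ} {e : Gp → ℤ} (he : ∀ g, |e g| ≤ 2) {t : Gp} {L : List Gp}
    (hL : WF (t :: L)) (hc : Adm c (t :: L)) (h0 : 0 < e t) :
    gf ((sm (t :: L) fun g => g.μ * e g) + sm (t :: L) fun g => c g.j * e g) =
      gf (sm (t :: L) fun g => g.μ * e g) := by
  have he' : ∀ g, |(e g : ℝ)| ≤ 2 := fun g => by exact_mod_cast he g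
  have hcL := hc.1.bounds
  have h1 := abs_le.1 (small_mu hL.1 hL.2 (by norm_num : (0 : ℝ) ≤ 2) he')
  have h2 := abs_le.1 (small_c hL.1 hL.2 hcL (by norm_num : (0 : ℝ) ≤ 2) he')
  have hbig := hL.big t (by simp)
  have hc0 := hc.2.1
  have hcκ := hc.2.2.1
  rw [sm_cons, sm_cons]
  set lam := sm L fun g => g.μ * e g with hlam
  set ν := sm L fun g => c g.j * e g with hν
  have hs := Cb_succ_big hbig
  have het : (e t : ℝ) ≤ 2 := (abs_le.1 (he' t)).2
  have het1 : (1 : ℝ) ≤ e t := by exact_mod_cast (by omega : 1 ≤ e t)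
  by_cases haux : t.aux = true
  · have hμ : t.μ = Cb t.j := by unfold Gp.μ; simp [haux]
    have hκ := hL.2.auxk haux
    rw [hμ]
    by_cases h2e : e t = 2
    · -- flat region near `2 C`
      rw [h2e]
      push_cast
      apply gf_flat
      intro s hs1 hs2
      have hlo : 1.9 * Cb t.j ≤ min (Cb t.j * 2 + lam + (c t.j * 2 + ν)) (Cb t.j * 2 + lam) :=
        le_min (by linarith) (by linarith)
      have hhi : max (Cb t.j * 2 + lam + (c t.j * 2 + ν)) (Cb t.j * 2 + lam) ≤ 2.1 * Cb t.j :=
        max_le (by linarith) (by linarith)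
      exact gap_notMem hbig (by linarith) (by linarith)
    · have h1e : e t = 1 := by
        have := abs_le.1 (he t); omega
      rw [h1e]
      push_cast
      rw [mul_one, mul_one]
      apply gf_flat
      intro s hs1 hs2 hsR
      have hlo : 0.99 * Cb t.j ≤ min (Cb t.j + lam + (c t.j + ν)) (Cb t.j + lam) :=
        le_min (by linarith) (by linarith)
      have hhi : max (Cb t.j + lam + (c t.j + ν)) (Cb t.j + lam) ≤ 1.01 * Cb t.j :=
        max_le (by linarith) (by linarith)
      have hmem := near_mem hbig (by linarith) (by linarith) hsR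
      rcases hmem with hr | hr
      · -- first ramp
        have hu := hL.2.auxu haux
        have hadm := (hc.2.2.2 haux).1
        have hp := hL.2.auxp haux
        -- change of digits
        classical
        let δ : Gp → ℤ := fun g => if g ∈ L then e g - t.p g.j else 0
        have hδ : ∀ g, |δ g| ≤ 3 := by
          intro g
          simp only [δ]
          split_ifs with hg
          · have h4 := abs_le.1 (he g)
            rcases hp g hg with h5 | h5 <;> rw [h5, abs_le] <;> constructor <;> omega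
          · simp
        have hcmp := compare hδ hL.1 hcL
        have e1 : (sm L fun g => g.μ * δ g) = lam + uj t.j := by
          have h6 : (sm L fun g => g.μ * δ g) = sm L fun g => g.μ * e g + -(g.μ * t.p g.j) := by
            refine sm_congr fun g hg => ?_
            simp only [δ, if_pos hg]
            push_cast
            ring
          rw [h6, sm_add, sm_neg, hu]
        have e2 : (sm L fun g => c g.j * δ g) = c t.j + ν := by
          have h6 : (sm L fun g => c g.j * δ g) =
              sm L fun g => c g.j * e g + -(c g.j * t.p g.j) := by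
            refine sm_congr fun g hg => ?_
            simp only [δ, if_pos hg]
            push_cast
            ring
          rw [h6, sm_add, sm_neg]
          linarith
        rw [e1, e2] at hcmp
        rcases hcmp with ⟨h5, h6⟩ | ⟨h5, h6⟩ | ⟨h5, h6⟩
        · rw [h6] at hs1 hs2
          simp only [add_zero, min_self, max_self] at hs1 hs2
          linarith
        · have h7 : Cb t.j - uj t.j ≤ min (Cb t.j + lam + (c t.j + ν)) (Cb t.j + lam) :=
            le_min (by linarith) (by linarith)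
          linarith [hr.2]
        · have h7 : max (Cb t.j + lam + (c t.j + ν)) (Cb t.j + lam) ≤ Cb t.j - uj t.j - 1 :=
            max_le (by linarith) (by linarith)
          linarith [hr.1]
      · -- second ramp
        obtain ⟨J, hJL, hJt, hJm, hv, hup⟩ := hL.2.auxt haux
        have hle := (hc.2.2.2 haux).2
        rw [← hJt] at hle
        have hJbig := hL.1.big J hJL
        have hnc := noncross he hL.1 hcL hJL hJm hup hc0 hle
        rw [← hlam, ← hν] at hnc
        rcases hnc with ⟨h5, h6⟩ | ⟨h5, h6⟩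
        · have h7 : Cb t.j - Cb J.j / 2 ≤
              min (Cb t.j + lam + (c t.j + ν)) (Cb t.j + lam) :=
            le_min (by linarith) (by linarith)
          have h8 := hr.2
          rw [hv] at h8
          linarith
        · have h7 : max (Cb t.j + lam + (c t.j + ν)) (Cb t.j + lam) ≤
              Cb t.j - 3 / 2 * Cb J.j :=
            max_le (by linarith) (by linarith)
          have h8 := hr.1
          rw [hv] at h8
          linarith
  · have haux' : t.aux = false := by simpa using haux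
    have hμ : t.μ = 2 * Cb t.j := by unfold Gp.μ; simp [haux]
    have hκ := hL.2.main haux'
    rw [hμ]
    apply gf_flat
    intro s hs1 hs2
    have hC := Cb_pos t.j
    have k1 : 2 * Cb t.j ≤ 2 * Cb t.j * e t := by nlinarith
    have k2 : 2 * Cb t.j * e t ≤ 4 * Cb t.j := by nlinarith
    have k3 : 0 ≤ c t.j * e t := mul_nonneg hc0 (by linarith)
    have k4 : c t.j * e t ≤ 2 * t.κ := by nlinarith
    have hlo : 1.9 * Cb t.j ≤ min (2 * Cb t.j * e t + lam + (c t.j * e t + ν))
        (2 * Cb t.j * e t + lam) := le_min (by linarith) (by linarith)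
    have hhi : max (2 * Cb t.j * e t + lam + (c t.j * e t + ν)) (2 * Cb t.j * e t + lam) ≤
        Cb (t.j + 1) / 4 := max_le (by linarith) (by linarith)
    exact gap_notMem hbig (by linarith) (by linarith)

/-- Admissible coefficients do not change the nonlinearity. -/
theorem flat_all {c : ℕ → ℝ} {e : Gp → ℤ} (he : ∀ g, |e g| ≤ 2) {L : List Gp}
    (hL : WF L) (hc : Adm c L) :
    gf ((sm L fun g => g.μ * e g) + sm L fun g => c g.j * e g) =
      gf (sm L fun g => g.μ * e g) := by
  induction L with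
  | nil => simp [sm]
  | cons t L ih =>
    rcases lt_trichotomy (e t) 0 with h0 | h0 | h0
    · have h1 := flat_pos (c := c) (e := fun g => -e g) (fun g => by rw [abs_neg]; exact he g)
        hL hc (by omega)
      have e1 : (sm (t :: L) fun g => g.μ * ((-e g : ℤ) : ℝ)) =
          -(sm (t :: L) fun g => g.μ * e g) := by
        rw [← sm_neg]; refine sm_congr fun g _ => ?_; push_cast; ring
      have e2 : (sm (t :: L) fun g => c g.j * ((-e g : ℤ) : ℝ)) =
          -(sm (t :: L) fun g => c g.j * e g) := by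
        rw [← sm_neg]; refine sm_congr fun g _ => ?_; push_cast; ring
      rw [e1, e2, ← neg_add, gf_neg, gf_neg] at h1
      linarith
    · rw [sm_cons, sm_cons, h0]
      simp only [Int.cast_zero, mul_zero, zero_add]
      exact ih hL.1 hc.1
    · exact flat_pos he hL hc h0

/-- The first ramp of an auxiliary group. -/
theorem ramp_one {t : Gp} {L : List Gp} (hL : WF (t :: L)) (haux : t.aux = true) {d : Gp → ℤ}
    (hdt : d t = 1) (hd : ∀ g ∈ L, d g = t.p g.j) :
    Icc ((sm (t :: L) fun g => g.μ * d g) - 1) (sm (t :: L) fun g => g.μ * d g) ⊆ Rset := by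
  have hμ : t.μ = Cb t.j := by unfold Gp.μ; simp [haux]
  have h1 : (sm L fun g => g.μ * d g) = -(uj t.j : ℝ) := by
    rw [hL.2.auxu haux, neg_neg]
    exact sm_congr fun g hg => by rw [hd g hg]
  rw [sm_cons, h1, hdt, hμ]
  intro s hs
  have hbig := hL.big t (by simp)
  have hu : (uj t.j : ℝ) ≤ t.j := by exact_mod_cast uj_le t.j
  have hn := nat_le_Cb (two_le_of_Cb hbig)
  have hspos : 0 < s := by
    have := hs.1
    push_cast at this
    linarith
  refine ⟨t.j, Or.inl ?_⟩
  rw [abs_of_pos hspos]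
  have h2 := hs.1
  have h3 := hs.2
  push_cast at h2 h3
  constructor <;> linarith

/-- The second ramp of an auxiliary group. -/
theorem ramp_two {t : Gp} {L : List Gp} (hL : WF (t :: L)) {J : Gp}
    (hvJ : (vj t.j : ℝ) = Cb J.j) {h : ℝ} (hh : h = Cb t.j - 2 * Cb J.j) :
    Icc (h + Cb J.j) (h + Cb J.j + 1) ⊆ Rset := by
  intro s hs
  have hbig := hL.big t (by simp)
  have hu : (vj t.j : ℝ) ≤ t.j := by exact_mod_cast vj_le t.j
  have hn := nat_le_Cb (two_le_of_Cb hbig)
  rw [hh] at hs
  have hspos : 0 < s := by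
    have := hs.1
    rw [← hvJ] at this
    linarith
  refine ⟨t.j, Or.inr ?_⟩
  rw [abs_of_pos hspos, hvJ]
  have h2 := hs.1
  have h3 := hs.2
  constructor <;> linarith

end

end Pool.Agent.Lib_helper45.W2
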