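import Pool.Agent.Lib_helper45.Ode

/-!
Abstract evolution in a Hilbert space: `W' = U(-t) (N (U(t) ω) - N (U(t) W))`, with `U` a unitary
group and `N` firmly nonexpansive.
-/

open MeasureTheory Set Filter Topology
open scoped NNReal ENNReal

namespace Pool.Agent.Lib_helper45.W2

variable {H : Type*} [NormedAddCommGroup H] [InnerProductSpace ℝ H]

/-- A strongly continuous one parameter group of isometries. -/
structure IsEvo (U : ℝ → H →L[ℝ] H) : Prop where
  zero : ∀ x, U 0 x = x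
  add : ∀ s t x, U (s + t) x = U s (U t x)
  norm : ∀ t x, ‖U t x‖ = ‖x‖
  cont : ∀ x, Continuous fun t => U t x

/-- Firmly nonexpansive maps. -/
def IsFirm (N : H → H) : Prop := ∀ x y, ‖N x - N y‖ ^ 2 ≤ inner ℝ (N x - N y) (x - y)

theorem IsFirm.lip {N : H → H} (hN : IsFirm N) (x y : H) : ‖N x - N y‖ ≤ ‖x - y‖ := by
  have h1 := hN x y
  have h2 := real_inner_le_norm (N x - N y) (x - y)
  by_cases h : ‖N x - N y‖ = 0
  · rw [h]; exact norm_nonneg _
  · have h3 : 0 < ‖N x - N y‖ := lt_of_le_of_ne (norm_nonneg _) (Ne.symm h)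
    have h4 : ‖N x - N y‖ * ‖N x - N y‖ ≤ ‖N x - N y‖ * ‖x - y‖ := by nlinarith
    exact le_of_mul_le_mul_left h4 h3

theorem IsFirm.continuous {N : H → H} (hN : IsFirm N) : Continuous N := by
  have : LipschitzWith 1 N := LipschitzWith.of_dist_le_mul fun x y => by
    rw [dist_eq_norm, dist_eq_norm]; simpa using hN.lip x y
  exact this.continuous

namespace IsEvo

variable {U : ℝ → H →L[ℝ] H} (hU : IsEvo U)
include hU

theorem inner (t : ℝ) (x y : H) : inner ℝ (U t x) (U t y) = inner ℝ x y := by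
  have h1 := hU.norm t (x + y)
  have h2 := norm_add_sq_real (U t x) (U t y)
  have h3 := norm_add_sq_real x y
  rw [map_add] at h1
  rw [h1, hU.norm, hU.norm] at h2
  linarith

theorem neg_self (t : ℝ) (x : H) : U (-t) (U t x) = x := by
  rw [← hU.add, neg_add_cancel, hU.zero]

theorem self_neg (t : ℝ) (x : H) : U t (U (-t) x) = x := by
  rw [← hU.add, add_neg_cancel, hU.zero]

theorem inner_neg (t : ℝ) (x y : H) : Inner.inner ℝ (U (-t) x) y = Inner.inner ℝ x (U t y) := by
  rw [← hU.inner t (U (-t) x) y, hU.self_neg]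

/-- Joint continuity. -/
theorem continuous_apply {X : Type*} [TopologicalSpace X] {f : X → ℝ} {g : X → H}
    (hf : Continuous f) (hg : Continuous g) : Continuous fun x => U (f x) (g x) := by
  rw [continuous_iff_continuousAt]
  intro x₀
  have h1 : Tendsto (fun x => U (f x) (g x₀)) (𝓝 x₀) (𝓝 (U (f x₀) (g x₀))) :=
    ((hU.cont (g x₀)).comp hf).tendsto x₀
  have h2 : Tendsto (fun x => U (f x) (g x - g x₀)) (𝓝 x₀) (𝓝 0) := by
    rw [tendsto_zero_iff_norm_tendsto_zero]
    simp only [hU.norm]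
    rw [← tendsto_zero_iff_norm_tendsto_zero]
    have := (hg.tendsto x₀).sub_const (g x₀)
    simpa using this
  have h3 := h1.add h2
  simp only [add_zero] at h3
  refine h3.congr fun x => ?_
  rw [← map_add]
  congr 1
  abel

end IsEvo

/-- Trajectories of the pulled back equation. -/
structure IsTraj (U : ℝ → H →L[ℝ] H) (N : H → H) (ω : H) (W : ℝ → H) : Prop where
  cont : Continuous W
  eqn : ∀ t, 0 ≤ t → W t = W 0 + ∫ s in (0 : ℝ)..t, U (-s) (N (U s ω) - N (U s (W s)))

/-- The damping difference. -/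
def qd (U : ℝ → H →L[ℝ] H) (N : H → H) (ω : H) (W : ℝ → H) (s : ℝ) : H :=
  N (U s (W s)) - N (U s ω)

section
variable {U : ℝ → H →L[ℝ] H} {N : H → H} (hU : IsEvo U) (hN : IsFirm N)
include hU hN

theorem qd_continuous {ω : H} {W : ℝ → H} (hW : Continuous W) : Continuous (qd U N ω W) :=
  (hN.continuous.comp (hU.continuous_apply continuous_id hW)).sub
    (hN.continuous.comp (hU.continuous_apply continuous_id continuous_const))

theorem rhs_continuous {ω : H} {W : ℝ → H} (hW : Continuous W) :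
    Continuous fun s => U (-s) (N (U s ω) - N (U s (W s))) :=
  hU.continuous_apply continuous_neg
    ((hN.continuous.comp (hU.continuous_apply continuous_id continuous_const)).sub
      (hN.continuous.comp (hU.continuous_apply continuous_id hW)))

omit hU hN in
theorem IsTraj.const {ω Y : H} (h : ∀ t, N (U t Y) = N (U t ω)) : IsTraj U N ω fun _ => Y := by
  refine ⟨continuous_const, fun t _ => ?_⟩
  have : ∀ s, U (-s) (N (U s ω) - N (U s Y)) = 0 := fun s => by rw [h, sub_self, map_zero]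
  simp [this]

omit hU hN in
theorem IsTraj.self (ω : H) : IsTraj U N ω fun _ => ω := IsTraj.const fun _ => rfl

theorem exists_traj [CompleteSpace H] (ω Z₀ : H) : ∃ W, IsTraj U N ω W ∧ W 0 = Z₀ := by
  obtain ⟨W, hc, hW⟩ := exists_global_integral_solution
    (fun t x => U (-t) (N (U t ω) - N (U t x))) 1
    (fun t => LipschitzWith.of_dist_le_mul fun x y => by
      rw [dist_eq_norm, dist_eq_norm, ← map_sub, hU.norm]
      have : N (U t ω) - N (U t x) - (N (U t ω) - N (U t y)) = N (U t y) - N (U t x) := by abel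
      rw [this]
      refine (hN.lip _ _).trans ?_
      rw [← map_sub, hU.norm, norm_sub_rev]
      simp)
    (fun x => rhs_continuous hU hN (W := fun _ => x) continuous_const)
    ‖ω‖ (fun t => by
      rw [hU.norm]
      refine (hN.lip _ _).trans ?_
      rw [← map_sub, hU.norm, sub_zero]) Z₀
  have h0 : W 0 = Z₀ := by simpa using hW 0 le_rfl
  refine ⟨W, ⟨hc, fun t ht => ?_⟩, h0⟩
  rw [h0]
  exact hW t ht

theorem IsTraj.hasDerivAt [CompleteSpace H] {ω : H} {W : ℝ → H} (hW : IsTraj U N ω W) {t : ℝ}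
    (ht : 0 < t) : HasDerivAt W (U (-t) (N (U t ω) - N (U t (W t)))) t := by
  have h1 : HasDerivAt (fun t => W 0 + ∫ s in (0 : ℝ)..t, U (-s) (N (U s ω) - N (U s (W s))))
      (U (-t) (N (U t ω) - N (U t (W t)))) t :=
    (intervalIntegral.integral_hasDerivAt_right
      ((rhs_continuous hU hN hW.cont).intervalIntegrable _ _)
      ((rhs_continuous hU hN hW.cont).stronglyMeasurableAtFilter _ _)
      (rhs_continuous hU hN hW.cont).continuousAt).const_add _
  refine h1.congr_of_eventuallyEq ?_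
  filter_upwards [lt_mem_nhds ht] with s hs
  exact hW.eqn s hs.le

/-- Derivative of the squared distance of two trajectories (possibly different data). -/
theorem hasDerivAt_sq [CompleteSpace H] {ω ω' : H} {W W' : ℝ → H} (hW : IsTraj U N ω W)
    (hW' : IsTraj U N ω' W') {t : ℝ} (ht : 0 < t) :
    HasDerivAt (fun t => ‖W t - W' t‖ ^ 2)
      (2 * inner ℝ (W t - W' t) (U (-t) (N (U t ω) - N (U t ω')) -
        U (-t) (N (U t (W t)) - N (U t (W' t))))) t := by
  have h1 := ((hW.hasDerivAt hU hN ht).sub (hW'.hasDerivAt hU hN ht)).norm_sq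
  refine h1.congr_deriv ?_
  congr 2
  simp only [map_sub]
  abel

theorem damping_inner (t : ℝ) (x y : H) :
    ‖N (U t x) - N (U t y)‖ ^ 2 ≤ inner ℝ (x - y) (U (-t) (N (U t x) - N (U t y))) := by
  have h1 := hN (U t x) (U t y)
  rw [real_inner_comm, hU.inner_neg, map_sub]
  exact h1

/-- Trajectories with the same data approach each other. -/
theorem IsTraj.antitone [CompleteSpace H] {ω : H} {W W' : ℝ → H} (hW : IsTraj U N ω W)
    (hW' : IsTraj U N ω W') {s t : ℝ} (hs : 0 ≤ s) (hst : s ≤ t) :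
    ‖W t - W' t‖ ≤ ‖W s - W' s‖ := by
  have hanti : AntitoneOn (fun t => ‖W t - W' t‖ ^ 2) (Ici 0) := by
    refine antitoneOn_of_deriv_nonpos (convex_Ici 0)
      ((hW.cont.sub hW'.cont).norm.pow 2).continuousOn ?_ ?_
    · intro x hx
      rw [interior_Ici] at hx
      exact (hasDerivAt_sq hU hN hW hW' hx).differentiableAt.differentiableWithinAt
    · intro x hx
      rw [interior_Ici] at hx
      rw [(hasDerivAt_sq hU hN hW hW' hx).deriv, sub_self, map_zero, zero_sub, inner_neg_right]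
      have h1 := damping_inner hU hN x (W x) (W' x)
      nlinarith [sq_nonneg ‖N (U x (W x)) - N (U x (W' x))‖]
  have h1 := hanti (Set.mem_Ici.2 hs) (Set.mem_Ici.2 (hs.trans hst)) hst
  exact (sq_le_sq₀ (norm_nonneg _) (norm_nonneg _)).1 h1

theorem IsTraj.bound [CompleteSpace H] {ω : H} {W : ℝ → H} (hW : IsTraj U N ω W) {s t : ℝ}
    (hs : 0 ≤ s) (hst : s ≤ t) : ‖W t - ω‖ ≤ ‖W s - ω‖ :=
  hW.antitone hU hN (IsTraj.self ω) hs hst

/-- The monotone functional. -/
theorem IsTraj.functional [CompleteSpace H] {ω Y : H} {W : ℝ → H} (hW : IsTraj U N ω W)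
    (hY : ∀ t, N (U t (ω + Y)) = N (U t ω)) {s t : ℝ} (hs : 0 ≤ s) (hst : s ≤ t) :
    2 * inner ℝ (W s - ω) Y - ‖W s - ω‖ ^ 2 ≤ 2 * inner ℝ (W t - ω) Y - ‖W t - ω‖ ^ 2 := by
  have h1 := hW.antitone hU hN (IsTraj.const hY) hs hst
  have h2 : ∀ r, ‖W r - (ω + Y)‖ ^ 2 =
      ‖W r - ω‖ ^ 2 - 2 * inner ℝ (W r - ω) Y + ‖Y‖ ^ 2 := by
    intro r
    rw [← norm_sub_sq_real]
    congr 2
    abel
  have h3 : ‖W t - (ω + Y)‖ ^ 2 ≤ ‖W s - (ω + Y)‖ ^ 2 := by gcongr
  rw [h2, h2] at h3
  linarith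

/-- Energy inequality. -/
theorem IsTraj.energy [CompleteSpace H] {ω : H} {W : ℝ → H} (hW : IsTraj U N ω W) {s t : ℝ}
    (hs : 0 ≤ s) (hst : s ≤ t) :
    2 * ∫ r in s..t, ‖qd U N ω W r‖ ^ 2 ≤ ‖W s - ω‖ ^ 2 - ‖W t - ω‖ ^ 2 := by
  have hqc : Continuous fun r => ‖qd U N ω W r‖ ^ 2 := (qd_continuous hU hN hW.cont).norm.pow 2
  have hI : ∀ t, HasDerivAt (fun t => ∫ r in (0 : ℝ)..t, ‖qd U N ω W r‖ ^ 2)
      (‖qd U N ω W t‖ ^ 2) t := fun t =>
    intervalIntegral.integral_hasDerivAt_right (hqc.intervalIntegrable _ _)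
      (hqc.stronglyMeasurableAtFilter _ _) hqc.continuousAt
  have hanti : AntitoneOn (fun t => ‖W t - ω‖ ^ 2 + 2 * ∫ r in (0 : ℝ)..t, ‖qd U N ω W r‖ ^ 2)
      (Ici 0) := by
    have hD : ∀ x, 0 < x → HasDerivAt
        (fun t => ‖W t - ω‖ ^ 2 + 2 * ∫ r in (0 : ℝ)..t, ‖qd U N ω W r‖ ^ 2)
        (2 * inner ℝ (W x - ω) (U (-x) (N (U x ω) - N (U x ω)) -
        U (-x) (N (U x (W x)) - N (U x ω))) + 2 * ‖qd U N ω W x‖ ^ 2) x := fun x hx =>
      (hasDerivAt_sq hU hN hW (IsTraj.self ω) hx).add ((hI x).const_mul 2)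
    refine antitoneOn_of_deriv_nonpos (convex_Ici 0) ?_ ?_ ?_
    · refine (((hW.cont.sub continuous_const).norm.pow 2).add
        (continuous_const.mul ?_)).continuousOn
      exact continuous_iff_continuousAt.2 fun t => (hI t).continuousAt
    · intro x hx
      rw [interior_Ici] at hx
      exact (hD x hx).differentiableAt.differentiableWithinAt
    · intro x hx
      rw [interior_Ici] at hx
      rw [(hD x hx).deriv, sub_self, map_zero, zero_sub, inner_neg_right]
      have h1 := damping_inner hU hN x (W x) ω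
      have h2 : ‖qd U N ω W x‖ = ‖N (U x (W x)) - N (U x ω)‖ := rfl
      rw [h2]
      linarith
  have h1 := hanti (Set.mem_Ici.2 hs) (Set.mem_Ici.2 (hs.trans hst)) hst
  have h2 : (∫ r in (0 : ℝ)..t, ‖qd U N ω W r‖ ^ 2) - ∫ r in (0 : ℝ)..s, ‖qd U N ω W r‖ ^ 2 =
      ∫ r in s..t, ‖qd U N ω W r‖ ^ 2 :=
    intervalIntegral.integral_interval_sub_left (hqc.intervalIntegrable _ _)
      (hqc.intervalIntegrable _ _)
  simp only at h1
  linarith

theorem IsTraj.sub_eq [CompleteSpace H] {ω : H} {W : ℝ → H} (hW : IsTraj U N ω W) {s t : ℝ}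
    (hs : 0 ≤ s) (hst : s ≤ t) :
    W t - W s = ∫ r in s..t, U (-r) (N (U r ω) - N (U r (W r))) := by
  have hc := rhs_continuous hU hN (ω := ω) hW.cont
  rw [hW.eqn t (hs.trans hst), hW.eqn s hs, add_sub_add_left_eq_sub]
  exact intervalIntegral.integral_interval_sub_left (hc.intervalIntegrable _ _)
      (hc.intervalIntegrable _ _)

theorem IsTraj.norm_sub_le [CompleteSpace H] {ω : H} {W : ℝ → H} (hW : IsTraj U N ω W) {s t : ℝ}
    (hs : 0 ≤ s) (hst : s ≤ t) : ‖W t - W s‖ ≤ ∫ r in s..t, ‖qd U N ω W r‖ := by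
  rw [hW.sub_eq hU hN hs hst]
  refine (intervalIntegral.norm_integral_le_integral_norm hst).trans (le_of_eq ?_)
  refine intervalIntegral.integral_congr fun r _ => ?_
  simp only [hU.norm, qd]
  rw [norm_sub_rev]

/-- Dependence of trajectories on the data. -/
theorem dist_traj [CompleteSpace H] {ω ω' : H} {W W' : ℝ → H} (hW : IsTraj U N ω W)
    (hW' : IsTraj U N ω' W') (h0 : W 0 = W' 0) {t : ℝ} (ht : 0 ≤ t) :
    ‖W t - W' t‖ ≤ t * ‖ω - ω'‖ := by
  have key : ∀ ε : ℝ, 0 < ε → ‖W t - W' t‖ ≤ ε + t * ‖ω - ω'‖ := by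
    intro ε hε
    set ψ : ℝ → ℝ := fun t => Real.sqrt (‖W t - W' t‖ ^ 2 + ε ^ 2) with hψ
    have hpos : ∀ t, 0 < ‖W t - W' t‖ ^ 2 + ε ^ 2 := fun t => by positivity
    have hle : ∀ t, ‖W t - W' t‖ ≤ ψ t := fun t => by
      rw [hψ]
      exact Real.le_sqrt_of_sq_le (by nlinarith [sq_nonneg ε])
    have hD : ∀ x, 0 < x → HasDerivAt ψ ((2 * inner ℝ (W x - W' x)
        (U (-x) (N (U x ω) - N (U x ω')) -
        U (-x) (N (U x (W x)) - N (U x (W' x))))) / (2 * ψ x)) x := fun x hx =>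
      ((hasDerivAt_sq hU hN hW hW' hx).add_const _).sqrt (hpos x).ne'
    have hψpos : ∀ t, 0 < ψ t := fun t => Real.sqrt_pos.2 (hpos t)
    have hanti : AntitoneOn (fun t => ψ t - t * ‖ω - ω'‖) (Ici 0) := by
      refine antitoneOn_of_deriv_nonpos (convex_Ici 0) ?_ ?_ ?_
      · have h1 : Continuous ψ :=
          (((hW.cont.sub hW'.cont).norm.pow 2).add continuous_const).sqrt
        exact (h1.sub (continuous_id.mul continuous_const)).continuousOn
      · intro x hx
        rw [interior_Ici] at hx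
        exact ((hD x hx).sub ((hasDerivAt_id x).mul_const _)).differentiableAt.differentiableWithinAt
      · intro x hx
        rw [interior_Ici] at hx
        have hd2 : HasDerivAt (fun t => ψ t - t * ‖ω - ω'‖) ((2 * inner ℝ (W x - W' x)
            (U (-x) (N (U x ω) - N (U x ω')) -
            U (-x) (N (U x (W x)) - N (U x (W' x))))) / (2 * ψ x) - 1 * ‖ω - ω'‖) x :=
          (hD x hx).sub ((hasDerivAt_id x).mul_const ‖ω - ω'‖)
        rw [hd2.deriv]
        rw [sub_nonpos, one_mul, div_le_iff₀ (by have := hψpos x; positivity)]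
        rw [inner_sub_right]
        have h1 := damping_inner hU hN x (W x) (W' x)
        have h2 : inner ℝ (W x - W' x) (U (-x) (N (U x ω) - N (U x ω'))) ≤
            ψ x * ‖ω - ω'‖ := by
          refine (real_inner_le_norm _ _).trans ?_
          refine mul_le_mul (hle x) ?_ (norm_nonneg _) (hψpos x).le
          rw [hU.norm]
          refine (hN.lip _ _).trans ?_
          rw [← map_sub, hU.norm]
        nlinarith [sq_nonneg ‖N (U x (W x)) - N (U x (W' x))‖]
    have h1 := hanti (Set.mem_Ici.2 le_rfl) (Set.mem_Ici.2 ht) ht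
    simp only [zero_mul, sub_zero] at h1
    have h2 : ψ 0 = ε := by
      simp only [hψ, h0, sub_self, norm_zero]
      rw [show (0 : ℝ) ^ 2 + ε ^ 2 = ε ^ 2 by ring, Real.sqrt_sq hε.le]
    have h3 := hle t
    linarith
  refine le_of_forall_pos_le_add fun ε hε => ?_
  have := key ε hε
  linarith

end

end Pool.Agent.Lib_helper45.W2
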