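import Pool.Agent.Lib_helper45.W2.Sine

/-!
The solution of the partial differential equation on the square.
-/

open MeasureTheory Set Filter Topology
open scoped NNReal ENNReal ComplexConjugate

namespace Pool.Agent.Lib_helper45.W2

open Pool.Agent.WaveND

noncomputable section

/-- The solution. -/
def sol {Z₀ W₀ : K 2} (hZ : IsOdd Z₀) (hW : IsOdd W₀) (t : ℝ) : EnergySpace Sq :=
  ⟨Ph (ZZ Z₀ W₀ (max t 0)), Ph_mem_H10 (ZZ_odd hZ hW (le_max_right _ _))⟩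

/-- The forcing on the square. -/
def forc (W₀ : K 2) (t : ℝ) : L2 Sq := reO (FF W₀ t)

theorem continuous_forc (W₀ : K 2) : Continuous (forc W₀) := reO.continuous.comp (continuous_FF W₀)

theorem forc_periodic {W₀ : K 2} (hW : W₀ ∈ FixU) : Function.Periodic (forc W₀) 1 := fun t => by
  unfold forc
  rw [FF_periodic hW]

section
variable {Z₀ W₀ : K 2} (hZ : IsOdd Z₀) (hW : IsOdd W₀)

theorem sol_continuous : Continuous (sol hZ hW) :=
  (Ph.continuous.comp ((continuous_ZZ Z₀ W₀).comp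
    (continuous_id.max continuous_const))).subtype_mk _

theorem sol_val {t : ℝ} (ht : 0 ≤ t) : (sol hZ hW t).1 = Ph (ZZ Z₀ W₀ t) := by
  change Ph (ZZ Z₀ W₀ (max t 0)) = _
  rw [max_eq_left ht]

theorem sol_pos {t : ℝ} (ht : 0 ≤ t) :
    (sol hZ hW t).pos = reO (-(Complex.I / (2 * Real.pi)) • L0 (ZZ Z₀ W₀ t)) := by
  change (sol hZ hW t).1.1.1 = _
  rw [sol_val hZ hW ht]
  rfl

theorem sol_dx {t : ℝ} (ht : 0 ≤ t) (j : Fin 2) :
    (sol hZ hW t).dx j = reO (Bj j (ZZ Z₀ W₀ t)) := by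
  change (sol hZ hW t).1.1.2 j = _
  rw [sol_val hZ hW ht]
  rfl

theorem sol_vel {t : ℝ} (ht : 0 ≤ t) : (sol hZ hW t).vel = reO (ZZ Z₀ W₀ t) := by
  change (sol hZ hW t).1.2 = _
  rw [sol_val hZ hW ht]
  rfl

theorem reO_real {y : K 2} (hy : star y = y) (r : ℝ) : reO (((r : ℂ) * Complex.I) • y) = 0 := by
  apply Lp.ext
  have h0 := coeFn_starK y
  rw [hy] at h0
  filter_upwards [reO_smul ((r : ℂ) * Complex.I) y, ae_iot h0,
    Lp.coeFn_zero ℝ 2 (volume.restrict Sq)] with x h1 h2 h3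
  rw [h1, h3, mul_assoc, Complex.re_ofReal_mul]
  have h4 : (y (iot x)).im = 0 := by
    have := congrArg Complex.im h2
    rw [Complex.conj_im] at this
    linarith
  simp [Complex.mul_re, h4]

theorem sol_deriv {t : ℝ} (ht : 0 ≤ t) :
    HasDerivWithinAt (fun s => (sol hZ hW s).pos) ((sol hZ hW t).vel) (Ici 0) t := by
  set h : ℝ → K 2 := fun s => (((2 * Real.pi : ℝ) : ℂ) * Complex.I) • ZZ Z₀ W₀ s +
      L0 (qq Z₀ W₀ s) with hh
  have hc : Continuous h :=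
    ((continuous_ZZ Z₀ W₀).const_smul (((2 * Real.pi : ℝ) : ℂ) * Complex.I)).add
      (L0.continuous.comp (continuous_qq Z₀ W₀))
  let A : K 2 →L[ℝ] L2 Sq := reO.comp ((-(Complex.I / (2 * Real.pi))) •
    ContinuousLinearMap.id ℝ (K 2))
  have hA : ∀ y, A y = reO (-(Complex.I / (2 * Real.pi)) • y) := fun y => rfl
  have h1 : HasDerivAt (fun s => L0 (ZZ Z₀ W₀ 0) + ∫ r in (0 : ℝ)..s, h r) (h t) t :=
    (intervalIntegral.integral_hasDerivAt_right (hc.intervalIntegrable _ _)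
      (hc.stronglyMeasurableAtFilter _ _) hc.continuousAt).const_add _
  have h2 := (A.hasFDerivAt.comp_hasDerivAt t h1).hasDerivWithinAt (s := Ici 0)
  have h3 : A (h t) = (sol hZ hW t).vel := by
    rw [sol_vel hZ hW ht, hA, hh]
    have e1 : (-(Complex.I / (2 * Real.pi)) : ℂ) • ((((2 * Real.pi : ℝ) : ℂ) * Complex.I) •
        ZZ Z₀ W₀ t + L0 (qq Z₀ W₀ t)) =
        ZZ Z₀ W₀ t + (((-(1 / (2 * Real.pi)) : ℝ) : ℂ) * Complex.I) • L0 (qq Z₀ W₀ t) := by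
      rw [smul_add, smul_smul]
      have e2 : (-(Complex.I / (2 * Real.pi)) : ℂ) * (((2 * Real.pi : ℝ) : ℂ) * Complex.I) = 1 := by
        have h5 := two_pi_ne
        push_cast
        have h7 : (-(Complex.I / (2 * Real.pi)) : ℂ) * (2 * Real.pi * Complex.I) =
            -(Complex.I ^ 2) * ((2 * Real.pi) / (2 * Real.pi)) := by ring
        rw [h7, div_self h5, Complex.I_sq]; ring
      rw [e2, one_smul]
      congr 2
      push_cast
      ring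
    rw [e1, map_add, reO_real (by rw [star_L0, star_qq]), add_zero]
  rw [← h3]
  refine h2.congr (fun s hs => ?_) ?_
  · have e3 : L0 (ZZ Z₀ W₀ s) - L0 (ZZ Z₀ W₀ 0) = ∫ r in (0 : ℝ)..s, h r := L0_ZZ hZ hW hs
    rw [sol_pos hZ hW hs]
    change _ = A (L0 (ZZ Z₀ W₀ 0) + ∫ r in (0 : ℝ)..s, h r)
    rw [← e3, hA]
    congr 2
    abel
  · have e3 : L0 (ZZ Z₀ W₀ t) - L0 (ZZ Z₀ W₀ 0) = ∫ r in (0 : ℝ)..t, h r := L0_ZZ hZ hW ht
    rw [sol_pos hZ hW ht]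
    change _ = A (L0 (ZZ Z₀ W₀ 0) + ∫ r in (0 : ℝ)..t, h r)
    rw [← e3, hA]
    congr 2
    abel

theorem integrable_mul (a b : L2 Sq) : Integrable (fun x => a x * b x) (volume.restrict Sq) :=
  (Lp.memLp a).integrable_mul (Lp.memLp b)

theorem sol_weak {φ : EN 2 → ℝ} (h : IsTest Sq φ) {t : ℝ} (ht : 0 ≤ t) :
    pair (sol hZ hW t).vel φ - pair (sol hZ hW 0).vel φ =
      ∫ s in (0 : ℝ)..t, rhs gf (forc W₀ s) (sol hZ hW s) φ := by
  have h1 : ∀ s, 0 ≤ s → pair (sol hZ hW s).vel φ = inner ℝ (reO (ZZ Z₀ W₀ s)) (cT h) := by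
    intro s hs
    unfold pair
    rw [sol_vel hZ hW hs, inner_L2]
    refine integral_congr_ae ?_
    filter_upwards [coeFn_cT h] with x hx
    rw [hx]
  rw [h1 t ht, h1 0 le_rfl, weak_abstract hZ hW h ht]
  refine intervalIntegral.integral_congr fun s hs => ?_
  rw [uIcc_of_le ht] at hs
  have hs0 := hs.1
  change inner ℝ (reO (qq Z₀ W₀ s)) (cT h) - inner ℝ (reO (Bj 0 (ZZ Z₀ W₀ s))) (cD h 0) -
    inner ℝ (reO (Bj 1 (ZZ Z₀ W₀ s))) (cD h 1) = rhs gf (forc W₀ s) (sol hZ hW s) φ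
  have i0 := integrable_mul (reO (qq Z₀ W₀ s)) (cT h)
  have i1 := integrable_mul (reO (Bj 0 (ZZ Z₀ W₀ s))) (cD h 0)
  have i2 := integrable_mul (reO (Bj 1 (ZZ Z₀ W₀ s))) (cD h 1)
  have i01 : Integrable (fun x => reO (qq Z₀ W₀ s) x * cT h x -
    reO (Bj 0 (ZZ Z₀ W₀ s)) x * cD h 0 x) (volume.restrict Sq) := i0.sub i1
  unfold rhs
  rw [inner_L2, inner_L2, inner_L2, ← integral_sub i0 i1, ← integral_sub i01 i2]
  refine integral_congr_ae ?_
  have e1 : qq Z₀ W₀ s = FF W₀ s - NN (ZZ Z₀ W₀ s) := rfl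
  simp only [Fin.sum_univ_two]
  rw [sol_dx hZ hW hs0, sol_dx hZ hW hs0, sol_vel hZ hW hs0]
  filter_upwards [coeFn_reO (qq Z₀ W₀ s), ae_iot (Lp.coeFn_sub (FF W₀ s) (NN (ZZ Z₀ W₀ s))),
    ae_iot (coeFn_NN (ZZ Z₀ W₀ s)), coeFn_reO (FF W₀ s), coeFn_reO (ZZ Z₀ W₀ s),
    coeFn_cT h, coeFn_cD h 0, coeFn_cD h 1] with x g1 g2 g3 g4 g5 g7 g8 g9
  rw [← e1] at g2
  have g4' : forc W₀ s x = (FF W₀ s (iot x)).re := g4
  rw [g4', g5, g1, g2, Pi.sub_apply, g3, g7, g8, g9, Complex.sub_re, Complex.ofReal_re]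
  ring

theorem sol_isSolution : IsSolution Sq gf (forc W₀) (sol hZ hW) where
  cont := (sol_continuous hZ hW).continuousOn
  deriv_pos := fun _ ht => sol_deriv hZ hW ht
  weak := fun _ hφ _ ht => sol_weak hZ hW hφ ht

theorem sol_bounded : IsBoundedOrbit (sol hZ hW) := by
  refine ⟨‖Ph‖ * (‖Z₀ - W₀‖ + ‖W₀‖), fun t ht => ?_⟩
  have h1 : ‖(sol hZ hW t).1‖ ≤ ‖Ph‖ * (‖Z₀ - W₀‖ + ‖W₀‖) := by
    rw [sol_val hZ hW ht]
    exact (Ph.le_opNorm _).trans (mul_le_mul_of_nonneg_left (ZZ_bound Z₀ W₀ ht) (norm_nonneg _))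
  have h2 : ‖(sol hZ hW t).1.1‖ ≤ ‖(sol hZ hW t).1‖ := norm_fst_le _
  have h3 : ‖(sol hZ hW t).1.2‖ ≤ ‖(sol hZ hW t).1‖ := norm_snd_le _
  have h4 : ‖(sol hZ hW t).1.1.1‖ ≤ ‖(sol hZ hW t).1.1‖ := norm_fst_le _
  have h5 : ‖(sol hZ hW t).1.1.2‖ ≤ ‖(sol hZ hW t).1.1‖ := norm_snd_le _
  exact ⟨h4.trans (h2.trans h1), fun j => (norm_le_pi_norm (sol hZ hW t).1.1.2 j).trans
    (h5.trans (h2.trans h1)), h3.trans h1⟩

end

/-- Total boundedness can be read off from the energy space. -/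
theorem tb_of_image {S : Set (K 2)} (hS : ∀ x ∈ S, IsOdd x) (h : TotallyBounded (Ph '' S)) :
    TotallyBounded S := by
  rw [Metric.totallyBounded_iff]
  intro ε hε
  obtain ⟨t, ht, htf, hcov⟩ := h.exists_subset (Metric.dist_mem_uniformity
    (show 0 < ε / 6 by positivity))
  have ht' : ∀ y ∈ t, ∃ x, x ∈ S ∧ Ph x = y := fun y hy => ht hy
  choose! g hg using ht'
  refine ⟨g '' t, htf.image g, fun x hx => ?_⟩
  have h1 := hcov ⟨x, hx, rfl⟩
  rw [mem_iUnion₂] at h1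
  obtain ⟨y, hy, hxy⟩ := h1
  rw [mem_iUnion₂]
  refine ⟨g y, ⟨y, hy, rfl⟩, ?_⟩
  rw [Metric.mem_ball, dist_eq_norm]
  have h2 := norm_le_Ph ((hS x hx).sub (hS (g y) (hg y hy).1))
  rw [map_sub, (hg y hy).2] at h2
  have h3 : dist (Ph x) y < ε / 6 := hxy
  rw [dist_eq_norm] at h3
  linarith

/-- **The counterexample.** -/
theorem counterexample : ∃ (f : ℝ → L2 Sq) (U : ℝ → EnergySpace Sq),
    IsPeriodicForcing f 1 ∧ IsSolution Sq gf f U ∧ IsBoundedOrbit U ∧ ¬ IsPrecompactOrbit U := by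
  obtain ⟨Z₀, W₀, hF, hZ, hW, hN⟩ := main_abstract
  refine ⟨forc W₀, sol hZ hW, ⟨continuous_forc W₀, forc_periodic hF⟩, sol_isSolution hZ hW,
    sol_bounded hZ hW, fun hcomp => hN ?_⟩
  have hodd : ∀ x ∈ ZZ Z₀ W₀ '' Ici 0, IsOdd x := by
    rintro _ ⟨t, ht, rfl⟩
    exact ZZ_odd hZ hW ht
  apply tb_of_image hodd
  have h1 : TotallyBounded (sol hZ hW '' Ici 0) :=
    (IsCompact.totallyBounded hcomp).subset subset_closure
  have h2 := h1.image uniformContinuous_subtype_val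
  refine h2.subset ?_
  rintro _ ⟨_, ⟨t, ht, rfl⟩, rfl⟩
  exact ⟨sol hZ hW t, ⟨t, ht, rfl⟩, sol_val hZ hW ht⟩

theorem isConnected_Sq : IsConnected Sq := by
  have hconv : Convex ℝ Sq := by
    have : Sq = ⋂ i : Fin 2, (LinearMap.proj i : EN 2 →ₗ[ℝ] ℝ) ⁻¹' Ioo (0 : ℝ) (1 / 2) := by
      ext x; simp [Sq]
    rw [this]
    refine convex_iInter fun i => ?_
    exact (convex_Ioo (0 : ℝ) (1 / 2)).linear_preimage
      (LinearMap.proj i : EN 2 →ₗ[ℝ] ℝ)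
  have hne : Sq.Nonempty := ⟨fun _ => 1 / 4, fun i => by constructor <;> norm_num⟩
  exact ⟨hne, hconv.isPreconnected⟩

end

end Pool.Agent.Lib_helper45.W2
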