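import Mathlib

/-!
The staircase nonlinearity: slope one on a sparse set of unit intervals, flat elsewhere.
-/

open MeasureTheory Set Filter Topology
open scoped NNReal ENNReal

namespace Pool.Agent.Lib_helper45.W2

noncomputable section

/-- Centre of block `j`. -/
def Cb (j : ℕ) : ℝ := 4 ^ (j ^ 2)

/-- First offset of block `j`. -/
def uj (j : ℕ) : ℕ := (Nat.unpair (Nat.unpair j).1).1

/-- Second offset of block `j`. -/
def vj (j : ℕ) : ℕ := (Nat.unpair (Nat.unpair j).1).2

theorem uj_le (j : ℕ) : uj j ≤ j := (Nat.unpair_left_le _).trans (Nat.unpair_left_le j)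
theorem vj_le (j : ℕ) : vj j ≤ j := (Nat.unpair_right_le _).trans (Nat.unpair_left_le j)

/-- Every pair of offsets occurs arbitrarily far. -/
theorem exists_block (u v j₀ : ℕ) : ∃ j, j₀ ≤ j ∧ uj j = u ∧ vj j = v := by
  refine ⟨Nat.pair (Nat.pair u v) j₀, Nat.right_le_pair _ _, ?_, ?_⟩
  · simp [uj]
  · simp [vj]

/-- The ramps of block `j` on the positive side. -/
def rampP (j : ℕ) : Set ℝ :=
  Icc (Cb j - uj j - 1) (Cb j - uj j) ∪ Icc (Cb j - vj j) (Cb j - vj j + 1)

/-- The set where the slope is one. -/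
def Rset : Set ℝ := {s | ∃ j, |s| ∈ rampP j}

theorem measurableSet_Rset : MeasurableSet Rset := by
  have : Rset = ⋃ j, (fun s : ℝ => |s|) ⁻¹' rampP j := by
    ext s; simp [Rset]
  rw [this]
  exact MeasurableSet.iUnion fun j => measurable_norm (measurableSet_Icc.union measurableSet_Icc)

/-- Slope. -/
def slope (s : ℝ) : ℝ := Rset.indicator (fun _ => 1) s

theorem slope_nonneg (s : ℝ) : 0 ≤ slope s := Set.indicator_nonneg (fun _ _ => zero_le_one) _

theorem slope_le (s : ℝ) : slope s ≤ 1 := by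
  unfold slope
  by_cases h : s ∈ Rset <;> simp [h]

theorem measurable_slope : Measurable slope := measurable_const.indicator measurableSet_Rset

theorem slope_neg (s : ℝ) : slope (-s) = slope s := by
  unfold slope
  have : (-s ∈ Rset) ↔ (s ∈ Rset) := by simp [Rset]
  by_cases h : s ∈ Rset
  · rw [Set.indicator_of_mem h, Set.indicator_of_mem (this.2 h)]
  · rw [Set.indicator_of_notMem h, Set.indicator_of_notMem (fun h' => h (this.1 h'))]

theorem intervalIntegrable_slope (a b : ℝ) : IntervalIntegrable slope volume a b := by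
  refine IntervalIntegrable.mono_fun (g := slope) (f := fun _ : ℝ => (1 : ℝ)) (by simp)
    measurable_slope.aestronglyMeasurable (Eventually.of_forall fun s => ?_)
  simp only [norm_one]
  rw [Real.norm_of_nonneg (slope_nonneg s)]
  exact slope_le s

/-- The nonlinearity. -/
def gf (v : ℝ) : ℝ := ∫ s in (0 : ℝ)..v, slope s

theorem gf_sub (a b : ℝ) : gf b - gf a = ∫ s in a..b, slope s :=
  intervalIntegral.integral_interval_sub_left (intervalIntegrable_slope _ _)
    (intervalIntegrable_slope _ _)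

theorem gf_zero : gf 0 = 0 := by simp [gf]

theorem gf_mono : Monotone gf := by
  intro a b hab
  have h1 := gf_sub a b
  have h2 : 0 ≤ ∫ s in a..b, slope s :=
    intervalIntegral.integral_nonneg hab fun s _ => slope_nonneg s
  linarith

theorem gf_sub_le {a b : ℝ} (hab : a ≤ b) : gf b - gf a ≤ b - a := by
  rw [gf_sub]
  have h1 : ∫ s in a..b, slope s ≤ ∫ _s in a..b, (1 : ℝ) :=
    intervalIntegral.integral_mono_on hab (intervalIntegrable_slope _ _) (by simp)
      fun s _ => slope_le s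
  simpa using h1

theorem gf_neg (v : ℝ) : gf (-v) = -gf v := by
  unfold gf
  have h1 := intervalIntegral.integral_comp_neg (fun s => slope s) (a := 0) (b := v)
  simp only [slope_neg, neg_zero] at h1
  rw [h1, intervalIntegral.integral_symm]

theorem gf_lip : LipschitzWith 1 gf := by
  refine LipschitzWith.of_dist_le_mul fun a b => ?_
  rw [Real.dist_eq, Real.dist_eq, NNReal.coe_one, one_mul]
  rcases le_total a b with h | h
  · rw [abs_sub_comm, abs_sub_comm a b, abs_of_nonneg (sub_nonneg.2 (gf_mono h)),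
      abs_of_nonneg (sub_nonneg.2 h)]
    exact gf_sub_le h
  · rw [abs_of_nonneg (sub_nonneg.2 (gf_mono h)), abs_of_nonneg (sub_nonneg.2 h)]
    exact gf_sub_le h

theorem gf_firm (a b : ℝ) : (gf a - gf b) ^ 2 ≤ (gf a - gf b) * (a - b) := by
  rcases le_total a b with h | h
  · have h1 := gf_mono h
    have h2 := gf_sub_le h
    nlinarith
  · have h1 := gf_mono h
    have h2 := gf_sub_le h
    nlinarith

theorem gf_flat {a b : ℝ} (h : ∀ s, min a b < s → s < max a b → s ∉ Rset) : gf a = gf b := by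
  have key : ∀ a b : ℝ, a ≤ b → (∀ s, a < s → s < b → s ∉ Rset) → gf a = gf b := by
    intro a b hab h
    have h1 := gf_sub a b
    have h2 : ∫ s in a..b, slope s = 0 := by
      rw [intervalIntegral.integral_of_le hab]
      have h3 : ∫ s in Ioc a b, slope s = ∫ _s in Ioc a b, (0 : ℝ) := by
        refine integral_congr_ae ?_
        have h4 : ∀ᵐ s ∂(volume : Measure ℝ), s ≠ b := by
          rw [ae_iff]; simp
        filter_upwards [ae_restrict_mem measurableSet_Ioc, ae_restrict_of_ae h4] with s hs hsb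
        unfold slope
        exact Set.indicator_of_notMem (h s hs.1 (lt_of_le_of_ne hs.2 hsb)) _
      rw [h3]; simp
    linarith
  rcases le_total a b with hab | hab
  · rw [min_eq_left hab, max_eq_right hab] at h
    exact key a b hab h
  · rw [min_eq_right hab, max_eq_left hab] at h
    exact (key b a hab h).symm

theorem gf_full {a b : ℝ} (hab : a ≤ b) (h : Icc a b ⊆ Rset) : gf b - gf a = b - a := by
  rw [gf_sub]
  have : ∫ s in a..b, slope s = ∫ _s in a..b, (1 : ℝ) := by
    refine intervalIntegral.integral_congr fun s hs => ?_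
    rw [uIcc_of_le hab] at hs
    exact Set.indicator_of_mem (h hs) _
  rw [this]; simp

/-- One sided resistance above: a ramp at distance `b` to the right of `h`. -/
theorem resist_up {h b : ℝ} (hb : 0 ≤ b) (hR : Icc (h + b) (h + b + 1) ⊆ Rset) (w : ℝ) :
    w ≤ b + (1 + |w|) * |gf (h + w) - gf h| := by
  have h0 : 0 ≤ |gf (h + w) - gf h| := abs_nonneg _
  by_cases hw : w ≤ b
  · nlinarith [abs_nonneg w]
  · push Not at hw
    have hw0 : 0 < w := lt_of_le_of_lt hb hw
    rw [abs_of_pos hw0]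
    have hm : gf h ≤ gf (h + b) := gf_mono (by linarith)
    by_cases hw1 : w ≤ b + 1
    · have h1 : gf (h + w) - gf (h + b) = (h + w) - (h + b) :=
        gf_full (by linarith) fun s hs => hR ⟨hs.1, hs.2.trans (by linarith)⟩
      have h2 : w - b ≤ |gf (h + w) - gf h| := le_trans (by linarith) (le_abs_self _)
      nlinarith
    · push Not at hw1
      have h1 : gf (h + b + 1) - gf (h + b) = (h + b + 1) - (h + b) := gf_full (by linarith) hR
      have h2 : gf (h + b + 1) ≤ gf (h + w) := gf_mono (by linarith)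
      have h3 : 1 ≤ |gf (h + w) - gf h| := le_trans (by linarith) (le_abs_self _)
      nlinarith

/-- One sided resistance below. -/
theorem resist_down {h b : ℝ} (hb : 0 ≤ b) (hR : Icc (h - b - 1) (h - b) ⊆ Rset) (w : ℝ) :
    -w ≤ b + (1 + |w|) * |gf (h + w) - gf h| := by
  have h1 : Icc (-h + b) (-h + b + 1) ⊆ Rset := by
    intro s hs
    have h2 : -s ∈ Icc (h - b - 1) (h - b) := ⟨by linarith [hs.2], by linarith [hs.1]⟩
    obtain ⟨j, hj⟩ := hR h2
    exact ⟨j, by rwa [abs_neg] at hj⟩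
  have h2 := resist_up hb h1 (-w)
  rw [abs_neg] at h2
  have h3 : gf (-h + -w) - gf (-h) = -(gf (h + w) - gf h) := by
    rw [show -h + -w = -(h + w) by ring, gf_neg, gf_neg]; ring
  rw [h3, abs_neg] at h2
  exact h2

/-! ### Location of the ramps -/

theorem Cb_pos (j : ℕ) : 0 < Cb j := by unfold Cb; positivity

theorem one_le_Cb (j : ℕ) : 1 ≤ Cb j := by unfold Cb; exact one_le_pow₀ (by norm_num)

theorem Cb_mono {i j : ℕ} (h : i ≤ j) : Cb i ≤ Cb j := by
  unfold Cb
  exact pow_le_pow_right₀ (by norm_num) (Nat.pow_le_pow_left h 2)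

theorem Cb_succ (j : ℕ) : Cb (j + 1) = 4 ^ (2 * j + 1) * Cb j := by
  unfold Cb
  rw [← pow_add]
  congr 1
  ring

theorem Cb_succ_ge (j : ℕ) : 4 * Cb j ≤ Cb (j + 1) := by
  rw [Cb_succ]
  have h1 : (4 : ℝ) ^ 1 ≤ 4 ^ (2 * j + 1) := pow_le_pow_right₀ (by norm_num) (by omega)
  nlinarith [Cb_pos j]

/-- Blocks in use are large. -/
theorem Cb_succ_big {j : ℕ} (h : 10 ^ 4 ≤ Cb j) : 10 ^ 4 * Cb j ≤ Cb (j + 1) := by
  have hj : 3 ≤ j := by
    by_contra hcon
    have h1 : Cb j ≤ Cb 2 := Cb_mono (by omega)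
    have h2 : Cb 2 = 256 := by unfold Cb; norm_num
    rw [h2] at h1
    linarith
  rw [Cb_succ]
  have h1 : (4 : ℝ) ^ 7 ≤ 4 ^ (2 * j + 1) := pow_le_pow_right₀ (by norm_num) (by omega)
  have h2 : (10 : ℝ) ^ 4 ≤ 4 ^ 7 := by norm_num
  nlinarith [Cb_pos j]

theorem nat_le_Cb {j : ℕ} (hj : 2 ≤ j) : 2 * ((j : ℝ) + 1) ≤ Cb j := by
  unfold Cb
  have h1 : (4 : ℝ) ^ (2 * j) ≤ 4 ^ (j ^ 2) := pow_le_pow_right₀ (by norm_num) (by nlinarith)
  have h2 : ((j : ℝ) + 1) ≤ 4 ^ j := by
    have h3 : j + 1 ≤ 4 ^ j := by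
      calc j + 1 ≤ 2 ^ j := Nat.lt_two_pow_self
        _ ≤ 4 ^ j := Nat.pow_le_pow_left (by norm_num) j
    exact_mod_cast h3
  have h4 : (4 : ℝ) ^ (2 * j) = 4 ^ j * 4 ^ j := by rw [← pow_add]; congr 1; ring
  have h5 : (2 : ℝ) ≤ 4 ^ j := by
    calc (2 : ℝ) ≤ 4 ^ 1 := by norm_num
      _ ≤ 4 ^ j := pow_le_pow_right₀ (by norm_num) (by omega)
  nlinarith

theorem ramp_le {s : ℝ} {j : ℕ} (h : s ∈ rampP j) : s ≤ Cb j + 1 := by
  have hu : (0 : ℝ) ≤ uj j := Nat.cast_nonneg _
  have hv : (0 : ℝ) ≤ vj j := Nat.cast_nonneg _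
  rcases h with h | h
  · linarith [h.2]
  · linarith [h.2]

theorem le_ramp {s : ℝ} {j : ℕ} (h : s ∈ rampP j) : Cb j - j - 1 ≤ s := by
  have hu : (uj j : ℝ) ≤ j := by exact_mod_cast uj_le j
  have hv : (vj j : ℝ) ≤ j := by exact_mod_cast vj_le j
  rcases h with h | h
  · linarith [h.1]
  · linarith [h.1]

theorem half_le_ramp {s : ℝ} {j : ℕ} (hj : 2 ≤ j) (h : s ∈ rampP j) : Cb j / 2 ≤ s := by
  have h1 := le_ramp h
  have h2 := nat_le_Cb hj
  linarith

theorem two_le_of_Cb {j : ℕ} (h : 10 ^ 4 ≤ Cb j) : 2 ≤ j := by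
  by_contra hcon
  have h1 : Cb j ≤ Cb 2 := Cb_mono (by omega)
  have h2 : Cb 2 = 256 := by unfold Cb; norm_num
  rw [h2] at h1
  linarith

/-- No ramp between a used block and the next block. -/
theorem gap_notMem {t : ℕ} (ht : 10 ^ 4 ≤ Cb t) {s : ℝ} (h1 : 1.5 * Cb t < s)
    (h2 : s < Cb (t + 1) / 2) : s ∉ Rset := by
  rintro ⟨j, hj⟩
  have hs : 0 < s := by nlinarith [Cb_pos t]
  rw [abs_of_pos hs] at hj
  rcases le_or_gt j t with h | h
  · have h3 := ramp_le hj
    have h4 := Cb_mono h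
    linarith
  · have h3 := half_le_ramp (by have := two_le_of_Cb ht; omega) hj
    have h4 : Cb (t + 1) ≤ Cb j := Cb_mono h
    linarith

/-- Near a used block only its own ramps occur. -/
theorem near_mem {t : ℕ} (ht : 10 ^ 4 ≤ Cb t) {s : ℝ} (h1 : 0.9 * Cb t < s)
    (h2 : s < 1.1 * Cb t) (h : s ∈ Rset) : s ∈ rampP t := by
  obtain ⟨j, hj⟩ := h
  have hs : 0 < s := by nlinarith [Cb_pos t]
  rw [abs_of_pos hs] at hj
  rcases lt_trichotomy j t with h | h | h
  · exfalso
    have h3 := ramp_le hj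
    obtain ⟨r, rfl⟩ : ∃ r, t = r + 1 := ⟨t - 1, by omega⟩
    have h4 : Cb j ≤ Cb r := Cb_mono (by omega)
    have h5 := Cb_succ_ge r
    linarith
  · rwa [h] at hj
  · exfalso
    have h3 := half_le_ramp (by have := two_le_of_Cb ht; omega) hj
    have h4 : Cb (t + 1) ≤ Cb j := Cb_mono h
    have h5 := Cb_succ_ge t
    linarith

end

end Pool.Agent.Lib_helper45.W2
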