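import Pool.Agent.Lib_helper45.W2.Pulse

/-!
The groups of four plane pulses.
-/

open MeasureTheory Set Filter Topology
open scoped NNReal ENNReal ComplexConjugate

namespace Pool.Agent.Lib_helper45.W2

noncomputable section

open Classical in
/-- Indicator of the ball of radius `ε` in the circle. -/
def bit (ε : ℝ) (s : UnitAddCircle) : ℤ := if s ∈ Metric.closedBall (0 : UnitAddCircle) ε then 1 else 0

theorem bit_cases (ε : ℝ) (s : UnitAddCircle) : bit ε s = 0 ∨ bit ε s = 1 := by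
  unfold bit; split_ifs <;> simp

theorem measurable_bit (ε : ℝ) : Measurable (bit ε) := by
  unfold bit
  exact Measurable.ite Metric.isClosed_closedBall.measurableSet measurable_const measurable_const

/-- Phase. -/
def pt (p q r : ℤ) (y : Tr 3) : UnitAddCircle := p • y 0 + q • y 1 + r • y 2

theorem continuous_pt (p q r : ℤ) : Continuous (pt p q r) :=
  (((continuous_apply 0).zsmul p).add ((continuous_apply 1).zsmul q)).add
    ((continuous_apply 2).zsmul r)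

theorem pt_eq_aff (p q r : ℤ) (y : Tr 3) : pt p q r y = aff (rw3 p q r) 0 y 0 := by
  rw [aff_apply, Fin.sum_univ_three]
  simp [pt, rw3]

/-- The basic pattern function. -/
def E0 (ε : ℝ) (y : Tr 3) : ℤ :=
  bit ε (pt 1 1 (-1) y) - bit ε (pt (-1) 1 (-1) y) - bit ε (pt 1 (-1) (-1) y) +
    bit ε (pt (-1) (-1) (-1) y)

theorem E0_abs (ε : ℝ) (y : Tr 3) : |E0 ε y| ≤ 2 := by
  unfold E0
  rcases bit_cases ε (pt 1 1 (-1) y) with h1 | h1 <;>
  rcases bit_cases ε (pt (-1) 1 (-1) y) with h2 | h2 <;>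
  rcases bit_cases ε (pt 1 (-1) (-1) y) with h3 | h3 <;>
  rcases bit_cases ε (pt (-1) (-1) (-1) y) with h4 | h4 <;>
  rw [h1, h2, h3, h4] <;> decide

theorem measurable_E0 (ε : ℝ) : Measurable (E0 ε) := by
  unfold E0
  exact ((((measurable_bit ε).comp (continuous_pt _ _ _).measurable).sub
    ((measurable_bit ε).comp (continuous_pt _ _ _).measurable)).sub
    ((measurable_bit ε).comp (continuous_pt _ _ _).measurable)).add
    ((measurable_bit ε).comp (continuous_pt _ _ _).measurable)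

/-- Dilation of space-time. -/
def dil (i : ℕ × ℕ) (y : Tr 3) : Tr 3 := aff (Dm i) 0 y

theorem continuous_dil (i : ℕ × ℕ) : Continuous (dil i) := continuous_aff _ _

theorem mp_dil (i : ℕ × ℕ) : MeasurePreserving (dil i) (mu 3) (mu 3) := mp_aff (RInv_Dm i) 0

theorem dil_apply (i : ℕ × ℕ) (y : Tr 3) :
    dil i y = ![Pi i • y 0, Qi i • y 1, Ri i • y 2] := by
  ext j
  rw [dil, aff_apply, Fin.sum_univ_three, Dm]
  fin_cases j <;> simp [Matrix.diagonal]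

/-- The pattern function of a group. -/
def Eg (ε : ℝ) (i : ℕ × ℕ) (y : Tr 3) : ℤ := E0 ε (dil i y)

theorem Eg_abs (ε : ℝ) (i : ℕ × ℕ) (y : Tr 3) : |Eg ε i y| ≤ 2 := E0_abs _ _

theorem measurable_Eg (ε : ℝ) (i : ℕ × ℕ) : Measurable (Eg ε i) :=
  (measurable_E0 ε).comp (continuous_dil i).measurable

theorem pt_dil (p q r : ℤ) (i : ℕ × ℕ) (y : Tr 3) :
    pt p q r (dil i y) = pt (p * Pi i) (q * Qi i) (r * Ri i) y := by
  rw [dil_apply]
  simp [pt, smul_smul]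

theorem Eg_eq (ε : ℝ) (i : ℕ × ℕ) (y : Tr 3) : Eg ε i y =
    bit ε (pt (Pi i) (Qi i) (-Ri i) y) - bit ε (pt (-Pi i) (Qi i) (-Ri i) y) -
    bit ε (pt (Pi i) (-Qi i) (-Ri i) y) + bit ε (pt (-Pi i) (-Qi i) (-Ri i) y) := by
  simp only [Eg, E0, pt_dil, one_mul, neg_mul]

theorem pt_sl (p q r : ℤ) (t : ℝ) (x : Tr 2) :
    pt p q (-r) (sl t x) = aff (rw2 p q) (fun _ => ((-(r * t) : ℝ) : UnitAddCircle)) x 0 := by
  rw [aff_apply, Fin.sum_univ_two]
  have h1 : ((-(r * t) : ℝ) : UnitAddCircle) = (-r) • ((t : ℝ) : UnitAddCircle) := by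
    rw [← AddCircle.coe_zsmul]
    congr 1
    rw [zsmul_eq_mul]; push_cast; ring
  rw [h1]
  simp [pt, rw2, sl]

/-! ### The profile -/

theorem memLp_phi (ε : ℝ) : MemLp (fun x : Tr 1 => ((bit ε (x 0) : ℤ) : ℂ)) 2 (mu 1) := by
  refine MemLp.of_bound ?_ 1 (Eventually.of_forall fun x => ?_)
  · exact (measurable_from_top.comp ((measurable_bit ε).comp
      (continuous_apply (0 : Fin 1)).measurable)).aestronglyMeasurable
  · rcases bit_cases ε (x 0) with h | h <;> rw [h] <;> simp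

/-- The profile. -/
def phi (ε : ℝ) : K 1 := (memLp_phi ε).toLp _

theorem coeFn_phi (ε : ℝ) : phi ε =ᵐ[mu 1] fun x => ((bit ε (x 0) : ℤ) : ℂ) := MemLp.coeFn_toLp _

theorem star_phi (ε : ℝ) : star (phi ε) = phi ε := by
  apply Lp.ext
  filter_upwards [coeFn_starK (phi ε), coeFn_phi ε] with x h1 h2
  rw [h1, h2, map_intCast]

theorem coeFn_pw_phi {p q : ℤ} (h : p ≠ 0) (s : UnitAddCircle) (ε : ℝ) :
    pw (q := q) h s (phi ε) =ᵐ[mu 2] fun x => ((bit ε (aff (rw2 p q) (fun _ => s) x 0) : ℤ) : ℂ) := by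
  have h0 := (mp_aff (RInv_rw2 (q := q) h) (fun _ => s)).quasiMeasurePreserving.ae_eq_comp
    (coeFn_phi ε)
  filter_upwards [coeFn_cmp (RInv_rw2 (q := q) h) (fun _ => s) (phi ε), h0] with x h1 h2
  rw [pw, h1]
  exact h2

theorem neg_Pi_ne (i : ℕ × ℕ) : -Pi i ≠ 0 := by have := Pi_pos i; omega

/-- Four plane waves. -/
def four (i : ℕ × ℕ) (s : UnitAddCircle) (ψ : K 1) : K 2 :=
  pw (q := Qi i) (Pi_pos i).ne' s ψ - pw (q := Qi i) (neg_Pi_ne i) s ψ -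
    pw (q := -Qi i) (Pi_pos i).ne' s ψ + pw (q := -Qi i) (neg_Pi_ne i) s ψ

/-- The vector of a group. -/
def Vg (ε : ℝ) (i : ℕ × ℕ) : K 2 := four i 0 (Ha (phi ε))

theorem Ug_four (i : ℕ × ℕ) (t : ℝ) (s : UnitAddCircle) (ψ : K 1) :
    Ug t (four i s (Ha ψ)) = four i (s + ((-(Ri i * t) : ℝ) : UnitAddCircle)) (Ha ψ) := by
  have hr := (Ri_pos i).le
  unfold four
  rw [map_add, map_sub, map_sub, Ug_pw _ hr (pyth i), Ug_pw _ hr (by rw [neg_sq]; exact pyth i),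
    Ug_pw _ hr (by rw [neg_sq]; exact pyth i),
    Ug_pw _ hr (by rw [neg_sq, neg_sq]; exact pyth i)]

theorem Ug_Vg (ε : ℝ) (i : ℕ × ℕ) (t : ℝ) :
    Ug t (Vg ε i) = four i ((-(Ri i * t) : ℝ) : UnitAddCircle) (Ha (phi ε)) := by
  rw [Vg, Ug_four, zero_add]

theorem Vg_mem (ε : ℝ) (i : ℕ × ℕ) : Vg ε i ∈ FixU := by
  rw [mem_FixU, Ug_Vg, Vg]
  congr 1
  have h1 : (-(Ri i * (-1) : ℝ)) = (Ri i) • (1 : ℝ) := by rw [zsmul_eq_mul]; ring
  rw [h1, AddCircle.coe_zsmul]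
  have : ((1 : ℝ) : UnitAddCircle) = 0 := AddCircle.coe_period 1
  rw [this, smul_zero]

theorem four_add (i : ℕ × ℕ) (s : UnitAddCircle) (φ ψ : K 1) :
    four i s (φ + ψ) = four i s φ + four i s ψ := by
  unfold four; simp only [map_add]; abel

theorem four_smul (i : ℕ × ℕ) (s : UnitAddCircle) (c : ℂ) (ψ : K 1) :
    four i s (c • ψ) = c • four i s ψ := by
  unfold four; simp only [map_smul, smul_add, smul_sub]

theorem four_sub (i : ℕ × ℕ) (s : UnitAddCircle) (φ ψ : K 1) :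
    four i s (φ - ψ) = four i s φ - four i s ψ := by
  unfold four; simp only [map_sub]; abel

theorem star_four (i : ℕ × ℕ) (s : UnitAddCircle) (ψ : K 1) :
    star (four i s ψ) = four i s (star ψ) := by
  unfold four pw
  rw [starK_add, starK_sub, starK_sub, starK_cmp, starK_cmp, starK_cmp, starK_cmp]

theorem four_ev_zero (i : ℕ × ℕ) (s : UnitAddCircle) : four i s (ev 0) = 0 := by
  unfold four
  simp only [pw_ev]
  simp

theorem re_Vg_aux (ε : ℝ) (i : ℕ × ℕ) (t : ℝ) : Ug t (Vg ε i) + star (Ug t (Vg ε i)) =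
    (2 : ℂ) • four i ((-(Ri i * t) : ℝ) : UnitAddCircle) (phi ε) := by
  rw [Ug_Vg, star_four, ← four_add, Ha_real' (star_phi ε), four_smul, four_sub, four_smul,
    four_ev_zero, smul_zero, sub_zero]

theorem coeFn_four_phi (ε : ℝ) (i : ℕ × ℕ) (t : ℝ) :
    four i ((-(Ri i * t) : ℝ) : UnitAddCircle) (phi ε) =ᵐ[mu 2]
      fun x => ((Eg ε i (sl t x) : ℤ) : ℂ) := by
  set s : UnitAddCircle := ((-(Ri i * t) : ℝ) : UnitAddCircle) with hs
  have a1 := coeFn_pw_phi (p := Pi i) (q := Qi i) (Pi_pos i).ne' s ε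
  have a2 := coeFn_pw_phi (p := -Pi i) (q := Qi i) (neg_Pi_ne i) s ε
  have a3 := coeFn_pw_phi (p := Pi i) (q := -Qi i) (Pi_pos i).ne' s ε
  have a4 := coeFn_pw_phi (p := -Pi i) (q := -Qi i) (neg_Pi_ne i) s ε
  have b1 := Lp.coeFn_add (pw (q := Qi i) (Pi_pos i).ne' s (phi ε) -
    pw (q := Qi i) (neg_Pi_ne i) s (phi ε) - pw (q := -Qi i) (Pi_pos i).ne' s (phi ε))
    (pw (q := -Qi i) (neg_Pi_ne i) s (phi ε))
  have b2 := Lp.coeFn_sub (pw (q := Qi i) (Pi_pos i).ne' s (phi ε) -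
    pw (q := Qi i) (neg_Pi_ne i) s (phi ε)) (pw (q := -Qi i) (Pi_pos i).ne' s (phi ε))
  have b3 := Lp.coeFn_sub (pw (q := Qi i) (Pi_pos i).ne' s (phi ε))
    (pw (q := Qi i) (neg_Pi_ne i) s (phi ε))
  filter_upwards [a1, a2, a3, a4, b1, b2, b3] with x a1 a2 a3 a4 b1 b2 b3
  rw [four, b1, Pi.add_apply, b2, Pi.sub_apply, b3, Pi.sub_apply, a1, a2, a3, a4, Eg_eq,
    pt_sl, pt_sl, pt_sl, pt_sl]
  push_cast
  rfl

/-- The real part of the group vector is the pattern function. -/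
theorem re_Vg (ε : ℝ) (i : ℕ × ℕ) (t : ℝ) :
    ∀ᵐ x ∂(mu 2), (Ug t (Vg ε i) x).re = (Eg ε i (sl t x) : ℝ) := by
  have h0 := re_Vg_aux ε i t
  have h1 := Lp.coeFn_add (Ug t (Vg ε i)) (star (Ug t (Vg ε i)))
  have h2 := Lp.coeFn_smul (2 : ℂ) (four i ((-(Ri i * t) : ℝ) : UnitAddCircle) (phi ε))
  rw [h0] at h1
  filter_upwards [h1, h2, coeFn_starK (Ug t (Vg ε i)), coeFn_four_phi ε i t] with x h1 h2 h3 h4
  rw [h2, Pi.smul_apply, Pi.add_apply, h3, h4, smul_eq_mul] at h1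
  have h5 := congrArg Complex.re h1
  simp only [Complex.mul_re, Complex.add_re, Complex.conj_re, Complex.intCast_re,
    Complex.intCast_im, Complex.re_ofNat, Complex.im_ofNat] at h5
  linarith

theorem Rf_Vg (ε : ℝ) (i : ℕ × ℕ) (j : Fin 2) : Rf j (Vg ε i) = -Vg ε i := by
  unfold Vg four
  fin_cases j
  · simp only [Fin.zero_eta, map_add, map_sub]
    rw [Rf_pw0 (Pi_pos i).ne' (neg_Pi_ne i), Rf_pw0 (Pi_pos i).ne' (neg_Pi_ne i)]
    have h1 : ∀ q, ∀ ψ : K 1, Rf 0 (pw (q := q) (neg_Pi_ne i) 0 ψ) =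
        pw (q := q) (Pi_pos i).ne' 0 ψ := by
      intro q ψ
      have h2 : - -Pi i ≠ 0 := by rw [neg_neg]; exact (Pi_pos i).ne'
      rw [Rf_pw0 (neg_Pi_ne i) h2]
      simp only [neg_neg]
    rw [h1, h1]
    abel
  · simp only [Fin.mk_one, map_add, map_sub]
    rw [Rf_pw1, Rf_pw1, Rf_pw1, Rf_pw1]
    simp only [neg_neg]
    abel

/-! ### `ϑ` of the pattern function -/

/-- Plane wave in space-time. -/
def pw3 {p q r : ℤ} (h : p ≠ 0) : K 1 →ₗᵢ[ℂ] K 3 := cmp (RInv_rw3 (q := q) (r := r) h) 0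

theorem pw3_ev {p q r : ℤ} (h : p ≠ 0) (a : Fin 1 → ℤ) :
    pw3 (q := q) (r := r) h (ev a) = ev ![a 0 * p, a 0 * q, a 0 * r] := by
  rw [pw3, cmp_ev]
  have h1 : UnitAddTorus.mFourier a (0 : Tr 1) = 1 := by
    change ∏ i : Fin 1, (fourier (a i) (0 : UnitAddCircle) : ℂ) = _
    simp
  rw [h1, one_smul]
  congr 1
  ext j
  fin_cases j <;> simp [rw3]

theorem Th_pw3 {p q r : ℤ} (h : p ≠ 0) (hr : 0 < r) (hpyth : p ^ 2 + q ^ 2 = r ^ 2) (ψ : K 1) :
    Th (pw3 (q := q) (r := -r) h ψ) = (1 / 2 : ℂ) • pw (q := q) h 0 (Ha ψ) +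
      (inner ℂ (ev 0) ψ : ℂ) • ev 0 := by
  classical
  refine K_induct (p := fun ψ => Th (pw3 (q := q) (r := -r) h ψ) =
    (1 / 2 : ℂ) • pw (q := q) h 0 (Ha ψ) + (inner ℂ (ev 0) ψ : ℂ) • ev 0) ?_ ?_ ?_ ?_ ψ
  · refine isClosed_eq (Th.continuous.comp (pw3 h).continuous) ?_
    have hc : Continuous fun x : K 1 => (inner ℂ (ev 0 : K 1) x : ℂ) :=
      continuous_const.inner continuous_id
    exact (((pw h 0).continuous.comp Ha.continuous).const_smul (1 / 2 : ℂ)).add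
      (hc.smul continuous_const)
  · simp
  · intro x y hx hy
    simp only [map_add, hx, hy, smul_add, inner_add_right, add_smul]
    abel
  · intro c a
    rw [map_smul, map_smul, map_smul, map_smul, pw3_ev, Ha_ev, map_smul, pw_ev, Th_ev,
      inner_smul_right, inner_ev]
    have h1 : sp ![a 0 * p, a 0 * q, a 0 * -r] = ![a 0 * p, a 0 * q] := by
      ext j; fin_cases j <;> rfl
    have h2 : (![a 0 * p, a 0 * q, a 0 * -r] : Fin 3 → ℤ) 2 = a 0 * -r := rfl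
    rw [h1, h2, nk_mul hr.le hpyth]
    have hr' : (0 : ℝ) < r := by exact_mod_cast hr
    have hf : (fourier (a 0) (0 : UnitAddCircle) : ℂ) = 1 := by simp
    rw [hf, one_smul]
    rcases lt_trichotomy (a 0) 0 with ha | ha | ha
    · have h3 : (0 : Fin 1 → ℤ) ≠ a := by rintro rfl; exact lt_irrefl _ ha
      have h4 : |((a 0 : ℤ) : ℝ)| * r = ((a 0 * -r : ℤ) : ℝ) := by
        rw [abs_of_neg (by exact_mod_cast ha)]; push_cast; ring
      rw [if_pos h4, if_pos ha, if_neg h3]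
      simp only [mul_zero, zero_smul, add_zero, smul_smul]
      congr 1; ring
    · have h3 : (0 : Fin 1 → ℤ) = a := by ext j; fin_cases j; exact ha.symm
      have h4 : |((a 0 : ℤ) : ℝ)| * r = ((a 0 * -r : ℤ) : ℝ) := by
        rw [ha]; simp
      rw [if_pos h4, if_neg (by omega), if_pos h3, ha]
      have h5 : (![0 * p, 0 * q] : Fin 2 → ℤ) = 0 := by ext j; fin_cases j <;> simp
      rw [h5]
      simp
    · have h3 : (0 : Fin 1 → ℤ) ≠ a := by rintro rfl; exact lt_irrefl _ ha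
      have h4 : ¬ (|((a 0 : ℤ) : ℝ)| * r = ((a 0 * -r : ℤ) : ℝ)) := by
        rw [abs_of_pos (by exact_mod_cast ha)]; push_cast
        intro h5
        have h6 : (0 : ℝ) < (a 0 : ℤ) := by exact_mod_cast ha
        nlinarith [mul_pos h6 hr']
      rw [if_neg h4, if_neg (by omega), if_neg h3]
      simp

theorem bm_of_int {F : Tr 3 → ℤ} (hF : Measurable F) {B : ℤ} (hB : ∀ y, |F y| ≤ B) :
    BM fun y => ((F y : ℤ) : ℂ) := by
  refine ⟨measurable_from_top.comp hF, B, fun y => ?_⟩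
  rw [Complex.norm_intCast]
  exact_mod_cast hB y

theorem bm_Eg (ε : ℝ) (i : ℕ × ℕ) : BM fun y => ((Eg ε i y : ℤ) : ℂ) :=
  bm_of_int (measurable_Eg ε i) (Eg_abs ε i)

theorem coeFn_pw3_phi {p q r : ℤ} (h : p ≠ 0) (ε : ℝ) :
    pw3 (q := q) (r := r) h (phi ε) =ᵐ[mu 3] fun y => ((bit ε (pt p q r y) : ℤ) : ℂ) := by
  have h0 := (mp_aff (RInv_rw3 (q := q) (r := r) h) 0).quasiMeasurePreserving.ae_eq_comp
    (coeFn_phi ε)
  filter_upwards [coeFn_cmp (RInv_rw3 (q := q) (r := r) h) 0 (phi ε), h0] with x h1 h2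
  rw [pw3, h1, pt_eq_aff]
  exact h2

theorem cl_Eg (ε : ℝ) (i : ℕ × ℕ) : cl (bm_Eg ε i) =
    pw3 (q := Qi i) (r := -Ri i) (Pi_pos i).ne' (phi ε) -
    pw3 (q := Qi i) (r := -Ri i) (neg_Pi_ne i) (phi ε) -
    pw3 (q := -Qi i) (r := -Ri i) (Pi_pos i).ne' (phi ε) +
    pw3 (q := -Qi i) (r := -Ri i) (neg_Pi_ne i) (phi ε) := by
  apply Lp.ext
  have a1 := coeFn_pw3_phi (p := Pi i) (q := Qi i) (r := -Ri i) (Pi_pos i).ne' ε
  have a2 := coeFn_pw3_phi (p := -Pi i) (q := Qi i) (r := -Ri i) (neg_Pi_ne i) ε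
  have a3 := coeFn_pw3_phi (p := Pi i) (q := -Qi i) (r := -Ri i) (Pi_pos i).ne' ε
  have a4 := coeFn_pw3_phi (p := -Pi i) (q := -Qi i) (r := -Ri i) (neg_Pi_ne i) ε
  have b1 := Lp.coeFn_add (pw3 (q := Qi i) (r := -Ri i) (Pi_pos i).ne' (phi ε) -
    pw3 (q := Qi i) (r := -Ri i) (neg_Pi_ne i) (phi ε) -
    pw3 (q := -Qi i) (r := -Ri i) (Pi_pos i).ne' (phi ε))
    (pw3 (q := -Qi i) (r := -Ri i) (neg_Pi_ne i) (phi ε))
  have b2 := Lp.coeFn_sub (pw3 (q := Qi i) (r := -Ri i) (Pi_pos i).ne' (phi ε) -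
    pw3 (q := Qi i) (r := -Ri i) (neg_Pi_ne i) (phi ε))
    (pw3 (q := -Qi i) (r := -Ri i) (Pi_pos i).ne' (phi ε))
  have b3 := Lp.coeFn_sub (pw3 (q := Qi i) (r := -Ri i) (Pi_pos i).ne' (phi ε))
    (pw3 (q := Qi i) (r := -Ri i) (neg_Pi_ne i) (phi ε))
  filter_upwards [a1, a2, a3, a4, b1, b2, b3, coeFn_cl (bm_Eg ε i)] with x a1 a2 a3 a4 b1 b2 b3 b4
  rw [b4, b1, Pi.add_apply, b2, Pi.sub_apply, b3, Pi.sub_apply, a1, a2, a3, a4, Eg_eq]
  push_cast
  rfl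

theorem Th_Eg (ε : ℝ) (i : ℕ × ℕ) : Th (cl (bm_Eg ε i)) = (1 / 2 : ℂ) • Vg ε i := by
  have hp := pyth i
  rw [cl_Eg, map_add, map_sub, map_sub, Th_pw3 _ (Ri_pos i) hp,
    Th_pw3 _ (Ri_pos i) (by rw [neg_sq]; exact hp), Th_pw3 _ (Ri_pos i) (by rw [neg_sq]; exact hp),
    Th_pw3 _ (Ri_pos i) (by rw [neg_sq, neg_sq]; exact hp), Vg, four]
  simp only [smul_add, smul_sub]
  abel

theorem Em_pw3 {p q r : ℤ} (h : p ≠ 0) (ψ : K 1) :
    Em (pw3 (q := q) (r := r) h ψ) = inner ℂ (ev 0) ψ := by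
  classical
  refine K_induct (p := fun ψ => Em (pw3 (q := q) (r := r) h ψ) = inner ℂ (ev 0) ψ) ?_ ?_ ?_ ?_ ψ
  · exact isClosed_eq (continuous_const.inner (pw3 h).continuous)
      (continuous_const.inner continuous_id)
  · simp [Em]
  · intro x y hx hy
    rw [map_add, Em_add, hx, hy, inner_add_right]
  · intro c a
    rw [map_smul, Em_smul, pw3_ev, inner_smul_right, Em, inner_ev, inner_ev]
    congr 1
    by_cases h0 : (0 : Fin 1 → ℤ) = a
    · rw [if_pos h0, if_pos]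
      rw [← h0]
      ext j; fin_cases j <;> simp
    · rw [if_neg h0, if_neg]
      intro h1
      apply h0
      ext j; fin_cases j
      have h2 := congrFun h1 0
      have h3 : (0 : ℤ) = a 0 * p := h2
      rcases mul_eq_zero.1 h3.symm with h4 | h4
      · exact h4.symm
      · exact absurd h4 h

theorem Em_Eg (ε : ℝ) (i : ℕ × ℕ) : Em (cl (bm_Eg ε i)) = 0 := by
  rw [cl_Eg, Em_add, Em_sub, Em_sub, Em_pw3, Em_pw3, Em_pw3, Em_pw3]
  ring

theorem Th0_Eg (ε : ℝ) (i : ℕ × ℕ) : Th0 (cl (bm_Eg ε i)) = (1 / 2 : ℂ) • Vg ε i := by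
  rw [Th0_apply, Em_Eg, zero_smul, sub_zero, Th_Eg]

/-- The curve of the pattern function. -/
theorem cur_Eg (ε : ℝ) (i : ℕ × ℕ) (t : ℝ) : cur (bm_Eg ε i) t =
    (1 / 2 : ℂ) • (Ug t (Vg ε i) + star (Ug t (Vg ε i))) := by
  rw [re_Vg_aux, smul_smul]
  have h0 : (1 / 2 : ℂ) * 2 = 1 := by norm_num
  rw [h0, one_smul]
  apply Lp.ext
  filter_upwards [coeFn_cur (bm_Eg ε i) t, coeFn_four_phi ε i t] with x h1 h2
  rw [h1, ← h2]

theorem continuous_cur_Eg (ε : ℝ) (i : ℕ × ℕ) : Continuous (cur (bm_Eg ε i)) := by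
  have h1 : cur (bm_Eg ε i) = fun t => (1 / 2 : ℂ) • (Ug t (Vg ε i) + star (Ug t (Vg ε i))) :=
    funext (cur_Eg ε i)
  rw [h1]
  exact ((continuous_Ug _).add (continuous_starK.comp (continuous_Ug _))).const_smul (1 / 2 : ℂ)

end

end Pool.Agent.Lib_helper45.W2
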