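import Pool.Agent.Lib_helper45.W2.Stage

/-!
The first stage and the infinite construction.
-/

open MeasureTheory Set Filter Topology
open scoped NNReal ENNReal ComplexConjugate

namespace Pool.Agent.Lib_helper45.W2

noncomputable section

/-- The first state. -/
theorem exists_init : ∃ (Z₀ : K 2) (L : List Gp) (s : Gp), ‖Z₀‖ ≤ 1 ∧ (∀ j, Rf j Z₀ = -Z₀) ∧
    SS Z₀ L s 0 18 (1 / 64) := by
  obtain ⟨X, hX⟩ : ∃ X : ℝ, X = (1 / 64) ^ 2 / 600 := ⟨_, rfl⟩
  have hXpos : 0 < X := by rw [hX]; norm_num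
  have hX1 : X ≤ 1 / 1000 := by rw [hX]; norm_num
  obtain ⟨j₀, hj₀⟩ := exists_Cb_ge (10 ^ 4)
  obtain ⟨j, ε, hjj, hε0, hε1, hεX, hεκ⟩ := exists_window hXpos (by linarith) j₀
  have hCj := hj₀ j hjj
  have hCpos := Cb_pos j
  let J₀ : Gp := { j := j, aux := false, p := fun _ => 0, tg := 0, κ := 10 / ‖Vg ε (0, 0)‖, ε := ε,
                   i := (0, 0) }
  obtain ⟨i, hi⟩ := (SI_step (t := J₀) hε0 hε1 SI_nil).exists
  set J := J₀.seti i with hJ
  have hJj : J.j = j := rfl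
  have hJμ : J.μ = 2 * Cb j := by unfold Gp.μ; simp [hJ, J₀, Gp.seti]
  have hVJ : J.κ = 10 / ‖Vg J.ε J.i‖ := by
    change 10 / ‖Vg ε (0, 0)‖ = 10 / ‖Vg ε i‖
    rw [norm_Vg_eq ε (0, 0) i]
  have hJpos : 0 < ‖Vg J.ε J.i‖ := norm_Vg_pos hε0 hε1 _
  have hκJ : 0 ≤ J.κ := by rw [hVJ]; positivity
  have hcond : Cond J [] :=
    { big := by rw [sm, List.map_nil, List.sum_nil]; change _ ≤ Cb j; linarith
      kap := hκJ
      main := fun _ => hεκ (0, 0)
      auxk := fun h => by cases h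
      auxp := fun h => by cases h
      auxu := fun h => by cases h
      auxt := fun h => by cases h }
  have hwf : WF [J] := ⟨trivial, hcond⟩
  have hX0 : Cb j * ‖Vg J.ε J.i‖ ≤ X := hεX i
  have hX0' : ‖Vg J.ε J.i‖ ≤ X := by
    have h1 := one_le_Cb j
    nlinarith
  set V := Vg J.ε J.i with hV
  have hom : om [J] = ((J.μ : ℝ) : ℂ) • V := by
    rw [om, vL_cons]
    have : vL [] Gp.μ = 0 := rfl
    rw [this, add_zero]
  have homn : ‖om [J]‖ ≤ 1 / 500 := by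
    rw [hom, norm_cs, abs_of_pos J.μ_pos, hJμ]
    linarith
  have hone : ‖((‖V‖⁻¹ : ℝ) : ℂ) • V‖ = 1 := by
    rw [norm_cs, abs_of_pos (by positivity), inv_mul_cancel₀ hJpos.ne']
  refine ⟨((‖V‖⁻¹ : ℝ) : ℂ) • V, [J], J, hone.le, ?_, ?_⟩
  · intro l
    rw [map_smul, hV, Rf_Vg, smul_neg]
  · refine { wf := hwf, si := hi, small := by linarith, smem := by simp, smain := rfl,
             above := ?_, seps := ⟨hε0, hε1⟩, skap := hVJ, adm := ?_, val := ?_,
             eta := by norm_num, ns := by rw [← hX]; exact hX0' }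
    · intro g hg hlt
      rw [List.mem_singleton.1 hg] at hlt
      exact absurd hlt (lt_irrefl _)
    · intro a ha haJ
      have h0 : sgl J.j a J.j = a := by unfold sgl; rw [if_pos rfl]
      exact ⟨trivial, by rw [h0]; exact ha, by rw [h0]; exact haJ, fun h => by cases h⟩
    · rw [← hV]
      push_cast
      have hD : DD (((‖V‖⁻¹ : ℝ) : ℂ) • V) (om [J]) 0 = ((‖V‖⁻¹ : ℝ) : ℂ) • V - om [J] := by
        unfold DD; rw [fl_zero]
      have hD' : DD ((((‖V‖ : ℝ) : ℂ))⁻¹ • V) (om [J]) 0 = ((‖V‖⁻¹ : ℝ) : ℂ) • V - om [J] := by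
        rw [← hD]; push_cast; rfl
      rw [hD']
      have h1 : xc V (((‖V‖⁻¹ : ℝ) : ℂ) • V) = 1 := by
        unfold xc
        rw [real_inner_comm, inner_cs, real_inner_self_eq_norm_sq]
        field_simp
      have h2 : xc V (((‖V‖⁻¹ : ℝ) : ℂ) • V - om [J]) = 1 - xc V (om [J]) := by
        rw [← xc_sub, h1]
      have h3 := abs_le.1 ((abs_xc_le (D := om [J]) hJpos).trans homn)
      have h4 : ‖((‖V‖⁻¹ : ℝ) : ℂ) • V - om [J]‖ ≤ 1 + 1 / 500 := by
        refine (norm_sub_le _ _).trans ?_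
        rw [hone]; linarith
      have h5 := norm_nonneg (((‖V‖⁻¹ : ℝ) : ℂ) • V - om [J])
      rw [h2]
      nlinarith

/-- Dependent choice. -/
theorem dep_choice {S : ℕ → Type*} (x₀ : S 0) (R : ∀ k, S k → S (k + 1) → Prop)
    (h : ∀ k (x : S k), ∃ y, R k x y) : ∃ f : ∀ k, S k, f 0 = x₀ ∧ ∀ k, R k (f k) (f (k + 1)) := by
  choose g hg using h
  exact ⟨fun k => Nat.rec x₀ (fun k x => g k x) k, rfl, fun k => hg k _⟩

/-- The values. -/
def bv (k : ℕ) : ℝ := 18 - 33 / 32 + 33 / 32 * (1 / 2) ^ k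

/-- The parameters. -/
def ek (k : ℕ) : ℝ := 1 / 64 * (1 / 2) ^ k

theorem ek_pos (k : ℕ) : 0 < ek k := by unfold ek; positivity

theorem ek_le (k : ℕ) : ek k ≤ 1 / 64 := by
  unfold ek
  have : (1 / 2 : ℝ) ^ k ≤ 1 := pow_le_one₀ (by norm_num) (by norm_num)
  linarith

theorem bv_succ (k : ℕ) : bv (k + 1) = bv k - 33 * ek k := by
  unfold bv ek; rw [pow_succ]; ring

theorem bv_big (k : ℕ) : 16 ≤ bv k := by
  unfold bv
  have : (0 : ℝ) ≤ (1 / 2) ^ k := by positivity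
  linarith

/-- The infinite construction. -/
theorem exists_sequence : ∃ (Z₀ : K 2) (L : ℕ → List Gp) (s : ℕ → Gp) (T : ℕ → ℕ), ‖Z₀‖ ≤ 1 ∧
    (∀ j, Rf j Z₀ = -Z₀) ∧ (∀ k, SS Z₀ (L k) (s k) (T k) (bv k) (ek k)) ∧
    (∀ k, T k ≤ T (k + 1)) ∧
    (∀ k, (T k + 1) * ‖om (L (k + 1)) - om (L k)‖ ≤ (1 / 2) ^ k / 1000) ∧
    (∀ (k : ℕ) (κ : Fin 2 → ℤ), |κ 0| ≤ k → inner ℂ (ev κ) (Vg (s (k + 1)).ε (s (k + 1)).i) = 0) := by
  obtain ⟨Z₀, L₀, s₀, hZ, hodd, hS⟩ := exists_init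
  have hS0 : SS Z₀ L₀ s₀ 0 (bv 0) (ek 0) := by
    have h1 : bv 0 = 18 := by unfold bv; norm_num
    have h2 : ek 0 = 1 / 64 := by unfold ek; norm_num
    rw [h1, h2]; exact hS
  let S : ℕ → Type := fun k =>
    {x : List Gp × Gp × ℕ // SS Z₀ x.1 x.2.1 x.2.2 (bv k) (ek k)}
  obtain ⟨f, _, hf⟩ := dep_choice (S := S) ⟨(L₀, s₀, 0), hS0⟩
    (fun k x y => x.1.2.2 ≤ y.1.2.2 ∧
      (x.1.2.2 + 1) * ‖om y.1.1 - om x.1.1‖ ≤ (1 / 2) ^ k / 1000 ∧
      ∀ κ : Fin 2 → ℤ, |κ 0| ≤ k → inner ℂ (ev κ) (Vg y.1.2.1.ε y.1.2.1.i) = 0)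
    (fun k x => by
      obtain ⟨L', s', T', h1, h2, h3, h4⟩ := stage hZ x.2
        (by have := bv_big k; have := ek_le k; linarith) (ek_pos (k + 1)) (ek_le (k + 1))
        (γ := (1 / 2) ^ k / 1000) (by positivity) k
      rw [← bv_succ] at h1
      exact ⟨⟨(L', s', T'), h1⟩, h2, h3, h4⟩)
  exact ⟨Z₀, fun k => (f k).1.1, fun k => (f k).1.2.1, fun k => (f k).1.2.2, hZ, hodd,
    fun k => (f k).2, fun k => (hf k).1, fun k => (hf k).2.1, fun k => (hf k).2.2⟩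

/-- The limit of the waves. -/
theorem exists_limit {L : ℕ → List Gp} {T : ℕ → ℕ} (hT : ∀ k, T k ≤ T (k + 1))
    (hL : ∀ k, (T k + 1) * ‖om (L (k + 1)) - om (L k)‖ ≤ (1 / 2) ^ k / 1000) :
    ∃ ω : K 2, Tendsto (fun k => om (L k)) atTop (𝓝 ω) ∧
      ∀ k, (T k + 1) * ‖om (L k) - ω‖ ≤ 1 / 500 := by
  have hstep : ∀ k, dist (om (L k)) (om (L (k + 1))) ≤ 1 / 1000 * (1 / 2) ^ k := by
    intro k
    rw [dist_eq_norm, norm_sub_rev]
    have h1 := hL k
    have h2 : (0 : ℝ) ≤ T k := Nat.cast_nonneg _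
    have h3 := norm_nonneg (om (L (k + 1)) - om (L k))
    nlinarith
  obtain ⟨ω, hω⟩ := cauchySeq_tendsto_of_complete
    (cauchySeq_of_le_geometric (1 / 2) (1 / 1000) (by norm_num) hstep)
  refine ⟨ω, hω, fun k => ?_⟩
  have hmono : Monotone T := monotone_nat_of_le_succ hT
  have key : ∀ n, k ≤ n → (T k + 1) * ‖om (L k) - om (L n)‖ ≤
      (2 * (1 / 2) ^ k - 2 * (1 / 2) ^ n) / 1000 := by
    intro n hn
    induction n, hn using Nat.le_induction with
    | base => simp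
    | succ n hn ih =>
      have h1 : om (L k) - om (L (n + 1)) = (om (L k) - om (L n)) - (om (L (n + 1)) - om (L n)) := by
        abel
      have h2 := norm_sub_le (om (L k) - om (L n)) (om (L (n + 1)) - om (L n))
      rw [← h1] at h2
      have h3 : (T k : ℝ) ≤ T n := by exact_mod_cast hmono hn
      have h4 : ((T k : ℝ) + 1) * ‖om (L (n + 1)) - om (L n)‖ ≤ (1 / 2) ^ n / 1000 := by
        refine le_trans (mul_le_mul_of_nonneg_right ?_ (norm_nonneg _)) (hL n)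
        linarith
      have h5 : (0 : ℝ) ≤ T k := Nat.cast_nonneg _
      have h6 : ((T k : ℝ) + 1) * ‖om (L k) - om (L (n + 1))‖ ≤
          (T k + 1) * (‖om (L k) - om (L n)‖ + ‖om (L (n + 1)) - om (L n)‖) :=
        mul_le_mul_of_nonneg_left h2 (by positivity)
      rw [pow_succ]
      linarith
  have h1 : Tendsto (fun n => (T k + 1) * ‖om (L k) - om (L n)‖) atTop
      (𝓝 ((T k + 1) * ‖om (L k) - ω‖)) := ((tendsto_const_nhds.sub hω).norm).const_mul _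
  refine le_of_tendsto h1 ?_
  filter_upwards [eventually_ge_atTop k] with n hn
  refine (key n hn).trans ?_
  have h2 : (0 : ℝ) ≤ (1 / 2) ^ n := by positivity
  have h3 : (1 / 2 : ℝ) ^ k ≤ 1 := pow_le_one₀ (by norm_num) (by norm_num)
  linarith

/-! ### Symmetry of the flow -/

theorem Ug_Rf (j : Fin 2) (t : ℝ) (x : K 2) : Ug t (Rf j x) = Rf j (Ug t x) := by
  have h : (Ug t).comp (Rf j).toContinuousLinearMap =
      (Rf j).toContinuousLinearMap.comp (Ug t) := by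
    refine K_ext fun k => ?_
    change Ug t (Rf j (ev k)) = Rf j (Ug t (ev k))
    rw [Rf_ev, Ug_ev, Ug_ev, map_smul, Rf_ev]
    congr 1
    unfold ph
    congr 4
    unfold nk
    congr 1
    fin_cases j <;> simp
  exact congrArg (fun S => S x) h

theorem NN_neg (x : K 2) : NN (-x) = -NN x := by
  apply Lp.ext
  filter_upwards [coeFn_NN (-x), coeFn_NN x, Lp.coeFn_neg x, Lp.coeFn_neg (NN x)] with y h1 h2 h3 h4
  rw [h1, h3, h4, Pi.neg_apply, Pi.neg_apply, h2, Complex.neg_re, gf_neg]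
  push_cast
  rfl

theorem NN_Rf (j : Fin 2) (x : K 2) : NN (Rf j x) = Rf j (NN x) := by
  apply Lp.ext
  have h0 := (mp_aff (RInv_rfl2 j) 0).quasiMeasurePreserving.ae_eq_comp (coeFn_NN x)
  filter_upwards [coeFn_NN (Rf j x), coeFn_Rf j x, coeFn_Rf j (NN x), h0] with y h1 h2 h3 h4
  rw [h1, h2, h3]
  exact h4.symm

theorem fl_odd {Z₀ ω : K 2} {j : Fin 2} (hZ : Rf j Z₀ = -Z₀) (hω : Rf j ω = -ω) {t : ℝ}
    (ht : 0 ≤ t) : Rf j (fl Z₀ ω t) = -fl Z₀ ω t := by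
  have hW := fl_traj Z₀ ω
  have hodd : ∀ (s : ℝ) (x : K 2), -Rf j (UR (-s) (NN (UR s ω) - NN (UR s x))) =
      UR (-s) (NN (UR s ω) - NN (UR s (-Rf j x))) := by
    intro s x
    have h1 : UR s (-Rf j x) = -Rf j (UR s x) := by
      rw [map_neg]
      change -Ug s (Rf j x) = -Rf j (Ug s x)
      rw [Ug_Rf]
    have h2 : UR s ω = -Rf j (UR s ω) := by
      change Ug s ω = -Rf j (Ug s ω)
      rw [← Ug_Rf, hω, map_neg, neg_neg]
    have h3 : NN (UR s ω) = -Rf j (NN (UR s ω)) := by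
      conv_lhs => rw [h2]
      rw [NN_neg, NN_Rf]
    rw [h1, NN_neg, NN_Rf]
    conv_rhs => rw [h3]
    change -Rf j (Ug (-s) _) = Ug (-s) _
    rw [← Ug_Rf, ← map_neg (Ug (-s)), map_sub]
    congr 1
    abel
  have hW' : IsTraj UR NN ω fun t => -Rf j (fl Z₀ ω t) := by
    refine ⟨((Rf j).continuous.comp hW.cont).neg, fun t ht => ?_⟩
    have h1 := hW.eqn t ht
    have hc := rhs_continuous isEvo_UR NN_firm (ω := ω) hW.cont
    have h2 : (∫ s in (0 : ℝ)..t, UR (-s) (NN (UR s ω) - NN (UR s (-Rf j (fl Z₀ ω s))))) =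
        -Rf j (∫ s in (0 : ℝ)..t, UR (-s) (NN (UR s ω) - NN (UR s (fl Z₀ ω s)))) := by
      have h3 := (Rf j).toContinuousLinearMap.intervalIntegral_comp_comm
        (hc.intervalIntegrable (μ := volume) 0 t)
      change _ = Rf j _ at h3
      rw [← h3, ← intervalIntegral.integral_neg]
      exact intervalIntegral.integral_congr fun s _ => (hodd s _).symm
    rw [h2]
    conv_lhs => rw [h1]
    rw [map_add, neg_add]
  have h0 : (fun t => -Rf j (fl Z₀ ω t)) 0 = fl Z₀ ω 0 := by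
    change -Rf j (fl Z₀ ω 0) = fl Z₀ ω 0
    rw [fl_zero, hZ, neg_neg]
  have h1 := dist_traj isEvo_UR NN_firm hW' hW h0 ht
  rw [sub_self, norm_zero, mul_zero] at h1
  have h2 : -Rf j (fl Z₀ ω t) = fl Z₀ ω t :=
    sub_eq_zero.1 (norm_eq_zero.1 (le_antisymm h1 (norm_nonneg _)))
  exact neg_eq_iff_eq_neg.1 h2

/-! ### The main abstract result -/

theorem FixU_om (L : List Gp) : om L ∈ FixU := vL_mem _ _

theorem Ug_nat_of_mem {x : K 2} (hx : x ∈ FixU) (m : ℕ) : Ug m x = x := by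
  have h1 := Ug_natCast_of_mem hx m
  have h2 : Ug m (Ug (-m) x) = x := by rw [← Ug_add, add_neg_cancel, Ug_zero]
  rwa [h1] at h2

theorem xc_weak {V : ℕ → K 2} (hV : ∀ k, 0 < ‖V k‖)
    (hlow : ∀ (k : ℕ) (κ : Fin 2 → ℤ), |κ 0| ≤ k → inner ℂ (ev κ) (V k) = 0) (z : K 2) :
    Tendsto (fun k => xc (V k) z) atTop (𝓝 0) := by
  refine K_induct (p := fun z => Tendsto (fun k => xc (V k) z) atTop (𝓝 0)) ?_ ?_ ?_ ?_ z
  · refine closed_tendsto (C := 1) (fun k z => xc (V k) z) (fun k x y => (xc_sub _ _ _).symm)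
      (fun k x => ?_)
    rw [one_mul, Real.norm_eq_abs]
    exact abs_xc_le (hV k)
  · have : ∀ k, xc (V k) 0 = 0 := fun k => by unfold xc; simp
    simp only [this]
    exact tendsto_const_nhds
  · intro x y hx hy
    have := hx.add hy
    rw [add_zero] at this
    refine this.congr fun k => ?_
    unfold xc
    rw [inner_add_left, add_div]
  · intro c κ
    refine tendsto_const_nhds.congr' ?_
    filter_upwards [eventually_ge_atTop (|κ 0|).toNat] with k hk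
    have h1 : |κ 0| ≤ k := by
      have := Int.self_le_toNat |κ 0|
      have h2 : ((|κ 0|).toNat : ℤ) ≤ k := by exact_mod_cast hk
      linarith
    unfold xc
    rw [inner_real_eq, inner_smul_left, hlow k κ h1]
    simp

/-- The solution in the wave representation. -/
def ZZ (Z₀ ω : K 2) (t : ℝ) : K 2 := Ug t (fl Z₀ ω t)

theorem main_abstract : ∃ Z₀ ω : K 2, ω ∈ FixU ∧ (∀ j, Rf j Z₀ = -Z₀) ∧ (∀ j, Rf j ω = -ω) ∧
    ¬ TotallyBounded (ZZ Z₀ ω '' Ici 0) := by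
  obtain ⟨Z₀, L, s, T, hZ, hodd, hSS, hT, hL, hlow⟩ := exists_sequence
  obtain ⟨ω, hω, hωT⟩ := exists_limit hT hL
  have hωF : ω ∈ FixU := isClosed_FixU.mem_of_tendsto hω
    (Eventually.of_forall fun k => FixU_om _)
  have hωodd : ∀ j, Rf j ω = -ω := by
    intro j
    have h1 : Tendsto (fun k => Rf j (om (L k))) atTop (𝓝 (Rf j ω)) :=
      ((Rf j).continuous.tendsto ω).comp hω
    have h2 : Tendsto (fun k => Rf j (om (L k))) atTop (𝓝 (-ω)) := by
      refine hω.neg.congr fun k => ?_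
      exact (Rf_vL _ _ _).symm
    exact tendsto_nhds_unique h1 h2
  refine ⟨Z₀, ω, hωF, hodd, hωodd, fun htb => ?_⟩
  set V : ℕ → K 2 := fun k => Vg (s (k + 1)).ε (s (k + 1)).i with hV
  have hVpos : ∀ k, 0 < ‖V k‖ := fun k => norm_Vg_pos (hSS (k + 1)).seps.1 (hSS (k + 1)).seps.2 _
  have hweak := xc_weak hVpos hlow
  -- the correlation
  have hcorr : ∀ k, 7 / 10 ≤ xc (V k) (DD Z₀ ω (T (k + 1))) := by
    intro k
    have h1 := (hSS (k + 1)).val
    have h2 := bv_big (k + 1)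
    have hTn : (0 : ℝ) ≤ T (k + 1) := Nat.cast_nonneg _
    have h3 := DD_sub_le Z₀ (om (L (k + 1))) ω hTn
    have h4 := h3.trans (hωT (k + 1))
    have h5 := (abs_le.1 ((abs_xc_le (D := DD Z₀ (om (L (k + 1))) (T (k + 1)) -
      DD Z₀ ω (T (k + 1))) (hVpos k)).trans h4)).2
    rw [← xc_sub] at h5
    change _ ≤ 20 * xc (V k) _ - _ at h1
    have h6 := sq_nonneg ‖DD Z₀ (om (L (k + 1))) (T (k + 1))‖
    linarith
  have hcorr2 : ∀ k, xc (V k) (ZZ Z₀ ω (T (k + 1))) =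
      xc (V k) (DD Z₀ ω (T (k + 1))) + xc (V k) ω := by
    intro k
    have h1 : Ug (T (k + 1)) (V k) = V k := Ug_nat_of_mem (Vg_mem _ _) _
    have h2 : inner ℝ (ZZ Z₀ ω (T (k + 1))) (V k) = inner ℝ (fl Z₀ ω (T (k + 1))) (V k) := by
      conv_lhs => rw [← h1]
      exact isEvo_UR.inner (T (k + 1)) _ _
    unfold xc
    rw [h2, ← add_div, ← inner_add_left]
    congr 3
    unfold DD
    abel
  -- compactness
  have hcpt : IsCompact (closure (ZZ Z₀ ω '' Ici 0)) :=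
    htb.closure.isCompact_of_isClosed isClosed_closure
  obtain ⟨z, _, φ, hφ, hz⟩ := hcpt.tendsto_subseq (x := fun k => ZZ Z₀ ω (T (k + 1)))
    (fun k => subset_closure ⟨_, mem_Ici.2 (Nat.cast_nonneg (T (k + 1))), rfl⟩)
  have h1 : Tendsto (fun k => xc (V (φ k)) (ZZ Z₀ ω (T (φ k + 1)))) atTop (𝓝 0) := by
    have h2 : Tendsto (fun k => xc (V (φ k)) z) atTop (𝓝 0) :=
      (hweak z).comp hφ.tendsto_atTop
    have h3 : Tendsto (fun k => xc (V (φ k)) (ZZ Z₀ ω (T (φ k + 1)) - z)) atTop (𝓝 0) := by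
      have h4 := tendsto_iff_norm_sub_tendsto_zero.1 hz
      refine squeeze_zero_norm (fun k => ?_) h4
      rw [Real.norm_eq_abs]
      exact abs_xc_le (hVpos _)
    have h4 := h3.add h2
    rw [add_zero] at h4
    refine h4.congr fun k => ?_
    rw [← xc_sub]
    ring
  have h2 : Tendsto (fun k => xc (V (φ k)) (ZZ Z₀ ω (T (φ k + 1))) - xc (V (φ k)) ω) atTop
      (𝓝 (0 - 0)) := h1.sub ((hweak ω).comp hφ.tendsto_atTop)
  rw [sub_zero] at h2
  have h3 := ge_of_tendsto h2 (Eventually.of_forall fun k => by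
    rw [hcorr2, add_sub_cancel_right]; exact hcorr (φ k))
  norm_num at h3

end

end Pool.Agent.Lib_helper45.W2
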