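import Pool.Agent.Lib_helper45.W2.Basis

/-!
Composition with integer affine maps between tori.
-/

open MeasureTheory Set Filter Topology
open scoped NNReal ENNReal ComplexConjugate

namespace Pool.Agent.Lib_helper45.W2

noncomputable section

/-- The torus. -/
abbrev Tr (d : ℕ) : Type := UnitAddTorus (Fin d)

/-- The homomorphism of tori given by an integer matrix. -/
def linHom {a b : ℕ} (A : Matrix (Fin a) (Fin b) ℤ) : Tr b →+ Tr a where
  toFun x i := ∑ j, A i j • x j
  map_zero' := by ext i; simp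
  map_add' x y := by ext i; simp [smul_add, Finset.sum_add_distrib]

theorem linHom_apply {a b : ℕ} (A : Matrix (Fin a) (Fin b) ℤ) (x : Tr b) (i : Fin a) :
    linHom A x i = ∑ j, A i j • x j := rfl

theorem continuous_linHom {a b : ℕ} (A : Matrix (Fin a) (Fin b) ℤ) : Continuous (linHom A) := by
  refine continuous_pi fun i => ?_
  simp only [linHom_apply]
  exact continuous_finsetSum _ fun j _ => (continuous_apply j).zsmul (A i j)

theorem circle_div {m : ℤ} (hm : m ≠ 0) (y : UnitAddCircle) : ∃ z : UnitAddCircle, m • z = y := by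
  induction y using QuotientAddGroup.induction_on with
  | H r =>
    refine ⟨((r / m : ℝ) : UnitAddCircle), ?_⟩
    rw [← AddCircle.coe_zsmul]
    congr 1
    rw [zsmul_eq_mul]
    have : (m : ℝ) ≠ 0 := by exact_mod_cast hm
    field_simp

theorem linHom_comp {a b c : ℕ} (A : Matrix (Fin a) (Fin b) ℤ) (B : Matrix (Fin b) (Fin c) ℤ)
    (z : Tr c) : linHom A (linHom B z) = linHom (A * B) z := by
  ext i
  simp only [linHom_apply, Matrix.mul_apply, Finset.smul_sum, Finset.sum_smul, smul_smul]
  rw [Finset.sum_comm]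

/-- The integer matrix has a rational right inverse. -/
def RInv {a b : ℕ} (A : Matrix (Fin a) (Fin b) ℤ) : Prop :=
  ∃ (m : ℤ) (B : Matrix (Fin b) (Fin a) ℤ), m ≠ 0 ∧ A * B = m • (1 : Matrix (Fin a) (Fin a) ℤ)

theorem RInv.surjective {a b : ℕ} {A : Matrix (Fin a) (Fin b) ℤ} (hA : RInv A) :
    Function.Surjective (linHom A) := by
  obtain ⟨m, B, hm, hB⟩ := hA
  intro y
  choose z hz using fun i => circle_div hm (y i)
  refine ⟨linHom B z, ?_⟩
  rw [linHom_comp, hB]
  ext i
  rw [linHom_apply, Finset.sum_eq_single i]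
  · simp [hz]
  · intro j _ hj
    simp [Matrix.one_apply_ne hj.symm]
  · simp

/-- The affine map of tori. -/
def aff {a b : ℕ} (A : Matrix (Fin a) (Fin b) ℤ) (s : Tr a) (x : Tr b) : Tr a := linHom A x + s

theorem aff_apply {a b : ℕ} (A : Matrix (Fin a) (Fin b) ℤ) (s : Tr a) (x : Tr b) (i : Fin a) :
    aff A s x i = ∑ j, A i j • x j + s i := rfl

theorem continuous_aff {a b : ℕ} (A : Matrix (Fin a) (Fin b) ℤ) (s : Tr a) :
    Continuous (aff A s) := (continuous_linHom A).add continuous_const

theorem mp_aff {a b : ℕ} {A : Matrix (Fin a) (Fin b) ℤ} (hA : RInv A) (s : Tr a) :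
    MeasurePreserving (aff A s) (mu b) (mu a) := by
  have h1 : MeasurePreserving (linHom A) (mu b) (mu a) :=
    AddMonoidHom.measurePreserving (continuous_linHom A) hA.surjective (by simp)
  have h2 : MeasurePreserving (fun y : Tr a => y + s) (mu a) (mu a) :=
    measurePreserving_add_right (mu a) s
  exact h2.comp h1

/-- Composition with an affine map. -/
def cmp {a b : ℕ} {A : Matrix (Fin a) (Fin b) ℤ} (hA : RInv A) (s : Tr a) : K a →ₗᵢ[ℂ] K b :=
  Lp.compMeasurePreservingₗᵢ ℂ (aff A s) (mp_aff hA s)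

theorem coeFn_cmp {a b : ℕ} {A : Matrix (Fin a) (Fin b) ℤ} (hA : RInv A) (s : Tr a) (f : K a) :
    cmp hA s f =ᵐ[mu b] fun x => f (aff A s x) :=
  Lp.coeFn_compMeasurePreserving f (mp_aff hA s)

theorem mFourier_aff {a b : ℕ} (A : Matrix (Fin a) (Fin b) ℤ) (s : Tr a) (k : Fin a → ℤ)
    (x : Tr b) : UnitAddTorus.mFourier k (aff A s x) =
      UnitAddTorus.mFourier k s * UnitAddTorus.mFourier (fun j => ∑ i, k i * A i j) x := by
  have hadd : ∀ (n : ℤ) (x y : UnitAddCircle), fourier n (x + y) = fourier n x * fourier n y := by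
    intro n x y
    simp only [fourier_apply, smul_add, AddCircle.toCircle_add, Circle.coe_mul]
  have hz : ∀ (n m : ℤ) (x : UnitAddCircle), fourier n (m • x) = fourier (n * m) x := by
    intro n m x
    simp only [fourier_apply, smul_smul]
  have hsum : ∀ (n : ℤ) (y : Fin b → UnitAddCircle), fourier n (∑ j, y j) =
      ∏ j, (fourier n (y j) : ℂ) := by
    intro n y
    induction (Finset.univ : Finset (Fin b)) using Finset.induction_on with
    | empty => simp
    | insert j t hj ih => rw [Finset.sum_insert hj, Finset.prod_insert hj, hadd, ih]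
  have hprod : ∀ (m : Fin a → ℤ) (x : UnitAddCircle), fourier (∑ i, m i) x =
      ∏ i, (fourier (m i) x : ℂ) := by
    intro m x
    induction (Finset.univ : Finset (Fin a)) using Finset.induction_on with
    | empty => simp
    | insert j t hj ih => rw [Finset.sum_insert hj, Finset.prod_insert hj, fourier_add, ih]
  change ∏ i, (fourier (k i) (aff A s x i) : ℂ) =
    (∏ i, (fourier (k i) (s i) : ℂ)) * ∏ j, (fourier (∑ i, k i * A i j) (x j) : ℂ)
  simp only [aff_apply, hadd, hsum, hz, hprod, Finset.prod_mul_distrib]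
  rw [mul_comm, Finset.prod_comm]

theorem cmp_ev {a b : ℕ} {A : Matrix (Fin a) (Fin b) ℤ} (hA : RInv A) (s : Tr a)
    (k : Fin a → ℤ) : cmp hA s (ev k) =
      UnitAddTorus.mFourier k s • ev (fun j => ∑ i, k i * A i j) := by
  apply Lp.ext
  have h1 := (mp_aff hA s).quasiMeasurePreserving.ae_eq_comp (coeFn_ev k)
  filter_upwards [coeFn_cmp hA s (ev k), h1, Lp.coeFn_smul (UnitAddTorus.mFourier k s)
    (ev (fun j => ∑ i, k i * A i j) : K b), coeFn_ev (fun j => ∑ i, k i * A i j)]
    with x h2 h3 h4 h5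
  rw [h2, h4, Pi.smul_apply, h5, smul_eq_mul, ← mFourier_aff]
  exact h3

end

end Pool.Agent.Lib_helper45.W2
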