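import Pool.Agent.Lib_helper45.W2.Group

/-!
Probabilities of the digits of a group, the norm of the group vector, normalized directions.
-/

open MeasureTheory Set Filter Topology
open scoped NNReal ENNReal ComplexConjugate

namespace Pool.Agent.Lib_helper45.W2

noncomputable section

/-! ### Indicators -/

/-- Indicator of a set of space-time. -/
def iS (S : Set (Tr 3)) : Tr 3 → ℂ := S.indicator fun _ => 1

theorem bm_iS {S : Set (Tr 3)} (hS : MeasurableSet S) : BM (iS S) :=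
  ⟨measurable_const.indicator hS, 1, fun y => by
    unfold iS
    by_cases h : y ∈ S <;> simp [h]⟩

theorem norm_iS_le (S : Set (Tr 3)) (y : Tr 3) : ‖iS S y‖ ≤ 1 := by
  unfold iS
  by_cases h : y ∈ S <;> simp [h]

/-- Class of an indicator. -/
def cS {S : Set (Tr 3)} (hS : MeasurableSet S) : K 3 := cl (bm_iS hS)

theorem coeFn_cS {S : Set (Tr 3)} (hS : MeasurableSet S) : cS hS =ᵐ[mu 3] iS S := coeFn_cl _

theorem Em_eq_integral (f : K 3) : Em f = ∫ y, f y ∂(mu 3) := by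
  rw [Em, MeasureTheory.L2.inner_def]
  refine integral_congr_ae ?_
  filter_upwards [coeFn_ev (0 : Fin 3 → ℤ)] with y hy
  rw [hy, UnitAddTorus.mFourier_zero]
  simp

theorem Em_cS {S : Set (Tr 3)} (hS : MeasurableSet S) : Em (cS hS) = ((mu 3).real S : ℂ) := by
  rw [Em_eq_integral, integral_congr_ae (coeFn_cS hS)]
  unfold iS
  rw [integral_indicator_const _ hS]
  simp

theorem norm_cS_sq {S : Set (Tr 3)} (hS : MeasurableSet S) : ‖cS hS‖ ^ 2 = (mu 3).real S := by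
  have h1 : (‖cS hS‖ ^ 2 : ℝ) = (inner ℂ (cS hS) (cS hS) : ℂ).re := by
    rw [inner_self_eq_norm_sq_to_K]
    norm_cast
  rw [h1, MeasureTheory.L2.inner_def]
  have h2 : ∫ y, inner ℂ (cS hS y) (cS hS y) ∂(mu 3) = ∫ y, iS S y ∂(mu 3) := by
    refine integral_congr_ae ?_
    filter_upwards [coeFn_cS hS] with y hy
    rw [hy]
    unfold iS
    by_cases h : y ∈ S <;> simp [h]
  rw [h2]
  unfold iS
  rw [integral_indicator_const _ hS]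
  simp

theorem Dil_cl (i : ℕ × ℕ) {F : Tr 3 → ℂ} (h : BM F) (h' : BM fun y => F (dil i y)) :
    Dil i (cl h) = cl h' := by
  apply Lp.ext
  have h0 := (mp_dil i).quasiMeasurePreserving.ae_eq_comp (coeFn_cl h)
  filter_upwards [coeFn_cmp (RInv_Dm i) 0 (cl h), h0, coeFn_cl h'] with y h1 h2 h3
  rw [Dil, h1, h3]
  exact h2

theorem Dil_cS (i : ℕ × ℕ) {S : Set (Tr 3)} (hS : MeasurableSet S) :
    Dil i (cS hS) = cS ((continuous_dil i).measurable hS) :=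
  Dil_cl i (bm_iS hS) (bm_iS ((continuous_dil i).measurable hS))

/-- Digit level sets. -/
def lv (ε : ℝ) (a : ℤ) : Set (Tr 3) := {y | E0 ε y = a}

theorem measurableSet_lv (ε : ℝ) (a : ℤ) : MeasurableSet (lv ε a) :=
  measurable_E0 ε (measurableSet_singleton a)

/-- Digit probabilities. -/
def Pr (ε : ℝ) (a : ℤ) : ℝ := (mu 3).real (lv ε a)

/-- Classes of digits. -/
def Gam (ε : ℝ) (a : ℤ) : K 3 := cS (measurableSet_lv ε a)

theorem Em_Gam (ε : ℝ) (a : ℤ) : Em (Gam ε a) = (Pr ε a : ℂ) := Em_cS _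

theorem Pr_nonneg (ε : ℝ) (a : ℤ) : 0 ≤ Pr ε a := measureReal_nonneg

/-! ### Ball probabilities -/

theorem haar_ball {ε : ℝ} (h0 : 0 ≤ ε) (h1 : ε ≤ 1 / 2) :
    (AddCircle.haarAddCircle : Measure UnitAddCircle) (Metric.closedBall 0 ε) =
      ENNReal.ofReal (2 * ε) := by
  have h2 : (volume : Measure UnitAddCircle) = AddCircle.haarAddCircle := by
    rw [AddCircle.volume_eq_smul_haarAddCircle]; simp
  rw [← h2, AddCircle.volume_closedBall, min_eq_right (by linarith)]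

theorem prob_all {a : ℕ} {A : Matrix (Fin a) (Fin 3) ℤ} (hA : RInv A) {ε : ℝ} (h0 : 0 ≤ ε)
    (h1 : ε ≤ 1 / 2) :
    (mu 3).real {y | ∀ i, aff A 0 y i ∈ Metric.closedBall (0 : UnitAddCircle) ε} = (2 * ε) ^ a := by
  have h2 : {y | ∀ i, aff A 0 y i ∈ Metric.closedBall (0 : UnitAddCircle) ε} =
      aff A 0 ⁻¹' (Set.univ.pi fun _ => Metric.closedBall (0 : UnitAddCircle) ε) := by
    ext y; simp [Set.mem_pi]
  have h3 : MeasurableSet (Set.univ.pi fun _ : Fin a => Metric.closedBall (0 : UnitAddCircle) ε) :=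
    MeasurableSet.univ_pi fun _ => Metric.isClosed_closedBall.measurableSet
  rw [h2, Measure.real, (mp_aff hA 0).measure_preimage h3.nullMeasurableSet, Measure.pi_pi]
  simp only [haar_ball h0 h1, Finset.prod_const, Finset.card_univ, Fintype.card_fin]
  rw [ENNReal.toReal_pow, ENNReal.toReal_ofReal (by positivity)]

/-- The event that the pulse `(p, q)` is on. -/
def Bs (ε : ℝ) (p q : ℤ) : Set (Tr 3) := {y | bit ε (pt p q (-1) y) = 1}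

theorem mem_Bs (ε : ℝ) (p q : ℤ) (y : Tr 3) :
    y ∈ Bs ε p q ↔ pt p q (-1) y ∈ Metric.closedBall (0 : UnitAddCircle) ε := by
  change bit ε _ = 1 ↔ _
  unfold bit
  split_ifs with h <;> simp [h]

theorem prob_Bs {ε : ℝ} (h0 : 0 ≤ ε) (h1 : ε ≤ 1 / 2) {p q : ℤ} (hp : p ≠ 0) :
    (mu 3).real (Bs ε p q) = 2 * ε := by
  have h2 := prob_all (RInv_rw3 (p := p) (q := q) (r := -1) hp) h0 h1
  rw [pow_one] at h2
  rw [← h2]
  congr 1
  ext y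
  rw [mem_Bs, pt_eq_aff]
  simp

/-- Two rows. -/
def rr (p q p' q' : ℤ) : Matrix (Fin 2) (Fin 3) ℤ := ![![p, q, -1], ![p', q', -1]]

theorem RInv_rr {p q p' q' : ℤ}
    (h : (3 : ℤ) * 3 - (p * p' + q * q' + 1) ^ 2 ≠ 0) (h1 : p ^ 2 + q ^ 2 + 1 = 3)
    (h2 : p' ^ 2 + q' ^ 2 + 1 = 3) : RInv (rr p q p' q') := by
  refine ⟨3 * 3 - (p * p' + q * q' + 1) ^ 2,
    ![![3 * p - (p * p' + q * q' + 1) * p', 3 * p' - (p * p' + q * q' + 1) * p],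
      ![3 * q - (p * p' + q * q' + 1) * q', 3 * q' - (p * p' + q * q' + 1) * q],
      ![-3 + (p * p' + q * q' + 1), -3 + (p * p' + q * q' + 1)]], h, ?_⟩
  ext i j
  fin_cases i <;> fin_cases j <;>
    simp [rr, Matrix.mul_apply, Fin.sum_univ_three]
  · linear_combination 3 * h1
  · linear_combination (-(p * p' + q * q' + 1)) * h1
  · linear_combination (-(p * p' + q * q' + 1)) * h2
  · linear_combination 3 * h2

theorem prob_inter {ε : ℝ} (h0 : 0 ≤ ε) (h1 : ε ≤ 1 / 2) {p q p' q' : ℤ}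
    (hA : RInv (rr p q p' q')) : (mu 3).real (Bs ε p q ∩ Bs ε p' q') = (2 * ε) ^ 2 := by
  rw [← prob_all hA h0 h1]
  congr 1
  ext y
  rw [Set.mem_inter_iff, mem_Bs, mem_Bs]
  have e1 : aff (rr p q p' q') 0 y 0 = pt p q (-1) y := by
    rw [aff_apply, Fin.sum_univ_three]; simp [pt, rr]
  have e2 : aff (rr p q p' q') 0 y 1 = pt p' q' (-1) y := by
    rw [aff_apply, Fin.sum_univ_three]; simp [pt, rr]
  simp only [Set.mem_ofPred_eq, Fin.forall_fin_two, e1, e2]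

theorem inter_le {ε : ℝ} (h0 : 0 ≤ ε) (h1 : ε ≤ 1 / 2) {p q : ℤ} (hp : p = 1 ∨ p = -1)
    (hq : q = 1 ∨ q = -1) (hne : ¬ (p = 1 ∧ q = 1)) :
    (mu 3).real (Bs ε 1 1 ∩ Bs ε p q) = (2 * ε) ^ 2 := by
  refine prob_inter h0 h1 (RInv_rr ?_ ?_ ?_)
  · rcases hp with rfl | rfl <;> rcases hq with rfl | rfl <;> simp_all
  · norm_num
  · rcases hp with rfl | rfl <;> rcases hq with rfl | rfl <;> norm_num

/-! ### Digit probabilities -/

theorem E0_mem_cases (ε : ℝ) (y : Tr 3) :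
    (E0 ε y = 2 → y ∈ Bs ε 1 1 ∧ y ∈ Bs ε (-1) (-1)) ∧
    (E0 ε y = 1 → y ∈ Bs ε 1 1 ∨ y ∈ Bs ε (-1) (-1)) ∧
    (y ∈ Bs ε 1 1 → E0 ε y = 1 ∨ y ∈ Bs ε (-1) 1 ∨ y ∈ Bs ε 1 (-1) ∨ y ∈ Bs ε (-1) (-1)) := by
  change (E0 ε y = 2 → bit ε (pt 1 1 (-1) y) = 1 ∧ bit ε (pt (-1) (-1) (-1) y) = 1) ∧
    (E0 ε y = 1 → bit ε (pt 1 1 (-1) y) = 1 ∨ bit ε (pt (-1) (-1) (-1) y) = 1) ∧
    (bit ε (pt 1 1 (-1) y) = 1 → E0 ε y = 1 ∨ bit ε (pt (-1) 1 (-1) y) = 1 ∨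
      bit ε (pt 1 (-1) (-1) y) = 1 ∨ bit ε (pt (-1) (-1) (-1) y) = 1)
  unfold E0
  rcases bit_cases ε (pt 1 1 (-1) y) with h1 | h1 <;>
  rcases bit_cases ε (pt (-1) 1 (-1) y) with h2 | h2 <;>
  rcases bit_cases ε (pt 1 (-1) (-1) y) with h3 | h3 <;>
  rcases bit_cases ε (pt (-1) (-1) (-1) y) with h4 | h4 <;>
  rw [h1, h2, h3, h4] <;> decide

theorem Pr_two_le {ε : ℝ} (h0 : 0 ≤ ε) (h1 : ε ≤ 1 / 2) : Pr ε 2 ≤ 4 * ε ^ 2 := by
  have h2 : Pr ε 2 ≤ (mu 3).real (Bs ε 1 1 ∩ Bs ε (-1) (-1)) :=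
    measureReal_mono fun y hy => (E0_mem_cases ε y).1 hy
  rw [inter_le h0 h1 (Or.inr rfl) (Or.inr rfl) (by norm_num)] at h2
  linarith

theorem Pr_one_le {ε : ℝ} (h0 : 0 ≤ ε) (h1 : ε ≤ 1 / 2) : Pr ε 1 ≤ 4 * ε := by
  have h2 : Pr ε 1 ≤ (mu 3).real (Bs ε 1 1 ∪ Bs ε (-1) (-1)) :=
    measureReal_mono fun y hy => (E0_mem_cases ε y).2.1 hy
  have h3 := measureReal_union_le (μ := mu 3) (Bs ε 1 1) (Bs ε (-1) (-1))
  rw [prob_Bs h0 h1 (by norm_num), prob_Bs h0 h1 (by norm_num)] at h3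
  linarith

theorem le_Pr_one {ε : ℝ} (h0 : 0 ≤ ε) (h1 : ε ≤ 1 / 12) : ε ≤ Pr ε 1 := by
  have h1' : ε ≤ 1 / 2 := by linarith
  have h2 : (mu 3).real (Bs ε 1 1) ≤ (mu 3).real (lv ε 1 ∪ ((Bs ε 1 1 ∩ Bs ε (-1) 1) ∪
      ((Bs ε 1 1 ∩ Bs ε 1 (-1)) ∪ (Bs ε 1 1 ∩ Bs ε (-1) (-1))))) := by
    refine measureReal_mono fun y hy => ?_
    rcases (E0_mem_cases ε y).2.2 hy with h | h | h | h
    · exact Or.inl h
    · exact Or.inr (Or.inl ⟨hy, h⟩)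
    · exact Or.inr (Or.inr (Or.inl ⟨hy, h⟩))
    · exact Or.inr (Or.inr (Or.inr ⟨hy, h⟩))
  have h3 := measureReal_union_le (μ := mu 3) (lv ε 1) ((Bs ε 1 1 ∩ Bs ε (-1) 1) ∪
      ((Bs ε 1 1 ∩ Bs ε 1 (-1)) ∪ (Bs ε 1 1 ∩ Bs ε (-1) (-1))))
  have h4 := measureReal_union_le (μ := mu 3) (Bs ε 1 1 ∩ Bs ε (-1) 1)
      ((Bs ε 1 1 ∩ Bs ε 1 (-1)) ∪ (Bs ε 1 1 ∩ Bs ε (-1) (-1)))
  have h5 := measureReal_union_le (μ := mu 3) (Bs ε 1 1 ∩ Bs ε 1 (-1))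
      (Bs ε 1 1 ∩ Bs ε (-1) (-1))
  rw [prob_Bs h0 h1' (by norm_num)] at h2
  rw [inter_le h0 h1' (Or.inr rfl) (Or.inl rfl) (by norm_num)] at h4
  rw [inter_le h0 h1' (Or.inl rfl) (Or.inr rfl) (by norm_num),
    inter_le h0 h1' (Or.inr rfl) (Or.inr rfl) (by norm_num)] at h5
  change ε ≤ (mu 3).real (lv ε 1)
  nlinarith

/-- Reflection in space-time. -/
def rf3 : Matrix (Fin 3) (Fin 3) ℤ := Matrix.diagonal ![-1, 1, 1]

theorem RInv_rf3 : RInv rf3 := by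
  refine ⟨1, rf3, one_ne_zero, ?_⟩
  rw [rf3, Matrix.diagonal_mul_diagonal, one_smul]
  ext i j
  fin_cases i <;> fin_cases j <;> simp [Matrix.diagonal]

/-- Reflection in space-time. -/
def rf (y : Tr 3) : Tr 3 := aff rf3 0 y

theorem mp_rf : MeasurePreserving rf (mu 3) (mu 3) := mp_aff RInv_rf3 0

theorem rf_apply (y : Tr 3) : rf y = ![-y 0, y 1, y 2] := by
  ext j
  rw [rf, aff_apply, Fin.sum_univ_three, rf3]
  fin_cases j <;> simp [Matrix.diagonal]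

theorem pt_rf (p q r : ℤ) (y : Tr 3) : pt p q r (rf y) = pt (-p) q r y := by
  rw [rf_apply]; simp [pt]

theorem E0_rf (ε : ℝ) (y : Tr 3) : E0 ε (rf y) = -E0 ε y := by
  unfold E0
  rw [pt_rf, pt_rf, pt_rf, pt_rf]
  simp only [neg_neg]
  ring

theorem Pr_neg (ε : ℝ) (a : ℤ) : Pr ε (-a) = Pr ε a := by
  have h1 : lv ε (-a) = rf ⁻¹' (lv ε a) := by
    ext y
    change E0 ε y = -a ↔ E0 ε (rf y) = a
    rw [E0_rf]; constructor <;> intro h <;> omega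
  rw [Pr, h1, Measure.real, mp_rf.measure_preimage (measurableSet_lv ε a).nullMeasurableSet]
  rfl

/-! ### The norm of the group vector -/

theorem norm_Vg_sq_aux (ε : ℝ) (i : ℕ × ℕ) :
    ‖Vg ε i‖ ^ 2 = 2 * ∫ y, ((Eg ε i y : ℤ) : ℝ) ^ 2 ∂(mu 3) := by
  have hc := continuous_cur_Eg ε i
  have hm := PF_mean (bm_Eg ε i) hc
  have hVc : Continuous fun s => UR (-s) (cur (bm_Eg ε i) s) := pull_continuous isEvo_UR hc
  have h1 : (Vg ε i) = (2 : ℂ) • Th (cl (bm_Eg ε i)) := by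
    rw [Th_Eg, smul_smul]; norm_num
  have h2 : ‖Vg ε i‖ ^ 2 = inner ℝ (Vg ε i) (Vg ε i) := (real_inner_self_eq_norm_sq _).symm
  have h3 : inner ℝ (Vg ε i) (Vg ε i) =
      2 * inner ℝ (Vg ε i) (∫ s in (0 : ℝ)..1, UR (-s) (cur (bm_Eg ε i) s)) := by
    have e1 : inner ℂ (Vg ε i) (Vg ε i) = inner ℂ (Vg ε i) ((2 : ℂ) • Th (cl (bm_Eg ε i))) := by
      rw [← h1]
    rw [inner_real_eq, inner_real_eq, e1, ← hm, inner_smul_right, ← inner_PF,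
      PF_of_mem (Vg_mem ε i)]
    simp [Complex.mul_re]
  have h4 : inner ℝ (Vg ε i) (∫ s in (0 : ℝ)..1, UR (-s) (cur (bm_Eg ε i) s)) =
      ∫ s in (0 : ℝ)..1, inner ℝ (Vg ε i) (UR (-s) (cur (bm_Eg ε i) s)) := by
    have := ContinuousLinearMap.intervalIntegral_comp_comm (innerSL ℝ (Vg ε i))
      (hVc.intervalIntegrable (0 : ℝ) 1) (μ := volume)
    simpa only [innerSL_apply_apply] using this.symm
  have h5 : ∀ s : ℝ, inner ℝ (Vg ε i) (UR (-s) (cur (bm_Eg ε i) s)) =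
      ∫ x, ((Eg ε i (sl s x) : ℤ) : ℝ) ^ 2 ∂(mu 2) := by
    intro s
    rw [real_inner_comm, isEvo_UR.inner_neg, MeasureTheory.L2.inner_def]
    refine integral_congr_ae ?_
    filter_upwards [coeFn_cur (bm_Eg ε i) s, re_Vg ε i s] with x h6 h7
    change inner ℝ (cur (bm_Eg ε i) s x) (Ug s (Vg ε i) x) = _
    rw [h6, Complex.inner]
    simp only [map_intCast, Complex.mul_re, Complex.intCast_re, Complex.intCast_im, h7]
    ring
  have h6 : ∫ y, ((Eg ε i y : ℤ) : ℝ) ^ 2 ∂(mu 3) =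
      ∫ s in (0 : ℝ)..1, ∫ x, ((Eg ε i (sl s x) : ℤ) : ℝ) ^ 2 ∂(mu 2) := by
    have h7 : Integrable (fun y => (((Eg ε i y : ℤ) : ℂ)) ^ 2) (mu 3) := by
      refine Integrable.of_bound (C := 4) ?_ (Eventually.of_forall fun y => ?_)
      · exact ((bm_Eg ε i).meas.pow_const 2).aestronglyMeasurable
      · rw [norm_pow, Complex.norm_intCast]
        have := Eg_abs ε i y
        have h8 : |((Eg ε i y : ℤ) : ℝ)| ≤ 2 := by exact_mod_cast this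
        nlinarith [abs_nonneg ((Eg ε i y : ℤ) : ℝ)]
    have h8 := integral_st _ h7
    have h9 : ∀ (α : Type) [MeasurableSpace α] (m : Measure α) (f : α → ℤ),
        ∫ y, ((f y : ℤ) : ℂ) ^ 2 ∂m = ((∫ y, ((f y : ℤ) : ℝ) ^ 2 ∂m : ℝ) : ℂ) := by
      intro α _ m f
      rw [← integral_complex_ofReal]
      congr 1; ext y; push_cast; rfl
    rw [h9] at h8
    simp only [h9] at h8
    rw [intervalIntegral.integral_ofReal] at h8
    exact_mod_cast h8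
  rw [h2, h3, h4, h6]
  congr 1
  exact intervalIntegral.integral_congr fun s _ => h5 s

theorem integral_E0_sq (ε : ℝ) :
    ∫ y, ((E0 ε y : ℤ) : ℝ) ^ 2 ∂(mu 3) = 2 * Pr ε 1 + 8 * Pr ε 2 := by
  have h1 : ∀ y, ((E0 ε y : ℤ) : ℝ) ^ 2 = (lv ε 1).indicator (fun _ => (1 : ℝ)) y +
      (lv ε (-1)).indicator (fun _ => (1 : ℝ)) y + (lv ε 2).indicator (fun _ => (4 : ℝ)) y +
      (lv ε (-2)).indicator (fun _ => (4 : ℝ)) y := by
    intro y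
    classical
    have h2 := abs_le.1 (E0_abs ε y)
    have h3 : E0 ε y = -2 ∨ E0 ε y = -1 ∨ E0 ε y = 0 ∨ E0 ε y = 1 ∨ E0 ε y = 2 := by omega
    have e : ∀ a, (y ∈ lv ε a) ↔ E0 ε y = a := fun a => Iff.rfl
    simp only [Set.indicator_apply, e]
    rcases h3 with h | h | h | h | h <;> rw [h] <;> norm_num
  simp only [h1]
  have hi : ∀ (a : ℤ) (c : ℝ), Integrable ((lv ε a).indicator fun _ => c) (mu 3) := fun a c =>
    (integrable_const c).indicator (measurableSet_lv ε a)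
  have i1 : Integrable (fun y => (lv ε 1).indicator (fun _ => (1 : ℝ)) y +
      (lv ε (-1)).indicator (fun _ => (1 : ℝ)) y) (mu 3) := (hi 1 1).add (hi (-1) 1)
  have i2 : Integrable (fun y => (lv ε 1).indicator (fun _ => (1 : ℝ)) y +
      (lv ε (-1)).indicator (fun _ => (1 : ℝ)) y + (lv ε 2).indicator (fun _ => (4 : ℝ)) y) (mu 3) :=
    i1.add (hi 2 4)
  rw [integral_add i2 (hi (-2) 4), integral_add i1 (hi 2 4), integral_add (hi 1 1) (hi (-1) 1)]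
  have hv : ∀ (a : ℤ) (c : ℝ), ∫ y, (lv ε a).indicator (fun _ => c) y ∂(mu 3) = Pr ε a * c :=
    fun a c => by rw [integral_indicator_const _ (measurableSet_lv ε a)]; rfl
  rw [hv, hv, hv, hv, Pr_neg, Pr_neg]
  ring

theorem norm_Vg_sq (ε : ℝ) (i : ℕ × ℕ) : ‖Vg ε i‖ ^ 2 = 4 * Pr ε 1 + 16 * Pr ε 2 := by
  rw [norm_Vg_sq_aux]
  have h1 : ∫ y, ((Eg ε i y : ℤ) : ℝ) ^ 2 ∂(mu 3) = ∫ y, ((E0 ε y : ℤ) : ℝ) ^ 2 ∂(mu 3) := by
    have h2 : AEStronglyMeasurable (fun y => ((E0 ε y : ℤ) : ℝ) ^ 2) (Measure.map (dil i) (mu 3)) :=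
      ((measurable_from_top.comp (measurable_E0 ε)).pow_const 2).aestronglyMeasurable
    have h3 := integral_map (mp_dil i).measurable.aemeasurable h2
    rw [(mp_dil i).map_eq] at h3
    exact h3.symm
  rw [h1, integral_E0_sq]
  ring

/-! ### Normalized directions -/

/-- Conditional direction of a digit. -/
def Mg (ε : ℝ) (i : ℕ × ℕ) (a : ℤ) : K 2 := ((Pr ε a)⁻¹ : ℂ) • Th0 (Dil i (Gam ε a))

/-- Normalized direction of a group. -/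
def Ng (ε : ℝ) (i : ℕ × ℕ) : K 2 := (1 / 2 : ℂ) • (Mg ε i 1 - Mg ε i (-1))

theorem norm_Gam_sq (ε : ℝ) (a : ℤ) : ‖Gam ε a‖ ^ 2 = Pr ε a := norm_cS_sq _

theorem bm_E0 (ε : ℝ) : BM fun y => ((E0 ε y : ℤ) : ℂ) :=
  bm_of_int (measurable_E0 ε) (E0_abs ε)

theorem cl_E0 (ε : ℝ) : cl (bm_E0 ε) =
    Gam ε 1 - Gam ε (-1) + (2 : ℂ) • (Gam ε 2 - Gam ε (-2)) := by
  apply Lp.ext
  filter_upwards [coeFn_cl (bm_E0 ε), Lp.coeFn_add (Gam ε 1 - Gam ε (-1))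
    ((2 : ℂ) • (Gam ε 2 - Gam ε (-2))), Lp.coeFn_sub (Gam ε 1) (Gam ε (-1)),
    Lp.coeFn_smul (2 : ℂ) (Gam ε 2 - Gam ε (-2)), Lp.coeFn_sub (Gam ε 2) (Gam ε (-2)),
    coeFn_cS (measurableSet_lv ε 1), coeFn_cS (measurableSet_lv ε (-1)),
    coeFn_cS (measurableSet_lv ε 2), coeFn_cS (measurableSet_lv ε (-2))]
    with y h1 h2 h3 h4 h5 g1 g2 g3 g4
  change Gam ε 1 y = _ at g1
  change Gam ε (-1) y = _ at g2
  change Gam ε 2 y = _ at g3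
  change Gam ε (-2) y = _ at g4
  classical
  rw [h1, h2, Pi.add_apply, h3, h4, Pi.sub_apply, Pi.smul_apply, h5, Pi.sub_apply, g1, g2, g3, g4]
  have h2 := abs_le.1 (E0_abs ε y)
  have h3 : E0 ε y = -2 ∨ E0 ε y = -1 ∨ E0 ε y = 0 ∨ E0 ε y = 1 ∨ E0 ε y = 2 := by omega
  have e : ∀ a, (y ∈ lv ε a) ↔ E0 ε y = a := fun a => Iff.rfl
  simp only [iS, Set.indicator_apply, e]
  rcases h3 with h | h | h | h | h <;> rw [h] <;> norm_num

theorem half_Vg (ε : ℝ) (i : ℕ × ℕ) : (1 / 2 : ℂ) • Vg ε i =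
    Th0 (Dil i (Gam ε 1)) - Th0 (Dil i (Gam ε (-1))) +
      (2 : ℂ) • Th0 (Dil i (Gam ε 2) - Dil i (Gam ε (-2))) := by
  have h1 : Dil i (cl (bm_E0 ε)) = cl (bm_Eg ε i) := Dil_cl i (bm_E0 ε) (bm_Eg ε i)
  rw [← Th0_Eg, ← h1, cl_E0]
  simp only [map_add, map_sub, map_smul]

theorem norm_Vg_pos {ε : ℝ} (h0 : 0 < ε) (h1 : ε ≤ 1 / 12) (i : ℕ × ℕ) : 0 < ‖Vg ε i‖ := by
  have h2 := norm_Vg_sq ε i
  have h3 := le_Pr_one h0.le h1
  have h4 := Pr_nonneg ε 2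
  have h5 : 0 < ‖Vg ε i‖ ^ 2 := by rw [h2]; linarith
  exact lt_of_le_of_ne (norm_nonneg _) (fun h => by rw [← h] at h5; simp at h5)

theorem norm_Vg_lower {ε : ℝ} (h0 : 0 < ε) (h1 : ε ≤ 1 / 12) (i : ℕ × ℕ) :
    2 * Real.sqrt ε ≤ ‖Vg ε i‖ := by
  have h2 := norm_Vg_sq ε i
  have h3 := le_Pr_one h0.le h1
  have h4 := Pr_nonneg ε 2
  refine (sq_le_sq₀ (by positivity) (norm_nonneg _)).1 ?_
  rw [h2, mul_pow, Real.sq_sqrt h0.le]
  linarith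

theorem norm_Vg_upper {ε : ℝ} (h0 : 0 < ε) (h1 : ε ≤ 1 / 12) (i : ℕ × ℕ) :
    ‖Vg ε i‖ ≤ 5 * Real.sqrt ε := by
  have h2 := norm_Vg_sq ε i
  have h3 := Pr_one_le h0.le (by linarith)
  have h4 := Pr_two_le h0.le (by linarith : ε ≤ 1 / 2)
  refine (sq_le_sq₀ (norm_nonneg _) (by positivity)).1 ?_
  rw [h2, mul_pow, Real.sq_sqrt h0.le]
  nlinarith

theorem Ng_close {ε : ℝ} (h0 : 0 < ε) (h1 : ε ≤ 1 / 12) (i : ℕ × ℕ) :
    ‖Ng ε i - (((‖Vg ε i‖ ^ 2)⁻¹ : ℝ) : ℂ) • Vg ε i‖ ≤ 11 := by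
  have hP1 := le_Pr_one h0.le h1
  have hP1' := Pr_one_le h0.le (by linarith : ε ≤ 1 / 2)
  have hP2 := Pr_two_le h0.le (by linarith : ε ≤ 1 / 2)
  have hP20 := Pr_nonneg ε 2
  have hV := norm_Vg_sq ε i
  have hP1pos : 0 < Pr ε 1 := by linarith
  have hVpos : 0 < ‖Vg ε i‖ ^ 2 := by rw [hV]; linarith
  set V := Vg ε i with hVdef
  set Y := Th0 (Dil i (Gam ε 2) - Dil i (Gam ε (-2))) with hY
  have hYn : ‖Y‖ ≤ 4 * (2 * ε) := by
    have g1 : ‖Y‖ ≤ 2 * ‖Dil i (Gam ε 2) - Dil i (Gam ε (-2))‖ := norm_Th0_le _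
    have g2 : ∀ a, (a = 2 ∨ a = -2) → ‖Dil i (Gam ε a)‖ ≤ 2 * ε := by
      intro a ha
      rw [(Dil i).norm_map]
      refine (sq_le_sq₀ (norm_nonneg _) (by positivity)).1 ?_
      rw [norm_Gam_sq]
      have : Pr ε a = Pr ε 2 := by
        rcases ha with rfl | rfl
        · rfl
        · exact Pr_neg ε 2
      rw [this]; nlinarith
    have g3 := norm_sub_le (Dil i (Gam ε 2)) (Dil i (Gam ε (-2)))
    have g4 := g2 2 (Or.inl rfl)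
    have g5 := g2 (-2) (Or.inr rfl)
    linarith
  have hN : Ng ε i = ((((2 * Pr ε 1)⁻¹ : ℝ)) : ℂ) • ((1 / 2 : ℂ) • V - (2 : ℂ) • Y) := by
    rw [Ng, Mg, Mg, Pr_neg, hVdef, half_Vg, ← hY, add_sub_cancel_right, ← smul_sub, smul_smul]
    congr 1
    push_cast
    rw [mul_inv]
    ring
  have hid : Ng ε i - (((‖V‖ ^ 2)⁻¹ : ℝ) : ℂ) • V =
      ((((4 * Pr ε 1)⁻¹ - (‖V‖ ^ 2)⁻¹ : ℝ)) : ℂ) • V - (((Pr ε 1)⁻¹ : ℝ) : ℂ) • Y := by
    rw [hN, smul_sub, smul_smul, smul_smul]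
    have e1 : (((2 * Pr ε 1)⁻¹ : ℝ) : ℂ) * (1 / 2) = (((4 * Pr ε 1)⁻¹ : ℝ) : ℂ) := by
      push_cast; rw [mul_inv, mul_inv]; ring
    have e2 : (((2 * Pr ε 1)⁻¹ : ℝ) : ℂ) * 2 = (((Pr ε 1)⁻¹ : ℝ) : ℂ) := by
      push_cast; rw [mul_inv]; ring
    rw [e1, e2]
    push_cast
    rw [sub_smul]
    abel
  rw [hid]
  refine (norm_sub_le _ _).trans ?_
  rw [norm_smul, norm_smul, Complex.norm_real, Complex.norm_real]
  have t1 : ‖(Pr ε 1)⁻¹‖ * ‖Y‖ ≤ 8 := by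
    rw [Real.norm_of_nonneg (by positivity)]
    have : (Pr ε 1)⁻¹ ≤ ε⁻¹ := by
      exact inv_anti₀ h0 hP1
    calc (Pr ε 1)⁻¹ * ‖Y‖ ≤ ε⁻¹ * (4 * (2 * ε)) :=
          mul_le_mul this hYn (norm_nonneg _) (by positivity)
      _ = 8 := by field_simp; ring
  have t2 : ‖(4 * Pr ε 1)⁻¹ - (‖V‖ ^ 2)⁻¹‖ * ‖V‖ ≤ 3 := by
    have g1 : (4 * Pr ε 1)⁻¹ - (‖V‖ ^ 2)⁻¹ = 4 * Pr ε 2 / (Pr ε 1 * ‖V‖ ^ 2) := by
      have hne : 4 * Pr ε 1 + 16 * Pr ε 2 ≠ 0 := by rw [← hV]; exact hVpos.ne'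
      rw [hV]
      field_simp
      ring
    rw [g1, Real.norm_of_nonneg (by positivity)]
    have hVn : 2 * Real.sqrt ε ≤ ‖V‖ := norm_Vg_lower h0 h1 i
    have hs : 0 < Real.sqrt ε := Real.sqrt_pos.2 h0
    have hV0 : 0 < ‖V‖ := by linarith
    have g2 : 4 * Pr ε 2 / (Pr ε 1 * ‖V‖ ^ 2) * ‖V‖ = 4 * Pr ε 2 / (Pr ε 1 * ‖V‖) := by
      field_simp
    rw [g2, div_le_iff₀ (by positivity)]
    have hss : Real.sqrt ε * Real.sqrt ε = ε := Real.mul_self_sqrt h0.le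
    have hs1 : Real.sqrt ε ≤ 1 / 3 := by
      rw [show (1 / 3 : ℝ) = Real.sqrt ((1 / 3) ^ 2) by rw [Real.sqrt_sq]; norm_num]
      exact Real.sqrt_le_sqrt (by norm_num; linarith)
    have k1 : ε * (2 * Real.sqrt ε) ≤ Pr ε 1 * ‖V‖ := mul_le_mul hP1 hVn (by positivity) (by linarith)
    have k2 : 4 * Pr ε 2 ≤ 16 * ε ^ 2 := by linarith
    have k3 : ε ^ 2 = ε * (Real.sqrt ε * Real.sqrt ε) := by rw [hss]; ring
    nlinarith [mul_pos h0 hs]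
  linarith

end

end Pool.Agent.Lib_helper45.W2
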