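import Pool.Agent.Lib_helper45.W2.Step

/-!
The micro step.
-/

open MeasureTheory Set Filter Topology
open scoped NNReal ENNReal ComplexConjugate

namespace Pool.Agent.Lib_helper45.W2

noncomputable section

theorem mu_nat (g : Gp) : ∃ k : ℕ, (k : ℝ) = g.μ := by
  unfold Gp.μ
  split_ifs
  · exact ⟨4 ^ (g.j ^ 2), Cb_nat _⟩
  · exact ⟨2 * 4 ^ (g.j ^ 2), by rw [← Cb_nat]; push_cast; ring⟩

/-- The pattern which is `-1` at two places. -/
def p2 (j k : ℕ) : ℕ → ℤ := fun i => if i = j then -1 else if i = k then -1 else 0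

theorem p2_v (j k : ℕ) : ∀ i, p2 j k i = 0 ∨ p2 j k i = -1 := by
  intro i; unfold p2; split_ifs <;> simp

theorem sm_p2 {t : Gp} {L : List Gp} (hL : WF (t :: L)) {s : Gp} (hs : s ∈ L) (f : Gp → ℝ) :
    (sm (t :: L) fun g => f g * (p2 t.j s.j g.j : ℤ)) = -f t - f s := by
  rw [sm_cons]
  have h1 : (sm L fun g => f g * (p2 t.j s.j g.j : ℤ)) =
      sm L fun g => if g.j = s.j then (fun g => -f g) g else 0 := by
    refine sm_congr fun g hg => ?_
    have := hL.2.lt hL.1 hg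
    unfold p2
    rw [if_neg (by omega)]
    split_ifs <;> simp
  rw [h1, sm_single hL.1 hs]
  unfold p2
  rw [if_pos rfl]
  push_cast
  ring

theorem sgl_adm {t J : Gp} {L : List Gp} (hJt : J.j ≠ t.j) (htg : t.tg = J.j)
    (hκ : 0 ≤ t.κ) (hpJ : t.p J.j = 0) {a : ℝ} (ha : 0 ≤ a) (h : Adm (sgl J.j a) L) :
    Adm (sgl J.j a) (t :: L) := by
  have h0 : sgl J.j a t.j = 0 := by unfold sgl; rw [if_neg (Ne.symm hJt)]
  refine ⟨h, by rw [h0], by rw [h0]; exact hκ, fun _ => ⟨?_, ?_⟩⟩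
  · rw [h0, zero_add]
    have : (sm L fun g => sgl J.j a g.j * t.p g.j) = sm L fun g => 0 * (g.κ) := by
      refine sm_congr fun g _ => ?_
      unfold sgl
      split_ifs with hg
      · rw [hg, hpJ]; simp
      · simp
    rw [this, sm_mul, zero_mul]
  · rw [h0, htg]
    unfold sgl
    rw [if_pos rfl]
    exact ha

instance : (GG).NeBot := by
  rw [← Filter.frequently_true_iff_neBot]
  intro h
  have h1 : ∀ᶠ p in (atTop : Filter ℕ).curry (atTop : Filter ℕ), ¬ True := h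
  rw [Filter.eventually_curry_iff] at h1
  obtain ⟨a, ha⟩ := h1.exists
  obtain ⟨c, hc⟩ := ha.exists
  exact hc trivial

theorem micro_step {Z₀ : K 2} (hZ : ‖Z₀‖ ≤ 1) {L : List Gp} {s J : Gp} {p : ℕ → ℤ}
    {u n m T : ℕ} {b ρ : ℝ} (h : MS Z₀ L s J p u n m T b ρ) {lam : ℝ} (hlam : 0 < lam) {e : ℝ}
    (he0 : 0 ≤ e)
    (he : 1 ≤ n → 15 * ‖Vg s.ε s.i‖ + (15 + Cb J.j) * ‖Vg J.ε J.i‖ ≤ e)
    (he' : n = 0 → 3 / 2 ≤ e) :
    ∃ (t : Gp) (p' : ℕ → ℤ) (u' m' T' : ℕ), MS Z₀ (t :: L) s J p' u' (n + 1) m' T'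
      (b - 20 * (3 * (‖Vg J.ε J.i‖ / ‖Vg s.ε s.i‖) ^ 2 + ‖Vg J.ε J.i‖ / ‖Vg s.ε s.i‖ * e) -
        5 * (ρ + lam) - 44 * lam) (ρ + lam) ∧
      (T + 1) * ‖om (t :: L) - om L‖ ≤ lam ∧ T ≤ T' := by
  set Vs := Vg s.ε s.i with hVs
  set VJ := Vg J.ε J.i with hVJ
  have hs : 0 < ‖Vs‖ := norm_Vg_pos h.seps.1 h.seps.2 _
  have hJ : 0 < ‖VJ‖ := norm_Vg_pos h.Jeps.1 h.Jeps.2 _
  have hκJ : 0 ≤ J.κ := h.wf.kap J h.Jmem
  -- choice of the block
  obtain ⟨j₀, hj₀⟩ := exists_Cb_ge (max (10 ^ 4 * (1 + sm L fun g => g.κ + g.μ)) (10 ^ 4 * J.κ))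
  obtain ⟨j, hjj, huj, hvj⟩ := exists_block u (4 ^ (J.j ^ 2)) j₀
  have hCj := hj₀ j hjj
  have hCj1 := (le_max_left _ _).trans hCj
  have hCj2 := (le_max_right _ _).trans hCj
  have hCpos := Cb_pos j
  -- choice of the radius
  have hsm := h.small
  set x := min (lam / ((T + 1) * Cb j)) (min ((1 / 100 - ‖om L‖) / (2 * Cb j)) (lam / (J.κ + 1)))
    with hx
  have hxpos : 0 < x := by
    have h1 : 0 < 1 / 100 - ‖om L‖ := by linarith
    have h2 : (0 : ℝ) < (T + 1) * Cb j :=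
      mul_pos (add_pos_of_nonneg_of_pos (Nat.cast_nonneg T) one_pos) hCpos
    exact lt_min (div_pos hlam h2) (lt_min (div_pos h1 (by linarith)) (div_pos hlam (by linarith)))
  obtain ⟨ε, hε0, hε1, hεV⟩ := exists_radius hxpos
  -- the new group
  let t₀ : Gp := { j := j, aux := true, p := p, tg := J.j, κ := J.κ, ε := ε, i := (0, 0) }
  obtain ⟨i, hi⟩ := (SI_step (t := t₀) hε0 hε1 h.si).exists
  set t := t₀.seti i with ht
  have htj : t.j = j := rfl
  have htμ : t.μ = Cb j := by unfold Gp.μ; rfl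
  have hcond : Cond t L :=
    { big := hCj1
      kap := hκJ
      main := fun h => by cases h
      auxk := fun _ => hCj2
      auxp := fun _ g _ => h.pv g.j
      auxu := fun _ => by
        rw [htj, huj]; exact h.pu
      auxt := fun _ => ⟨J, h.Jmem, rfl, h.Jmain, by
        rw [htj, hvj]; exact Cb_nat _, h.above⟩ }
  have hwf : WF (t :: L) := ⟨h.wf, hcond⟩
  have hfresh : ∀ g ∈ L, g.j ≠ t.j := fun g hg => (hcond.lt h.wf hg).ne
  have hVt : ‖Vg t.ε t.i‖ ≤ x := hεV i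
  have hVt0 : 0 ≤ ‖Vg t.ε t.i‖ := norm_nonneg _
  -- smallness consequences
  have hx1 : (T + 1) * (Cb j * ‖Vg t.ε t.i‖) ≤ lam := by
    have h1 : ‖Vg t.ε t.i‖ ≤ lam / ((T + 1) * Cb j) := hVt.trans (min_le_left _ _)
    have h2 : (0 : ℝ) < (T + 1) * Cb j :=
      mul_pos (add_pos_of_nonneg_of_pos (Nat.cast_nonneg T) one_pos) hCpos
    rw [le_div_iff₀ h2] at h1
    linarith
  have hx2 : Cb j * ‖Vg t.ε t.i‖ < 1 / 100 - ‖om L‖ := by
    have h1 : ‖Vg t.ε t.i‖ ≤ (1 / 100 - ‖om L‖) / (2 * Cb j) :=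
      hVt.trans ((min_le_right _ _).trans (min_le_left _ _))
    rw [le_div_iff₀ (by linarith)] at h1
    have h2 : Cb j * ‖Vg t.ε t.i‖ = ‖Vg t.ε t.i‖ * (2 * Cb j) / 2 := by ring
    rw [h2]
    linarith
  have hx3 : J.κ * ‖Vg t.ε t.i‖ ≤ lam := by
    have h1 : ‖Vg t.ε t.i‖ ≤ lam / (J.κ + 1) :=
      hVt.trans ((min_le_right _ _).trans (min_le_right _ _))
    rw [le_div_iff₀ (by linarith)] at h1
    have h2 : ‖Vg t.ε t.i‖ * (J.κ + 1) = J.κ * ‖Vg t.ε t.i‖ + ‖Vg t.ε t.i‖ := by ring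
    rw [h2] at h1
    linarith
  have hom : om (t :: L) - om L = ((t.μ : ℝ) : ℂ) • Vg t.ε t.i := by
    rw [om, vL_cons, om]; abel
  have homn : ‖om (t :: L) - om L‖ = Cb j * ‖Vg t.ε t.i‖ := by
    rw [hom, norm_cs, abs_of_pos t.μ_pos, htμ]
  have hsmall : ‖om (t :: L)‖ < 1 / 100 := by
    have h1 : om (t :: L) = om L + (om (t :: L) - om L) := by abel
    have h2 := norm_add_le (om L) (om (t :: L) - om L)
    rw [← h1, homn] at h2
    linarith
  have hTlam : (T + 1) * ‖om (t :: L) - om L‖ ≤ lam := by rw [homn]; exact hx1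
  have hTn : (0 : ℝ) ≤ T := Nat.cast_nonneg T
  -- the deviation at time T
  have hDD : ‖DD Z₀ (om L) T - DD Z₀ (om (t :: L)) T‖ ≤ lam := by
    refine (DD_sub_le _ _ _ hTn).trans ?_
    rw [norm_sub_rev]; exact hTlam
  have hD1 := norm_DD_le hZ h.small.le hTn
  have hD2 := norm_DD_le hZ hsmall.le hTn
  -- the pattern of the new group
  have hsJt : J.j ≠ t.j := hfresh J h.Jmem
  have hst : s.j ≠ t.j := hfresh s h.smem
  have hJs : J.j ≠ s.j := h.sJ.ne'
  obtain ⟨kμ, hkμ⟩ := mu_nat s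
  obtain ⟨kt, hkt⟩ := mu_nat t
  -- coefficients
  have hco : ∀ (a : ℝ) (m' : ℕ), 0 ≤ a → n + 1 ≤ m' → a ≤ s.κ → m' * a ≤ J.κ →
      ∃ c : ℕ → ℝ, Adm c (t :: L) ∧ c s.j = a ∧ c J.j = m' * a ∧
      (sm (t :: L) fun g => c g.j * p2 t.j s.j g.j) = -(((n + 1 : ℕ) + 1) * a) ∧
      ‖(vL (t :: L) fun g => c g.j) - ((a : ℂ) • Vs + ((m' * a : ℝ) : ℂ) • VJ)‖ ≤ ρ + lam := by
    intro a m' ha hm' has haJ
    obtain ⟨c, hc, hcs, hcJ, hcp, hcv⟩ := h.co a m' ha (by omega) has haJ
    have hna : ((n : ℝ) + 1) * a ≤ m' * a := by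
      refine mul_le_mul_of_nonneg_right ?_ ha
      exact_mod_cast hm'
    have hn0 : (0 : ℝ) ≤ n := Nat.cast_nonneg n
    have hna0 : 0 ≤ ((n : ℝ) + 1) * a := mul_nonneg (by linarith) ha
    set c' := Function.update c t.j ((n + 1) * a) with hc'
    have hc't : c' t.j = (n + 1) * a := Function.update_self _ _ _
    have hc'L : ∀ g ∈ L, c' g.j = c g.j := fun g hg => Function.update_of_ne (hfresh g hg) _ _
    have hc's : c' s.j = a := by rw [hc'L s h.smem, hcs]
    have hc'J : c' J.j = m' * a := by rw [hc'L J h.Jmem, hcJ]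
    refine ⟨c', ⟨Adm_update h.wf hfresh _ hc, ?_, ?_, fun _ => ⟨?_, ?_⟩⟩, hc's, hc'J, ?_, ?_⟩
    · rw [hc't]; exact hna0
    · rw [hc't]; exact hna.trans haJ
    · rw [hc't]
      have h1 : (sm L fun g => c' g.j * t.p g.j) = sm L fun g => c g.j * p g.j :=
        sm_congr fun g hg => by rw [hc'L g hg]; rfl
      rw [h1, hcp]; ring
    · rw [hc't]
      change _ ≤ c' J.j
      rw [hc'J]; exact hna
    · rw [sm_p2 hwf h.smem (fun g => c' g.j), hc't, hc's]
      push_cast; ring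
    · rw [vL_cons]
      have h1 : (vL L fun g => c' g.j) = vL L fun g => c g.j := by
        unfold vL
        exact smV_congr fun g hg => by
          change ((c' g.j : ℝ) : ℂ) • _ = ((c g.j : ℝ) : ℂ) • _
          rw [hc'L g hg]
      rw [h1, add_sub_assoc, add_comm ρ lam]
      refine (norm_add_le _ _).trans (add_le_add ?_ hcv)
      rw [hc't]
      have h2 : ‖((((n + 1) * a : ℝ)) : ℂ) • Vg t.ε t.i‖ = |(n + 1) * a| * ‖Vg t.ε t.i‖ :=
        norm_cs _ _
      rw [h2, abs_of_nonneg hna0]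
      refine le_trans (mul_le_mul_of_nonneg_right (hna.trans haJ) hVt0) hx3
  have hchain : ∀ z : Gp → ℝ, (∀ d, Ramp (t :: L) d → -3 ≤ sm (t :: L) fun g => d g.j * z g) →
      ((n : ℝ) + 1) * z s - 3 * (n + 1) ≤ z t := by
    classical
    intro z hz
    have h1 : ∀ d, Ramp L d → -3 ≤ sm L fun g => d g.j * z g := by
      intro d hd
      have h2 := hz _ (hd.ext0 hfresh)
      rw [sm_cons, Function.update_self] at h2
      simp only [Int.cast_zero, zero_mul, zero_add] at h2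
      refine h2.trans (le_of_eq (sm_congr fun g hg => ?_))
      rw [Function.update_of_ne (hfresh g hg)]
    have h2 := h.chain z h1
    have h3 : Ramp (t :: L) (Function.update p t.j 1) := by
      refine ⟨(dig_of_p h.pv).update _ (Or.inr (Or.inl rfl)), ?_⟩
      have h4 := ramp_one hwf (t := t) rfl (d := fun g => if g ∈ L then t.p g.j else 1)
        (by
          have : t ∉ L := fun hmem => hfresh t hmem rfl
          simp [this])
        (fun g hg => by simp [hg])
      have h5 : (sm (t :: L) fun g => g.μ * (Function.update p t.j 1 g.j : ℤ)) =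
          sm (t :: L) fun g => g.μ * ((if g ∈ L then t.p g.j else 1 : ℤ) : ℝ) := by
        refine sm_congr fun g hg => ?_
        rcases List.mem_cons.1 hg with h6 | h6
        · subst h6
          have : t ∉ L := fun hmem => hfresh t hmem rfl
          rw [Function.update_self, if_neg this]
        · rw [Function.update_of_ne (hfresh g h6), if_pos h6]
          rfl
      rw [h5]
      exact h4
    have h4 := hz _ h3
    rw [sm_cons, Function.update_self] at h4
    have h5 : (sm L fun g => (Function.update p t.j 1 g.j : ℤ) * z g) =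
        sm L fun g => p g.j * z g :=
      sm_congr fun g hg => by rw [Function.update_of_ne (hfresh g hg)]
    rw [h5] at h4
    push_cast at h4
    linarith
  -- the value at time T for the new flow
  set δ := ‖VJ‖ / ‖Vs‖ with hδ
  have hδ0 : 0 < δ := div_pos hJ hs
  obtain ⟨m', hm', hval⟩ : ∃ m' : ℕ, n + 1 ≤ m' ∧
      b - 20 * (3 * δ ^ 2 + δ * e) ≤ Val Vs VJ (DD Z₀ (om L) T) m' := by
    rcases Nat.lt_or_ge n m with hnm | hnm
    · refine ⟨m, hnm, ?_⟩
      have := h.val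
      have h5 := sq_nonneg δ
      have h6 := mul_nonneg hδ0.le he0
      linarith
    · have hmn : m = n := le_antisymm hnm h.nm
      refine ⟨n + 1, le_rfl, ?_⟩
      have hv := h.val
      rw [hmn] at hv
      set D := DD Z₀ (om L) T with hD
      have hxb : |xc Vs D| ≤ 3 / 2 := (abs_xc_le hs).trans (by linarith)
      have hyb : |xc VJ D| ≤ 3 / 2 := (abs_xc_le hJ).trans (by linarith)
      have hr1 := one_le_r (n * δ)
      have hrt := le_r (t := n * δ)
      have hG : -(e * Real.sqrt (1 + (n * δ) ^ 2)) ≤ xc VJ D - n * δ * xc Vs D := by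
        rcases Nat.eq_zero_or_pos n with hn0 | hn0
        · have := he' hn0
          rw [hn0]
          have := (abs_le.1 hyb).1
          have h1 := one_le_r ((0 : ℕ) * δ)
          simp only [Nat.cast_zero, zero_mul, sub_zero] at h1 ⊢
          have h2 := le_mul_of_one_le_right he0 h1
          linarith
        · have h1 := h.con hn0
          have h2 := he hn0
          set r := Real.sqrt (1 + (n * δ) ^ 2) with hr
          have e1 : inner ℝ D Vs / ‖Vs‖ ^ 2 = xc Vs D / ‖Vs‖ := by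
            unfold xc; field_simp
          have e2 : inner ℝ D VJ / ‖VJ‖ ^ 2 = xc VJ D / ‖VJ‖ := by
            unfold xc; field_simp
          rw [e1, e2] at h1
          have h3 := mul_le_mul_of_nonneg_right h1 hJ.le
          have e3 : xc VJ D / ‖VJ‖ * ‖VJ‖ = xc VJ D := by field_simp
          have e4 : (n * (xc Vs D / ‖Vs‖) - (15 * (n + 1) + Cb J.j)) * ‖VJ‖ =
              n * δ * xc Vs D - (15 * (n * δ * ‖Vs‖) + (15 + Cb J.j) * ‖VJ‖) := by
            rw [hδ]; field_simp; ring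
          rw [e3, e4] at h3
          have h4 : 15 * (n * δ * ‖Vs‖) ≤ 15 * ‖Vs‖ * r := by
            have h5 := mul_le_mul_of_nonneg_right hrt hs.le
            linarith
          have hC := Cb_pos J.j
          have h5 : (15 + Cb J.j) * ‖VJ‖ ≤ (15 + Cb J.j) * ‖VJ‖ * r :=
            le_mul_of_one_le_right (mul_nonneg (by linarith) hJ.le) hr1
          have h6 : (15 * ‖Vs‖ + (15 + Cb J.j) * ‖VJ‖) * r ≤ e * r :=
            mul_le_mul_of_nonneg_right h2 (by linarith)
          linarith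
      have hrot := rotation hδ0 hxb hyb hG he0
      unfold Val at hv ⊢
      rw [← hδ] at hv ⊢
      push_cast
      linarith
  have hval2 : b - 20 * (3 * δ ^ 2 + δ * e) - 44 * lam ≤ Val Vs VJ (DD Z₀ (om (t :: L)) T) m' := by
    have h1 := Val_lip hs hJ (hD1.trans (by norm_num)) (hD2.trans (by norm_num)) hDD m'
    linarith
  -- waiting
  have hM : ‖Z₀ - om (t :: L)‖ ≤ 2 := (norm_sub_le _ _).trans (by linarith)
  have hramps := all_ramps hi hM
  -- the upper constraint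
  have hup : ∀ᶠ T' : ℕ in atTop, inner ℝ (DD Z₀ (om (t :: L)) T') (Ng t.ε t.i) -
      inner ℝ (DD Z₀ (om (t :: L)) T') (Ng J.ε J.i) ≤ Cb J.j + 3 := by
    let dd : ℕ → ℤ := fun k => if k = t.j then -1 else if k = J.j then 1 else 0
    have hdd : Dig dd := by
      intro k; simp only [dd]; split_ifs <;> simp
    have hsum : ∀ f : Gp → ℝ, (sm (t :: L) fun g => f g * (dd g.j : ℤ)) = -f t + f J := by
      intro f
      rw [sm_cons]
      have h1 : (sm L fun g => f g * (dd g.j : ℤ)) = sm L fun g => if g.j = J.j then f g else 0 := by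
        refine sm_congr fun g hg => ?_
        simp only [dd]
        rw [if_neg (hfresh g hg)]
        split_ifs <;> simp
      rw [h1, sm_single h.wf h.Jmem]
      simp only [dd, if_true]
      push_cast
      ring
    have hJμ : J.μ = 2 * Cb J.j := by unfold Gp.μ; simp [h.Jmain]
    have hR : Icc ((sm (t :: L) fun g => g.μ * dd g.j) - Cb J.j - 1)
        ((sm (t :: L) fun g => g.μ * dd g.j) - Cb J.j) ⊆ Rset := by
      rw [hsum Gp.μ, htμ, hJμ]
      have hvJ : (vj t.j : ℝ) = Cb J.j := by rw [htj, hvj]; exact Cb_nat _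
      have h2 := ramp_two hwf hvJ (h := Cb t.j - 2 * Cb J.j) rfl
      rw [htj] at h2
      intro y hy
      have h3 : -y ∈ Icc (Cb j - 2 * Cb J.j + Cb J.j) (Cb j - 2 * Cb J.j + Cb J.j + 1) :=
        ⟨by linarith [hy.2], by linarith [hy.1]⟩
      obtain ⟨k, hk⟩ := h2 h3
      exact ⟨k, by rwa [abs_neg] at hk⟩
    obtain ⟨T₀, hT₀⟩ := pat_asym hi hdd (Cb_pos J.j).le hR (fl_traj Z₀ (om (t :: L)))
      (by rw [fl_zero]; exact hM)
    filter_upwards [eventually_ge_atTop T₀] with T' hT'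
    have h1 := hT₀ T' hT'
    have h2 : (sm (t :: L) fun g => (dd g.j : ℤ) *
        inner ℝ (fl Z₀ (om (t :: L)) T' - om (t :: L)) (Ng g.ε g.i)) =
        sm (t :: L) fun g => inner ℝ (DD Z₀ (om (t :: L)) T') (Ng g.ε g.i) * (dd g.j : ℤ) :=
      sm_congr fun g _ => mul_comm _ _
    rw [h2, hsum] at h1
    linarith
  obtain ⟨T', hT'T, hT'r, hT'u⟩ :=
    ((eventually_ge_atTop T).and (hramps.and hup)).exists
  have hT'n : (0 : ℝ) ≤ T' := Nat.cast_nonneg T'
  have hTT' : (T : ℝ) ≤ T' := by exact_mod_cast hT'T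
  refine ⟨t, p2 t.j s.j, kt + kμ, m', T', ?_, hTlam, hT'T⟩
  refine { wf := hwf, si := hi, small := hsmall, smem := by simp [h.smem], Jmem := by simp [h.Jmem],
           Jmain := h.Jmain, sJ := h.sJ, above := ?_, seps := h.seps, Jeps := h.Jeps,
           skap := h.skap, Jkap := h.Jkap, adm := ?_, co := hco, pv := p2_v _ _, pJ := ?_,
           pu := ?_, chain := ?_, nm := hm', val := ?_, con := ?_ }
  · intro g hg hlt
    rcases List.mem_cons.1 hg with h1 | h1
    · rw [h1]; rfl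
    · exact h.above g h1 hlt
  · intro a ha haJ
    exact sgl_adm hsJt rfl hκJ h.pJ ha (h.adm a ha haJ)
  · unfold p2
    rw [if_neg hsJt, if_neg hJs]
  · rw [sm_p2 hwf h.smem Gp.μ]
    push_cast
    rw [hkt, hkμ]
    ring
  · intro z hz
    have h1 := hchain z hz
    have h2 : (sm (t :: L) fun g => (p2 t.j s.j g.j : ℤ) * z g) =
        sm (t :: L) fun g => z g * (p2 t.j s.j g.j : ℤ) := sm_congr fun g _ => mul_comm _ _
    rw [h2, sm_p2 hwf h.smem z]
    push_cast
    linarith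
  · obtain ⟨c, hc, _, _, _, hcv⟩ := hco (am Vs VJ m') m' (am_nonneg _) hm'
      ((am_le hs _).trans_eq h.skap.symm) ((mul_am_le hs hJ _).trans_eq h.Jkap.symm)
    have h1 := Val_mono hwf hZ hsmall.le hs hJ hc hcv hTn hTT'
    linarith
  · intro _
    set D := DD Z₀ (om (t :: L)) T' with hD
    have hDn := norm_DD_le hZ hsmall.le hT'n
    have h1 := hchain (fun g => inner ℝ D (Ng g.ε g.i)) hT'r
    have h2 := abs_le.1 (Ng_coord h.seps.1 h.seps.2 hDn)
    have h3 := abs_le.1 (Ng_coord h.Jeps.1 h.Jeps.2 hDn)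
    have hn0 : (0 : ℝ) ≤ n := Nat.cast_nonneg n
    push_cast
    rw [← hVs] at h2
    rw [← hVJ] at h3
    have h4 : ((n : ℝ) + 1) * (inner ℝ D Vs / ‖Vs‖ ^ 2 - 12) ≤
        (n + 1) * inner ℝ D (Ng s.ε s.i) :=
      mul_le_mul_of_nonneg_left (by linarith) (by linarith)
    linarith

end

end Pool.Agent.Lib_helper45.W2
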