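import Pool.Agent.Lib_helper45.W2.Init

/-!
Bounded real Fourier multipliers on the torus.
-/

open MeasureTheory Set Filter Topology
open scoped NNReal ENNReal ComplexConjugate

namespace Pool.Agent.Lib_helper45.W2

noncomputable section

/-- Unimodular symbol with a given real part. -/
def ua (s : ℝ) (b : (Fin 2 → ℤ) → ℝ) (k : Fin 2 → ℤ) : ℂ := ⟨b k, s * Real.sqrt (1 - b k ^ 2)⟩

theorem norm_ua {s : ℝ} (hs : s ^ 2 = 1) {b : (Fin 2 → ℤ) → ℝ} (hb : ∀ k, |b k| ≤ 1)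
    (k : Fin 2 → ℤ) : ‖ua s b k‖ = 1 := by
  have h1 : 0 ≤ 1 - b k ^ 2 := by
    have := hb k
    have h2 : b k ^ 2 ≤ 1 := by
      rw [← sq_abs]
      exact pow_le_one₀ (abs_nonneg _) this
    linarith
  have h2 : ‖ua s b k‖ ^ 2 = 1 := by
    rw [← Complex.normSq_eq_norm_sq, Complex.normSq_apply, ua]
    change b k * b k + s * Real.sqrt (1 - b k ^ 2) * (s * Real.sqrt (1 - b k ^ 2)) = 1
    have h3 : s * Real.sqrt (1 - b k ^ 2) * (s * Real.sqrt (1 - b k ^ 2)) =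
        s ^ 2 * (Real.sqrt (1 - b k ^ 2)) ^ 2 := by ring
    rw [h3, hs, Real.sq_sqrt h1]
    ring
  nlinarith [norm_nonneg (ua s b k)]

/-- Fourier multiplier with a bounded real symbol. -/
def Mb {b : (Fin 2 → ℤ) → ℝ} (hb : ∀ k, |b k| ≤ 1) : K 2 →L[ℂ] K 2 :=
  (1 / 2 : ℂ) • ((mulOf (eb 2) (norm_ua (s := 1) (by norm_num) hb)).toContinuousLinearMap +
    (mulOf (eb 2) (norm_ua (s := -1) (by norm_num) hb)).toContinuousLinearMap)

theorem Mb_ev {b : (Fin 2 → ℤ) → ℝ} (hb : ∀ k, |b k| ≤ 1) (k : Fin 2 → ℤ) :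
    Mb hb (ev k) = ((b k : ℝ) : ℂ) • ev k := by
  have h1 := mulOf_basis (eb 2) (norm_ua (s := 1) (by norm_num) hb) k
  have h2 := mulOf_basis (eb 2) (norm_ua (s := -1) (by norm_num) hb) k
  rw [eb_apply] at h1 h2
  change (1 / 2 : ℂ) • (mulOf (eb 2) (norm_ua (s := 1) (by norm_num) hb) (ev k) +
    mulOf (eb 2) (norm_ua (s := -1) (by norm_num) hb) (ev k)) = _
  rw [h1, h2, ← add_smul, smul_smul]
  congr 1
  apply Complex.ext
  · simp [ua]; ring
  · simp [ua]

theorem norm_Mb_le {b : (Fin 2 → ℤ) → ℝ} (hb : ∀ k, |b k| ≤ 1) (x : K 2) :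
    ‖Mb hb x‖ ≤ ‖x‖ := by
  change ‖(1 / 2 : ℂ) • (mulOf (eb 2) (norm_ua (s := 1) (by norm_num) hb) x +
    mulOf (eb 2) (norm_ua (s := -1) (by norm_num) hb) x)‖ ≤ _
  rw [norm_smul]
  have h1 := norm_add_le (mulOf (eb 2) (norm_ua (s := 1) (by norm_num) hb) x)
    (mulOf (eb 2) (norm_ua (s := -1) (by norm_num) hb) x)
  rw [LinearIsometry.norm_map, LinearIsometry.norm_map] at h1
  have h2 : ‖(1 / 2 : ℂ)‖ = 1 / 2 := by norm_num
  rw [h2]
  linarith

theorem inner_ev_Mb {b : (Fin 2 → ℤ) → ℝ} (hb : ∀ k, |b k| ≤ 1) (k : Fin 2 → ℤ) (x : K 2) :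
    inner ℂ (ev k) (Mb hb x) = (b k : ℂ) * inner ℂ (ev k) x := by
  classical
  refine K_induct (p := fun x => inner ℂ (ev k) (Mb hb x) = (b k : ℂ) * inner ℂ (ev k) x)
    ?_ ?_ ?_ ?_ x
  · have hc : Continuous fun x : K 2 => (inner ℂ (ev k : K 2) x : ℂ) :=
      continuous_const.inner continuous_id
    exact isClosed_eq (continuous_const.inner (Mb hb).continuous) (continuous_const.mul hc)
  · simp
  · intro x y hx hy
    rw [map_add, inner_add_right, inner_add_right, hx, hy, mul_add]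
  · intro c l
    rw [map_smul, Mb_ev, inner_smul_right, inner_smul_right, inner_smul_right, inner_ev]
    split_ifs with h
    · rw [h]; ring
    · ring

theorem inner_Mb {b : (Fin 2 → ℤ) → ℝ} (hb : ∀ k, |b k| ≤ 1) (x y : K 2) :
    inner ℂ (Mb hb x) y = inner ℂ x (Mb hb y) := by
  refine K_induct (p := fun x => inner ℂ (Mb hb x) y = inner ℂ x (Mb hb y)) ?_ ?_ ?_ ?_ x
  · have hc : Continuous fun x : K 2 => (inner ℂ x (Mb hb y) : ℂ) :=
      continuous_id.inner continuous_const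
    exact isClosed_eq ((Mb hb).continuous.inner continuous_const) hc
  · simp
  · intro x x' hx hx'
    rw [map_add, inner_add_left, inner_add_left, hx, hx']
  · intro c k
    rw [map_smul, Mb_ev, inner_smul_left, inner_smul_left, inner_smul_left, inner_ev_Mb,
      Complex.conj_ofReal]

theorem inner_Mb_real {b : (Fin 2 → ℤ) → ℝ} (hb : ∀ k, |b k| ≤ 1) (x y : K 2) :
    inner ℝ (Mb hb x) y = inner ℝ x (Mb hb y) := by
  rw [inner_real_eq, inner_real_eq, inner_Mb]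

/-- Behaviour under conjugation. -/
theorem star_Mb {b : (Fin 2 → ℤ) → ℝ} (hb : ∀ k, |b k| ≤ 1) {σ : ℝ}
    (hσ : ∀ k, b (-k) = σ * b k) (x : K 2) :
    star (Mb hb x) = (σ : ℂ) • Mb hb (star x) := by
  refine K_induct (p := fun x => star (Mb hb x) = (σ : ℂ) • Mb hb (star x)) ?_ ?_ ?_ ?_ x
  · exact isClosed_eq (continuous_starK.comp (Mb hb).continuous)
      (((Mb hb).continuous.comp continuous_starK).const_smul (σ : ℂ))
  · have h0 : star (0 : K 2) = 0 := by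
      rw [← norm_eq_zero, norm_starK, norm_zero]
    rw [map_zero, h0, map_zero, smul_zero]
  · intro x y hx hy
    rw [map_add, starK_add, starK_add, map_add, hx, hy, smul_add]
  · intro c k
    rw [map_smul, Mb_ev, starK_smul, starK_smul, starK_smul, starK_ev, map_smul, Mb_ev, hσ,
      Complex.conj_ofReal, smul_smul, smul_smul, smul_smul]
    have h1 := hσ (-k)
    rw [neg_neg] at h1
    by_cases hb0 : b k = 0
    · rw [hb0]; simp
    · have h2 : σ * σ = 1 := by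
        rw [hσ] at h1
        have : b k * (σ * σ - 1) = 0 := by linear_combination -h1
        rcases mul_eq_zero.1 this with h | h
        · exact absurd h hb0
        · linarith
      congr 1
      have h3 : ((σ : ℂ)) * σ = 1 := by exact_mod_cast h2
      push_cast
      linear_combination -(conj c * b k) * h3

/-- Behaviour under reflections. -/
theorem Rf_Mb {b : (Fin 2 → ℤ) → ℝ} (hb : ∀ k, |b k| ≤ 1) {σ : ℝ} {j : Fin 2}
    (hσ : ∀ k, b (fun i => if i = j then -(k i) else k i) = σ * b k) (x : K 2) :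
    Mb hb (Rf j x) = (σ : ℂ) • Rf j (Mb hb x) := by
  have h : (Mb hb).comp (Rf j).toContinuousLinearMap =
      (σ : ℂ) • (Rf j).toContinuousLinearMap.comp (Mb hb) := by
    refine K_ext fun k => ?_
    change Mb hb (Rf j (ev k)) = (σ : ℂ) • Rf j (Mb hb (ev k))
    rw [Rf_ev, Mb_ev, Mb_ev, map_smul, Rf_ev, hσ, smul_smul]
    congr 1
    push_cast
    ring
  exact congrArg (fun S => S x) h

/-! ### The symbols -/

theorem one_le_nk {k : Fin 2 → ℤ} (hk : k ≠ 0) : 1 ≤ nk k := by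
  unfold nk
  rw [Real.one_le_sqrt]
  have h1 : k 0 ≠ 0 ∨ k 1 ≠ 0 := by
    by_contra hcon
    push Not at hcon
    apply hk
    ext j; fin_cases j
    · exact hcon.1
    · exact hcon.2
  have h2 : (1 : ℤ) ≤ k 0 ^ 2 + k 1 ^ 2 := by
    rcases h1 with h | h
    · have := sq_nonneg (k 1)
      have h3 : 0 < k 0 ^ 2 := by positivity
      omega
    · have := sq_nonneg (k 0)
      have h3 : 0 < k 1 ^ 2 := by positivity
      omega
  exact_mod_cast h2

theorem nk_zero : nk 0 = 0 := by simp [nk]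

/-- The symbol `1/|k|`. -/
def b0 (k : Fin 2 → ℤ) : ℝ := 1 / nk k

/-- The symbol `k_j/|k|`. -/
def bj (j : Fin 2) (k : Fin 2 → ℤ) : ℝ := k j / nk k

theorem b0_le (k : Fin 2 → ℤ) : |b0 k| ≤ 1 := by
  unfold b0
  by_cases hk : k = 0
  · rw [hk, nk_zero]; simp
  · have h1 := one_le_nk hk
    rw [abs_of_nonneg (by positivity), div_le_one (by linarith)]
    exact h1

theorem bj_le (j : Fin 2) (k : Fin 2 → ℤ) : |bj j k| ≤ 1 := by
  unfold bj
  rw [abs_div, abs_of_nonneg (nk_nonneg k)]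
  refine div_le_one_of_le₀ ?_ (nk_nonneg k)
  unfold nk
  apply Real.le_sqrt_of_sq_le
  rw [sq_abs]
  have h0 := sq_nonneg ((k 0 : ℤ) : ℝ)
  have h1 := sq_nonneg ((k 1 : ℤ) : ℝ)
  fin_cases j
  · change ((k 0 : ℤ) : ℝ) ^ 2 ≤ _; linarith
  · change ((k 1 : ℤ) : ℝ) ^ 2 ≤ _; linarith

/-- The operator `|k|⁻¹`. -/
def L0 : K 2 →L[ℂ] K 2 := Mb b0_le

/-- The operators `k_j/|k|`. -/
def Bj (j : Fin 2) : K 2 →L[ℂ] K 2 := Mb (bj_le j)

theorem nk_refl (j : Fin 2) (k : Fin 2 → ℤ) :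
    nk (fun i => if i = j then -(k i) else k i) = nk k := by
  unfold nk
  congr 1
  fin_cases j <;> simp

theorem L0_Rf (j : Fin 2) (x : K 2) : L0 (Rf j x) = Rf j (L0 x) := by
  have h := Rf_Mb b0_le (σ := 1) (j := j) (fun k => by unfold b0; rw [nk_refl]; ring) x
  rw [Complex.ofReal_one, one_smul] at h
  exact h

theorem star_L0 (x : K 2) : star (L0 x) = L0 (star x) := by
  have h := star_Mb b0_le (σ := 1) (fun k => by unfold b0; rw [nk_neg]; ring) x
  rw [Complex.ofReal_one, one_smul] at h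
  exact h

theorem star_Bj (j : Fin 2) (x : K 2) : star (Bj j x) = -Bj j (star x) := by
  have h := star_Mb (bj_le j) (σ := -1)
    (fun k => by unfold bj; rw [nk_neg, Pi.neg_apply]; push_cast; ring) x
  rw [Complex.ofReal_neg, Complex.ofReal_one, neg_smul, one_smul] at h
  exact h

theorem Bj_Rf (i j : Fin 2) (x : K 2) :
    Bj i (Rf j x) = (((if i = j then -1 else 1 : ℝ)) : ℂ) • Rf j (Bj i x) := by
  refine Rf_Mb (bj_le i) (fun k => ?_) x
  unfold bj
  rw [nk_refl]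
  change ((if i = j then -k i else k i : ℤ) : ℝ) / nk k = _
  by_cases h : i = j
  · rw [if_pos h, if_pos h]; push_cast; ring
  · rw [if_neg h, if_neg h]; ring

/-- Odd functions. -/
def IsOdd (x : K 2) : Prop := ∀ j, Rf j x = -x

theorem inner_ev_zero_Rf (j : Fin 2) (x : K 2) : inner ℂ (ev 0 : K 2) (Rf j x) = inner ℂ (ev 0) x := by
  have h0 : Rf j (ev 0) = ev 0 := by
    rw [Rf_ev]
    congr 1
    ext i
    simp
  conv_lhs => rw [← h0]
  exact (Rf j).inner_map_map _ _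

theorem IsOdd.mean {x : K 2} (hx : IsOdd x) : inner ℂ (ev 0 : K 2) x = 0 := by
  have h1 := inner_ev_zero_Rf 0 x
  rw [hx 0, inner_neg_right] at h1
  have h2 : (2 : ℂ) * inner ℂ (ev 0 : K 2) x = 0 := by linear_combination -h1
  simpa using h2

/-- The sum of the squares of the `B_j` is the identity on mean zero functions. -/
theorem sum_Bj_sq {x : K 2} (hx : inner ℂ (ev 0 : K 2) x = 0) :
    Bj 0 (Bj 0 x) + Bj 1 (Bj 1 x) = x := by
  apply K_ext'
  intro k
  rw [inner_add_right, Bj, Bj, inner_ev_Mb, inner_ev_Mb, inner_ev_Mb, inner_ev_Mb]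
  by_cases hk : k = 0
  · rw [hk, hx]; simp
  · have h1 := one_le_nk hk
    have h2 : (bj 0 k : ℝ) * bj 0 k + bj 1 k * bj 1 k = 1 := by
      unfold bj
      have h3 : nk k ^ 2 = (k 0 : ℝ) ^ 2 + (k 1 : ℝ) ^ 2 := Real.sq_sqrt (by positivity)
      have h4 : nk k ≠ 0 := by linarith
      field_simp
      rw [h3]
    have h3 : ((bj 0 k : ℝ) : ℂ) * bj 0 k + bj 1 k * bj 1 k = 1 := by exact_mod_cast h2
    linear_combination (inner ℂ (ev k) x) * h3

theorem norm_sq_Bj {x : K 2} (hx : inner ℂ (ev 0 : K 2) x = 0) :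
    ‖x‖ ^ 2 = ‖Bj 0 x‖ ^ 2 + ‖Bj 1 x‖ ^ 2 := by
  have h1 : ‖x‖ ^ 2 = inner ℝ x x := (real_inner_self_eq_norm_sq x).symm
  have h2 : ‖Bj 0 x‖ ^ 2 = inner ℝ (Bj 0 x) (Bj 0 x) := (real_inner_self_eq_norm_sq _).symm
  have h3 : ‖Bj 1 x‖ ^ 2 = inner ℝ (Bj 1 x) (Bj 1 x) := (real_inner_self_eq_norm_sq _).symm
  have h4 : inner ℝ (Bj 0 x) (Bj 0 x) = inner ℝ x (Bj 0 (Bj 0 x)) := inner_Mb_real _ _ _
  have h5 : inner ℝ (Bj 1 x) (Bj 1 x) = inner ℝ x (Bj 1 (Bj 1 x)) := inner_Mb_real _ _ _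
  rw [h1, h2, h3, h4, h5, ← inner_add_right, sum_Bj_sq hx]

end

end Pool.Agent.Lib_helper45.W2
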