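import Pool.Agent.Lib_helper45.W2.Meas
import Pool.Agent.Lib_helper45.W2.Digits

/-!
The nonlinearity as an operator on `L²`.
-/

open MeasureTheory Set Filter Topology
open scoped NNReal ENNReal ComplexConjugate

namespace Pool.Agent.Lib_helper45.W2

noncomputable section

/-- The nonlinearity acting on the real part. -/
def Gc (z : ℂ) : ℂ := ((gf z.re : ℝ) : ℂ)

theorem Gc_lip : LipschitzWith 1 Gc := by
  refine LipschitzWith.of_dist_le_mul fun z w => ?_
  rw [NNReal.coe_one, one_mul, dist_eq_norm, dist_eq_norm, Gc, Gc, ← Complex.ofReal_sub,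
    Complex.norm_real]
  have h1 := gf_lip.dist_le_mul z.re w.re
  rw [NNReal.coe_one, one_mul, Real.dist_eq, Real.dist_eq] at h1
  refine h1.trans ?_
  rw [← Complex.sub_re]
  exact Complex.abs_re_le_norm _

theorem Gc_zero : Gc 0 = 0 := by simp [Gc, gf_zero]

/-- The nonlinearity on `L²`. -/
def NN (f : K 2) : K 2 := Gc_lip.compLp Gc_zero f

theorem coeFn_NN (f : K 2) : NN f =ᵐ[mu 2] fun x => ((gf (f x).re : ℝ) : ℂ) :=
  Gc_lip.coeFn_compLp Gc_zero f

theorem inner_real_integral {d : ℕ} (f h : K d) :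
    inner ℝ f h = ∫ x, ((f x).re * (h x).re + (f x).im * (h x).im) ∂(mu d) := by
  rw [MeasureTheory.L2.inner_def]
  refine integral_congr_ae (Eventually.of_forall fun x => ?_)
  change inner ℝ (f x) (h x) = _
  rw [Complex.inner]
  simp [Complex.mul_re]
  ring

theorem norm_sq_integral {d : ℕ} (f : K d) : ‖f‖ ^ 2 = ∫ x, ‖f x‖ ^ 2 ∂(mu d) := by
  rw [← real_inner_self_eq_norm_sq, MeasureTheory.L2.inner_def]
  refine integral_congr_ae (Eventually.of_forall fun x => ?_)
  exact real_inner_self_eq_norm_sq _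

theorem integrable_norm_sq {d : ℕ} (f : K d) : Integrable (fun x => ‖f x‖ ^ 2) (mu d) := by
  have := MeasureTheory.L2.integrable_inner (𝕜 := ℝ) f f
  refine this.congr (Eventually.of_forall fun x => ?_)
  exact real_inner_self_eq_norm_sq _

theorem NN_firm : IsFirm NN := by
  intro f h
  rw [norm_sq_integral, inner_real_integral]
  refine integral_mono_ae (integrable_norm_sq _) ?_ ?_
  · have := MeasureTheory.L2.integrable_inner (𝕜 := ℝ) (NN f - NN h) (f - h)
    refine this.congr (Eventually.of_forall fun x => ?_)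
    change inner ℝ ((NN f - NN h) x) ((f - h) x) = _
    rw [Complex.inner]
    simp [Complex.mul_re]
    ring
  · filter_upwards [Lp.coeFn_sub (NN f) (NN h), Lp.coeFn_sub f h, coeFn_NN f, coeFn_NN h]
      with x h1 h2 h3 h4
    rw [h1, h2, Pi.sub_apply, Pi.sub_apply, h3, h4, ← Complex.ofReal_sub, Complex.norm_real,
      Complex.ofReal_re, Complex.ofReal_im, zero_mul, add_zero, Complex.sub_re, Real.norm_eq_abs,
      sq_abs]
    exact gf_firm _ _

theorem norm_le_add_of_ae {d : ℕ} {a b c : K d}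
    (h : ∀ᵐ x ∂(mu d), ‖a x‖ ≤ ‖b x‖ + ‖c x‖) : ‖a‖ ≤ ‖b‖ + ‖c‖ := by
  rw [Lp.norm_def, Lp.norm_def, Lp.norm_def, ← ENNReal.toReal_add (Lp.eLpNorm_ne_top b)
    (Lp.eLpNorm_ne_top c)]
  refine ENNReal.toReal_mono (ENNReal.add_ne_top.2 ⟨Lp.eLpNorm_ne_top b, Lp.eLpNorm_ne_top c⟩) ?_
  have h1 : eLpNorm a 2 (mu d) ≤ eLpNorm (fun x => ‖b x‖ + ‖c x‖) 2 (mu d) := by
    refine eLpNorm_mono_ae ?_
    filter_upwards [h] with x hx
    rwa [Real.norm_of_nonneg (by positivity)]
  refine h1.trans ?_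
  have h2 := eLpNorm_add_le (μ := mu d) (p := 2) (f := fun x => ‖b x‖) (g := fun x => ‖c x‖)
    (Lp.aestronglyMeasurable b).norm (Lp.aestronglyMeasurable c).norm (by norm_num)
  rw [eLpNorm_norm, eLpNorm_norm] at h2
  exact h2

/-- Continuity of a curve dominated by two continuous curves. -/
theorem continuous_cur_of_le {F G H : Tr 3 → ℂ} (hF : BM F) (hG : BM G) (hH : BM H)
    (hGc : Continuous (cur hG)) (hHc : Continuous (cur hH))
    (hle : ∀ y z, ‖F y - F z‖ ≤ ‖G y - G z‖ + ‖H y - H z‖) : Continuous (cur hF) := by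
  rw [continuous_iff_continuousAt]
  intro t
  rw [ContinuousAt, tendsto_iff_norm_sub_tendsto_zero]
  have h1 := tendsto_iff_norm_sub_tendsto_zero.1 (hGc.tendsto t)
  have h2 := tendsto_iff_norm_sub_tendsto_zero.1 (hHc.tendsto t)
  have h3 := h1.add h2
  rw [add_zero] at h3
  refine squeeze_zero (fun _ => norm_nonneg _) (fun s => ?_) h3
  apply norm_le_add_of_ae
  filter_upwards [Lp.coeFn_sub (cur hF s) (cur hF t), Lp.coeFn_sub (cur hG s) (cur hG t),
    Lp.coeFn_sub (cur hH s) (cur hH t), coeFn_cur hF s, coeFn_cur hF t, coeFn_cur hG s,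
    coeFn_cur hG t, coeFn_cur hH s, coeFn_cur hH t] with x a1 a2 a3 b1 b2 b3 b4 b5 b6
  rw [a1, a2, a3, Pi.sub_apply, Pi.sub_apply, Pi.sub_apply, b1, b2, b3, b4, b5, b6]
  exact hle _ _

end

end Pool.Agent.Lib_helper45.W2
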