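import Pool.Agent.Lib_helper45.W2.Weak

/-!
Comparison of the norm on the torus and the norm on the square, for symmetric functions.
-/

open MeasureTheory Set Filter Topology
open scoped NNReal ENNReal ComplexConjugate

namespace Pool.Agent.Lib_helper45.W2

open Pool.Agent.WaveND

noncomputable section

/-! ### The half circle -/

theorem haar_singleton (a : UnitAddCircle) :
    (AddCircle.haarAddCircle : Measure UnitAddCircle) {a} = 0 := by
  rw [← mp_real.measure_preimage (measurableSet_singleton a).nullMeasurableSet]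
  obtain ⟨x₀, rfl⟩ := QuotientAddGroup.mk_surjective a
  have hc : ((fun t : ℝ => (t : UnitAddCircle)) ⁻¹' {(x₀ : UnitAddCircle)}).Countable := by
    refine (countable_range (fun n : ℤ => x₀ - n • (1 : ℝ))).mono fun x hx => ?_
    have h1 : (x : UnitAddCircle) = (x₀ : UnitAddCircle) := hx
    have h2 := QuotientAddGroup.eq.1 h1
    obtain ⟨n, hn⟩ := AddSubgroup.mem_zmultiples_iff.1 h2
    exact ⟨n, by change x₀ - n • (1 : ℝ) = x; rw [hn]; ring⟩
  exact hc.measure_zero _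

instance : NullSingletonClass (AddCircle.haarAddCircle : Measure UnitAddCircle) :=
  ⟨haar_singleton⟩

/-- The open half circle. -/
def A0 : Set UnitAddCircle := (fun t : ℝ => (t : UnitAddCircle)) '' Ioo (0 : ℝ) (1 / 2)

theorem isOpen_A0 : IsOpen A0 := QuotientAddGroup.isOpenMap_coe _ isOpen_Ioo

theorem coe_one : ((1 : ℝ) : UnitAddCircle) = 0 := AddCircle.coe_period 1

theorem A0_cover {s : UnitAddCircle} (h0 : s ≠ 0) (h1 : s ≠ ((1 / 2 : ℝ) : UnitAddCircle)) :
    s ∈ A0 ∨ -s ∈ A0 := by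
  have h2 : s ∈ QuotientAddGroup.mk '' Ioc (0 : ℝ) (0 + 1) := by
    rw [AddCircle.coe_image_Ioc_eq (1 : ℝ) 0]; trivial
  obtain ⟨x, hx, rfl⟩ := h2
  rw [zero_add] at hx
  rcases lt_trichotomy x (1 / 2) with h | h | h
  · exact Or.inl ⟨x, ⟨hx.1, h⟩, rfl⟩
  · exact absurd (by rw [h]) h1
  · right
    have hx1 : x ≠ 1 := by
      rintro rfl
      exact h0 coe_one
    have hx2 : x < 1 := lt_of_le_of_ne hx.2 hx1
    refine ⟨1 - x, ⟨by linarith, by linarith⟩, ?_⟩
    change ((1 - x : ℝ) : UnitAddCircle) = -((x : ℝ) : UnitAddCircle)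
    rw [AddCircle.coe_sub, coe_one, zero_sub]

theorem mem_A0_iff {x : ℝ} (hx : x ∈ Ioc (0 : ℝ) 1) :
    ((x : ℝ) : UnitAddCircle) ∈ A0 ↔ x ∈ Ioo (0 : ℝ) (1 / 2) := by
  constructor
  · rintro ⟨y, hy, hxy⟩
    have hy' : y ∈ Ioc (0 : ℝ) (0 + 1) := ⟨hy.1, by linarith [hy.2]⟩
    have hx' : x ∈ Ioc (0 : ℝ) (0 + 1) := by rw [zero_add]; exact hx
    have := (AddCircle.coe_eq_coe_iff_of_mem_Ioc hy' hx').1 hxy
    rw [← this]; exact hy
  · intro h
    exact ⟨x, h, rfl⟩

/-- The half torus. -/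
def Sj (j : Fin 2) : Set (Tr 2) := {y | y j ∈ A0}

theorem measurableSet_Sj (j : Fin 2) : MeasurableSet (Sj j) :=
  (isOpen_A0.preimage (continuous_apply j)).measurableSet

/-- The reflection. -/
def rr2 (j : Fin 2) (y : Tr 2) : Tr 2 := aff (rfl2 j) 0 y

theorem rr2_apply (j : Fin 2) (y : Tr 2) (i : Fin 2) :
    rr2 j y i = if i = j then -y i else y i := by
  rw [rr2, aff_apply, Fin.sum_univ_two, rfl2]
  fin_cases i <;> fin_cases j <;> simp [Matrix.diagonal]

theorem mp_rr2 (j : Fin 2) : MeasurePreserving (rr2 j) (mu 2) (mu 2) := mp_aff (RInv_rfl2 j) 0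

theorem ae_cover (j : Fin 2) : ∀ᵐ y ∂(mu 2), y ∈ Sj j ∨ rr2 j y ∈ Sj j := by
  have h0 : (mu 2) {y : Tr 2 | y j = 0} = 0 := Measure.pi_hyperplane _ j _
  have h1 : (mu 2) {y : Tr 2 | y j = ((1 / 2 : ℝ) : UnitAddCircle)} = 0 :=
    Measure.pi_hyperplane _ j _
  have h0' : ∀ᵐ y ∂(mu 2), y j ≠ 0 := by rw [ae_iff]; simpa using h0
  have h1' : ∀ᵐ y ∂(mu 2), y j ≠ ((1 / 2 : ℝ) : UnitAddCircle) := by rw [ae_iff]; simpa using h1
  filter_upwards [h0', h1'] with y h2 h3
  rcases A0_cover h2 h3 with h | h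
  · exact Or.inl h
  · right
    change rr2 j y j ∈ A0
    rw [rr2_apply, if_pos rfl]
    exact h

/-- Folding inequality. -/
theorem fold_ineq (j : Fin 2) {h : Tr 2 → ℝ} (hi : Integrable h (mu 2)) (h0 : ∀ y, 0 ≤ h y)
    (hs : ∀ᵐ y ∂(mu 2), h (rr2 j y) = h y) :
    ∫ y, h y ∂(mu 2) ≤ 2 * ∫ y, (Sj j).indicator h y ∂(mu 2) := by
  have hm := measurableSet_Sj j
  have hi1 : Integrable ((Sj j).indicator h) (mu 2) := hi.indicator hm
  have hi2 : Integrable (fun y => (Sj j).indicator h (rr2 j y)) (mu 2) :=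
    (mp_rr2 j).integrable_comp_of_integrable hi1
  have h1 : ∫ y, (Sj j).indicator h (rr2 j y) ∂(mu 2) = ∫ y, (Sj j).indicator h y ∂(mu 2) := by
    have h2 := integral_map (mp_rr2 j).measurable.aemeasurable
      (f := (Sj j).indicator h) (by rw [(mp_rr2 j).map_eq]; exact hi1.aestronglyMeasurable)
    rw [(mp_rr2 j).map_eq] at h2
    exact h2.symm
  have h2 : ∫ y, h y ∂(mu 2) ≤
      ∫ y, ((Sj j).indicator h y + (Sj j).indicator h (rr2 j y)) ∂(mu 2) := by
    refine integral_mono_ae hi (hi1.add hi2) ?_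
    filter_upwards [ae_cover j, hs] with y hy hsy
    have g1 : 0 ≤ (Sj j).indicator h y := indicator_nonneg (fun y _ => h0 y) y
    have g2 : 0 ≤ (Sj j).indicator h (rr2 j y) := indicator_nonneg (fun y _ => h0 y) _
    rcases hy with h3 | h3
    · have : (Sj j).indicator h y = h y := indicator_of_mem h3 _
      linarith
    · have : (Sj j).indicator h (rr2 j y) = h (rr2 j y) := indicator_of_mem h3 _
      linarith
  rw [integral_add hi1 hi2, h1] at h2
  linarith

theorem iot_mem (x : EN 2) (hx : x ∈ Qu) : (iot x ∈ Sj 1 ∧ iot x ∈ Sj 0) ↔ x ∈ Sq := by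
  have h : ∀ j, iot x ∈ Sj j ↔ x j ∈ Ioo (0 : ℝ) (1 / 2) := fun j => mem_A0_iff (hx j)
  rw [h, h]
  constructor
  · rintro ⟨h1, h0⟩ j
    fin_cases j
    · exact h0
    · exact h1
  · intro hs
    exact ⟨hs 1, hs 0⟩

theorem measurableSet_Sq : MeasurableSet Sq := by
  have : Sq = ⋂ i : Fin 2, {x : EN 2 | x i ∈ Ioo (0 : ℝ) (1 / 2)} := by
    ext x; simp [Sq]
  rw [this]
  refine MeasurableSet.iInter fun i => ?_
  have hc : Continuous fun x : EN 2 => x i := continuous_apply i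
  exact (isOpen_Ioo.preimage hc).measurableSet

/-- Comparison of integrals for symmetric functions. -/
theorem integral_le_four {h : Tr 2 → ℝ} (hi : Integrable h (mu 2)) (h0 : ∀ y, 0 ≤ h y)
    (hs : ∀ j, ∀ᵐ y ∂(mu 2), h (rr2 j y) = h y) :
    ∫ y, h y ∂(mu 2) ≤ 4 * ∫ x in Sq, h (iot x) := by
  classical
  have h1 := fold_ineq 0 hi h0 (hs 0)
  have hi1 : Integrable ((Sj 0).indicator h) (mu 2) := hi.indicator (measurableSet_Sj 0)
  have h2 := fold_ineq 1 hi1 (fun y => indicator_nonneg (fun y _ => h0 y) y) (by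
    filter_upwards [hs 1] with y hy
    have hm : rr2 1 y ∈ Sj 0 ↔ y ∈ Sj 0 := by
      change rr2 1 y 0 ∈ A0 ↔ y 0 ∈ A0
      rw [rr2_apply, if_neg (by decide)]
    rw [indicator_apply, indicator_apply, hy]
    simp only [hm])
  have hi2 : Integrable ((Sj 1).indicator ((Sj 0).indicator h)) (mu 2) :=
    hi1.indicator (measurableSet_Sj 1)
  have h3 : ∫ y, (Sj 1).indicator ((Sj 0).indicator h) y ∂(mu 2) = ∫ x in Sq, h (iot x) := by
    have h4 := integral_map mp_iot.measurable.aemeasurable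
      (f := (Sj 1).indicator ((Sj 0).indicator h))
      (by rw [mp_iot.map_eq]; exact hi2.aestronglyMeasurable)
    rw [mp_iot.map_eq] at h4
    rw [h4]
    have hQ : MeasurableSet Qu := by
      have : Qu = ⋂ i : Fin 2, {x : EN 2 | x i ∈ Ioc (0 : ℝ) 1} := by
        ext x; simp [Qu]
      rw [this]
      refine MeasurableSet.iInter fun i => ?_
      have hc : Continuous fun x : EN 2 => x i := continuous_apply i
      exact hc.measurable measurableSet_Ioc
    have h5 : ∫ x in Qu, (Sj 1).indicator ((Sj 0).indicator h) (iot x) =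
        ∫ x in Qu, Sq.indicator (fun x => h (iot x)) x := by
      refine setIntegral_congr_fun hQ fun x hx => ?_
      have h6 := iot_mem x hx
      simp only [indicator_apply]
      by_cases ha : x ∈ Sq
      · have h7 := h6.2 ha
        rw [if_pos h7.1, if_pos h7.2, if_pos ha]
      · rw [if_neg ha]
        by_cases hb : iot x ∈ Sj 1
        · rw [if_pos hb, if_neg fun hc => ha (h6.1 ⟨hb, hc⟩)]
        · rw [if_neg hb]
    rw [h5, setIntegral_indicator measurableSet_Sq, inter_eq_self_of_subset_right Sq_sub_Qu]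
  rw [h3] at h2
  linarith

/-! ### Comparison of norms -/

/-- Real part. -/
def reK (f : K 2) : K 2 := (1 / 2 : ℂ) • (f + star f)

theorem coeFn_reK (f : K 2) : reK f =ᵐ[mu 2] fun y => (((f y).re : ℝ) : ℂ) := by
  filter_upwards [Lp.coeFn_smul (1 / 2 : ℂ) (f + star f), Lp.coeFn_add f (star f),
    coeFn_starK f] with y h1 h2 h3
  rw [reK, h1, Pi.smul_apply, h2, Pi.add_apply, h3, smul_eq_mul, Complex.add_conj]
  push_cast
  ring

theorem norm_sq_reO (f : K 2) : ‖reO f‖ ^ 2 = ∫ x in Sq, (f (iot x)).re ^ 2 := by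
  rw [← real_inner_self_eq_norm_sq, inner_L2]
  refine integral_congr_ae ?_
  filter_upwards [coeFn_reO f] with x hx
  rw [hx]; ring

theorem norm_reK_le {f : K 2} {σ : Fin 2 → ℝ} (hσ : ∀ j, σ j ^ 2 = 1)
    (hf : ∀ j, Rf j f = (σ j : ℂ) • f) : ‖reK f‖ ≤ 2 * ‖reO f‖ := by
  have h1 : ‖reK f‖ ^ 2 = ∫ y, (f y).re ^ 2 ∂(mu 2) := by
    rw [norm_sq_integral]
    refine integral_congr_ae ?_
    filter_upwards [coeFn_reK f] with y hy
    rw [hy, Complex.norm_real, Real.norm_eq_abs, sq_abs]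
  have hi : Integrable (fun y => (f y).re ^ 2) (mu 2) := by
    refine (integrable_norm_sq (reK f)).congr ?_
    filter_upwards [coeFn_reK f] with y hy
    rw [hy, Complex.norm_real, Real.norm_eq_abs, sq_abs]
  have h2 := integral_le_four hi (fun y => sq_nonneg _) (fun j => by
    have h3 := coeFn_Rf j f
    rw [hf j] at h3
    filter_upwards [h3, Lp.coeFn_smul (σ j : ℂ) f] with y h4 h5
    rw [h5, Pi.smul_apply, smul_eq_mul] at h4
    have h6 : f (rr2 j y) = (σ j : ℂ) * f y := h4.symm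
    rw [h6, Complex.re_ofReal_mul, mul_pow, hσ, one_mul])
  rw [← h1, ← norm_sq_reO] at h2
  have h3 : ‖reK f‖ ^ 2 ≤ (2 * ‖reO f‖) ^ 2 := by
    rw [mul_pow]; linarith
  exact (sq_le_sq₀ (norm_nonneg _) (by positivity)).1 h3

theorem star_odd {Z : K 2} (hZ : IsOdd Z) : IsOdd (star Z) := by
  intro j
  have h1 : Rf j (star Z) = star (Rf j Z) := (starK_cmp (RInv_rfl2 j) 0 Z).symm
  have h2 : (-Z : K 2) = (-1 : ℂ) • Z := by simp
  have h3 : (-(star Z) : K 2) = (-1 : ℂ) • star Z := by simp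
  rw [h1, hZ j, h2, starK_smul, h3]
  simp

/-- Imaginary part, times `i`. -/
def imK (f : K 2) : K 2 := (1 / 2 : ℂ) • (f - star f)

theorem reK_add_imK (f : K 2) : reK f + imK f = f := by
  unfold reK imK
  rw [← smul_add]
  have h : f + star f + (f - star f) = (2 : ℂ) • f := by
    rw [two_smul]; abel
  rw [h, smul_smul]
  norm_num

theorem Bj_imK (j : Fin 2) (f : K 2) : Bj j (imK f) = reK (Bj j f) := by
  unfold imK reK
  rw [map_smul, map_sub, star_Bj, sub_eq_add_neg]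

theorem Rf_Bj {Z : K 2} (hZ : IsOdd Z) (i j : Fin 2) :
    Rf j (Bj i Z) = (((if i = j then 1 else -1 : ℝ)) : ℂ) • Bj i Z := by
  have h1 := Bj_Rf i j Z
  rw [hZ j, map_neg] at h1
  by_cases h : i = j
  · rw [if_pos h] at h1 ⊢
    push_cast at h1 ⊢
    rw [neg_smul, one_smul, neg_inj] at h1
    rw [one_smul]
    exact h1.symm
  · rw [if_neg h] at h1 ⊢
    push_cast at h1 ⊢
    rw [one_smul] at h1
    rw [neg_smul, one_smul]
    exact h1.symm

/-- The norm of the wave representation is controlled by the energy norm on the square. -/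
theorem norm_le_Ph {Z : K 2} (hZ : IsOdd Z) : ‖Z‖ ≤ 6 * ‖Ph Z‖ := by
  have hre : ‖reK Z‖ ≤ 2 * ‖reO Z‖ := norm_reK_le (σ := fun _ => -1) (by norm_num) (fun j => by
    rw [hZ j]; push_cast; rw [neg_smul, one_smul])
  have hB : ∀ i, ‖reK (Bj i Z)‖ ≤ 2 * ‖reO (Bj i Z)‖ := fun i =>
    norm_reK_le (σ := fun j => if i = j then 1 else -1)
      (fun j => by split_ifs <;> norm_num) (fun j => Rf_Bj hZ i j)
  have hodd : IsOdd (imK Z) := by
    intro j
    unfold imK
    rw [map_smul, map_sub, hZ j, star_odd hZ j, ← smul_neg]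
    congr 1
    abel
  have him : ‖imK Z‖ ≤ 2 * (‖reO (Bj 0 Z)‖ + ‖reO (Bj 1 Z)‖) := by
    have h1 := norm_sq_Bj hodd.mean
    rw [Bj_imK, Bj_imK] at h1
    have h2 := hB 0
    have h3 := hB 1
    have n0 := norm_nonneg (reO (Bj 0 Z))
    have n1 := norm_nonneg (reO (Bj 1 Z))
    have n2 := norm_nonneg (reK (Bj 0 Z))
    have n3 := norm_nonneg (reK (Bj 1 Z))
    refine (sq_le_sq₀ (norm_nonneg _) (by positivity)).1 ?_
    rw [h1]
    nlinarith
  have hZn : ‖Z‖ ≤ ‖reK Z‖ + ‖imK Z‖ := by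
    conv_lhs => rw [← reK_add_imK Z]
    exact norm_add_le _ _
  have h1 : ‖reO Z‖ ≤ ‖Ph Z‖ := norm_snd_le (Ph Z)
  have h2 : ‖(Ph Z).1.2‖ ≤ ‖Ph Z‖ := (norm_snd_le (Ph Z).1).trans (norm_fst_le (Ph Z))
  have h3 : ∀ j, ‖reO (Bj j Z)‖ ≤ ‖(Ph Z).1.2‖ := fun j => norm_le_pi_norm (Ph Z).1.2 j
  have h4 := h3 0
  have h5 := h3 1
  linarith

end

end Pool.Agent.Lib_helper45.W2
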