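import Pool.Agent.Lib_helper45.W2.Pattern

/-!
The asymptotic constraint attached to a pattern.
-/

open MeasureTheory Set Filter Topology
open scoped NNReal ENNReal ComplexConjugate

namespace Pool.Agent.Lib_helper45.W2

noncomputable section

/-! ### Integrals -/

theorem cauchy_schwarz_norm {d : ℕ} (f h : K d) :
    ∫ x, ‖f x‖ * ‖h x‖ ∂(mu d) ≤ ‖f‖ * ‖h‖ := by
  have hf := (Lp.memLp f).norm
  have hh := (Lp.memLp h).norm
  have h1 := real_inner_le_norm (hf.toLp _) (hh.toLp _)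
  rw [Lp.norm_toLp, Lp.norm_toLp, eLpNorm_norm, eLpNorm_norm, ← Lp.norm_def, ← Lp.norm_def,
    MeasureTheory.L2.inner_def] at h1
  refine le_trans (le_of_eq ?_) h1
  refine integral_congr_ae ?_
  filter_upwards [hf.coeFn_toLp, hh.coeFn_toLp] with x h2 h3
  rw [h2, h3]
  simp [mul_comm]

theorem integrable_norm_mul {d : ℕ} (f h : K d) :
    Integrable (fun x => ‖f x‖ * ‖h x‖) (mu d) := by
  have h1 := MeasureTheory.L2.integrable_inner (𝕜 := ℝ) ((Lp.memLp f).norm.toLp _)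
      ((Lp.memLp h).norm.toLp _)
  refine h1.congr ?_
  filter_upwards [(Lp.memLp f).norm.coeFn_toLp, (Lp.memLp h).norm.coeFn_toLp] with x h2 h3
  rw [h2, h3, RCLike.inner_apply, conj_trivial, mul_comm]

theorem integrable_re_im {d : ℕ} (f h : K d) :
    Integrable (fun x => (f x).re * (h x).re + (f x).im * (h x).im) (mu d) := by
  have := MeasureTheory.L2.integrable_inner (𝕜 := ℝ) f h
  refine this.congr (Eventually.of_forall fun x => ?_)
  change inner ℝ (f x) (h x) = _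
  rw [Complex.inner]
  simp [Complex.mul_re]
  ring

theorem integral_norm_le {d : ℕ} (f : K d) : ∫ x, ‖f x‖ ∂(mu d) ≤ ‖f‖ := by
  have h1 := cauchy_schwarz_norm f (ev 0)
  rw [norm_ev, mul_one] at h1
  refine le_trans (le_of_eq ?_) h1
  refine integral_congr_ae ?_
  filter_upwards [coeFn_ev (0 : Fin d → ℤ)] with x h2
  rw [h2, UnitAddTorus.mFourier_zero]
  simp

theorem integral_st_real (G : Tr 3 → ℝ) (hG : Integrable G (mu 3)) :
    ∫ y, G y ∂(mu 3) = ∫ t in (0 : ℝ)..1, ∫ x, G (sl t x) ∂(mu 2) := by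
  have h1 := integral_st (fun y => (G y : ℂ)) hG.ofReal
  simp only [integral_complex_ofReal] at h1
  rw [intervalIntegral.integral_ofReal] at h1
  exact_mod_cast h1

/-! ### The antisymmetric test function of a pattern -/

/-- Opposite pattern. -/
def ngd (d : ℕ → ℤ) : ℕ → ℤ := fun j => -d j

theorem Dig.neg {d : ℕ → ℤ} (h : Dig d) : Dig (ngd d) := by
  intro j
  unfold ngd
  rcases h j with h | h | h <;> rw [h] <;> simp

/-- The antisymmetric test function. -/
def Fx (L : List Gp) (d : ℕ → ℤ) (y : Tr 3) : ℂ := (1 / 2) * (iS (Bp L d) y - iS (Bp L (ngd d)) y)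

theorem bm_Fx (L : List Gp) (d : ℕ → ℤ) : BM (Fx L d) := by
  refine ⟨?_, 1, fun y => ?_⟩
  · exact measurable_const.mul ((bm_iS (measurableSet_Bp L d)).meas.sub
      (bm_iS (measurableSet_Bp L (ngd d))).meas)
  · unfold Fx
    rw [norm_mul]
    have h1 := norm_iS_le (Bp L d) y
    have h2 := norm_iS_le (Bp L (ngd d)) y
    have h3 := norm_sub_le (iS (Bp L d) y) (iS (Bp L (ngd d)) y)
    have h4 : ‖(1 / 2 : ℂ)‖ = 1 / 2 := by norm_num
    rw [h4]; linarith

theorem continuous_cur_Bp (L : List Gp) (d : ℕ → ℤ) :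
    Continuous (cur (bm_iS (measurableSet_Bp L d))) := by
  induction L with
  | nil =>
    have h1 : ∀ t, cur (bm_iS (measurableSet_Bp [] d)) t =
        cur (bm_iS (measurableSet_Bp [] d)) 0 := by
      intro t
      apply Lp.ext
      filter_upwards [coeFn_cur (bm_iS (measurableSet_Bp [] d)) t,
        coeFn_cur (bm_iS (measurableSet_Bp [] d)) 0] with x h1 h2
      rw [h1, h2]
      simp [iS, Bp]
    have h2 : cur (bm_iS (measurableSet_Bp [] d)) =
        fun _ => cur (bm_iS (measurableSet_Bp [] d)) 0 := funext h1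
    rw [h2]
    exact continuous_const
  | cons t L ih =>
    refine continuous_cur_of_le _ (bm_iS (measurableSet_Bp L d)) (bm_Eg t.ε t.i) ih
      (continuous_cur_Eg t.ε t.i) fun y z => ?_
    classical
    have hm : ∀ y, y ∈ Bp (t :: L) d ↔ y ∈ Bp L d ∧ Eg t.ε t.i y = d t.j := fun y => Iff.rfl
    simp only [iS, Set.indicator_apply, hm]
    by_cases h1 : y ∈ Bp L d <;> by_cases h2 : z ∈ Bp L d <;>
      by_cases h3 : Eg t.ε t.i y = d t.j <;> by_cases h4 : Eg t.ε t.i z = d t.j <;>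
      simp only [h1, h2, h3, h4, and_self, and_true, and_false, if_true,
        if_false, sub_self, norm_zero, sub_zero, zero_sub, norm_neg, norm_one, add_zero, zero_add,
        le_refl] <;> try positivity
    all_goals try (have := norm_nonneg (((d t.j : ℤ) : ℂ) - ((Eg t.ε t.i z : ℤ) : ℂ)); linarith)
    all_goals try (have := norm_nonneg (((Eg t.ε t.i y : ℤ) : ℂ) - ((d t.j : ℤ) : ℂ)); linarith)
    · have h5 : d t.j - Eg t.ε t.i z ≠ 0 := sub_ne_zero.2 (Ne.symm h4)
      have h6 := Int.one_le_abs h5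
      rw [← Int.cast_sub, Complex.norm_intCast]
      exact_mod_cast h6
    · have h5 : Eg t.ε t.i y - d t.j ≠ 0 := sub_ne_zero.2 h3
      have h6 := Int.one_le_abs h5
      rw [← Int.cast_sub, Complex.norm_intCast]
      exact_mod_cast h6

theorem continuous_cur_Fx (L : List Gp) (d : ℕ → ℤ) : Continuous (cur (bm_Fx L d)) := by
  refine continuous_cur_of_le _ (bm_iS (measurableSet_Bp L d)) (bm_iS (measurableSet_Bp L (ngd d)))
    (continuous_cur_Bp L d) (continuous_cur_Bp L (ngd d)) fun y z => ?_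
  unfold Fx
  have h1 : (1 / 2 : ℂ) * (iS (Bp L d) y - iS (Bp L (ngd d)) y) -
      (1 / 2) * (iS (Bp L d) z - iS (Bp L (ngd d)) z) =
      (1 / 2) * ((iS (Bp L d) y - iS (Bp L d) z) -
        (iS (Bp L (ngd d)) y - iS (Bp L (ngd d)) z)) := by ring
  rw [h1, norm_mul]
  have h3 := norm_sub_le (iS (Bp L d) y - iS (Bp L d) z)
    (iS (Bp L (ngd d)) y - iS (Bp L (ngd d)) z)
  have h4 : ‖(1 / 2 : ℂ)‖ = 1 / 2 := by norm_num
  rw [h4]
  have h5 := norm_nonneg (iS (Bp L d) y - iS (Bp L d) z)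
  have h6 := norm_nonneg (iS (Bp L (ngd d)) y - iS (Bp L (ngd d)) z)
  linarith

theorem dg_rf (y : Tr 3) (g : Gp) : dg (rf y) g = -dg y g := by
  unfold dg
  rw [Eg_eq, Eg_eq, pt_rf, pt_rf, pt_rf, pt_rf]
  simp only [neg_neg]
  ring

theorem PB_neg (L : List Gp) (d : ℕ → ℤ) : PB L (ngd d) = PB L d := by
  have h1 : Bp L (ngd d) = rf ⁻¹' (Bp L d) := by
    ext y
    rw [Set.mem_preimage, mem_Bp, mem_Bp]
    refine forall₂_congr fun g _ => ?_
    rw [dg_rf, ngd]
    constructor <;> intro h <;> omega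
  rw [PB, h1, Measure.real, mp_rf.measure_preimage (measurableSet_Bp L d).nullMeasurableSet]
  rfl

theorem cl_Fx (L : List Gp) (d : ℕ → ℤ) :
    cl (bm_Fx L d) = (1 / 2 : ℂ) • (cB L d - cB L (ngd d)) := by
  apply Lp.ext
  filter_upwards [coeFn_cl (bm_Fx L d), Lp.coeFn_smul (1 / 2 : ℂ) (cB L d - cB L (ngd d)),
    Lp.coeFn_sub (cB L d) (cB L (ngd d)), coeFn_cS (measurableSet_Bp L d),
    coeFn_cS (measurableSet_Bp L (ngd d))] with y h1 h2 h3 h4 h5
  change cB L d y = _ at h4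
  change cB L (ngd d) y = _ at h5
  rw [h1, h2, Pi.smul_apply, h3, Pi.sub_apply, h4, h5]
  rfl

theorem Th_Fx (L : List Gp) (d : ℕ → ℤ) :
    Th (cl (bm_Fx L d)) = (1 / 2 : ℂ) • (Th0 (cB L d) - Th0 (cB L (ngd d))) := by
  rw [cl_Fx, map_smul, map_sub, Th0_apply, Th0_apply, Em_cB, Em_cB, PB_neg]
  congr 1
  abel

/-- The mean direction of a pattern. -/
theorem Th_Fx_close {L : List Gp} (hL : SI L) {d : ℕ → ℤ} (hd : Dig d) :
    ‖Th (cl (bm_Fx L d)) - (PB L d : ℂ) • smV L (fun g => (d g.j : ℂ) • Ng g.ε g.i)‖ ≤ PB L d := by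
  have h1 := (hL d hd).2
  have h2 := (hL (ngd d) hd.neg).2
  rw [PB_neg] at h2
  have h3 : smV L (fun g => (d g.j : ℂ) • Ng g.ε g.i) =
      (1 / 2 : ℂ) • (smV L (fun g => Mg g.ε g.i (d g.j)) -
        smV L (fun g => Mg g.ε g.i (ngd d g.j))) := by
    rw [← smV_sub, ← smV_smul]
    refine smV_congr fun g _ => ?_
    rw [Ng, ngd]
    rcases hd g.j with h | h | h <;> rw [h]
    · simp
    · simp
    · simp only [Int.reduceNeg, Int.cast_neg, Int.cast_one, neg_smul, one_smul, neg_neg,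
        ← smul_neg, neg_sub]
  rw [Th_Fx, h3]
  have h4 : (1 / 2 : ℂ) • (Th0 (cB L d) - Th0 (cB L (ngd d))) -
      (PB L d : ℂ) • (1 / 2 : ℂ) • (smV L (fun g => Mg g.ε g.i (d g.j)) -
        smV L (fun g => Mg g.ε g.i (ngd d g.j))) =
      (1 / 2 : ℂ) • ((Th0 (cB L d) - (PB L d : ℂ) • smV L (fun g => Mg g.ε g.i (d g.j))) -
        (Th0 (cB L (ngd d)) - (PB L d : ℂ) • smV L (fun g => Mg g.ε g.i (ngd d g.j)))) := by
    rw [smul_comm (PB L d : ℂ) (1 / 2 : ℂ)]
    simp only [smul_sub]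
    abel
  rw [h4, norm_smul]
  have h5 := norm_sub_le (Th0 (cB L d) - (PB L d : ℂ) • smV L (fun g => Mg g.ε g.i (d g.j)))
    (Th0 (cB L (ngd d)) - (PB L d : ℂ) • smV L (fun g => Mg g.ε g.i (ngd d g.j)))
  have h6 : ‖(1 / 2 : ℂ)‖ = 1 / 2 := by norm_num
  rw [h6]
  linarith

theorem norm_sq_cur {F : Tr 3 → ℂ} (h : BM F) (t : ℝ) :
    ‖cur h t‖ ^ 2 = ∫ x, ‖F (sl t x)‖ ^ 2 ∂(mu 2) := by
  rw [norm_sq_integral]
  refine integral_congr_ae ?_
  filter_upwards [coeFn_cur h t] with x hx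
  rw [hx]

theorem integral_cur_Fx (L : List Gp) (d : ℕ → ℤ) :
    ∫ t in (0 : ℝ)..1, ‖cur (bm_Fx L d) t‖ ^ 2 ≤ PB L d / 2 := by
  have hI : Integrable (fun y => ‖Fx L d y‖ ^ 2) (mu 3) := by
    obtain ⟨B, hB⟩ := (bm_Fx L d).bdd
    refine Integrable.of_bound (C := B ^ 2)
      ((bm_Fx L d).meas.norm.pow_const 2).aestronglyMeasurable (Eventually.of_forall fun y => ?_)
    rw [Real.norm_of_nonneg (by positivity)]
    have := hB y
    gcongr
  have h1 : ∫ t in (0 : ℝ)..1, ‖cur (bm_Fx L d) t‖ ^ 2 = ∫ y, ‖Fx L d y‖ ^ 2 ∂(mu 3) := by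
    rw [integral_st_real _ hI]
    exact intervalIntegral.integral_congr fun t _ => norm_sq_cur _ _
  rw [h1]
  have h2 : ∫ y, ‖Fx L d y‖ ^ 2 ∂(mu 3) ≤
      ∫ y, ((Bp L d).indicator (fun _ => (1 / 4 : ℝ)) y +
        (Bp L (ngd d)).indicator (fun _ => (1 / 4 : ℝ)) y) ∂(mu 3) := by
    refine integral_mono hI (((integrable_const _).indicator (measurableSet_Bp _ _)).add
      ((integrable_const _).indicator (measurableSet_Bp _ _))) fun y => ?_
    classical
    simp only [Fx, iS, Set.indicator_apply]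
    by_cases ha : y ∈ Bp L d <;> by_cases hb : y ∈ Bp L (ngd d) <;> simp [ha, hb] <;> norm_num
  refine h2.trans (le_of_eq ?_)
  rw [integral_add ((integrable_const _).indicator (measurableSet_Bp _ _))
    ((integrable_const _).indicator (measurableSet_Bp _ _)),
    integral_indicator_const _ (measurableSet_Bp _ _),
    integral_indicator_const _ (measurableSet_Bp _ _)]
  have h3 : (mu 3).real (Bp L (ngd d)) = (mu 3).real (Bp L d) := PB_neg L d
  rw [h3]
  change PB L d • (1 / 4 : ℝ) + PB L d • (1 / 4 : ℝ) = _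
  simp only [smul_eq_mul]
  ring

/-! ### The wave -/

/-- Combination of the group vectors. -/
def vL (L : List Gp) (c : Gp → ℝ) : K 2 := smV L fun g => (c g : ℂ) • Vg g.ε g.i

theorem vL_cons (t : Gp) (L : List Gp) (c : Gp → ℝ) :
    vL (t :: L) c = (c t : ℂ) • Vg t.ε t.i + vL L c := smV_cons _ _ _

theorem vL_mem (L : List Gp) (c : Gp → ℝ) : vL L c ∈ FixU := by
  induction L with
  | nil => exact FixU.zero_mem
  | cons t L ih =>
    rw [vL_cons]
    exact FixU.add_mem (FixU.smul_mem _ (Vg_mem _ _)) ih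

theorem vL_add (L : List Gp) (c c' : Gp → ℝ) : vL L c + vL L c' = vL L fun g => c g + c' g := by
  induction L with
  | nil => simp [vL, smV]
  | cons t L ih =>
    rw [vL_cons, vL_cons, vL_cons, ← ih]
    push_cast
    rw [add_smul]
    abel

theorem re_vL (L : List Gp) (c : Gp → ℝ) (t : ℝ) :
    ∀ᵐ x ∂(mu 2), (Ug t (vL L c) x).re = sm L fun g => c g * dg (sl t x) g := by
  induction L with
  | nil =>
    have h1 : Ug t (vL [] c) = 0 := by
      have : vL [] c = 0 := rfl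
      rw [this, map_zero]
    rw [h1]
    filter_upwards [Lp.coeFn_zero ℂ 2 (mu 2)] with x hx
    rw [hx]
    simp [sm]
  | cons g L ih =>
    rw [vL_cons, map_add, map_smul]
    filter_upwards [ih, Lp.coeFn_add ((c g : ℂ) • Ug t (Vg g.ε g.i)) (Ug t (vL L c)),
      Lp.coeFn_smul (c g : ℂ) (Ug t (Vg g.ε g.i)), re_Vg g.ε g.i t] with x h1 h2 h3 h4
    rw [h2, Pi.add_apply, h3, Pi.smul_apply, Complex.add_re, h1, sm_cons, smul_eq_mul,
      Complex.re_ofReal_mul, h4]
    rfl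

theorem Rf_vL (L : List Gp) (c : Gp → ℝ) (j : Fin 2) : Rf j (vL L c) = -vL L c := by
  induction L with
  | nil => simp [vL, smV]
  | cons t L ih =>
    rw [vL_cons, map_add, map_smul, Rf_Vg, ih, smul_neg]
    abel

/-- The free wave of a list of groups. -/
def om (L : List Gp) : K 2 := vL L Gp.μ

/-- Admissible vectors do not change the nonlinearity. -/
theorem NN_flat {L : List Gp} (hL : WF L) {c : ℕ → ℝ} (hc : Adm c L) (t : ℝ) :
    NN (UR t (om L + vL L fun g => c g.j)) = NN (UR t (om L)) := by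
  apply Lp.ext
  have h0 : om L + (vL L fun g => c g.j) = vL L fun g => g.μ + c g.j := vL_add _ _ _
  rw [h0]
  filter_upwards [coeFn_NN (UR t (vL L fun g => g.μ + c g.j)), coeFn_NN (UR t (om L)),
    re_vL L (fun g => g.μ + c g.j) t, re_vL L Gp.μ t] with x h1 h2 h3 h4
  rw [h1, h2]
  change (((gf (Ug t (vL L fun g => g.μ + c g.j) x).re : ℝ)) : ℂ) =
    ((gf (Ug t (vL L Gp.μ) x).re : ℝ) : ℂ)
  rw [h3, h4]
  congr 1
  have h5 : (sm L fun g => (g.μ + c g.j) * (dg (sl t x) g : ℝ)) =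
      (sm L fun g => g.μ * dg (sl t x) g) + sm L fun g => c g.j * dg (sl t x) g := by
    rw [← sm_add]
    exact sm_congr fun g _ => by ring
  rw [h5]
  exact flat_all (fun g => Eg_abs _ _ _) hL hc

/-! ### The asymptotic constraint of a pattern -/

theorem pat_ineq {L : List Gp} {d : ℕ → ℤ} {b : ℝ} (hb : 0 ≤ b)
    (hR : Icc ((sm L fun g => g.μ * d g.j) - b - 1) ((sm L fun g => g.μ * d g.j) - b) ⊆ Rset)
    (t : ℝ) (w : K 2) (hw : ‖w‖ ≤ 2) :
    -(2 * b * ‖cur (bm_Fx L d) t‖ ^ 2) - 3 * ‖NN (UR t (om L + w)) - NN (UR t (om L))‖ ≤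
      inner ℝ (cur (bm_Fx L d) t) (UR t w) := by
  set h := sm L fun g => g.μ * (d g.j : ℝ) with hh
  set q := NN (UR t (om L + w)) - NN (UR t (om L)) with hq
  set z := UR t w with hz
  set χ := cur (bm_Fx L d) t with hχ
  have hzn : ‖z‖ ≤ 2 := by rw [hz, isEvo_UR.norm]; exact hw
  have hR' : Icc (-h + b) (-h + b + 1) ⊆ Rset := by
    intro s hs
    have h2 : -s ∈ Icc (h - b - 1) (h - b) := ⟨by linarith [hs.2], by linarith [hs.1]⟩
    obtain ⟨j, hj⟩ := hR h2
    exact ⟨j, by rwa [abs_neg] at hj⟩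
  -- pointwise inequality
  have hpt : ∀ᵐ x ∂(mu 2), -(2 * b * ‖χ x‖ ^ 2) - (1 / 2 * ‖q x‖ + 1 / 2 * (‖z x‖ * ‖q x‖)) ≤
      (χ x).re * (z x).re + (χ x).im * (z x).im := by
    filter_upwards [coeFn_cur (bm_Fx L d) t, Lp.coeFn_sub (NN (UR t (om L + w))) (NN (UR t (om L))),
      coeFn_NN (UR t (om L + w)), coeFn_NN (UR t (om L)), re_vL L Gp.μ t,
      Lp.coeFn_add (UR t (om L)) (UR t w)] with x h1 h2 h3 h4 h5 h6
    have hom : (UR t (om L) x).re = sm L fun g => g.μ * dg (sl t x) g := h5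
    set X := sm L fun g => g.μ * (dg (sl t x) g : ℝ) with hX
    have hqx : ‖q x‖ = |gf (X + (z x).re) - gf X| := by
      rw [hq, h2, Pi.sub_apply, h3, h4, ← Complex.ofReal_sub, Complex.norm_real, Real.norm_eq_abs,
        map_add, h6, Pi.add_apply, Complex.add_re, hom]
    have hzx : |(z x).re| ≤ ‖z x‖ := Complex.abs_re_le_norm _
    have hq0 := norm_nonneg (q x)
    have hχx : χ x = Fx L d (sl t x) := h1
    by_cases ha : sl t x ∈ Bp L d
    · by_cases hb' : sl t x ∈ Bp L (ngd d)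
      · have : χ x = 0 := by rw [hχx]; simp [Fx, iS, ha, hb']
        rw [this]
        simp only [norm_zero, Complex.zero_re, Complex.zero_im, zero_mul, add_zero]
        have : 0 ≤ ‖z x‖ * ‖q x‖ := by positivity
        nlinarith
      · have : χ x = 1 / 2 := by rw [hχx]; simp [Fx, iS, ha, hb']
        rw [this]
        have hXh : X = h := by
          rw [hX, hh]
          exact sm_congr fun g hg => by rw [mem_Bp.1 ha g hg]
        have hres := resist_down hb hR (z x).re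
        rw [← hXh, ← hqx] at hres
        have e1 : (1 / 2 : ℂ).re = 1 / 2 := by norm_num
        have e2 : (1 / 2 : ℂ).im = 0 := by norm_num
        have e3 : ‖(1 / 2 : ℂ)‖ = 1 / 2 := by norm_num
        rw [e1, e2, e3]
        have : |(z x).re| * ‖q x‖ ≤ ‖z x‖ * ‖q x‖ := mul_le_mul_of_nonneg_right hzx hq0
        nlinarith
    · by_cases hb' : sl t x ∈ Bp L (ngd d)
      · have : χ x = -(1 / 2) := by rw [hχx]; simp [Fx, iS, ha, hb']
        rw [this]
        have hXh : X = -h := by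
          rw [hX, hh, ← sm_neg]
          refine sm_congr fun g hg => ?_
          rw [mem_Bp.1 hb' g hg, ngd]
          push_cast; ring
        have hres := resist_up hb hR' (z x).re
        rw [← hXh, ← hqx] at hres
        have e1 : (-(1 / 2) : ℂ).re = -(1 / 2) := by norm_num
        have e2 : (-(1 / 2) : ℂ).im = 0 := by norm_num
        have e3 : ‖(-(1 / 2) : ℂ)‖ = 1 / 2 := by rw [norm_neg]; norm_num
        rw [e1, e2, e3]
        have : |(z x).re| * ‖q x‖ ≤ ‖z x‖ * ‖q x‖ := mul_le_mul_of_nonneg_right hzx hq0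
        nlinarith
      · have : χ x = 0 := by rw [hχx]; simp [Fx, iS, ha, hb']
        rw [this]
        simp only [norm_zero, Complex.zero_re, Complex.zero_im, zero_mul, add_zero]
        have : 0 ≤ ‖z x‖ * ‖q x‖ := by positivity
        nlinarith
  -- integrate
  have i1 : Integrable (fun x => 2 * b * ‖χ x‖ ^ 2) (mu 2) := (integrable_norm_sq χ).const_mul _
  have i2 : Integrable (fun x => ‖q x‖) (mu 2) := by
    have := (Lp.memLp q).integrable (by norm_num)
    exact this.norm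
  have i3 : Integrable (fun x => ‖z x‖ * ‖q x‖) (mu 2) := integrable_norm_mul z q
  have i4 : Integrable (fun x => (χ x).re * (z x).re + (χ x).im * (z x).im) (mu 2) :=
    integrable_re_im χ z
  have i5 : Integrable (fun x => 1 / 2 * ‖q x‖ + 1 / 2 * (‖z x‖ * ‖q x‖)) (mu 2) :=
    (i2.const_mul _).add (i3.const_mul _)
  have i6 : Integrable (fun x => -(2 * b * ‖χ x‖ ^ 2) -
      (1 / 2 * ‖q x‖ + 1 / 2 * (‖z x‖ * ‖q x‖))) (mu 2) := i1.neg.sub i5
  have i1n : Integrable (fun x => -(2 * b * ‖χ x‖ ^ 2)) (mu 2) := i1.neg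
  have hint := integral_mono_ae i6 i4 hpt
  rw [← inner_real_integral, integral_sub i1n i5, integral_neg, integral_const_mul,
    integral_add (i2.const_mul _) (i3.const_mul _), integral_const_mul, integral_const_mul,
    ← norm_sq_integral] at hint
  have c1 := integral_norm_le q
  have c2 := cauchy_schwarz_norm z q
  have c3 : ‖z‖ * ‖q‖ ≤ 2 * ‖q‖ := mul_le_mul_of_nonneg_right hzn (norm_nonneg _)
  have c4 := norm_nonneg q
  linarith

/-- The constraint of a pattern on the trajectory. -/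
theorem pat_asym {L : List Gp} (hL : SI L) {d : ℕ → ℤ} (hd : Dig d) {b : ℝ} (hb : 0 ≤ b)
    (hR : Icc ((sm L fun g => g.μ * d g.j) - b - 1) ((sm L fun g => g.μ * d g.j) - b) ⊆ Rset)
    {W : ℝ → K 2} (hW : IsTraj UR NN (om L) W) (hM : ‖W 0 - om L‖ ≤ 2) :
    ∃ T₀ : ℕ, ∀ T : ℕ, T₀ ≤ T →
      -b - 3 ≤ sm L fun g => d g.j * inner ℝ (W T - om L) (Ng g.ε g.i) := by
  have hP := (hL d hd).1
  have hcc := continuous_cur_Fx L d
  have herg := ergodic (∫ s in (0 : ℝ)..1, UR (-s) (cur (bm_Fx L d) s))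
  rw [PF_mean (bm_Fx L d) hcc] at herg
  obtain ⟨T₀, hT₀⟩ := hW.asym isEvo_UR NN_firm hM (by norm_num : (0 : ℝ) ≤ 3) hcc
    (fun t => cur_periodic _ t) (c := fun t => 2 * b * ‖cur (bm_Fx L d) t‖ ^ 2)
    (continuous_const.mul (hcc.norm.pow 2)) (fun t => by rw [cur_periodic])
    (fun t w hw => pat_ineq hb hR t w hw)
    (fun m => Ug_natCast_of_mem (Th_mem _) m) herg hP
  refine ⟨T₀, fun T hT => ?_⟩
  have h1 := hT₀ T hT
  have h2 : ∫ t in (0 : ℝ)..1, 2 * b * ‖cur (bm_Fx L d) t‖ ^ 2 ≤ b * PB L d := by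
    rw [intervalIntegral.integral_const_mul]
    have := integral_cur_Fx L d
    nlinarith
  have hWn : ‖W T - om L‖ ≤ 2 :=
    (hW.bound isEvo_UR NN_firm (s := 0) (t := T) le_rfl (by positivity)).trans hM
  have h3 := Th_Fx_close hL hd
  set S := smV L (fun g => (d g.j : ℂ) • Ng g.ε g.i) with hS
  have h4 : inner ℝ (W T - om L) (Th (cl (bm_Fx L d))) ≤
      PB L d * inner ℝ (W T - om L) S + 2 * PB L d := by
    have h5 : Th (cl (bm_Fx L d)) = (PB L d : ℂ) • S + (Th (cl (bm_Fx L d)) - (PB L d : ℂ) • S) := by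
      abel
    rw [h5, inner_add_right]
    have h6 : ((PB L d : ℂ) • S) = (PB L d : ℝ) • S := Complex.coe_smul _ _
    rw [h6, inner_smul_right]
    have h7 := real_inner_le_norm (W T - om L) (Th (cl (bm_Fx L d)) - (PB L d : ℝ) • S)
    rw [h6] at h3
    have h8 : ‖W T - om L‖ * ‖Th (cl (bm_Fx L d)) - (PB L d : ℝ) • S‖ ≤ 2 * PB L d :=
      mul_le_mul hWn h3 (norm_nonneg _) (by norm_num)
    linarith
  have h5 : inner ℝ (W T - om L) S =
      sm L fun g => d g.j * inner ℝ (W T - om L) (Ng g.ε g.i) := by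
    rw [hS, inner_smV]
    refine sm_congr fun g _ => ?_
    have h6 : ((d g.j : ℂ) • Ng g.ε g.i) = ((d g.j : ℤ) : ℝ) • Ng g.ε g.i :=
      calc ((d g.j : ℂ) • Ng g.ε g.i) = ((((d g.j : ℤ) : ℝ)) : ℂ) • Ng g.ε g.i := by
            push_cast; rfl
        _ = ((d g.j : ℤ) : ℝ) • Ng g.ε g.i := Complex.coe_smul _ _
    rw [h6, inner_smul_right]
  rw [← h5]
  have h6 : (-b - 3) * PB L d ≤ inner ℝ (W T - om L) S * PB L d := by nlinarith
  exact le_of_mul_le_mul_right h6 hP

end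

end Pool.Agent.Lib_helper45.W2
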