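import Pool.Agent.Lib_helper45.W2.Nonl

/-!
Pattern sets and their asymptotic independence.
-/

open MeasureTheory Set Filter Topology
open scoped NNReal ENNReal ComplexConjugate

namespace Pool.Agent.Lib_helper45.W2

noncomputable section

/-- Vector sums over a list of groups. -/
def smV (L : List Gp) (f : Gp → K 2) : K 2 := (L.map f).sum

theorem smV_nil (f : Gp → K 2) : smV [] f = 0 := rfl

theorem smV_cons (t : Gp) (L : List Gp) (f : Gp → K 2) : smV (t :: L) f = f t + smV L f := by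
  simp [smV]

theorem smV_congr {L : List Gp} {f h : Gp → K 2} (hfh : ∀ g ∈ L, f g = h g) :
    smV L f = smV L h := by
  induction L with
  | nil => rfl
  | cons t L ih =>
    rw [smV_cons, smV_cons, hfh t (by simp), ih fun g hg => hfh g (by simp [hg])]

theorem smV_sub (L : List Gp) (f h : Gp → K 2) :
    smV L (fun g => f g - h g) = smV L f - smV L h := by
  induction L with
  | nil => simp [smV]
  | cons t L ih => rw [smV_cons, smV_cons, smV_cons, ih]; abel

theorem smV_smul (L : List Gp) (c : ℂ) (f : Gp → K 2) :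
    smV L (fun g => c • f g) = c • smV L f := by
  induction L with
  | nil => simp [smV]
  | cons t L ih => rw [smV_cons, smV_cons, ih, smul_add]

theorem inner_smV (L : List Gp) (x : K 2) (f : Gp → K 2) :
    inner ℝ x (smV L f) = sm L fun g => inner ℝ x (f g) := by
  induction L with
  | nil => simp [smV, sm]
  | cons t L ih => rw [smV_cons, sm_cons, inner_add_right, ih]

/-- The digit of a group at a space-time point. -/
def dg (y : Tr 3) (g : Gp) : ℤ := Eg g.ε g.i y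

/-- Pattern sets. -/
def Bp : List Gp → (ℕ → ℤ) → Set (Tr 3)
  | [], _ => Set.univ
  | t :: L, d => Bp L d ∩ dil t.i ⁻¹' (lv t.ε (d t.j))

theorem measurableSet_Bp (L : List Gp) (d : ℕ → ℤ) : MeasurableSet (Bp L d) := by
  induction L with
  | nil => exact MeasurableSet.univ
  | cons t L ih => exact ih.inter ((continuous_dil t.i).measurable (measurableSet_lv _ _))

theorem mem_Bp {L : List Gp} {d : ℕ → ℤ} {y : Tr 3} :
    y ∈ Bp L d ↔ ∀ g ∈ L, dg y g = d g.j := by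
  induction L with
  | nil => simp [Bp]
  | cons t L ih =>
    simp only [Bp, Set.mem_inter_iff, ih, List.mem_cons, forall_eq_or_imp]
    rw [and_comm]
    rfl

theorem Bp_congr {L : List Gp} {d d' : ℕ → ℤ} (h : ∀ g ∈ L, d g.j = d' g.j) : Bp L d = Bp L d' := by
  ext y
  rw [mem_Bp, mem_Bp]
  constructor
  · intro h1 g hg; rw [h1 g hg, h g hg]
  · intro h1 g hg; rw [h1 g hg, h g hg]

/-- Class of a pattern set. -/
def cB (L : List Gp) (d : ℕ → ℤ) : K 3 := cS (measurableSet_Bp L d)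

/-- Probability of a pattern. -/
def PB (L : List Gp) (d : ℕ → ℤ) : ℝ := (mu 3).real (Bp L d)

theorem Em_cB (L : List Gp) (d : ℕ → ℤ) : Em (cB L d) = (PB L d : ℂ) := Em_cS _

/-- Digit values used in patterns. -/
def Dig (d : ℕ → ℤ) : Prop := ∀ j, d j = 0 ∨ d j = 1 ∨ d j = -1

/-- The invariant for one pattern. -/
def SI1 (L : List Gp) (d : ℕ → ℤ) : Prop := 0 < PB L d ∧
  ‖Th0 (cB L d) - (PB L d : ℂ) • smV L (fun g => Mg g.ε g.i (d g.j))‖ < PB L d

/-- The invariant. -/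
def SI (L : List Gp) : Prop := ∀ d, Dig d → SI1 L d

theorem cS_univ : cS (MeasurableSet.univ : MeasurableSet (Set.univ : Set (Tr 3))) = ev 0 := by
  apply Lp.ext
  filter_upwards [coeFn_cS (MeasurableSet.univ : MeasurableSet (Set.univ : Set (Tr 3))),
    coeFn_ev (0 : Fin 3 → ℤ)] with y h1 h2
  rw [h1, h2, UnitAddTorus.mFourier_zero]
  simp [iS]

theorem SI_nil : SI [] := by
  intro d _
  have h1 : PB [] d = 1 := by simp [PB, Bp]
  have h2 : cB [] d = ev 0 := cS_univ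
  refine ⟨by rw [h1]; exact one_pos, ?_⟩
  rw [h1, h2, Th0_ev_zero, smV_nil]
  simp

theorem Pr_zero_pos {ε : ℝ} (h0 : 0 ≤ ε) (h1 : ε ≤ 1 / 12) : 0 < Pr ε 0 := by
  have h1' : ε ≤ 1 / 2 := by linarith
  have h2 : (mu 3).real (Set.univ : Set (Tr 3)) ≤ (mu 3).real (lv ε 0 ∪ (Bs ε 1 1 ∪
      (Bs ε (-1) 1 ∪ (Bs ε 1 (-1) ∪ Bs ε (-1) (-1))))) := by
    refine measureReal_mono fun y _ => ?_
    change E0 ε y = 0 ∨ (bit ε (pt 1 1 (-1) y) = 1 ∨ (bit ε (pt (-1) 1 (-1) y) = 1 ∨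
      (bit ε (pt 1 (-1) (-1) y) = 1 ∨ bit ε (pt (-1) (-1) (-1) y) = 1)))
    unfold E0
    rcases bit_cases ε (pt 1 1 (-1) y) with h1 | h1 <;>
    rcases bit_cases ε (pt (-1) 1 (-1) y) with h2 | h2 <;>
    rcases bit_cases ε (pt 1 (-1) (-1) y) with h3 | h3 <;>
    rcases bit_cases ε (pt (-1) (-1) (-1) y) with h4 | h4 <;>
    rw [h1, h2, h3, h4] <;> decide
  have h3 := measureReal_union_le (μ := mu 3) (lv ε 0) (Bs ε 1 1 ∪
      (Bs ε (-1) 1 ∪ (Bs ε 1 (-1) ∪ Bs ε (-1) (-1))))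
  have h4 := measureReal_union_le (μ := mu 3) (Bs ε 1 1)
      (Bs ε (-1) 1 ∪ (Bs ε 1 (-1) ∪ Bs ε (-1) (-1)))
  have h5 := measureReal_union_le (μ := mu 3) (Bs ε (-1) 1) (Bs ε 1 (-1) ∪ Bs ε (-1) (-1))
  have h6 := measureReal_union_le (μ := mu 3) (Bs ε 1 (-1)) (Bs ε (-1) (-1))
  rw [prob_Bs h0 h1' (by norm_num)] at h4 h5
  rw [prob_Bs h0 h1' (by norm_num), prob_Bs h0 h1' (by norm_num)] at h6
  rw [probReal_univ] at h2
  change 0 < (mu 3).real (lv ε 0)
  linarith

theorem Pr_pos {ε : ℝ} (h0 : 0 < ε) (h1 : ε ≤ 1 / 12) {a : ℤ} (ha : a = 0 ∨ a = 1 ∨ a = -1) :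
    0 < Pr ε a := by
  rcases ha with rfl | rfl | rfl
  · exact Pr_zero_pos h0.le h1
  · exact lt_of_lt_of_le h0 (le_Pr_one h0.le h1)
  · rw [Pr_neg]; exact lt_of_lt_of_le h0 (le_Pr_one h0.le h1)

/-- Change of the dilation of a group. -/
def Gp.seti (g : Gp) (i : ℕ × ℕ) : Gp := { g with i := i }

theorem cB_cons (t : Gp) (L : List Gp) (d : ℕ → ℤ) :
    cB (t :: L) d = mulF (bm_iS (measurableSet_Bp L d)) (Dil t.i (Gam t.ε (d t.j))) := by
  have h0 : Dil t.i (Gam t.ε (d t.j)) =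
      cS ((continuous_dil t.i).measurable (measurableSet_lv t.ε (d t.j))) := Dil_cS _ _
  rw [h0]
  apply Lp.ext
  filter_upwards [coeFn_cS (measurableSet_Bp (t :: L) d),
    coeFn_mulF (bm_iS (measurableSet_Bp L d))
      (cS ((continuous_dil t.i).measurable (measurableSet_lv t.ε (d t.j)))),
    coeFn_cS ((continuous_dil t.i).measurable (measurableSet_lv t.ε (d t.j)))] with y h1 h2 h3
  rw [cB, h1, h2, h3]
  classical
  simp only [iS, Set.indicator_apply, Bp, Set.mem_inter_iff]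
  by_cases ha : y ∈ Bp L d <;> by_cases hb : y ∈ dil t.i ⁻¹' lv t.ε (d t.j) <;> simp [ha, hb]

theorem SI1_step {t : Gp} {L : List Gp} {d : ℕ → ℤ} (h0 : 0 < t.ε) (h1 : t.ε ≤ 1 / 12)
    (hd : d t.j = 0 ∨ d t.j = 1 ∨ d t.j = -1) (h : SI1 L d) :
    ∀ᶠ i in GG, SI1 (t.seti i :: L) d := by
  have hPr := Pr_pos h0 h1 hd
  set a := d t.j with ha
  set ρ := Pr t.ε a with hρ
  set M := smV L (fun g => Mg g.ε g.i (d g.j)) with hM
  set x := Th0 (cB L d) with hx
  set F := bm_iS (measurableSet_Bp L d) with hF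
  set Γ := Gam t.ε a with hΓ
  have hcl : cl F = cB L d := rfl
  have hEmΓ : Em Γ = (ρ : ℂ) := Em_Gam _ _
  -- probabilities
  have hPlim : Tendsto (fun i => PB (t.seti i :: L) d) GG (𝓝 (PB L d * ρ)) := by
    have h2 := decouple_Em F Γ
    rw [hcl, Em_cB, hEmΓ] at h2
    have h3 := (Complex.continuous_re.tendsto _).comp h2
    have h4 : ((PB L d : ℂ) * (ρ : ℂ)).re = PB L d * ρ := by
      rw [← Complex.ofReal_mul, Complex.ofReal_re]
    rw [h4] at h3
    refine h3.congr fun i => ?_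
    have h5 : mulF F (Dil i Γ) = cB (t.seti i :: L) d := (cB_cons (t.seti i) L d).symm
    change (Em (mulF F (Dil i Γ))).re = _
    rw [h5, Em_cB, Complex.ofReal_re]
  -- the error
  have hT : Tendsto (fun i => ‖Th0 (mulF F (Dil i Γ)) - (ρ : ℂ) • x -
      (PB L d : ℂ) • Th0 (Dil i Γ)‖ + ρ * ‖x - (PB L d : ℂ) • M‖ +
      |PB L d * ρ - PB (t.seti i :: L) d| * (ρ⁻¹ * 2 + ‖M‖)) GG
      (𝓝 (0 + ρ * ‖x - (PB L d : ℂ) • M‖ + 0 * (ρ⁻¹ * 2 + ‖M‖))) := by
    refine Tendsto.add (Tendsto.add ?_ tendsto_const_nhds) (Tendsto.mul_const _ ?_)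
    · have h2 := decouple_Th F Γ
      rw [hcl, Em_cB, hEmΓ] at h2
      have h3 := h2.norm
      rw [norm_zero] at h3
      exact h3
    · have h2 : Tendsto (fun i => PB L d * ρ - PB (t.seti i :: L) d) GG
          (𝓝 (PB L d * ρ - PB L d * ρ)) := tendsto_const_nhds.sub hPlim
      rw [sub_self] at h2
      have h3 := h2.abs
      rwa [abs_zero] at h3
  have hlt : 0 + ρ * ‖x - (PB L d : ℂ) • M‖ + 0 * (ρ⁻¹ * 2 + ‖M‖) < PB L d * ρ := by
    have h2 := h.2
    nlinarith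
  filter_upwards [hT.eventually_lt hPlim hlt,
    hPlim.eventually_const_lt (show 0 < PB L d * ρ from mul_pos h.1 hPr)] with i h2 h3
  refine ⟨h3, lt_of_le_of_lt ?_ h2⟩
  have h5 : mulF F (Dil i Γ) = cB (t.seti i :: L) d := (cB_cons (t.seti i) L d).symm
  have h6 : smV (t.seti i :: L) (fun g => Mg g.ε g.i (d g.j)) = Mg t.ε i a + M := by
    rw [smV_cons]; rfl
  rw [h6, ← h5]
  have hm : (ρ : ℂ) • Mg t.ε i a = Th0 (Dil i Γ) := by
    rw [Mg, smul_smul, mul_inv_cancel₀, one_smul]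
    exact_mod_cast hPr.ne'
  have hmn : ‖Mg t.ε i a‖ ≤ ρ⁻¹ * 2 := by
    rw [Mg, norm_smul, norm_inv, Complex.norm_real, Real.norm_of_nonneg hPr.le]
    refine mul_le_mul_of_nonneg_left ?_ (inv_nonneg.2 hPr.le)
    refine (norm_Th0_le _).trans ?_
    rw [(Dil i).norm_map]
    have h7 : ‖Γ‖ ^ 2 ≤ 1 := by
      rw [hΓ, norm_Gam_sq]; exact measureReal_le_one
    have h8 : ‖Γ‖ ≤ 1 := by nlinarith [norm_nonneg Γ]
    linarith
  have hid : Th0 (mulF F (Dil i Γ)) - (PB (t.seti i :: L) d : ℂ) • (Mg t.ε i a + M) =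
      (Th0 (mulF F (Dil i Γ)) - (ρ : ℂ) • x - (PB L d : ℂ) • Th0 (Dil i Γ)) +
      (ρ : ℂ) • (x - (PB L d : ℂ) • M) +
      ((PB L d * ρ - PB (t.seti i :: L) d : ℝ) : ℂ) • (Mg t.ε i a + M) := by
    rw [← hm]
    push_cast
    simp only [smul_sub, smul_add, sub_smul, smul_smul]
    rw [mul_comm (ρ : ℂ) (PB L d : ℂ)]
    abel
  rw [hid]
  refine (norm_add_le _ _).trans (add_le_add ((norm_add_le _ _).trans (add_le_add le_rfl ?_)) ?_)
  · rw [norm_smul, Complex.norm_real, Real.norm_of_nonneg hPr.le]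
  · rw [norm_smul, Complex.norm_real, Real.norm_eq_abs]
    refine mul_le_mul_of_nonneg_left ?_ (abs_nonneg _)
    exact (norm_add_le _ _).trans (add_le_add hmn le_rfl)

theorem SI1_congr {L : List Gp} {d d' : ℕ → ℤ} (h : ∀ g ∈ L, d g.j = d' g.j) (h1 : SI1 L d) :
    SI1 L d' := by
  have e1 : Bp L d' = Bp L d := (Bp_congr h).symm
  have e2 : cB L d' = cB L d := by
    unfold cB
    congr 1
  have e3 : PB L d' = PB L d := by unfold PB; rw [e1]
  have e4 : smV L (fun g => Mg g.ε g.i (d' g.j)) = smV L (fun g => Mg g.ε g.i (d g.j)) :=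
    smV_congr fun g hg => by rw [h g hg]
  unfold SI1
  rw [e2, e3, e4]
  exact h1

/-- The invariant can be kept when a group with large generic dilation is added. -/
theorem SI_step {t : Gp} {L : List Gp} (h0 : 0 < t.ε) (h1 : t.ε ≤ 1 / 12) (h : SI L) :
    ∀ᶠ i in GG, SI (t.seti i :: L) := by
  classical
  let S : Finset ℕ := ((t :: L).map Gp.j).toFinset
  let val : Fin 3 → ℤ := ![0, 1, -1]
  let ext : (S → Fin 3) → (ℕ → ℤ) := fun r j => if hj : j ∈ S then val (r ⟨j, hj⟩) else 0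
  have hval : ∀ k, val k = 0 ∨ val k = 1 ∨ val k = -1 := by
    intro k; fin_cases k <;> simp [val]
  have hext : ∀ r, Dig (ext r) := by
    intro r j
    simp only [ext]
    split_ifs with hj
    · exact hval _
    · exact Or.inl rfl
  have hev : ∀ᶠ i in GG, ∀ r : S → Fin 3, SI1 (t.seti i :: L) (ext r) := by
    rw [Filter.eventually_all]
    intro r
    exact SI1_step h0 h1 (hext r t.j) (h _ (hext r))
  filter_upwards [hev] with i hi d hd
  have hinv : ∀ z : ℤ, (z = 0 ∨ z = 1 ∨ z = -1) → ∃ k, val k = z := by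
    rintro z (rfl | rfl | rfl)
    · exact ⟨0, rfl⟩
    · exact ⟨1, rfl⟩
    · exact ⟨2, rfl⟩
  choose f hf using fun j => hinv (d j) (hd j)
  refine SI1_congr (fun g hg => ?_) (hi fun j => f j)
  have hgS : g.j ∈ S := by
    rw [List.mem_toFinset, List.mem_map]
    rcases List.mem_cons.1 hg with h2 | h2
    · subst h2
      exact ⟨t, by simp, rfl⟩
    · exact ⟨g, by simp [h2], rfl⟩
  simp only [ext, dif_pos hgS]
  exact hf g.j

end

end Pool.Agent.Lib_helper45.W2
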