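import Pool.Agent.Lib_helper45.W2.Struct

/-!
Complex conjugation, the Hardy projection on the circle, and plane pulses.
-/

open MeasureTheory Set Filter Topology
open scoped NNReal ENNReal ComplexConjugate

namespace Pool.Agent.Lib_helper45.W2

noncomputable section

/-! ### Conjugation -/

theorem coeFn_starK {d : ℕ} (f : K d) : (star f : K d) =ᵐ[mu d] fun x => conj (f x) :=
  Lp.coeFn_star f

theorem starK_add {d : ℕ} (f g : K d) : star (f + g) = star f + star g := by
  apply Lp.ext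
  filter_upwards [coeFn_starK (f + g), coeFn_starK f, coeFn_starK g, Lp.coeFn_add f g,
    Lp.coeFn_add (star f) (star g)] with x h1 h2 h3 h4 h5
  rw [h1, h5, Pi.add_apply, h2, h3, h4, Pi.add_apply, map_add]

theorem starK_smul {d : ℕ} (c : ℂ) (f : K d) : star (c • f) = conj c • star f := by
  apply Lp.ext
  filter_upwards [coeFn_starK (c • f), coeFn_starK f, Lp.coeFn_smul c f,
    Lp.coeFn_smul (conj c) (star f)] with x h1 h2 h3 h4
  rw [h1, h4, Pi.smul_apply, h2, h3, Pi.smul_apply, smul_eq_mul, smul_eq_mul, map_mul]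

theorem starK_sub {d : ℕ} (f g : K d) : star (f - g) = star f - star g := by
  have h1 : f - g = f + (-1 : ℂ) • g := by simp [sub_eq_add_neg]
  rw [h1, starK_add, starK_smul]
  simp [sub_eq_add_neg]

theorem norm_starK {d : ℕ} (f : K d) : ‖star f‖ = ‖f‖ := by
  refine le_antisymm ?_ ?_
  · have : ‖star f‖ ≤ 1 * ‖f‖ := Lp.norm_le_mul_norm_of_ae_le_mul (by
      filter_upwards [coeFn_starK f] with x hx
      rw [hx, RCLike.norm_conj, one_mul])
    rwa [one_mul] at this
  · have : ‖f‖ ≤ 1 * ‖star f‖ := Lp.norm_le_mul_norm_of_ae_le_mul (by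
      filter_upwards [coeFn_starK f] with x hx
      rw [hx, RCLike.norm_conj, one_mul])
    rwa [one_mul] at this

theorem continuous_starK {d : ℕ} : Continuous (star : K d → K d) := by
  have : Isometry (star : K d → K d) := Isometry.of_dist_eq fun f g => by
    rw [dist_eq_norm, dist_eq_norm, ← starK_sub, norm_starK]
  exact this.continuous

theorem starK_ev {d : ℕ} (k : Fin d → ℤ) : star (ev k : K d) = ev (-k) := by
  apply Lp.ext
  filter_upwards [coeFn_starK (ev k : K d), coeFn_ev k, coeFn_ev (-k)] with x h1 h2 h3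
  rw [h1, h2, h3, UnitAddTorus.mFourier_neg]

theorem starK_cmp {a b : ℕ} {A : Matrix (Fin a) (Fin b) ℤ} (hA : RInv A) (s : Tr a) (f : K a) :
    star (cmp hA s f) = cmp hA s (star f) := by
  apply Lp.ext
  have h0 := (mp_aff hA s).quasiMeasurePreserving.ae_eq_comp (coeFn_starK f)
  filter_upwards [coeFn_starK (cmp hA s f), coeFn_cmp hA s f, coeFn_cmp hA s (star f), h0]
    with x h1 h2 h3 h4
  rw [h1, h2, h3]
  exact h4.symm

/-! ### The Hardy projection -/

/-- Symbol. -/
def sgA (a : Fin 1 → ℤ) : ℂ := if a 0 < 0 then -1 else 1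

theorem norm_sgA (a : Fin 1 → ℤ) : ‖sgA a‖ = 1 := by unfold sgA; split_ifs <;> simp

/-- Twice the projection onto negative frequencies. -/
def Ha : K 1 →L[ℂ] K 1 :=
  ContinuousLinearMap.id ℂ (K 1) - (mulOf (eb 1) (a := sgA) norm_sgA).toContinuousLinearMap

theorem Ha_ev (a : Fin 1 → ℤ) : Ha (ev a) = (if a 0 < 0 then (2 : ℂ) else 0) • ev a := by
  have h1 := mulOf_basis (eb 1) (a := sgA) norm_sgA a
  rw [eb_apply] at h1
  change ev a - (mulOf (eb 1) (a := sgA) norm_sgA) (ev a) = _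
  rw [h1, sgA]
  split_ifs
  · rw [neg_smul, one_smul, sub_neg_eq_add, two_smul]
  · rw [one_smul, sub_self, zero_smul]

/-- Removal of the mean. -/
theorem Ha_real (φ : K 1) : Ha φ + star (Ha (star φ)) =
    (2 : ℂ) • (φ - (inner ℂ (ev 0) φ : ℂ) • ev 0) := by
  classical
  refine K_induct (p := fun φ => Ha φ + star (Ha (star φ)) =
    (2 : ℂ) • (φ - (inner ℂ (ev 0) φ : ℂ) • ev 0)) ?_ ?_ ?_ ?_ φ
  · refine isClosed_eq (Ha.continuous.add (continuous_starK.comp
      (Ha.continuous.comp continuous_starK))) ?_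
    have hc : Continuous fun x : K 1 => (inner ℂ (ev 0 : K 1) x : ℂ) :=
      continuous_const.inner continuous_id
    exact (continuous_id.sub (hc.smul continuous_const)).const_smul (2 : ℂ)
  · have h1 : star (0 : K 1) = 0 := by
      have := starK_smul (0 : ℂ) (0 : K 1); simpa using this
    simp [h1]
  · intro x y hx hy
    rw [map_add, starK_add, map_add, starK_add, inner_add_right, add_smul]
    have : Ha x + Ha y + (star (Ha (star x)) + star (Ha (star y))) =
        (Ha x + star (Ha (star x))) + (Ha y + star (Ha (star y))) := by abel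
    rw [this, hx, hy, ← smul_add]
    congr 1
    abel
  · intro c a
    rw [map_smul, starK_smul, starK_ev, map_smul, starK_smul, Complex.conj_conj, Ha_ev, Ha_ev,
      starK_smul, starK_ev, neg_neg, inner_smul_right, inner_ev]
    rcases lt_trichotomy (a 0) 0 with h | h | h
    · have h1 : (0 : Fin 1 → ℤ) ≠ a := by
        rintro rfl; exact lt_irrefl _ h
      have h2 : ¬ ((-a) 0 < 0) := by simp only [Pi.neg_apply]; omega
      rw [if_pos h, if_neg h1, if_neg h2]
      simp [smul_smul, mul_comm]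
    · have h1 : (0 : Fin 1 → ℤ) = a := by
        ext j; fin_cases j; exact h.symm
      rw [← h1]
      simp
    · have h1 : (0 : Fin 1 → ℤ) ≠ a := by
        rintro rfl; exact lt_irrefl _ h
      have h2 : ((-a) 0 < 0) := by simp only [Pi.neg_apply]; omega
      rw [if_neg (by omega), if_neg h1, if_pos h2]
      have h3 : conj (2 : ℂ) = 2 := Complex.conj_ofNat 2
      simp [smul_smul, mul_comm, h3]

theorem Ha_real' {φ : K 1} (hφ : star φ = φ) : Ha φ + star (Ha φ) =
    (2 : ℂ) • (φ - (inner ℂ (ev 0) φ : ℂ) • ev 0) := by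
  have := Ha_real φ
  rwa [hφ] at this

/-! ### Plane waves -/

/-- Row matrix. -/
def rw2 (p q : ℤ) : Matrix (Fin 1) (Fin 2) ℤ := ![![p, q]]
/-- Row matrix. -/
def rw3 (p q r : ℤ) : Matrix (Fin 1) (Fin 3) ℤ := ![![p, q, r]]

theorem RInv_rw2 {p q : ℤ} (h : p ≠ 0) : RInv (rw2 p q) := by
  refine ⟨p, ![![1], ![0]], h, ?_⟩
  ext i j; fin_cases i; fin_cases j
  simp [rw2, Matrix.mul_apply, Fin.sum_univ_two]

theorem RInv_rw3 {p q r : ℤ} (h : p ≠ 0) : RInv (rw3 p q r) := by
  refine ⟨p, ![![1], ![0], ![0]], h, ?_⟩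
  ext i j; fin_cases i; fin_cases j
  simp [rw3, Matrix.mul_apply, Fin.sum_univ_three]

/-- Plane wave at time zero. -/
def pw {p q : ℤ} (h : p ≠ 0) (s : UnitAddCircle) : K 1 →ₗᵢ[ℂ] K 2 := cmp (RInv_rw2 (q := q) h) (fun _ => s)

theorem pw_ev {p q : ℤ} (h : p ≠ 0) (s : UnitAddCircle) (a : Fin 1 → ℤ) :
    pw (q := q) h s (ev a) = (fourier (a 0) s : ℂ) • ev ![a 0 * p, a 0 * q] := by
  rw [pw, cmp_ev]
  have h1 : UnitAddTorus.mFourier a (fun _ : Fin 1 => s) = (fourier (a 0) s : ℂ) := by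
    change ∏ i : Fin 1, (fourier (a i) s : ℂ) = _
    simp
  rw [h1]
  congr 2
  ext j
  fin_cases j <;> simp [rw2]

theorem nk_mul {a p q r : ℤ} (hr : 0 ≤ r) (h : p ^ 2 + q ^ 2 = r ^ 2) :
    nk ![a * p, a * q] = |(a : ℝ)| * r := by
  have h1 : ((p : ℝ)) ^ 2 + (q : ℝ) ^ 2 = (r : ℝ) ^ 2 := by exact_mod_cast h
  have h2 : (((![a * p, a * q] : Fin 2 → ℤ) 0 : ℤ) : ℝ) ^ 2 +
      (((![a * p, a * q] : Fin 2 → ℤ) 1 : ℤ) : ℝ) ^ 2 = (|(a : ℝ)| * r) ^ 2 := by
    simp only [Matrix.cons_val_zero, Matrix.cons_val_one, Int.cast_mul]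
    rw [mul_pow, mul_pow, mul_pow, sq_abs, ← h1]; ring
  rw [nk, h2, Real.sqrt_sq (by have : (0 : ℝ) ≤ r := by exact_mod_cast hr
                               positivity)]

/-- The plane wave of a Hardy function is transported. -/
theorem Ug_pw {p q r : ℤ} (h : p ≠ 0) (hr : 0 ≤ r) (hpyth : p ^ 2 + q ^ 2 = r ^ 2) (t : ℝ)
    (s : UnitAddCircle) (ψ : K 1) :
    Ug t (pw (q := q) h s (Ha ψ)) = pw (q := q) h (s + ((-(r * t) : ℝ) : UnitAddCircle)) (Ha ψ) := by
  refine K_induct (p := fun ψ => Ug t (pw (q := q) h s (Ha ψ)) =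
    pw (q := q) h (s + ((-(r * t) : ℝ) : UnitAddCircle)) (Ha ψ)) ?_ ?_ ?_ ?_ ψ
  · exact isClosed_eq ((Ug t).continuous.comp ((pw h s).continuous.comp Ha.continuous))
      ((pw h _).continuous.comp Ha.continuous)
  · simp
  · intro x y hx hy
    simp only [map_add, hx, hy]
  · intro c a
    simp only [map_smul, Ha_ev, pw_ev, Ug_ev]
    congr 1
    split_ifs with ha
    · rw [smul_smul, smul_smul, smul_smul]
      congr 1
      have h1 : (fourier (a 0) (s + ((-(r * t) : ℝ) : UnitAddCircle)) : ℂ) =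
          fourier (a 0) s * fourier (a 0) ((-(r * t) : ℝ) : UnitAddCircle) := by
        simp only [fourier_apply, smul_add, AddCircle.toCircle_add, Circle.coe_mul]
      have h2 : (fourier (a 0) ((-(r * t) : ℝ) : UnitAddCircle) : ℂ) =
          ph t ![a 0 * p, a 0 * q] := by
        rw [fourier_coe_apply, ph, nk_mul hr hpyth]
        congr 1
        have h3 : |((a 0 : ℤ) : ℝ)| = -((a 0 : ℤ) : ℝ) := abs_of_neg (by exact_mod_cast ha)
        rw [h3]
        push_cast
        ring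
      rw [h1, h2]
      ring
    · simp

/-- The reflections of the torus. -/
def rfl2 (j : Fin 2) : Matrix (Fin 2) (Fin 2) ℤ :=
  Matrix.diagonal fun i => if i = j then -1 else 1

theorem RInv_rfl2 (j : Fin 2) : RInv (rfl2 j) := by
  refine ⟨1, rfl2 j, one_ne_zero, ?_⟩
  rw [rfl2, Matrix.diagonal_mul_diagonal, one_smul]
  have : (fun i => (if i = j then (-1 : ℤ) else 1) * (if i = j then -1 else 1)) = fun _ => 1 := by
    funext i; split_ifs <;> simp
  rw [this]; exact Matrix.diagonal_one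

/-- Reflection of functions. -/
def Rf (j : Fin 2) : K 2 →ₗᵢ[ℂ] K 2 := cmp (RInv_rfl2 j) 0

theorem coeFn_Rf (j : Fin 2) (f : K 2) :
    Rf j f =ᵐ[mu 2] fun x => f (aff (rfl2 j) 0 x) := coeFn_cmp _ _ _

theorem Rf_ev (j : Fin 2) (k : Fin 2 → ℤ) :
    Rf j (ev k) = ev (fun i => if i = j then -(k i) else k i) := by
  rw [Rf, cmp_ev]
  have h1 : UnitAddTorus.mFourier k (0 : Tr 2) = 1 := by
    change ∏ i : Fin 2, (fourier (k i) (0 : UnitAddCircle) : ℂ) = 1
    simp
  rw [h1, one_smul]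
  congr 1
  ext i
  rw [rfl2]
  simp only [Matrix.diagonal, Matrix.of_apply, mul_ite, mul_neg, mul_one, mul_zero]
  rw [Finset.sum_eq_single i]
  · simp
  · intro b _ hb; simp [hb]
  · simp

theorem Rf_pw0 {p q : ℤ} (h : p ≠ 0) (h' : -p ≠ 0) (s : UnitAddCircle) (ψ : K 1) :
    Rf 0 (pw (q := q) h s ψ) = pw (q := q) h' s ψ := by
  refine K_induct (p := fun ψ => Rf 0 (pw (q := q) h s ψ) = pw (q := q) h' s ψ) ?_ ?_ ?_ ?_ ψ
  · exact isClosed_eq ((Rf 0).continuous.comp (pw h s).continuous) (pw h' s).continuous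
  · simp
  · intro x y hx hy
    simp only [map_add, hx, hy]
  · intro c a
    simp only [map_smul, pw_ev, Rf_ev]
    congr 3
    ext i
    fin_cases i <;> simp

theorem Rf_pw1 {p q : ℤ} (h : p ≠ 0) (s : UnitAddCircle) (ψ : K 1) :
    Rf 1 (pw (q := q) h s ψ) = pw (q := -q) h s ψ := by
  refine K_induct (p := fun ψ => Rf 1 (pw (q := q) h s ψ) = pw (q := -q) h s ψ) ?_ ?_ ?_ ?_ ψ
  · exact isClosed_eq ((Rf 1).continuous.comp (pw h s).continuous) (pw h s).continuous
  · simp
  · intro x y hx hy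
    simp only [map_add, hx, hy]
  · intro c a
    simp only [map_smul, pw_ev, Rf_ev]
    congr 3
    ext i
    fin_cases i <;> simp

end

end Pool.Agent.Lib_helper45.W2
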