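import Pool.Agent.Lib_helper45.W2.WaveEq
import Pool.Agent.Lib_helper45.WaveNDefs

/-!
Restriction of functions on the torus to the square `(0,1/2)²`.
-/

open MeasureTheory Set Filter Topology
open scoped NNReal ENNReal ComplexConjugate ContDiff

namespace Pool.Agent.Lib_helper45.W2

open Pool.Agent.WaveND

noncomputable section

/-- The open square `(0,1/2)²`. -/
def Sq : Set (EN 2) := {x | ∀ i, x i ∈ Ioo (0 : ℝ) (1 / 2)}

/-- The projection onto the torus. -/
def iot (x : EN 2) : Tr 2 := fun i => ((x i : ℝ) : UnitAddCircle)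

/-- The unit square. -/
def Qu : Set (EN 2) := {x | ∀ i, x i ∈ Ioc (0 : ℝ) 1}

theorem Sq_sub_Qu : Sq ⊆ Qu := fun x hx i => ⟨(hx i).1, by linarith [(hx i).2]⟩

theorem mp_iot : MeasurePreserving iot (volume.restrict Qu) (mu 2) := by
  have h1 : MeasurePreserving (fun (a : Fin 2 → ℝ) i => ((a i : ℝ) : UnitAddCircle))
      (Measure.pi fun _ => volume.restrict (Ioc (0 : ℝ) 1)) (mu 2) :=
    measurePreserving_pi _ _ fun _ => mp_real
  rw [← Measure.restrict_pi_pi] at h1
  have h4 : (Set.univ.pi fun _ : Fin 2 => Ioc (0 : ℝ) 1) = Qu := by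
    ext x
    simp [Qu]
  rw [h4] at h1
  exact h1

theorem restrict_le : (volume.restrict Sq : Measure (EN 2)) ≤ volume.restrict Qu :=
  Measure.restrict_mono_set _ Sq_sub_Qu

/-- Transfer of almost everywhere statements. -/
theorem ae_iot {p : Tr 2 → Prop} (h : ∀ᵐ y ∂(mu 2), p y) :
    ∀ᵐ x ∂(volume.restrict Sq), p (iot x) := by
  have h1 : ∀ᵐ x ∂(volume.restrict Qu), p (iot x) := mp_iot.quasiMeasurePreserving.ae h
  exact ae_mono restrict_le h1

theorem memLp_iot (f : K 2) : MemLp (fun x => f (iot x)) 2 (volume.restrict Sq) :=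
  ((Lp.memLp f).comp_measurePreserving mp_iot).mono_measure restrict_le

theorem memLp_re_iot (f : K 2) : MemLp (fun x => (f (iot x)).re) 2 (volume.restrict Sq) :=
  (memLp_iot f).re

theorem norm_re_iot_le (f : K 2) : ‖(memLp_re_iot f).toLp _‖ ≤ ‖f‖ := by
  rw [Lp.norm_toLp, Lp.norm_def]
  refine ENNReal.toReal_mono (Lp.eLpNorm_ne_top f) ?_
  have h1 : eLpNorm (fun x => (f (iot x)).re) 2 (volume.restrict Sq) ≤
      eLpNorm (fun x => f (iot x)) 2 (volume.restrict Sq) :=
    eLpNorm_mono fun x => by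
      rw [Real.norm_eq_abs]
      exact Complex.abs_re_le_norm _
  have h2 : eLpNorm (fun x => f (iot x)) 2 (volume.restrict Sq) ≤
      eLpNorm (fun x => f (iot x)) 2 (volume.restrict Qu) := eLpNorm_mono_measure _ restrict_le
  have h3 : eLpNorm (fun x => f (iot x)) 2 (volume.restrict Qu) = eLpNorm f 2 (mu 2) :=
    eLpNorm_comp_measurePreserving (Lp.aestronglyMeasurable f) mp_iot
  exact h1.trans (h2.trans h3.le)

/-- Restriction of the real part to the square. -/
def reO : K 2 →L[ℝ] L2 Sq :=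
  LinearMap.mkContinuous
    { toFun := fun f => (memLp_re_iot f).toLp _
      map_add' := fun f g => by
        apply Lp.ext
        filter_upwards [MemLp.coeFn_toLp (memLp_re_iot (f + g)), MemLp.coeFn_toLp (memLp_re_iot f),
          MemLp.coeFn_toLp (memLp_re_iot g), ae_iot (Lp.coeFn_add f g),
          Lp.coeFn_add ((memLp_re_iot f).toLp _) ((memLp_re_iot g).toLp _)] with x h1 h2 h3 h4 h5
        rw [h1, h5, Pi.add_apply, h2, h3, h4, Pi.add_apply, Complex.add_re]
      map_smul' := fun c f => by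
        apply Lp.ext
        filter_upwards [MemLp.coeFn_toLp (memLp_re_iot (c • f)), MemLp.coeFn_toLp (memLp_re_iot f),
          ae_iot (Lp.coeFn_smul c f), Lp.coeFn_smul c ((memLp_re_iot f).toLp _)]
          with x h1 h2 h3 h4
        rw [h1, RingHom.id_apply, h4, Pi.smul_apply, h2, h3, Pi.smul_apply, Complex.real_smul,
          Complex.re_ofReal_mul, smul_eq_mul] }
    1 (fun f => by rw [one_mul]; exact norm_re_iot_le f)

theorem coeFn_reO (f : K 2) : reO f =ᵐ[volume.restrict Sq] fun x => (f (iot x)).re :=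
  MemLp.coeFn_toLp (memLp_re_iot f)

/-- Extension operator. -/
def exO : L2 Sq →L[ℝ] K 2 := ContinuousLinearMap.adjoint reO

theorem inner_exO (f : K 2) (φ : L2 Sq) : inner ℝ f (exO φ) = inner ℝ (reO f) φ :=
  ContinuousLinearMap.adjoint_inner_right _ _ _

theorem inner_L2 (f h : L2 Sq) : inner ℝ f h = ∫ x in Sq, f x * h x := by
  rw [MeasureTheory.L2.inner_def]
  refine integral_congr_ae (Eventually.of_forall fun x => ?_)
  change inner ℝ (f x) (h x) = _
  simp [mul_comm]

/-- The state of the partial differential equation, as a function of the wave representation. -/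
def Ph : K 2 →L[ℝ] (L2 Sq × (Fin 2 → L2 Sq)) × L2 Sq :=
  ((reO.comp ((-(Complex.I / (2 * Real.pi))) • L0.restrictScalars ℝ)).prod
    (ContinuousLinearMap.pi fun j => reO.comp ((Bj j).restrictScalars ℝ))).prod reO

theorem Ph_apply (Z : K 2) : Ph Z = ((reO (-(Complex.I / (2 * Real.pi)) • L0 Z),
    fun j => reO (Bj j Z)), reO Z) := rfl

end

end Pool.Agent.Lib_helper45.W2
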