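import Pool.Agent.Lib_helper45.W2.Norm
import Pool.Agent.Lib_helper45.W2.Cut

/-!
The state of an odd function is in `H¹₀` of the square.
-/

open MeasureTheory Set Filter Topology
open scoped NNReal ENNReal ComplexConjugate

namespace Pool.Agent.Lib_helper45.W2

open Pool.Agent.WaveND

noncomputable section

theorem isOpen_Sq : IsOpen Sq := by
  have : Sq = ⋂ i : Fin 2, {x : EN 2 | x i ∈ Ioo (0 : ℝ) (1 / 2)} := by
    ext x; simp [Sq]
  rw [this]
  refine isOpen_iInter_of_finite fun i => ?_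
  have hc : Continuous fun x : EN 2 => x i := continuous_apply i
  exact isOpen_Ioo.preimage hc

theorem isBounded_Sq : Bornology.IsBounded Sq := by
  refine (Metric.isBounded_closedBall (x := (0 : EN 2)) (r := 1)).subset fun x hx => ?_
  rw [Metric.mem_closedBall, dist_zero_right, pi_norm_le_iff_of_nonneg zero_le_one]
  intro i
  rw [Real.norm_eq_abs, abs_le]
  exact ⟨by linarith [(hx i).1], by linarith [(hx i).2]⟩

/-- One angle. -/
def ag (k : Fin 2 → ℤ) (j : Fin 2) (x : EN 2) : ℝ := 2 * Real.pi * k j * x j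

/-- The eigenfunctions. -/
def sk (k : Fin 2 → ℤ) (x : EN 2) : ℝ := Real.sin (ag k 0 x) * Real.sin (ag k 1 x)

/-- The angle as a linear map. -/
def agL (k : Fin 2 → ℤ) (j : Fin 2) : EN 2 →L[ℝ] ℝ :=
  (2 * Real.pi * k j) • (ContinuousLinearMap.proj j : EN 2 →L[ℝ] ℝ)

theorem agL_apply (k : Fin 2 → ℤ) (j : Fin 2) (x : EN 2) : agL k j x = ag k j x := rfl

theorem contDiff_sk (k : Fin 2 → ℤ) : ContDiff ℝ ((⊤ : ℕ∞) : WithTop ℕ∞) (sk k) :=
  (Real.contDiff_sin.comp (agL k 0).contDiff).mul (Real.contDiff_sin.comp (agL k 1).contDiff)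

theorem hasFDerivAt_sk (k : Fin 2 → ℤ) (x : EN 2) : HasFDerivAt (sk k)
    ((Real.cos (ag k 0 x) * Real.sin (ag k 1 x)) • agL k 0 +
      (Real.sin (ag k 0 x) * Real.cos (ag k 1 x)) • agL k 1) x := by
  have h0 : HasFDerivAt (fun x => Real.sin (ag k 0 x)) (Real.cos (ag k 0 x) • agL k 0) x :=
    (Real.hasDerivAt_sin (ag k 0 x)).comp_hasFDerivAt x (agL k 0).hasFDerivAt
  have h1 : HasFDerivAt (fun x => Real.sin (ag k 1 x)) (Real.cos (ag k 1 x) • agL k 1) x :=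
    (Real.hasDerivAt_sin (ag k 1 x)).comp_hasFDerivAt x (agL k 1).hasFDerivAt
  refine (h0.mul h1).congr_fderiv ?_
  ext v
  change Real.sin (ag k 0 x) * (Real.cos (ag k 1 x) * agL k 1 v) +
    Real.sin (ag k 1 x) * (Real.cos (ag k 0 x) * agL k 0 v) =
    Real.cos (ag k 0 x) * Real.sin (ag k 1 x) * agL k 0 v +
      Real.sin (ag k 0 x) * Real.cos (ag k 1 x) * agL k 1 v
  ring

theorem partialD_sk0 (k : Fin 2 → ℤ) (x : EN 2) : partialD (sk k) 0 x =
    2 * Real.pi * k 0 * (Real.cos (ag k 0 x) * Real.sin (ag k 1 x)) := by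
  unfold partialD
  rw [(hasFDerivAt_sk k x).fderiv]
  have h0 : agL k 0 (Pi.single 0 1 : EN 2) = 2 * Real.pi * k 0 := by
    rw [agL_apply]; unfold ag; simp
  have h1 : agL k 1 (Pi.single 0 1 : EN 2) = 0 := by
    rw [agL_apply]; unfold ag; simp
  change Real.cos (ag k 0 x) * Real.sin (ag k 1 x) * agL k 0 (Pi.single 0 1 : EN 2) +
    Real.sin (ag k 0 x) * Real.cos (ag k 1 x) * agL k 1 (Pi.single 0 1 : EN 2) = _
  rw [h0, h1]
  ring

theorem partialD_sk1 (k : Fin 2 → ℤ) (x : EN 2) : partialD (sk k) 1 x =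
    2 * Real.pi * k 1 * (Real.sin (ag k 0 x) * Real.cos (ag k 1 x)) := by
  unfold partialD
  rw [(hasFDerivAt_sk k x).fderiv]
  have h0 : agL k 0 (Pi.single 1 1 : EN 2) = 0 := by
    rw [agL_apply]; unfold ag; simp
  have h1 : agL k 1 (Pi.single 1 1 : EN 2) = 2 * Real.pi * k 1 := by
    rw [agL_apply]; unfold ag; simp
  change Real.cos (ag k 0 x) * Real.sin (ag k 1 x) * agL k 0 (Pi.single 1 1 : EN 2) +
    Real.sin (ag k 0 x) * Real.cos (ag k 1 x) * agL k 1 (Pi.single 1 1 : EN 2) = _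
  rw [h0, h1]
  ring

theorem sin_zero_of {k : ℤ} {s : ℝ} (h : s = 0 ∨ s = 1 / 2) :
    Real.sin (2 * Real.pi * k * s) = 0 := by
  rcases h with rfl | rfl
  · simp
  · have : 2 * Real.pi * k * (1 / 2) = k * Real.pi := by ring
    rw [this]
    exact Real.sin_int_mul_pi k

theorem sk_frontier (k : Fin 2 → ℤ) {x : EN 2} (hx : x ∈ frontier Sq) : sk k x = 0 := by
  rw [isOpen_Sq.frontier_eq] at hx
  have hcl : ∀ i, x i ∈ Icc (0 : ℝ) (1 / 2) := by
    intro i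
    have hc : Continuous fun x : EN 2 => x i := continuous_apply i
    have h1 : closure Sq ⊆ {x : EN 2 | x i ∈ Icc (0 : ℝ) (1 / 2)} :=
      closure_minimal (fun y hy => Ioo_subset_Icc_self (hy i)) (isClosed_Icc.preimage hc)
    exact h1 hx.1
  have h2 : ∃ i, x i = 0 ∨ x i = 1 / 2 := by
    by_contra hcon
    push Not at hcon
    apply hx.2
    intro i
    exact ⟨lt_of_le_of_ne (hcl i).1 (Ne.symm (hcon i).1), lt_of_le_of_ne (hcl i).2 (hcon i).2⟩
  obtain ⟨i, hi⟩ := h2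
  unfold sk ag
  fin_cases i
  · have := sin_zero_of (k := k 0) hi
    change Real.sin (2 * Real.pi * k 0 * x 0) = 0 at this
    rw [this, zero_mul]
  · have := sin_zero_of (k := k 1) hi
    change Real.sin (2 * Real.pi * k 1 * x 1) = 0 at this
    rw [this, mul_zero]

theorem null_coord (j : Fin 2) {C : Set ℝ} (hC : C.Countable) :
    ∀ᵐ x ∂(volume.restrict Sq), (x : EN 2) j ∉ C := by
  apply ae_restrict_of_ae
  have h1 : ∀ a : ℝ, ∀ᵐ x ∂(volume : Measure (EN 2)), x j ≠ a := by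
    intro a
    have h2 : (volume : Measure (Fin 2 → ℝ)) {y | y j = a} = 0 := Measure.pi_hyperplane _ j _
    rw [ae_iff]; simpa using h2
  have h2 : ∀ᵐ x ∂(volume : Measure (EN 2)), ∀ a ∈ C, x j ≠ a := (ae_ball_iff hC).2 fun a _ => h1 a
  filter_upwards [h2] with x hx hmem
  exact hx _ hmem rfl

theorem sk_ne_zero {k : Fin 2 → ℤ} (hk : ∀ j, k j ≠ 0) :
    ∀ᵐ x ∂(volume.restrict Sq), sk k x ≠ 0 := by
  have h1 : ∀ j, ∀ᵐ x ∂(volume.restrict Sq), Real.sin (ag k j x) ≠ 0 := by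
    intro j
    have hC : (range fun n : ℤ => (n : ℝ) / (2 * k j)).Countable := countable_range _
    filter_upwards [null_coord j hC] with x hx hs
    apply hx
    obtain ⟨n, hn⟩ := Real.sin_eq_zero_iff.1 hs
    refine ⟨n, ?_⟩
    unfold ag at hn
    have h2 : (k j : ℝ) ≠ 0 := by exact_mod_cast hk j
    have hpi := Real.pi_pos
    change (n : ℝ) / (2 * k j) = x j
    rw [div_eq_iff (by positivity)]
    have h3 : Real.pi * ((n : ℝ) - x j * (2 * k j)) = 0 := by linear_combination hn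
    rcases mul_eq_zero.1 h3 with h | h
    · exact absurd h hpi.ne'
    · linarith
  filter_upwards [h1 0, h1 1] with x g1 g2
  exact mul_ne_zero g1 g2

/-! ### Antisymmetrization -/

/-- Antisymmetrization. -/
def An : K 2 →L[ℂ] K 2 := (1 / 4 : ℂ) •
  ((ContinuousLinearMap.id ℂ (K 2) - (Rf 0).toContinuousLinearMap).comp
    (ContinuousLinearMap.id ℂ (K 2) - (Rf 1).toContinuousLinearMap))

theorem An_apply (x : K 2) : An x = (1 / 4 : ℂ) • ((x - Rf 1 x) - Rf 0 (x - Rf 1 x)) := rfl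

theorem An_odd {x : K 2} (hx : IsOdd x) : An x = x := by
  rw [An_apply, hx 1, sub_neg_eq_add, map_add, hx 0]
  have h : x + x - (-x + -x) = (4 : ℂ) • x := by
    have : (4 : ℂ) • x = (2 : ℂ) • x + (2 : ℂ) • x := by rw [← add_smul]; norm_num
    rw [this, two_smul]; abel
  rw [h, smul_smul]
  norm_num

/-- The antisymmetrized character. -/
def ak (k : Fin 2 → ℤ) : K 2 := An (ev k)

theorem ak_eq (k : Fin 2 → ℤ) : ak k = (1 / 4 : ℂ) • (ev k - ev ![k 0, -k 1] -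
    (ev ![-k 0, k 1] - ev ![-k 0, -k 1])) := by
  rw [ak, An_apply, map_sub, Rf_ev, Rf_ev, Rf_ev]
  congr 4
  · ext i; fin_cases i <;> simp
  · ext i; fin_cases i <;> simp
  · ext i; fin_cases i <;> simp

/-- The exponentials. -/
def ex (k : Fin 2 → ℤ) (j : Fin 2) (s : ℝ) (x : EN 2) : ℂ :=
  Complex.exp ((((s * ag k j x : ℝ)) : ℂ) * Complex.I)

theorem ev_iot (k : Fin 2 → ℤ) (s s' : ℤ) : ∀ᵐ x ∂(volume.restrict Sq),
    (ev ![s * k 0, s' * k 1] : K 2) (iot x) = ex k 0 s x * ex k 1 s' x := by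
  filter_upwards [ae_iot (coeFn_ev (![s * k 0, s' * k 1] : Fin 2 → ℤ))] with x h
  rw [h, mFourier_iot, ex, ex, ← Complex.exp_add, lk_apply]
  congr 1
  unfold ag
  simp only [Matrix.cons_val_zero, Matrix.cons_val_one]
  push_cast
  ring

/-- Combination of four characters. -/
def cb (a b c d : ℂ) (k : Fin 2 → ℤ) : K 2 := (1 / 4 : ℂ) • (a • ev ![1 * k 0, 1 * k 1] -
  b • ev ![1 * k 0, -1 * k 1] - (c • ev ![-1 * k 0, 1 * k 1] - d • ev ![-1 * k 0, -1 * k 1]))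

theorem cb_iot (a b c d : ℂ) (k : Fin 2 → ℤ) : ∀ᵐ x ∂(volume.restrict Sq),
    cb a b c d k (iot x) = (1 / 4) * (a * (ex k 0 1 x * ex k 1 1 x) -
      b * (ex k 0 1 x * ex k 1 (-1) x) - (c * (ex k 0 (-1) x * ex k 1 1 x) -
      d * (ex k 0 (-1) x * ex k 1 (-1) x))) := by
  have h1 := ev_iot k 1 1
  have h2 := ev_iot k 1 (-1)
  have h3 := ev_iot k (-1) 1
  have h4 := ev_iot k (-1) (-1)
  push_cast at h1 h2 h3 h4
  filter_upwards [h1, h2, h3, h4,
    ae_iot (Lp.coeFn_smul (1 / 4 : ℂ) (a • ev ![1 * k 0, 1 * k 1] -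
      b • ev ![1 * k 0, -1 * k 1] - (c • ev ![-1 * k 0, 1 * k 1] - d • ev ![-1 * k 0, -1 * k 1]) :
      K 2)),
    ae_iot (Lp.coeFn_sub (a • ev ![1 * k 0, 1 * k 1] - b • ev ![1 * k 0, -1 * k 1] : K 2)
      (c • ev ![-1 * k 0, 1 * k 1] - d • ev ![-1 * k 0, -1 * k 1])),
    ae_iot (Lp.coeFn_sub (a • ev ![1 * k 0, 1 * k 1] : K 2) (b • ev ![1 * k 0, -1 * k 1])),
    ae_iot (Lp.coeFn_sub (c • ev ![-1 * k 0, 1 * k 1] : K 2) (d • ev ![-1 * k 0, -1 * k 1])),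
    ae_iot (Lp.coeFn_smul a (ev ![1 * k 0, 1 * k 1] : K 2)),
    ae_iot (Lp.coeFn_smul b (ev ![1 * k 0, -1 * k 1] : K 2)),
    ae_iot (Lp.coeFn_smul c (ev ![-1 * k 0, 1 * k 1] : K 2)),
    ae_iot (Lp.coeFn_smul d (ev ![-1 * k 0, -1 * k 1] : K 2))]
    with x h1 h2 h3 h4 g1 g2 g3 g4 g5 g6 g7 g8
  rw [cb, g1, Pi.smul_apply, g2, Pi.sub_apply, g3, g4, Pi.sub_apply, Pi.sub_apply, g5, g6, g7, g8,
    Pi.smul_apply, Pi.smul_apply, Pi.smul_apply, Pi.smul_apply, h1, h2, h3, h4]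
  rfl

theorem ex_sub (k : Fin 2 → ℤ) (j : Fin 2) (x : EN 2) :
    ex k j 1 x - ex k j (-1) x = 2 * Complex.I * Real.sin (ag k j x) := by
  unfold ex
  rw [Complex.exp_mul_I, Complex.exp_mul_I]
  push_cast
  rw [one_mul, neg_one_mul, Complex.cos_neg, Complex.sin_neg]
  ring

theorem ex_add (k : Fin 2 → ℤ) (j : Fin 2) (x : EN 2) :
    ex k j 1 x + ex k j (-1) x = 2 * Real.cos (ag k j x) := by
  unfold ex
  rw [Complex.exp_mul_I, Complex.exp_mul_I]
  push_cast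
  rw [one_mul, neg_one_mul, Complex.cos_neg, Complex.sin_neg]
  ring

theorem ak_cb (k : Fin 2 → ℤ) : ak k = cb 1 1 1 1 k := by
  have h0 : (![1 * k 0, 1 * k 1] : Fin 2 → ℤ) = k := by ext i; fin_cases i <;> simp
  have h1 : (![1 * k 0, -1 * k 1] : Fin 2 → ℤ) = ![k 0, -k 1] := by
    ext i; fin_cases i <;> simp
  have h2 : (![-1 * k 0, 1 * k 1] : Fin 2 → ℤ) = ![-k 0, k 1] := by
    ext i; fin_cases i <;> simp
  have h3 : (![-1 * k 0, -1 * k 1] : Fin 2 → ℤ) = ![-k 0, -k 1] := by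
    ext i; fin_cases i <;> simp
  rw [ak_eq, cb, one_smul, one_smul, one_smul, one_smul, h0, h1, h2, h3]

theorem Mb_cb {b : (Fin 2 → ℤ) → ℝ} (hb : ∀ k, |b k| ≤ 1) (k : Fin 2 → ℤ) {s s' : ℝ}
    (h1 : b ![1 * k 0, -1 * k 1] = s' * b k) (h2 : b ![-1 * k 0, 1 * k 1] = s * b k)
    (h3 : b ![-1 * k 0, -1 * k 1] = s * s' * b k) :
    Mb hb (ak k) = (b k : ℂ) • cb 1 s' s (s * s') k := by
  have h0 : (![1 * k 0, 1 * k 1] : Fin 2 → ℤ) = k := by ext i; fin_cases i <;> simp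
  rw [ak_cb, cb, cb, map_smul, map_sub, map_sub, map_sub, map_smul, map_smul, map_smul, map_smul,
    Mb_ev, Mb_ev, Mb_ev, Mb_ev, h1, h2, h3, h0]
  push_cast
  module

theorem nk_sgn (k : Fin 2 → ℤ) {s s' : ℤ} (hs : s = 1 ∨ s = -1) (hs' : s' = 1 ∨ s' = -1) :
    nk ![s * k 0, s' * k 1] = nk k := by
  unfold nk
  congr 1
  simp only [Matrix.cons_val_zero, Matrix.cons_val_one]
  rcases hs with rfl | rfl <;> rcases hs' with rfl | rfl <;> push_cast <;> ring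

theorem L0_ak (k : Fin 2 → ℤ) : L0 (ak k) = (b0 k : ℂ) • cb 1 1 1 1 k := by
  have h := Mb_cb b0_le k (s := 1) (s' := 1)
    (by unfold b0; rw [nk_sgn k (Or.inl rfl) (Or.inr rfl)]; ring)
    (by unfold b0; rw [nk_sgn k (Or.inr rfl) (Or.inl rfl)]; ring)
    (by unfold b0; rw [nk_sgn k (Or.inr rfl) (Or.inr rfl)]; ring)
  rw [L0, h]
  push_cast
  rw [one_mul]

theorem B0_ak (k : Fin 2 → ℤ) : Bj 0 (ak k) = (bj 0 k : ℂ) • cb 1 1 (-1) (-1) k := by
  have h := Mb_cb (bj_le 0) k (s := -1) (s' := 1)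
    (by unfold bj; rw [nk_sgn k (Or.inl rfl) (Or.inr rfl)]; simp)
    (by unfold bj; rw [nk_sgn k (Or.inr rfl) (Or.inl rfl)]; simp [neg_div])
    (by unfold bj; rw [nk_sgn k (Or.inr rfl) (Or.inr rfl)]; simp [neg_div])
  rw [Bj, h]
  push_cast
  rw [mul_one]

theorem B1_ak (k : Fin 2 → ℤ) : Bj 1 (ak k) = (bj 1 k : ℂ) • cb 1 (-1) 1 (-1) k := by
  have h := Mb_cb (bj_le 1) k (s := 1) (s' := -1)
    (by unfold bj; rw [nk_sgn k (Or.inl rfl) (Or.inr rfl)]; simp [neg_div])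
    (by unfold bj; rw [nk_sgn k (Or.inr rfl) (Or.inl rfl)]; simp)
    (by unfold bj; rw [nk_sgn k (Or.inr rfl) (Or.inr rfl)]; simp [neg_div])
  rw [Bj, h]
  push_cast
  rw [one_mul]

theorem cb_sin_sin (k : Fin 2 → ℤ) : ∀ᵐ x ∂(volume.restrict Sq),
    cb 1 1 1 1 k (iot x) = ((-(sk k x) : ℝ) : ℂ) := by
  filter_upwards [cb_iot 1 1 1 1 k] with x h
  rw [h]
  have h1 := ex_sub k 0 x
  have h2 := ex_sub k 1 x
  have h3 : (1 / 4 : ℂ) * (1 * (ex k 0 1 x * ex k 1 1 x) - 1 * (ex k 0 1 x * ex k 1 (-1) x) -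
      (1 * (ex k 0 (-1) x * ex k 1 1 x) - 1 * (ex k 0 (-1) x * ex k 1 (-1) x))) =
      (1 / 4) * ((ex k 0 1 x - ex k 0 (-1) x) * (ex k 1 1 x - ex k 1 (-1) x)) := by ring
  rw [h3, h1, h2, sk]
  push_cast
  have hI : Complex.I * Complex.I = -1 := Complex.I_mul_I
  linear_combination (Complex.sin (ag k 0 x) * Complex.sin (ag k 1 x)) * hI

theorem cb_cos_sin (k : Fin 2 → ℤ) : ∀ᵐ x ∂(volume.restrict Sq),
    cb 1 1 (-1) (-1) k (iot x) =
      ((Real.cos (ag k 0 x) * Real.sin (ag k 1 x) : ℝ) : ℂ) * Complex.I := by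
  filter_upwards [cb_iot 1 1 (-1) (-1) k] with x h
  rw [h]
  have h1 := ex_add k 0 x
  have h2 := ex_sub k 1 x
  have h3 : (1 / 4 : ℂ) * (1 * (ex k 0 1 x * ex k 1 1 x) - 1 * (ex k 0 1 x * ex k 1 (-1) x) -
      (-1 * (ex k 0 (-1) x * ex k 1 1 x) - -1 * (ex k 0 (-1) x * ex k 1 (-1) x))) =
      (1 / 4) * ((ex k 0 1 x + ex k 0 (-1) x) * (ex k 1 1 x - ex k 1 (-1) x)) := by ring
  rw [h3, h1, h2]
  push_cast
  ring

theorem cb_sin_cos (k : Fin 2 → ℤ) : ∀ᵐ x ∂(volume.restrict Sq),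
    cb 1 (-1) 1 (-1) k (iot x) =
      ((Real.sin (ag k 0 x) * Real.cos (ag k 1 x) : ℝ) : ℂ) * Complex.I := by
  filter_upwards [cb_iot 1 (-1) 1 (-1) k] with x h
  rw [h]
  have h1 := ex_sub k 0 x
  have h2 := ex_add k 1 x
  have h3 : (1 / 4 : ℂ) * (1 * (ex k 0 1 x * ex k 1 1 x) - -1 * (ex k 0 1 x * ex k 1 (-1) x) -
      (1 * (ex k 0 (-1) x * ex k 1 1 x) - -1 * (ex k 0 (-1) x * ex k 1 (-1) x))) =
      (1 / 4) * ((ex k 0 1 x - ex k 0 (-1) x) * (ex k 1 1 x + ex k 1 (-1) x)) := by ring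
  rw [h3, h1, h2]
  push_cast
  ring

theorem reO_smul (z : ℂ) (y : K 2) : ∀ᵐ x ∂(volume.restrict Sq),
    reO (z • y) x = (z * y (iot x)).re := by
  filter_upwards [coeFn_reO (z • y), ae_iot (Lp.coeFn_smul z y)] with x h1 h2
  rw [h1, h2, Pi.smul_apply, smul_eq_mul]

/-- The class of an eigenfunction. -/
theorem sk_memLp (k : Fin 2 → ℤ) : MemLp (sk k) 2 (volume.restrict Sq) :=
  (memLp_bounded isOpen_Sq isBounded_Sq (contDiff_sk k).continuous).1

theorem gsk_memLp (k : Fin 2 → ℤ) (j : Fin 2) :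
    MemLp (partialD (sk k) j) 2 (volume.restrict Sq) :=
  (memLp_bounded isOpen_Sq isBounded_Sq (continuous_partialD (contDiff_sk k) j)).1

theorem sk_mem_H10 {k : Fin 2 → ℤ} (hk : ∀ j, k j ≠ 0) :
    ((sk_memLp k).toLp _, fun j => (gsk_memLp k j).toLp _) ∈ H10 Sq :=
  mem_H10_of_smooth isOpen_Sq isBounded_Sq (contDiff_sk k) (fun _ hx => sk_frontier k hx)
    (sk_ne_zero hk) (MemLp.coeFn_toLp (sk_memLp k)) (fun j => MemLp.coeFn_toLp (gsk_memLp k j))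

theorem Ph_ak_eq (c : ℂ) (k : Fin 2 → ℤ) :
    (Ph (c • ak k)).1 = (-(c.im * b0 k / (2 * Real.pi))) •
      (((sk_memLp k).toLp _, fun j => (gsk_memLp k j).toLp _) : L2 Sq × (Fin 2 → L2 Sq)) := by
  rw [Ph_apply]
  have hpi : Real.pi ≠ 0 := Real.pi_ne_zero
  have hu : reO (-(Complex.I / (2 * Real.pi)) • L0 (c • ak k)) =
      (-(c.im * b0 k / (2 * Real.pi))) • (sk_memLp k).toLp _ := by
    have e0 : L0 (c • ak k) = c • L0 (ak k) := map_smul L0 c (ak k)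
    rw [e0, L0_ak, smul_smul, smul_smul]
    apply Lp.ext
    filter_upwards [reO_smul (-(Complex.I / (2 * Real.pi)) * (c * b0 k)) (cb 1 1 1 1 k),
      cb_sin_sin k, Lp.coeFn_smul (-(c.im * b0 k / (2 * Real.pi))) ((sk_memLp k).toLp _),
      MemLp.coeFn_toLp (sk_memLp k)] with x h1 h2 h3 h4
    rw [← mul_assoc] at h1
    rw [h1, h2, h3, Pi.smul_apply, h4, smul_eq_mul]
    have h5 : -(Complex.I / (2 * Real.pi)) * c * b0 k * ((-(sk k x) : ℝ) : ℂ) =
        ((b0 k * sk k x / (2 * Real.pi) : ℝ) : ℂ) * (c * Complex.I) := by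
      push_cast; ring
    rw [h5, Complex.re_ofReal_mul]
    simp only [Complex.mul_re, Complex.I_re, Complex.I_im]
    ring
  have hg0 : reO (Bj 0 (c • ak k)) =
      (-(c.im * b0 k / (2 * Real.pi))) • (gsk_memLp k 0).toLp _ := by
    have e0 : Bj 0 (c • ak k) = c • Bj 0 (ak k) := map_smul (Bj 0) c (ak k)
    rw [e0, B0_ak, smul_smul]
    apply Lp.ext
    filter_upwards [reO_smul (c * bj 0 k) (cb 1 1 (-1) (-1) k), cb_cos_sin k,
      Lp.coeFn_smul (-(c.im * b0 k / (2 * Real.pi))) ((gsk_memLp k 0).toLp _),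
      MemLp.coeFn_toLp (gsk_memLp k 0)] with x h2 h4 h6 h7
    rw [h2, h4, h6, Pi.smul_apply, h7, partialD_sk0, smul_eq_mul]
    have h8 : c * bj 0 k * (((Real.cos (ag k 0 x) * Real.sin (ag k 1 x) : ℝ) : ℂ) * Complex.I) =
        ((bj 0 k * (Real.cos (ag k 0 x) * Real.sin (ag k 1 x)) : ℝ) : ℂ) * (c * Complex.I) := by
      push_cast; ring
    rw [h8, Complex.re_ofReal_mul]
    simp only [Complex.mul_re, Complex.I_re, Complex.I_im]
    unfold bj b0
    field_simp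
    ring
  have hg1 : reO (Bj 1 (c • ak k)) =
      (-(c.im * b0 k / (2 * Real.pi))) • (gsk_memLp k 1).toLp _ := by
    have e1 : Bj 1 (c • ak k) = c • Bj 1 (ak k) := map_smul (Bj 1) c (ak k)
    rw [e1, B1_ak, smul_smul]
    apply Lp.ext
    filter_upwards [reO_smul (c * bj 1 k) (cb 1 (-1) 1 (-1) k), cb_sin_cos k,
      Lp.coeFn_smul (-(c.im * b0 k / (2 * Real.pi))) ((gsk_memLp k 1).toLp _),
      MemLp.coeFn_toLp (gsk_memLp k 1)] with x h2 h4 h6 h7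
    rw [h2, h4, h6, Pi.smul_apply, h7, partialD_sk1, smul_eq_mul]
    have h8 : c * bj 1 k * (((Real.sin (ag k 0 x) * Real.cos (ag k 1 x) : ℝ) : ℂ) * Complex.I) =
        ((bj 1 k * (Real.sin (ag k 0 x) * Real.cos (ag k 1 x)) : ℝ) : ℂ) * (c * Complex.I) := by
      push_cast; ring
    rw [h8, Complex.re_ofReal_mul]
    simp only [Complex.mul_re, Complex.I_re, Complex.I_im]
    unfold bj b0
    field_simp
    ring
  refine Prod.ext hu ?_
  funext j
  fin_cases j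
  · exact hg0
  · exact hg1

theorem ak_eq_zero {k : Fin 2 → ℤ} {j : Fin 2} (hj : k j = 0) : ak k = 0 := by
  have h0 : (![k 0, k 1] : Fin 2 → ℤ) = k := by ext i; fin_cases i <;> simp
  rw [ak_eq]
  fin_cases j
  · change k 0 = 0 at hj
    rw [hj, neg_zero]
    rw [hj] at h0
    rw [h0]
    simp
  · change k 1 = 0 at hj
    rw [hj, neg_zero]
    rw [hj] at h0
    rw [h0]
    simp

theorem Ph_ak_mem (c : ℂ) (k : Fin 2 → ℤ) : (Ph (c • ak k)).1 ∈ H10 Sq := by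
  by_cases hk : ∀ j, k j ≠ 0
  · rw [Ph_ak_eq]
    exact smul_mem_H10 _ (sk_mem_H10 hk)
  · push Not at hk
    obtain ⟨j, hj⟩ := hk
    rw [ak_eq_zero hj, smul_zero, map_zero]
    exact zero_mem_H10

/-- The state of an odd function has its position in `H¹₀`. -/
theorem Ph_mem_H10 {Z : K 2} (hZ : IsOdd Z) : (Ph Z).1 ∈ H10 Sq := by
  have key : ∀ x : K 2, (Ph (An x)).1 ∈ H10 Sq := by
    intro x
    refine K_induct (p := fun x => (Ph (An x)).1 ∈ H10 Sq) ?_ ?_ ?_ ?_ x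
    · exact isClosed_closure.preimage (continuous_fst.comp (Ph.continuous.comp An.continuous))
    · rw [map_zero, map_zero]
      exact zero_mem_H10
    · intro x y hx hy
      rw [map_add, map_add, Prod.fst_add]
      exact add_mem_H10 hx hy
    · intro c k
      rw [map_smul]
      exact Ph_ak_mem c k
  have := key Z
  rwa [An_odd hZ] at this

end

end Pool.Agent.Lib_helper45.W2
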