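import Pool.Agent.Lib_helper45.W2.Micro

/-!
The stages of the construction.
-/

open MeasureTheory Set Filter Topology
open scoped NNReal ENNReal ComplexConjugate

namespace Pool.Agent.Lib_helper45.W2

noncomputable section

/-! ### Low frequencies -/

theorem inner_ev_pw {p q : ℤ} (h : p ≠ 0) (k : Fin 2 → ℤ) (hk : |k 0| < |p|) (ψ : K 1) :
    inner ℂ (ev k) (pw (q := q) h 0 ψ) = inner ℂ (ev k) (ev 0 : K 2) * inner ℂ (ev 0 : K 1) ψ := by
  classical
  refine K_induct (p := fun ψ => inner ℂ (ev k) (pw (q := q) h 0 ψ) =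
    inner ℂ (ev k) (ev 0 : K 2) * inner ℂ (ev 0 : K 1) ψ) ?_ ?_ ?_ ?_ ψ
  · have hc : Continuous fun x : K 1 => (inner ℂ (ev 0 : K 1) x : ℂ) :=
      continuous_const.inner continuous_id
    exact isClosed_eq (continuous_const.inner (pw h 0).continuous) (continuous_const.mul hc)
  · simp
  · intro x y hx hy
    rw [map_add, inner_add_right, inner_add_right, hx, hy, mul_add]
  · intro c a
    rw [map_smul, inner_smul_right, inner_smul_right, pw_ev, inner_smul_right, inner_ev, inner_ev,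
      inner_ev]
    have hf : (fourier (a 0) (0 : UnitAddCircle) : ℂ) = 1 := by simp
    rw [hf]
    by_cases h0 : (0 : Fin 1 → ℤ) = a
    · rw [if_pos h0]
      have h1 : (![a 0 * p, a 0 * q] : Fin 2 → ℤ) = 0 := by
        rw [← h0]; ext j; fin_cases j <;> simp
      rw [h1]
      ring
    · rw [if_neg h0, if_neg]
      · ring
      · intro h1
        have h2 := congrFun h1 0
        have h3 : k 0 = a 0 * p := h2
        have h4 : a 0 ≠ 0 := by
          intro h5
          apply h0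
          ext j; fin_cases j
          exact h5.symm
        have h5 : 1 ≤ |a 0| := Int.one_le_abs h4
        rw [h3, abs_mul] at hk
        have h6 := abs_nonneg p
        nlinarith

theorem inner_ev_Vg (k : Fin 2 → ℤ) (ε : ℝ) (i : ℕ × ℕ) (hk : |k 0| < Pi i) :
    inner ℂ (ev k) (Vg ε i) = 0 := by
  have h1 : |k 0| < |Pi i| := by rw [abs_of_pos (Pi_pos i)]; exact hk
  have h2 : |k 0| < |-Pi i| := by rw [abs_neg]; exact h1
  unfold Vg four
  rw [inner_add_right, inner_sub_right, inner_sub_right, inner_ev_pw _ k h1, inner_ev_pw _ k h2,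
    inner_ev_pw _ k h1, inner_ev_pw _ k h2]
  ring

theorem eventually_Pi (M : ℕ) : ∀ᶠ i in GG, (M : ℤ) < Pi i := by
  rw [Filter.eventually_curry_iff]
  filter_upwards [eventually_ge_atTop M] with a ha
  filter_upwards with b
  unfold Pi
  have h1 : (M : ℤ) ≤ a := by exact_mod_cast ha
  have h2 : (0 : ℤ) ≤ b := Int.natCast_nonneg b
  have h3 : (0 : ℤ) ≤ a := Int.natCast_nonneg a
  change (M : ℤ) < 2 * ((a : ℤ) + 2) * ((b : ℤ) + 1)
  nlinarith

theorem norm_Vg_eq (ε : ℝ) (i i' : ℕ × ℕ) : ‖Vg ε i‖ = ‖Vg ε i'‖ := by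
  have h1 := norm_Vg_sq ε i
  have h2 := norm_Vg_sq ε i'
  rw [← h2] at h1
  exact (sq_eq_sq₀ (norm_nonneg _) (norm_nonneg _)).1 h1

/-- A window for the next main group. -/
theorem exists_window {X : ℝ} (hX : 0 < X) (hX1 : X ≤ 1) (j₀ : ℕ) : ∃ (j : ℕ) (ε : ℝ), j₀ ≤ j ∧
    0 < ε ∧ ε ≤ 1 / 12 ∧ (∀ i, Cb j * ‖Vg ε i‖ ≤ X) ∧
    ∀ i, 10 / ‖Vg ε i‖ ≤ Cb (j + 1) / 10 ^ 3 := by
  obtain ⟨j₁, hj₁⟩ := exists_nat_ge (25000 / X)
  set j := max j₀ j₁ with hj
  have hC := Cb_pos j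
  have hC1 := one_le_Cb j
  set ε : ℝ := (X / (5 * Cb j)) ^ 2 with hε
  have hx0 : 0 < X / (5 * Cb j) := by positivity
  have hx1 : X / (5 * Cb j) ≤ 1 / 5 := by
    rw [div_le_iff₀ (by positivity)]
    linarith
  have hε0 : 0 < ε := by positivity
  have hε1 : ε ≤ 1 / 12 := by
    rw [hε]; nlinarith
  have hs : Real.sqrt ε = X / (5 * Cb j) := Real.sqrt_sq hx0.le
  refine ⟨j, ε, le_max_left _ _, hε0, hε1, fun i => ?_, fun i => ?_⟩
  · have h1 := norm_Vg_upper hε0 hε1 i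
    rw [hs] at h1
    calc Cb j * ‖Vg ε i‖ ≤ Cb j * (5 * (X / (5 * Cb j))) := mul_le_mul_of_nonneg_left h1 hC.le
      _ = X := by field_simp
  · have h1 := norm_Vg_lower hε0 hε1 i
    rw [hs] at h1
    have h2 : 10 / ‖Vg ε i‖ ≤ 10 / (2 * (X / (5 * Cb j))) :=
      div_le_div_of_nonneg_left (by norm_num) (by positivity) h1
    have h3 : 10 / (2 * (X / (5 * Cb j))) = 25000 / X * Cb j / 10 ^ 3 := by
      field_simp
      norm_num
    refine h2.trans ?_
    rw [h3, Cb_succ]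
    have h4 : (j : ℝ) ≤ 4 ^ (2 * j + 1) := by
      have h5 : j ≤ 4 ^ (2 * j + 1) := by
        calc j ≤ 2 ^ j := Nat.lt_two_pow_self.le
          _ ≤ 4 ^ j := Nat.pow_le_pow_left (by norm_num) j
          _ ≤ 4 ^ (2 * j + 1) := Nat.pow_le_pow_right (by norm_num) (by omega)
      exact_mod_cast h5
    have h6 : (j₁ : ℝ) ≤ j := by exact_mod_cast le_max_right j₀ j₁
    gcongr
    linarith

/-! ### Auxiliary -/

theorem sm_zero (L : List Gp) : (sm L fun _ => (0 : ℝ)) = 0 := by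
  have := sm_mul L 0 (fun _ => (0 : ℝ))
  simpa using this

theorem Adm_zero {L : List Gp} (hL : WF L) : Adm (fun _ => 0) L := by
  induction L with
  | nil => trivial
  | cons t L ih =>
    refine ⟨ih hL.1, le_rfl, hL.2.kap, fun _ => ⟨?_, le_rfl⟩⟩
    have : (sm L fun g => (0 : ℝ) * t.p g.j) = sm L fun _ => 0 := sm_congr fun g _ => by simp
    rw [this, sm_zero, add_zero]

theorem smV_zero (L : List Gp) : (smV L fun _ => (0 : K 2)) = 0 := by
  induction L with
  | nil => rfl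
  | cons t L ih => rw [smV_cons, ih, add_zero]

theorem smV_single {L : List Gp} (hL : WF L) {s : Gp} (hs : s ∈ L) (f : Gp → K 2) :
    (smV L fun g => if g.j = s.j then f g else 0) = f s := by
  induction L with
  | nil => simp at hs
  | cons t L ih =>
    rw [smV_cons]
    rcases List.mem_cons.1 hs with h1 | h1
    · subst h1
      rw [if_pos rfl]
      have : (smV L fun g => if g.j = s.j then f g else 0) = smV L fun _ => 0 :=
        smV_congr fun g hg => by
          have := hL.2.lt hL.1 hg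
          rw [if_neg (by omega)]
      rw [this, smV_zero, add_zero]
    · have := hL.2.lt hL.1 h1
      rw [if_neg (by omega), ih hL.1 h1, zero_add]

theorem vL_sgl {L : List Gp} (hL : WF L) {s : Gp} (hs : s ∈ L) (a : ℝ) :
    (vL L fun g => sgl s.j a g.j) = (a : ℂ) • Vg s.ε s.i := by
  have h1 : (vL L fun g => sgl s.j a g.j) =
      smV L fun g => if g.j = s.j then (fun g => (a : ℂ) • Vg g.ε g.i) g else 0 := by
    unfold vL
    refine smV_congr fun g _ => ?_
    change ((sgl s.j a g.j : ℝ) : ℂ) • Vg g.ε g.i = _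
    unfold sgl
    by_cases hg : g.j = s.j
    · rw [if_pos hg, if_pos hg]
    · rw [if_neg hg, if_neg hg]; simp
  rw [h1, smV_single hL hs]

theorem MS.mono_b {Z₀ : K 2} {L : List Gp} {s J : Gp} {p : ℕ → ℤ} {u n m T : ℕ} {b b' ρ : ℝ}
    (h : MS Z₀ L s J p u n m T b ρ) (hb : b' ≤ b) : MS Z₀ L s J p u n m T b' ρ :=
  { h with val := hb.trans h.val }

/-- The state at the beginning of a stage. -/
structure SS (Z₀ : K 2) (L : List Gp) (s : Gp) (T : ℕ) (b η : ℝ) : Prop where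
  wf : WF L
  si : SI L
  small : ‖om L‖ < 1 / 100
  smem : s ∈ L
  smain : s.aux = false
  above : ∀ g ∈ L, s.j < g.j → g.aux = true
  seps : 0 < s.ε ∧ s.ε ≤ 1 / 12
  skap : s.κ = 10 / ‖Vg s.ε s.i‖
  adm : ∀ a, 0 ≤ a → a ≤ s.κ → Adm (sgl s.j a) L
  val : b ≤ 20 * xc (Vg s.ε s.i) (DD Z₀ (om L) T) - ‖DD Z₀ (om L) T‖ ^ 2
  eta : 0 < η ∧ η ≤ 1 / 64
  ns : ‖Vg s.ε s.i‖ ≤ η ^ 2 / 600

/-- The pattern which is `-1` at one place. -/
def p1 (k : ℕ) : ℕ → ℤ := fun i => if i = k then -1 else 0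

theorem sm_p1 {L : List Gp} (hL : WF L) {s : Gp} (hs : s ∈ L) (f : Gp → ℝ) :
    (sm L fun g => f g * (p1 s.j g.j : ℤ)) = -f s := by
  have h1 : (sm L fun g => f g * (p1 s.j g.j : ℤ)) =
      sm L fun g => if g.j = s.j then (fun g => -f g) g else 0 := by
    refine sm_congr fun g _ => ?_
    unfold p1
    split_ifs <;> simp
  rw [h1, sm_single hL hs]

/-- Adding the next main group. -/
theorem stage_init {Z₀ : K 2} (hZ : ‖Z₀‖ ≤ 1) {L : List Gp} {s : Gp} {T : ℕ} {b η : ℝ}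
    (h : SS Z₀ L s T b η) {η' : ℝ} (hη' : 0 < η') {lam : ℝ} (hlam : 0 < lam) (M : ℕ) :
    ∃ (J : Gp) (u : ℕ), MS Z₀ (J :: L) s J (p1 s.j) u 0 0 T (b - 44 * lam) 0 ∧
      (T + 1) * ‖om (J :: L) - om L‖ ≤ lam ∧
      (15 + Cb J.j) * ‖Vg J.ε J.i‖ ≤ η ^ 2 / 40 ∧
      ‖Vg J.ε J.i‖ / ‖Vg s.ε s.i‖ ≤ η ^ 2 / 400 ∧
      ‖Vg J.ε J.i‖ ≤ η' ^ 2 / 600 ∧
      ∀ k : Fin 2 → ℤ, |k 0| ≤ M → inner ℂ (ev k) (Vg J.ε J.i) = 0 := by
  have hη := h.eta.1
  set Vs := Vg s.ε s.i with hVs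
  have hs : 0 < ‖Vs‖ := norm_Vg_pos h.seps.1 h.seps.2 _
  have hsm := h.small
  have hTn : (0 : ℝ) ≤ T := Nat.cast_nonneg T
  set X := min 1 (min (lam / (2 * (T + 1))) (min ((1 / 100 - ‖om L‖) / 4)
    (min (η ^ 2 / 80) (min (‖Vs‖ * η ^ 2 / 400) (η' ^ 2 / 600))))) with hX
  have hXpos : 0 < X := by
    have h1 : 0 < 1 / 100 - ‖om L‖ := by linarith
    refine lt_min one_pos (lt_min (by positivity) (lt_min (by positivity)
      (lt_min (by positivity) (lt_min (by positivity) (by positivity)))))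
  have hX1 : X ≤ 1 := min_le_left _ _
  have hX2 : X ≤ lam / (2 * (T + 1)) := (min_le_right _ _).trans (min_le_left _ _)
  have hX3 : X ≤ (1 / 100 - ‖om L‖) / 4 :=
    (min_le_right _ _).trans ((min_le_right _ _).trans (min_le_left _ _))
  have hX4 : X ≤ η ^ 2 / 80 :=
    (min_le_right _ _).trans ((min_le_right _ _).trans ((min_le_right _ _).trans (min_le_left _ _)))
  have hX5 : X ≤ ‖Vs‖ * η ^ 2 / 400 :=
    (min_le_right _ _).trans ((min_le_right _ _).trans ((min_le_right _ _).trans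
      ((min_le_right _ _).trans (min_le_left _ _))))
  have hX6 : X ≤ η' ^ 2 / 600 :=
    (min_le_right _ _).trans ((min_le_right _ _).trans ((min_le_right _ _).trans
      ((min_le_right _ _).trans (min_le_right _ _))))
  obtain ⟨j₀, hj₀⟩ := exists_Cb_ge (max 15 (10 ^ 4 * (1 + sm L fun g => g.κ + g.μ)))
  obtain ⟨j, ε, hjj, hε0, hε1, hεX, hεκ⟩ := exists_window hXpos hX1 j₀
  have hCj := hj₀ j hjj
  have hCj1 := (le_max_right _ _).trans hCj
  have hCj2 := (le_max_left _ _).trans hCj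
  have hCpos := Cb_pos j
  have hC1 := one_le_Cb j
  let J₀ : Gp := { j := j, aux := false, p := fun _ => 0, tg := 0, κ := 10 / ‖Vg ε (0, 0)‖, ε := ε,
                   i := (0, 0) }
  obtain ⟨i, hi, hiM⟩ := ((SI_step (t := J₀) hε0 hε1 h.si).and (eventually_Pi M)).exists
  set J := J₀.seti i with hJ
  have hJj : J.j = j := rfl
  have hJμ : J.μ = 2 * Cb j := by unfold Gp.μ; simp [hJ, J₀, Gp.seti]
  have hVJ : J.κ = 10 / ‖Vg J.ε J.i‖ := by
    change 10 / ‖Vg ε (0, 0)‖ = 10 / ‖Vg ε i‖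
    rw [norm_Vg_eq ε (0, 0) i]
  have hJpos : 0 < ‖Vg J.ε J.i‖ := norm_Vg_pos hε0 hε1 _
  have hκJ : 0 ≤ J.κ := by rw [hVJ]; positivity
  have hcond : Cond J L :=
    { big := hCj1
      kap := hκJ
      main := fun _ => hεκ (0, 0)
      auxk := fun h => by cases h
      auxp := fun h => by cases h
      auxu := fun h => by cases h
      auxt := fun h => by cases h }
  have hwf : WF (J :: L) := ⟨h.wf, hcond⟩
  have hfresh : ∀ g ∈ L, g.j ≠ J.j := fun g hg => (hcond.lt h.wf hg).ne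
  have hX0 : Cb j * ‖Vg J.ε J.i‖ ≤ X := hεX i
  have hX0' : ‖Vg J.ε J.i‖ ≤ X := by nlinarith
  have hom : om (J :: L) - om L = ((J.μ : ℝ) : ℂ) • Vg J.ε J.i := by
    rw [om, vL_cons, om]; abel
  have homn : ‖om (J :: L) - om L‖ = 2 * Cb j * ‖Vg J.ε J.i‖ := by
    rw [hom, norm_cs, abs_of_pos J.μ_pos, hJμ]
  have hsmall : ‖om (J :: L)‖ < 1 / 100 := by
    have h1 : om (J :: L) = om L + (om (J :: L) - om L) := by abel
    have h2 := norm_add_le (om L) (om (J :: L) - om L)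
    rw [← h1, homn] at h2
    linarith
  have hTlam : (T + 1) * ‖om (J :: L) - om L‖ ≤ lam := by
    rw [homn]
    have h1 : 2 * Cb j * ‖Vg J.ε J.i‖ ≤ lam / (T + 1) := by
      have : lam / (2 * (T + 1)) = lam / (T + 1) / 2 := by field_simp
      rw [this] at hX2
      linarith
    rw [le_div_iff₀ (by positivity)] at h1
    linarith
  have hDD : ‖DD Z₀ (om L) T - DD Z₀ (om (J :: L)) T‖ ≤ lam := by
    refine (DD_sub_le _ _ _ hTn).trans ?_
    rw [norm_sub_rev]; exact hTlam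
  have hD1 := norm_DD_le hZ h.small.le hTn
  have hD2 := norm_DD_le hZ hsmall.le hTn
  have hsJ : s.j < J.j := hcond.lt h.wf h.smem
  obtain ⟨u, hu⟩ := mu_nat s
  have hval0 : ∀ D, Val Vs (Vg J.ε J.i) D 0 = 20 * xc Vs D - ‖D‖ ^ 2 := by
    intro D; unfold Val; simp
  have hsmJ : s ∈ J :: L := by simp [h.smem]
  have hJg : ∀ g ∈ L, g.j ≠ J.j := hfresh
  refine ⟨J, u, ?_, hTlam, ?_, ?_, ?_, fun k hk => inner_ev_Vg k _ _ (lt_of_le_of_lt hk hiM)⟩
  · refine { wf := hwf, si := hi, small := hsmall, smem := hsmJ, Jmem := by simp, Jmain := rfl,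
             sJ := hsJ, above := ?_, seps := h.seps, Jeps := ⟨hε0, hε1⟩, skap := h.skap,
             Jkap := hVJ, adm := ?_, co := ?_, pv := ?_, pJ := ?_, pu := ?_, chain := ?_,
             nm := le_rfl, val := ?_, con := fun h => by omega }
    · intro g hg hlt
      rcases List.mem_cons.1 hg with h1 | h1
      · rw [h1] at hlt; omega
      · have := hcond.lt h.wf h1
        omega
    · intro a ha haJ
      have h0 : sgl J.j a J.j = a := by unfold sgl; rw [if_pos rfl]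
      refine ⟨?_, by rw [h0]; exact ha, by rw [h0]; exact haJ, fun h => by cases h⟩
      refine Adm_congr (fun g hg => ?_) (fun g hg haux => ?_) (Adm_zero h.wf)
      · unfold sgl; rw [if_neg (hfresh g hg)]
      · obtain ⟨g', hg', hgt⟩ := h.wf.tg_mem hg haux
        unfold sgl
        rw [if_neg (by rw [← hgt]; exact hfresh g' hg')]
    · intro a m' ha _ has haJ
      have hma : 0 ≤ m' * a := by positivity
      set c := Function.update (sgl s.j a) J.j (m' * a) with hc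
      have hcJ : c J.j = m' * a := Function.update_self _ _ _
      have hcL : ∀ g ∈ L, c g.j = sgl s.j a g.j := fun g hg => Function.update_of_ne (hfresh g hg) _ _
      have hcs : c s.j = a := by rw [hcL s h.smem]; unfold sgl; rw [if_pos rfl]
      refine ⟨c, ⟨Adm_update h.wf hfresh _ (h.adm a ha has), ?_, ?_, fun h => by cases h⟩, hcs, hcJ,
        ?_, ?_⟩
      · rw [hcJ]; exact hma
      · rw [hcJ]; exact haJ
      · rw [sm_p1 hwf hsmJ (fun g => c g.j), hcs]
        push_cast; ring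
      · rw [vL_cons]
        have h1 : (vL L fun g => c g.j) = vL L fun g => sgl s.j a g.j := by
          unfold vL
          exact smV_congr fun g hg => by
            change ((c g.j : ℝ) : ℂ) • _ = ((sgl s.j a g.j : ℝ) : ℂ) • _
            rw [hcL g hg]
        have h2 : (vL L fun g => sgl s.j a g.j) = (a : ℂ) • Vs := vL_sgl h.wf h.smem a
        rw [h1, h2, hcJ]
        rw [show ((m' * a : ℝ) : ℂ) • Vg J.ε J.i + (a : ℂ) • Vs -
          ((a : ℂ) • Vg s.ε s.i + ((m' * a : ℝ) : ℂ) • Vg J.ε J.i) = 0 by rw [← hVs]; abel]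
        simp
    · intro i; unfold p1; split_ifs <;> simp
    · unfold p1; rw [if_neg hsJ.ne']
    · rw [sm_p1 hwf hsmJ Gp.μ, hu]; ring
    · intro z _
      have h2 : (sm (J :: L) fun g => (p1 s.j g.j : ℤ) * z g) =
          sm (J :: L) fun g => z g * (p1 s.j g.j : ℤ) := sm_congr fun g _ => mul_comm _ _
      rw [h2, sm_p1 hwf hsmJ z]
      push_cast
      linarith
    · have h1 := Val_lip hs hJpos (hD1.trans (by norm_num)) (hD2.trans (by norm_num)) hDD 0
      rw [hval0] at h1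
      have h2 := h.val
      linarith
  · change (15 + Cb j) * _ ≤ _
    have h1 : 15 * ‖Vg J.ε J.i‖ ≤ Cb j * ‖Vg J.ε J.i‖ :=
      mul_le_mul_of_nonneg_right hCj2 hJpos.le
    nlinarith
  · rw [div_le_iff₀ hs]
    refine hX0'.trans (hX5.trans (le_of_eq ?_))
    ring
  · exact hX0'.trans hX6

/-- One stage. -/
theorem stage {Z₀ : K 2} (hZ : ‖Z₀‖ ≤ 1) {L : List Gp} {s : Gp} {T : ℕ} {b η : ℝ}
    (h : SS Z₀ L s T b η) (hb : 15 + 33 * η ≤ b) {η' : ℝ} (hη' : 0 < η') (hη1' : η' ≤ 1 / 64)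
    {γ : ℝ} (hγ : 0 < γ) (M : ℕ) :
    ∃ (L' : List Gp) (s' : Gp) (T' : ℕ), SS Z₀ L' s' T' (b - 33 * η) η' ∧ T ≤ T' ∧
      (T + 1) * ‖om L' - om L‖ ≤ γ ∧
      ∀ k : Fin 2 → ℤ, |k 0| ≤ M → inner ℂ (ev k) (Vg s'.ε s'.i) = 0 := by
  have hη := h.eta.1
  have hη1 := h.eta.2
  set lam₀ := min (γ / 2) (η / 500) with hlam₀
  have hlam₀pos : 0 < lam₀ := lt_min (half_pos hγ) (by linarith)
  clear_value lam₀
  obtain ⟨J, u, hMS, hT0, hX1, hX2, hX3, hlow⟩ := stage_init hZ h hη' hlam₀pos M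
  set VJ := Vg J.ε J.i with hVJ
  set Vs := Vg s.ε s.i with hVs
  have hs : 0 < ‖Vs‖ := norm_Vg_pos h.seps.1 h.seps.2 _
  have hJ : 0 < ‖VJ‖ := norm_Vg_pos hMS.Jeps.1 hMS.Jeps.2 _
  set δ := ‖VJ‖ / ‖Vs‖ with hδ
  have hδ0 : 0 < δ := div_pos hJ hs
  set e₀ := 15 * ‖Vs‖ + (15 + Cb J.j) * ‖VJ‖ with he₀
  have he₀0 : 0 ≤ e₀ := by
    have h1 := Cb_pos J.j
    have h2 : 0 ≤ (15 + Cb J.j) * ‖VJ‖ := mul_nonneg (by linarith) hJ.le
    linarith
  have he₀1 : e₀ ≤ η ^ 2 / 20 := by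
    have := h.ns
    rw [← hVs] at this
    linarith
  clear_value e₀ δ VJ Vs
  have hδη0 : 0 < δ * η := mul_pos hδ0 hη
  set N := ⌈1 / (δ * η)⌉₊ with hN
  have hN1 : 1 / (δ * η) ≤ N := Nat.le_ceil _
  have hNpos : 1 ≤ N := by
    rw [hN, Nat.one_le_ceil_iff]; exact one_div_pos.2 hδη0
  have hN0 : (1 : ℝ) ≤ N := by exact_mod_cast hNpos
  have hη2 : η ^ 2 ≤ 1 / 64 * η := by nlinarith
  have hδη : δ * η ≤ 1 := by nlinarith
  have hN2 : (N : ℝ) ≤ 2 / (δ * η) := by
    have h1 : (N : ℝ) < 1 / (δ * η) + 1 := Nat.ceil_lt_add_one (one_div_pos.2 hδη0).le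
    have h2 : 1 ≤ 1 / (δ * η) := by rw [le_div_iff₀ hδη0]; linarith
    have h3 : 2 / (δ * η) = 1 / (δ * η) + 1 / (δ * η) := by ring
    linarith
  clear_value N
  have hNp : (0 : ℝ) < N := by linarith
  have hNN : (0 : ℝ) < N * (5 * N + 44) := mul_pos hNp (by linarith)
  set lam := min (η / 10 / (N * (5 * N + 44))) (γ / (2 * N)) with hlam
  have hlampos : 0 < lam := lt_min (div_pos (by linarith) hNN) (div_pos hγ (by linarith))
  have hlam1 : lam * (N * (5 * N + 44)) ≤ η / 10 := by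
    have h1 : lam ≤ η / 10 / (N * (5 * N + 44)) := min_le_left _ _
    rwa [le_div_iff₀ hNN] at h1
  have hlam2 : N * lam ≤ γ / 2 := by
    have h1 : lam ≤ γ / (2 * N) := min_le_right _ _
    rw [le_div_iff₀ (by linarith)] at h1
    linarith
  clear_value lam
  set ℓ := 20 * (3 * δ ^ 2 + δ * e₀) + lam * (5 * N + 44) with hℓ
  have hδe : 0 ≤ δ * e₀ := mul_nonneg hδ0.le he₀0
  have hℓ0 : 0 ≤ ℓ := by
    have h1 : 0 ≤ lam * (5 * N + 44) := mul_nonneg hlampos.le (by linarith)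
    have h2 := sq_nonneg δ
    linarith
  clear_value ℓ
  set b₁ := b - 44 * lam₀ with hb₁
  clear_value b₁
  have hTn : (0 : ℝ) ≤ T := Nat.cast_nonneg T
  -- the induction
  have key : ∀ n : ℕ, 1 ≤ n → n ≤ N → ∃ (L' : List Gp) (p : ℕ → ℤ) (u m T' : ℕ),
      MS Z₀ L' s J p u n m T' (b₁ - 30 * δ - n * ℓ) (n * lam) ∧ T ≤ T' ∧
      (T + 1) * ‖om L' - om (J :: L)‖ ≤ n * lam := by
    intro n hn
    induction n, hn using Nat.le_induction with
    | base =>
      intro _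
      obtain ⟨t, p', u', m', T', h1, h2, h3⟩ := micro_step hZ hMS hlampos
        (show (0 : ℝ) ≤ 3 / 2 by norm_num) (fun h => by omega) (fun _ => le_rfl)
      refine ⟨t :: J :: L, p', u', m', T', ?_, h3, ?_⟩
      · have h4 : ((1 : ℕ) : ℝ) * lam = 0 + lam := by push_cast; ring
        rw [h4]
        refine h1.mono_b ?_
        rw [← hVJ, ← hVs, ← hδ]
        have h5 : lam ≤ lam * N := le_mul_of_one_le_right hlampos.le hN0
        have h6 : 0 ≤ δ * e₀ := hδe
        have h7 : ℓ = 20 * (3 * δ ^ 2) + 20 * (δ * e₀) + 5 * (lam * N) + 44 * lam := by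
          rw [hℓ]; ring
        rw [h7]
        push_cast
        linarith
      · push_cast
        rw [one_mul]
        exact h2
    | succ n hn ih =>
      intro hnN
      obtain ⟨L', p, u, m, T', h1, h2, h3⟩ := ih (by omega)
      obtain ⟨t, p', u', m', T'', g1, g2, g3⟩ := micro_step hZ h1 hlampos he₀0
        (fun _ => by rw [← hVJ, ← hVs, ← he₀]) (fun h => by omega)
      have hn1 : (n : ℝ) + 1 ≤ N := by exact_mod_cast hnN
      refine ⟨t :: L', p', u', m', T'', ?_, h2.trans g3, ?_⟩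
      · have h4 : ((n + 1 : ℕ) : ℝ) * lam = n * lam + lam := by push_cast; ring
        rw [h4]
        refine g1.mono_b ?_
        rw [← hVJ, ← hVs, ← hδ]
        have h5 : (n : ℝ) * lam + lam ≤ N * lam := by
          have : (n : ℝ) * lam + lam = (n + 1) * lam := by ring
          rw [this]
          exact mul_le_mul_of_nonneg_right hn1 hlampos.le
        have h6 : ((n + 1 : ℕ) : ℝ) * ℓ = n * ℓ + ℓ := by push_cast; ring
        rw [h6]
        have h7 : ℓ = 20 * (3 * δ ^ 2 + δ * e₀) + 5 * (N * lam) + 44 * lam := by rw [hℓ]; ring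
        linarith
      · have h4 : om (t :: L') - om (J :: L) = (om (t :: L') - om L') + (om L' - om (J :: L)) := by
          abel
        have h5 : (T : ℝ) ≤ T' := by exact_mod_cast h2
        have h6 : (T + 1) * ‖om (t :: L') - om L'‖ ≤ lam := by
          refine le_trans (mul_le_mul_of_nonneg_right ?_ (norm_nonneg _)) g2
          linarith
        have h7 := norm_add_le (om (t :: L') - om L') (om L' - om (J :: L))
        rw [← h4] at h7
        have h8 : ((T : ℝ) + 1) * ‖om (t :: L') - om (J :: L)‖ ≤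
            (T + 1) * (‖om (t :: L') - om L'‖ + ‖om L' - om (J :: L)‖) :=
          mul_le_mul_of_nonneg_left h7 (by linarith)
        push_cast
        rw [add_mul, one_mul]
        linarith
  obtain ⟨L', p, u', m, T', hf, hTT, hom⟩ := key N hNpos le_rfl
  -- total loss
  have hNδ : N * δ ≤ 2 / η := by
    calc (N : ℝ) * δ ≤ 2 / (δ * η) * δ := mul_le_mul_of_nonneg_right hN2 hδ0.le
      _ = 2 / η := by field_simp
  have hloss2 : N * ℓ ≤ 3 * η + η / 10 - 7 / 10 * η := by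
    have h1 : N * ℓ = N * (20 * (3 * δ ^ 2 + δ * e₀)) + lam * (N * (5 * N + 44)) := by
      rw [hℓ]; ring
    have h0 : N * (20 * (3 * δ ^ 2 + δ * e₀)) ≤ 23 / 10 * η := by
      have h1 : 20 * (3 * δ + e₀) ≤ 20 * (3 * (η ^ 2 / 400) + η ^ 2 / 20) := by linarith
      have h2 : N * (20 * (3 * δ ^ 2 + δ * e₀)) = (N * δ) * (20 * (3 * δ + e₀)) := by ring
      have h3 : (N * δ) * (20 * (3 * δ + e₀)) ≤
          2 / η * (20 * (3 * (η ^ 2 / 400) + η ^ 2 / 20)) :=
        mul_le_mul hNδ h1 (by linarith) (div_nonneg zero_le_two hη.le)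
      have h4 : 2 / η * (20 * (3 * (η ^ 2 / 400) + η ^ 2 / 20)) = 23 / 10 * η := by
        field_simp; ring
      rw [h2]
      linarith
    rw [h1]
    linarith
  have hlam₀1 : 44 * lam₀ ≤ η / 10 := by
    have : lam₀ ≤ η / 500 := by rw [hlam₀]; exact min_le_right _ _
    linarith
  have hδ1 : 30 * δ ≤ η / 10 := by linarith
  set bf := b₁ - 30 * δ - N * ℓ with hbf
  clear_value bf
  have hbf1 : b - 3 * η ≤ bf := by rw [hbf, hb₁]; linarith
  have hTn' : (0 : ℝ) ≤ T' := Nat.cast_nonneg T'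
  set D := DD Z₀ (om L') T' with hD
  have hDn := norm_DD_le hZ hf.small.le hTn'
  have hmN : (N : ℝ) ≤ m := by exact_mod_cast hf.nm
  have hm : 1 ≤ m * δ * η := by
    have h1 : 1 ≤ N * (δ * η) := by
      rw [div_le_iff₀ hδη0] at hN1
      exact hN1
    have h2 : N * (δ * η) ≤ m * (δ * η) := mul_le_mul_of_nonneg_right hmN hδη0.le
    rw [mul_assoc]
    linarith
  have hv := hf.val
  rw [← hVJ, ← hVs, ← hD] at hv
  unfold Val at hv
  rw [← hδ] at hv
  have hx32 : |xc Vs D| ≤ 3 / 2 := by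
    have h1 := abs_xc_le (D := D) hs
    rw [hD] at h1 ⊢
    linarith
  have hend := stage_end hδ0 hη hη1 hm hx32 (by linarith) (sq_nonneg ‖D‖) hv
  refine ⟨L', J, T', ?_, hTT, ?_, fun k hk => by rw [← hVJ]; exact hlow k hk⟩
  · exact { wf := hf.wf, si := hf.si, small := hf.small, smem := hf.Jmem, smain := hf.Jmain,
            above := hf.above, seps := hf.Jeps, skap := hf.Jkap, adm := hf.adm,
            val := by rw [← hVJ, ← hD]; linarith, eta := ⟨hη', hη1'⟩,
            ns := by rw [← hVJ]; exact hX3 }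
  · have h4 : om L' - om L = (om L' - om (J :: L)) + (om (J :: L) - om L) := by abel
    have h7 := norm_add_le (om L' - om (J :: L)) (om (J :: L) - om L)
    rw [← h4] at h7
    have h8 : ((T : ℝ) + 1) * ‖om L' - om L‖ ≤
        (T + 1) * (‖om L' - om (J :: L)‖ + ‖om (J :: L) - om L‖) :=
      mul_le_mul_of_nonneg_left h7 (by linarith)
    have h9 : lam₀ ≤ γ / 2 := by rw [hlam₀]; exact min_le_left _ _
    linarith

end

end Pool.Agent.Lib_helper45.W2
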