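import Pool.Agent.Lib_helper45.W2.StepTools

/-!
The micro step: adding one auxiliary group.
-/

open MeasureTheory Set Filter Topology
open scoped NNReal ENNReal ComplexConjugate

namespace Pool.Agent.Lib_helper45.W2

noncomputable section

/-- Normalized coordinate. -/
def xc (V D : K 2) : ℝ := inner ℝ D V / ‖V‖

/-- The value functional. -/
def Val (Vs VJ D : K 2) (m : ℕ) : ℝ :=
  20 * ((xc Vs D + m * (‖VJ‖ / ‖Vs‖) * xc VJ D) / Real.sqrt (1 + (m * (‖VJ‖ / ‖Vs‖)) ^ 2)) -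
    ‖D‖ ^ 2

theorem abs_xc_le {V D : K 2} (hV : 0 < ‖V‖) : |xc V D| ≤ ‖D‖ := by
  unfold xc
  rw [abs_div, abs_of_pos hV, div_le_iff₀ hV]
  exact abs_real_inner_le_norm D V

theorem xc_sub (V D D' : K 2) : xc V D - xc V D' = xc V (D - D') := by
  unfold xc
  rw [inner_sub_left, sub_div]

/-- Coefficient of the source. -/
def am (Vs VJ : K 2) (m : ℕ) : ℝ := 10 / (‖Vs‖ * Real.sqrt (1 + (m * (‖VJ‖ / ‖Vs‖)) ^ 2))

theorem one_le_r (t : ℝ) : 1 ≤ Real.sqrt (1 + t ^ 2) :=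
  Real.one_le_sqrt.2 (by nlinarith [sq_nonneg t])

theorem le_r {t : ℝ} : t ≤ Real.sqrt (1 + t ^ 2) := Real.le_sqrt_of_sq_le (by linarith)

theorem am_nonneg {Vs VJ : K 2} (m : ℕ) : 0 ≤ am Vs VJ m := by
  unfold am; positivity

theorem am_le {Vs VJ : K 2} (hs : 0 < ‖Vs‖) (m : ℕ) : am Vs VJ m ≤ 10 / ‖Vs‖ := by
  unfold am
  have h1 := one_le_r (m * (‖VJ‖ / ‖Vs‖))
  exact div_le_div_of_nonneg_left (by norm_num) hs (by nlinarith)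

theorem mul_am_le {Vs VJ : K 2} (hs : 0 < ‖Vs‖) (hJ : 0 < ‖VJ‖) (m : ℕ) :
    m * am Vs VJ m ≤ 10 / ‖VJ‖ := by
  unfold am
  have h1 := one_le_r (m * (‖VJ‖ / ‖Vs‖))
  have h2 := le_r (t := m * (‖VJ‖ / ‖Vs‖))
  set r := Real.sqrt (1 + (m * (‖VJ‖ / ‖Vs‖)) ^ 2)
  have hr : 0 < r := by linarith
  rw [← mul_div_assoc, div_le_div_iff₀ (by positivity) hJ]
  have h3 : (m : ℝ) * ‖VJ‖ ≤ r * ‖Vs‖ := by
    have h4 : (m : ℝ) * (‖VJ‖ / ‖Vs‖) * ‖Vs‖ = m * ‖VJ‖ := by field_simp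
    rw [← h4]
    exact mul_le_mul_of_nonneg_right h2 hs.le
  nlinarith

theorem Val_eq {Vs VJ : K 2} (hs : 0 < ‖Vs‖) (hJ : 0 < ‖VJ‖) (D : K 2) (m : ℕ) :
    Val Vs VJ D m = 2 * inner ℝ D (((am Vs VJ m : ℝ) : ℂ) • Vs +
      ((m * am Vs VJ m : ℝ) : ℂ) • VJ) - ‖D‖ ^ 2 := by
  rw [inner_add_right, inner_cs, inner_cs, Val, am, xc, xc]
  have h1 := one_le_r (m * (‖VJ‖ / ‖Vs‖))
  set r := Real.sqrt (1 + (m * (‖VJ‖ / ‖Vs‖)) ^ 2)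
  have hr : r ≠ 0 := by positivity
  have hs' : ‖Vs‖ ≠ 0 := hs.ne'
  have hJ' : ‖VJ‖ ≠ 0 := hJ.ne'
  field_simp
  ring

theorem Val_lip {Vs VJ : K 2} (hs : 0 < ‖Vs‖) (hJ : 0 < ‖VJ‖) {D D' : K 2} (hD : ‖D‖ ≤ 2)
    (hD' : ‖D'‖ ≤ 2) {θ : ℝ} (h : ‖D - D'‖ ≤ θ) (m : ℕ) :
    Val Vs VJ D m - 44 * θ ≤ Val Vs VJ D' m := by
  have h0 := norm_nonneg (D - D')
  unfold Val
  have h1 := one_le_r (m * (‖VJ‖ / ‖Vs‖))
  have h2 := le_r (t := m * (‖VJ‖ / ‖Vs‖))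
  set δ := ‖VJ‖ / ‖Vs‖ with hδ
  have hδ0 : 0 < δ := div_pos hJ hs
  have hm0 : (0 : ℝ) ≤ m := Nat.cast_nonneg m
  have hθ : 0 ≤ θ := h0.trans h
  set r := Real.sqrt (1 + (m * δ) ^ 2)
  have hr : 0 < r := by linarith
  have hx : |xc Vs D - xc Vs D'| ≤ θ := by rw [xc_sub]; exact (abs_xc_le hs).trans h
  have hy : |xc VJ D - xc VJ D'| ≤ θ := by rw [xc_sub]; exact (abs_xc_le hJ).trans h
  have hx1 := (abs_le.1 hx).2
  have hy1 := (abs_le.1 hy).2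
  have h3 : (xc Vs D + m * δ * xc VJ D) / r - 2 * θ ≤ (xc Vs D' + m * δ * xc VJ D') / r := by
    rw [sub_le_iff_le_add, ← sub_le_iff_le_add', ← sub_div, div_le_iff₀ hr]
    have h4 : m * δ * (xc VJ D - xc VJ D') ≤ r * θ := by
      rcases le_or_gt 0 (xc VJ D - xc VJ D') with h5 | h5
      · exact mul_le_mul h2 hy1 h5 hr.le
      · have h6 : m * δ * (xc VJ D - xc VJ D') ≤ 0 :=
          mul_nonpos_of_nonneg_of_nonpos (by positivity) h5.le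
        have h7 : 0 ≤ r * θ := by positivity
        linarith
    nlinarith
  have h4 : ‖D'‖ ^ 2 - ‖D‖ ^ 2 ≤ 4 * θ := by
    have h5 : ‖D'‖ - ‖D‖ ≤ θ := by
      have := norm_sub_norm_le D' D
      rw [norm_sub_rev] at this
      linarith
    have h6 : ‖D'‖ ^ 2 - ‖D‖ ^ 2 = (‖D'‖ - ‖D‖) * (‖D'‖ + ‖D‖) := by ring
    rw [h6]
    have h7 := norm_nonneg D
    have h8 := norm_nonneg D'
    nlinarith
  linarith

/-- Monotonicity of the value along the flow. -/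
theorem Val_mono {L : List Gp} (hL : WF L) {Z₀ : K 2} (hZ : ‖Z₀‖ ≤ 1) (hω : ‖om L‖ ≤ 1 / 100)
    {Vs VJ : K 2} (hs : 0 < ‖Vs‖) (hJ : 0 < ‖VJ‖) {m : ℕ} {c : ℕ → ℝ} (hc : Adm c L) {ρ : ℝ}
    (hρ : ‖(vL L fun g => c g.j) - (((am Vs VJ m : ℝ) : ℂ) • Vs +
      ((m * am Vs VJ m : ℝ) : ℂ) • VJ)‖ ≤ ρ) {T T' : ℝ} (hT : 0 ≤ T) (hTT : T ≤ T') :
    Val Vs VJ (DD Z₀ (om L) T) m - 5 * ρ ≤ Val Vs VJ (DD Z₀ (om L) T') m := by
  have h1 := (fl_traj Z₀ (om L)).functional isEvo_UR NN_firm (fun t => NN_flat hL hc t) hT hTT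
  have h2 := norm_DD_le hZ hω hT
  have h3 := norm_DD_le hZ hω (hT.trans hTT)
  rw [Val_eq hs hJ, Val_eq hs hJ]
  set Y := vL L fun g => c g.j with hY
  set Y0 := ((am Vs VJ m : ℝ) : ℂ) • Vs + ((m * am Vs VJ m : ℝ) : ℂ) • VJ with hY0
  change 2 * inner ℝ (DD Z₀ (om L) T) Y - ‖DD Z₀ (om L) T‖ ^ 2 ≤
    2 * inner ℝ (DD Z₀ (om L) T') Y - ‖DD Z₀ (om L) T'‖ ^ 2 at h1
  have h4 : ∀ D : K 2, inner ℝ D Y = inner ℝ D Y0 + inner ℝ D (Y - Y0) := by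
    intro D; rw [← inner_add_right]; congr 1; abel
  rw [h4, h4] at h1
  have h5 : ∀ D : K 2, ‖D‖ ≤ 101 / 100 → |inner ℝ D (Y - Y0)| ≤ 101 / 100 * ρ := by
    intro D hD
    refine (abs_real_inner_le_norm _ _).trans ?_
    exact mul_le_mul hD hρ (norm_nonneg _) (by norm_num)
  have h6 := abs_le.1 (h5 _ h2)
  have h7 := abs_le.1 (h5 _ h3)
  have hρ0 : 0 ≤ ρ := (norm_nonneg _).trans hρ
  linarith

/-- The state of the inner induction. -/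
structure MS (Z₀ : K 2) (L : List Gp) (s J : Gp) (p : ℕ → ℤ) (u : ℕ) (n m T : ℕ) (b ρ : ℝ) :
    Prop where
  wf : WF L
  si : SI L
  small : ‖om L‖ < 1 / 100
  smem : s ∈ L
  Jmem : J ∈ L
  Jmain : J.aux = false
  sJ : s.j < J.j
  above : ∀ g ∈ L, J.j < g.j → g.aux = true
  seps : 0 < s.ε ∧ s.ε ≤ 1 / 12
  Jeps : 0 < J.ε ∧ J.ε ≤ 1 / 12
  skap : s.κ = 10 / ‖Vg s.ε s.i‖
  Jkap : J.κ = 10 / ‖Vg J.ε J.i‖
  adm : ∀ a, 0 ≤ a → a ≤ J.κ → Adm (sgl J.j a) L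
  co : ∀ (a : ℝ) (m' : ℕ), 0 ≤ a → n ≤ m' → a ≤ s.κ → m' * a ≤ J.κ → ∃ c : ℕ → ℝ, Adm c L ∧
    c s.j = a ∧ c J.j = m' * a ∧ (sm L fun g => c g.j * p g.j) = -((n + 1) * a) ∧
    ‖(vL L fun g => c g.j) - ((a : ℂ) • Vg s.ε s.i + ((m' * a : ℝ) : ℂ) • Vg J.ε J.i)‖ ≤ ρ
  pv : ∀ j, p j = 0 ∨ p j = -1
  pJ : p J.j = 0
  pu : (u : ℝ) = -sm L fun g => g.μ * p g.j
  chain : ∀ z : Gp → ℝ, (∀ d, Ramp L d → -3 ≤ sm L fun g => d g.j * z g) →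
    (n + 1) * z s - 3 * n ≤ -sm L fun g => p g.j * z g
  nm : n ≤ m
  val : b ≤ Val (Vg s.ε s.i) (Vg J.ε J.i) (DD Z₀ (om L) T) m
  con : 1 ≤ n → n * (inner ℝ (DD Z₀ (om L) T) (Vg s.ε s.i) / ‖Vg s.ε s.i‖ ^ 2) -
    (15 * (n + 1) + Cb J.j) ≤ inner ℝ (DD Z₀ (om L) T) (Vg J.ε J.i) / ‖Vg J.ε J.i‖ ^ 2

/-- Coordinates with respect to the normalized directions. -/
theorem Ng_coord {g : Gp} (h0 : 0 < g.ε) (h1 : g.ε ≤ 1 / 12) {D : K 2} (hD : ‖D‖ ≤ 101 / 100) :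
    |inner ℝ D (Ng g.ε g.i) - inner ℝ D (Vg g.ε g.i) / ‖Vg g.ε g.i‖ ^ 2| ≤ 12 := by
  have h2 := Ng_close h0 h1 g.i
  have h3 : inner ℝ D (Ng g.ε g.i) - inner ℝ D (Vg g.ε g.i) / ‖Vg g.ε g.i‖ ^ 2 =
      inner ℝ D (Ng g.ε g.i - (((‖Vg g.ε g.i‖ ^ 2)⁻¹ : ℝ) : ℂ) • Vg g.ε g.i) := by
    rw [inner_sub_right, inner_cs, div_eq_inv_mul]
  rw [h3]
  refine (abs_real_inner_le_norm _ _).trans ?_
  have := mul_le_mul hD h2 (norm_nonneg _) (by norm_num)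
  linarith

theorem dig_of_p {p : ℕ → ℤ} (hp : ∀ j, p j = 0 ∨ p j = -1) : Dig p := fun j => by
  rcases hp j with h | h
  · exact Or.inl h
  · exact Or.inr (Or.inr h)

theorem Dig.update {d : ℕ → ℤ} (h : Dig d) (j : ℕ) {v : ℤ} (hv : v = 0 ∨ v = 1 ∨ v = -1) :
    Dig (Function.update d j v) := by
  intro i
  by_cases hi : i = j
  · subst hi; rw [Function.update_self]; exact hv
  · rw [Function.update_of_ne hi]; exact h i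

/-- Extension of a ramp pattern by zero. -/
theorem Ramp.ext0 {L : List Gp} {t : Gp} (hfresh : ∀ g ∈ L, g.j ≠ t.j) {d : ℕ → ℤ}
    (h : Ramp L d) : Ramp (t :: L) (Function.update d t.j 0) := by
  refine ⟨h.1.update _ (Or.inl rfl), ?_⟩
  have : (sm (t :: L) fun g => g.μ * (Function.update d t.j 0 g.j : ℤ)) =
      sm L fun g => g.μ * d g.j := by
    rw [sm_cons, Function.update_self]
    simp only [Int.cast_zero, mul_zero, zero_add]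
    exact sm_congr fun g hg => by rw [Function.update_of_ne (hfresh g hg)]
  rw [this]
  exact h.2

end

end Pool.Agent.Lib_helper45.W2
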