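import Pool.Agent.Lib_helper45.W2.PatAsym

/-!
Tools for the inductive construction.
-/

open MeasureTheory Set Filter Topology
open scoped NNReal ENNReal ComplexConjugate

namespace Pool.Agent.Lib_helper45.W2

noncomputable section

/-! ### Real number lemmas -/

/-- The rotation estimate. -/
theorem rotation {x y δ e : ℝ} {n : ℕ} (hδ : 0 < δ) (hx : |x| ≤ 3 / 2) (hy : |y| ≤ 3 / 2)
    (hG : -(e * Real.sqrt (1 + (n * δ) ^ 2)) ≤ y - n * δ * x) (he : 0 ≤ e) :
    (x + n * δ * y) / Real.sqrt (1 + (n * δ) ^ 2) - 3 * δ ^ 2 - δ * e ≤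
      (x + (n + 1) * δ * y) / Real.sqrt (1 + ((n + 1) * δ) ^ 2) := by
  set r := Real.sqrt (1 + (n * δ) ^ 2) with hr
  set r' := Real.sqrt (1 + ((n + 1) * δ) ^ 2) with hr'
  have hn : (0 : ℝ) ≤ n := Nat.cast_nonneg n
  have hr2 : r ^ 2 = 1 + (n * δ) ^ 2 := Real.sq_sqrt (by positivity)
  have hr2' : r' ^ 2 = 1 + ((n + 1) * δ) ^ 2 := Real.sq_sqrt (by positivity)
  have hr1 : 1 ≤ r := Real.one_le_sqrt.2 (by nlinarith [sq_nonneg ((n : ℝ) * δ)])
  have hr1' : 1 ≤ r' := Real.one_le_sqrt.2 (by nlinarith [sq_nonneg (((n : ℝ) + 1) * δ)])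
  have hrpos : 0 < r := by linarith
  have hrpos' : 0 < r' := by linarith
  set F := (x + n * δ * y) / r with hF
  set G := (y - n * δ * x) / r with hGd
  have hGe : -e ≤ G := by rw [hGd, le_div_iff₀ hrpos]; linarith
  -- bound on F
  have hnr : n * δ ≤ r := by
    apply Real.le_sqrt_of_sq_le
    nlinarith
  have hFb : |F| ≤ 3 := by
    rw [hF, abs_div, abs_of_pos hrpos, div_le_iff₀ hrpos]
    have h1 : |x + n * δ * y| ≤ |x| + n * δ * |y| := by
      refine (abs_add_le _ _).trans ?_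
      rw [abs_mul, abs_of_nonneg (by positivity : (0 : ℝ) ≤ n * δ)]
    have h2 : n * δ * |y| ≤ r * (3 / 2) := mul_le_mul hnr hy (abs_nonneg _) hrpos.le
    nlinarith
  set c := 1 + n * (n + 1) * δ ^ 2 with hc
  have hc0 : 0 < c := by positivity
  have hid : (r * r') ^ 2 = c ^ 2 + δ ^ 2 := by
    rw [mul_pow, hr2, hr2', hc]; ring
  have hrr : 1 ≤ r * r' := by nlinarith
  have hdiff0 : 0 ≤ r * r' - c := by
    have : c ^ 2 ≤ (r * r') ^ 2 := by rw [hid]; nlinarith [sq_nonneg δ]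
    have := (sq_le_sq₀ hc0.le (by positivity)).1 this
    linarith
  have hdiff : r * r' - c ≤ δ ^ 2 := by
    have h1 : (r * r' - c) * (r * r' + c) = δ ^ 2 := by nlinarith
    nlinarith
  have hmain : (x + (n + 1) * δ * y) / r' * (r * r') = F * c + δ * G := by
    rw [hF, hGd, hc]
    field_simp
    have : r ^ 2 = 1 + (n * δ) ^ 2 := hr2
    linear_combination (x + (n + 1) * δ * y) * this
  have hkey : F * (r * r') - 3 * δ ^ 2 - δ * e ≤ (x + (n + 1) * δ * y) / r' * (r * r') := by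
    rw [hmain]
    have h1 : F * c = F * (r * r') - F * (r * r' - c) := by ring
    have h2 : F * (r * r' - c) ≤ 3 * δ ^ 2 := by
      have h3 : F ≤ 3 := (abs_le.1 hFb).2
      have h4 : F * (r * r' - c) ≤ 3 * (r * r' - c) := mul_le_mul_of_nonneg_right h3 hdiff0
      linarith
    have h5 : -(δ * e) ≤ δ * G := by nlinarith
    linarith
  have h6 : (F - 3 * δ ^ 2 - δ * e) * (r * r') ≤ (x + (n + 1) * δ * y) / r' * (r * r') := by
    have h7 : 0 ≤ 3 * δ ^ 2 + δ * e := by positivity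
    nlinarith
  exact le_of_mul_le_mul_right h6 (by linarith)

/-- The end of a stage. -/
theorem stage_end {x y δ η b q : ℝ} {m : ℕ} (hδ : 0 < δ) (hη : 0 < η) (hη1 : η ≤ 1 / 64)
    (hm : 1 ≤ m * δ * η) (hx : |x| ≤ 3 / 2) (hb : 15 ≤ b) (hq : 0 ≤ q)
    (hval : b ≤ 20 * ((x + m * δ * y) / Real.sqrt (1 + (m * δ) ^ 2)) - q) :
    b - 30 * η ≤ 20 * y - q := by
  set r := Real.sqrt (1 + (m * δ) ^ 2) with hr
  have hmn : (0 : ℝ) ≤ m := Nat.cast_nonneg m
  have hr2 : r ^ 2 = 1 + (m * δ) ^ 2 := Real.sq_sqrt (by positivity)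
  have hr1 : 1 ≤ r := Real.one_le_sqrt.2 (by nlinarith [sq_nonneg ((m : ℝ) * δ)])
  have hrpos : 0 < r := by linarith
  have hmr : m * δ ≤ r := by
    apply Real.le_sqrt_of_sq_le
    nlinarith
  have hrη : 1 ≤ r * η := hm.trans (mul_le_mul_of_nonneg_right hmr hη.le)
  have hxr : x / r ≤ 3 / 2 * η := by
    rw [div_le_iff₀ hrpos]
    have := (abs_le.1 hx).2
    nlinarith
  have hsplit : (x + m * δ * y) / r = x / r + (m * δ) / r * y := by field_simp
  have hratio : (m * δ) / r ≤ 1 := by rw [div_le_one hrpos]; exact hmr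
  have hratio0 : 0 ≤ (m * δ) / r := by positivity
  rw [hsplit] at hval
  by_cases hy : 0 ≤ y
  · have : (m * δ) / r * y ≤ y := by nlinarith
    linarith
  · push Not at hy
    have : (m * δ) / r * y ≤ 0 := by nlinarith
    linarith

/-- Existence of a small radius. -/
theorem exists_radius {x : ℝ} (hx : 0 < x) :
    ∃ ε : ℝ, 0 < ε ∧ ε ≤ 1 / 12 ∧ ∀ i, ‖Vg ε i‖ ≤ x := by
  refine ⟨min (1 / 12) ((x / 5) ^ 2), by positivity, min_le_left _ _, fun i => ?_⟩
  have h0 : 0 < min (1 / 12) ((x / 5) ^ 2) := by positivity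
  refine (norm_Vg_upper h0 (min_le_left _ _) i).trans ?_
  have h1 : Real.sqrt (min (1 / 12) ((x / 5) ^ 2)) ≤ x / 5 := by
    rw [show x / 5 = Real.sqrt ((x / 5) ^ 2) by rw [Real.sqrt_sq (by positivity)]]
    exact Real.sqrt_le_sqrt (by
      refine (min_le_right _ _).trans ?_
      rw [Real.sqrt_sq (by positivity)])
  linarith

theorem Cb_nat (j : ℕ) : ((4 ^ (j ^ 2) : ℕ) : ℝ) = Cb j := by unfold Cb; push_cast; rfl

theorem exists_Cb_ge (X : ℝ) : ∃ j₀ : ℕ, ∀ j, j₀ ≤ j → X ≤ Cb j := by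
  refine ⟨max 2 ⌈X⌉₊, fun j hj => ?_⟩
  have h1 := nat_le_Cb ((le_max_left _ _).trans hj)
  have h2 : (⌈X⌉₊ : ℝ) ≤ j := by exact_mod_cast (le_max_right _ _).trans hj
  have h3 := Nat.le_ceil X
  have h4 : (0 : ℝ) ≤ j := Nat.cast_nonneg j
  linarith

/-! ### The flow -/

/-- The trajectory with initial value `Z₀`. -/
def fl (Z₀ ω : K 2) : ℝ → K 2 := Classical.choose (exists_traj isEvo_UR NN_firm ω Z₀)

theorem fl_traj (Z₀ ω : K 2) : IsTraj UR NN ω (fl Z₀ ω) :=
  (Classical.choose_spec (exists_traj isEvo_UR NN_firm ω Z₀)).1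

theorem fl_zero (Z₀ ω : K 2) : fl Z₀ ω 0 = Z₀ :=
  (Classical.choose_spec (exists_traj isEvo_UR NN_firm ω Z₀)).2

/-- The deviation from the wave. -/
def DD (Z₀ ω : K 2) (T : ℝ) : K 2 := fl Z₀ ω T - ω

theorem norm_DD_le {Z₀ ω : K 2} (hZ : ‖Z₀‖ ≤ 1) (hω : ‖ω‖ ≤ 1 / 100) {T : ℝ} (hT : 0 ≤ T) :
    ‖DD Z₀ ω T‖ ≤ 101 / 100 := by
  refine ((fl_traj Z₀ ω).bound isEvo_UR NN_firm le_rfl hT).trans ?_
  rw [fl_zero]
  refine (norm_sub_le _ _).trans ?_
  linarith

theorem DD_sub_le (Z₀ ω ω' : K 2) {T : ℝ} (hT : 0 ≤ T) :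
    ‖DD Z₀ ω T - DD Z₀ ω' T‖ ≤ (T + 1) * ‖ω - ω'‖ := by
  have h1 := dist_traj isEvo_UR NN_firm (fl_traj Z₀ ω) (fl_traj Z₀ ω')
    (by rw [fl_zero, fl_zero]) hT
  have h2 : DD Z₀ ω T - DD Z₀ ω' T = (fl Z₀ ω T - fl Z₀ ω' T) - (ω - ω') := by
    unfold DD; abel
  rw [h2]
  refine (norm_sub_le _ _).trans ?_
  linarith

theorem inner_cs (x v : K 2) (c : ℝ) : inner ℝ x ((c : ℂ) • v) = c * inner ℝ x v := by
  have h : ((c : ℂ) • v) = c • v := Complex.coe_smul _ _
  rw [h, inner_smul_right]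

theorem norm_cs (v : K 2) (c : ℝ) : ‖(c : ℂ) • v‖ = |c| * ‖v‖ := by
  rw [norm_smul, Complex.norm_real, Real.norm_eq_abs]

/-! ### Lists -/

theorem WF.j_inj {L : List Gp} (hL : WF L) {g h : Gp} (hg : g ∈ L) (hh : h ∈ L)
    (hj : g.j = h.j) : g = h := by
  induction L with
  | nil => simp at hg
  | cons t L ih =>
    rcases List.mem_cons.1 hg with h1 | h1 <;> rcases List.mem_cons.1 hh with h2 | h2
    · rw [h1, h2]
    · have := hL.2.lt hL.1 h2
      rw [h1] at hj; omega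
    · have := hL.2.lt hL.1 h1
      rw [h2] at hj; omega
    · exact ih hL.1 h1 h2

theorem sm_single {L : List Gp} (hL : WF L) {s : Gp} (hs : s ∈ L) (f : Gp → ℝ) :
    (sm L fun g => if g.j = s.j then f g else 0) = f s := by
  induction L with
  | nil => simp at hs
  | cons t L ih =>
    rw [sm_cons]
    rcases List.mem_cons.1 hs with h1 | h1
    · subst h1
      rw [if_pos rfl]
      have : (sm L fun g => if g.j = s.j then f g else 0) = sm L fun _ => 0 :=
        sm_congr fun g hg => by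
          have := hL.2.lt hL.1 hg
          rw [if_neg (by omega)]
      rw [this]
      have h0 : (sm L fun _ => (0 : ℝ)) = 0 := by
        have := sm_mul L 0 (fun _ => (0 : ℝ))
        simpa using this
      rw [h0, add_zero]
    · have := hL.2.lt hL.1 h1
      rw [if_neg (by omega), ih hL.1 h1, zero_add]

theorem Adm_congr {c c' : ℕ → ℝ} {L : List Gp} (h : ∀ g ∈ L, c g.j = c' g.j)
    (ht : ∀ g ∈ L, g.aux = true → c g.tg = c' g.tg) (hc : Adm c L) : Adm c' L := by
  induction L with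
  | nil => trivial
  | cons t L ih =>
    obtain ⟨h1, h2, h3, h4⟩ := hc
    refine ⟨ih (fun g hg => h g (by simp [hg])) (fun g hg => ht g (by simp [hg])) h1, ?_, ?_, ?_⟩
    · rw [← h t (by simp)]; exact h2
    · rw [← h t (by simp)]; exact h3
    · intro haux
      obtain ⟨h5, h6⟩ := h4 haux
      rw [← h t (by simp), ← ht t (by simp) haux]
      refine ⟨?_, h6⟩
      rw [← h5]
      congr 1
      exact sm_congr fun g hg => by rw [h g (by simp [hg])]

/-- In a well formed list the target of an auxiliary group is an older group. -/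
theorem WF.tg_mem {L : List Gp} (hL : WF L) {g : Gp} (hg : g ∈ L) (haux : g.aux = true) :
    ∃ J ∈ L, J.j = g.tg := by
  induction L with
  | nil => simp at hg
  | cons t L ih =>
    rcases List.mem_cons.1 hg with h1 | h1
    · subst h1
      obtain ⟨J, hJ, hJt, _⟩ := hL.2.auxt haux
      exact ⟨J, by simp [hJ], hJt⟩
    · obtain ⟨J, hJ, hJt⟩ := ih hL.1 h1
      exact ⟨J, by simp [hJ], hJt⟩

/-- Changing the coefficients at a fresh index keeps admissibility. -/
theorem Adm_update {c : ℕ → ℝ} {L : List Gp} (hL : WF L) {j : ℕ} (hj : ∀ g ∈ L, g.j ≠ j)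
    (v : ℝ) (hc : Adm c L) : Adm (Function.update c j v) L := by
  refine Adm_congr (fun g hg => ?_) (fun g hg haux => ?_) hc
  · rw [Function.update_of_ne (hj g hg)]
  · obtain ⟨J, hJ, hJt⟩ := hL.tg_mem hg haux
    rw [← hJt, Function.update_of_ne (hj J hJ)]

/-- Coefficients concentrated on one group. -/
def sgl (j : ℕ) (a : ℝ) : ℕ → ℝ := fun i => if i = j then a else 0

/-- Patterns with a ramp just below. -/
def Ramp (L : List Gp) (d : ℕ → ℤ) : Prop := Dig d ∧
  Icc ((sm L fun g => g.μ * d g.j) - 1) (sm L fun g => g.μ * d g.j) ⊆ Rset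

/-- All patterns with a ramp give constraints, eventually. -/
theorem all_ramps {L : List Gp} (hL : SI L) {Z₀ : K 2} (hM : ‖Z₀ - om L‖ ≤ 2) :
    ∀ᶠ T : ℕ in atTop, ∀ d, Ramp L d →
      -3 ≤ sm L fun g => d g.j * inner ℝ (DD Z₀ (om L) T) (Ng g.ε g.i) := by
  classical
  let S : Finset ℕ := (L.map Gp.j).toFinset
  let val : Fin 3 → ℤ := ![0, 1, -1]
  let ext : (S → Fin 3) → (ℕ → ℤ) := fun r j => if hj : j ∈ S then val (r ⟨j, hj⟩) else 0
  have hval : ∀ k, val k = 0 ∨ val k = 1 ∨ val k = -1 := by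
    intro k; fin_cases k <;> simp [val]
  have hext : ∀ r, Dig (ext r) := by
    intro r j
    simp only [ext]
    split_ifs with hj
    · exact hval _
    · exact Or.inl rfl
  have hev : ∀ᶠ T : ℕ in atTop, ∀ r : S → Fin 3, Ramp L (ext r) →
      -3 ≤ sm L fun g => (ext r) g.j * inner ℝ (DD Z₀ (om L) T) (Ng g.ε g.i) := by
    rw [Filter.eventually_all]
    intro r
    by_cases hr : Ramp L (ext r)
    · have hR : Icc ((sm L fun g => g.μ * (ext r) g.j) - 0 - 1)
          ((sm L fun g => g.μ * (ext r) g.j) - 0) ⊆ Rset := by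
        rw [sub_zero]; exact hr.2
      obtain ⟨T₀, hT₀⟩ := pat_asym hL (hext r) le_rfl hR (fl_traj Z₀ (om L))
        (by rw [fl_zero]; exact hM)
      filter_upwards [eventually_ge_atTop T₀] with T hT _
      have := hT₀ T hT
      rw [neg_zero, zero_sub] at this
      exact this
    · exact Eventually.of_forall fun T h => absurd h hr
  filter_upwards [hev] with T hT d hd
  have hinv : ∀ z : ℤ, (z = 0 ∨ z = 1 ∨ z = -1) → ∃ k, val k = z := by
    rintro z (rfl | rfl | rfl)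
    · exact ⟨0, rfl⟩
    · exact ⟨1, rfl⟩
    · exact ⟨2, rfl⟩
  choose f hf using fun j => hinv (d j) (hd.1 j)
  have hag : ∀ g ∈ L, (ext fun j => f j) g.j = d g.j := by
    intro g hg
    have hgS : g.j ∈ S := by
      rw [List.mem_toFinset, List.mem_map]
      exact ⟨g, hg, rfl⟩
    simp only [ext, dif_pos hgS]
    exact hf g.j
  have h1 : Ramp L (ext fun j => f j) := by
    refine ⟨hext (fun j => f j), ?_⟩
    have : (sm L fun g => g.μ * (ext fun j => f j) g.j) = sm L fun g => g.μ * d g.j :=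
      sm_congr fun g hg => by rw [hag g hg]
    rw [this]
    exact hd.2
  have h2 := hT (fun j => f j) h1
  refine h2.trans (le_of_eq (sm_congr fun g hg => ?_))
  rw [hag g hg]

end

end Pool.Agent.Lib_helper45.W2
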