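import Pool.Agent.Lib_helper45.W2.Theta

/-!
Asymptotic decoupling of dilated functions under `ϑ`.
-/

open MeasureTheory Set Filter Topology
open scoped NNReal ENNReal ComplexConjugate

namespace Pool.Agent.Lib_helper45.W2

noncomputable section

/-! ### Number theory -/

theorem quad_ev (A B C : ℤ) (h : A ≠ 0 ∨ B ≠ 0 ∨ C ≠ 0) :
    ∀ᶠ m : ℕ in atTop, A * (m : ℤ) ^ 2 + B * m + C ≠ 0 := by
  filter_upwards [eventually_gt_atTop (|B| + |C|).toNat, eventually_gt_atTop 0] with m hm hm0 heq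
  have hm' : |B| + |C| < (m : ℤ) := by
    have h1 := Int.self_le_toNat (|B| + |C|)
    have : ((|B| + |C|).toNat : ℤ) < m := by exact_mod_cast hm
    linarith
  have hm1 : (1 : ℤ) ≤ m := by exact_mod_cast hm0
  have hB := abs_nonneg B
  have hC := abs_nonneg C
  by_cases hA : A = 0
  · subst hA
    by_cases hB0 : B = 0
    · subst hB0
      have : C ≠ 0 := by tauto
      apply this; linarith
    · have h1 : 1 ≤ |B| := Int.one_le_abs hB0
      have h2 : B * m = -C := by linarith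
      have h3 : |B| * m = |C| := by
        have := congrArg abs h2
        rwa [abs_mul, abs_neg, abs_of_nonneg (by linarith : (0 : ℤ) ≤ m)] at this
      nlinarith
  · have h1 : 1 ≤ |A| := Int.one_le_abs hA
    have h2 : A * (m : ℤ) ^ 2 = -(B * m + C) := by linarith
    have h3 : |A| * (m : ℤ) ^ 2 = |B * m + C| := by
      have := congrArg abs h2
      rwa [abs_mul, abs_neg, abs_of_nonneg (by positivity : (0 : ℤ) ≤ (m : ℤ) ^ 2)] at this
    have h4 : |B * m + C| ≤ |B| * m + |C| := by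
      refine (abs_add_le _ _).trans ?_
      rw [abs_mul, abs_of_nonneg (by linarith : (0 : ℤ) ≤ m)]
    nlinarith

/-- The Pythagorean triples used for the dilations. -/
def Pi (i : ℕ × ℕ) : ℤ := 2 * (i.1 + 2) * (i.2 + 1)
/-- Second leg. -/
def Qi (i : ℕ × ℕ) : ℤ := ((i.1 + 2) ^ 2 - 1) * (i.2 + 1)
/-- Hypotenuse. -/
def Ri (i : ℕ × ℕ) : ℤ := ((i.1 + 2) ^ 2 + 1) * (i.2 + 1)

theorem Pi_pos (i : ℕ × ℕ) : 0 < Pi i := by unfold Pi; positivity
theorem Qi_pos (i : ℕ × ℕ) : 0 < Qi i := by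
  unfold Qi
  have : (0 : ℤ) < ((i.1 : ℤ) + 2) ^ 2 - 1 := by nlinarith [Int.natCast_nonneg i.1]
  positivity
theorem Ri_pos (i : ℕ × ℕ) : 0 < Ri i := by unfold Ri; positivity
theorem pyth (i : ℕ × ℕ) : Pi i ^ 2 + Qi i ^ 2 = Ri i ^ 2 := by unfold Pi Qi Ri; ring

/-- The filter: first the shape, then the size. -/
abbrev GG : Filter (ℕ × ℕ) := (atTop : Filter ℕ).curry atTop

theorem null_ev {x y z a b c : ℤ} (hκ : ¬(x = 0 ∧ y = 0 ∧ z = 0)) (hl : ¬(a = 0 ∧ b = 0 ∧ c = 0)) :
    ∀ᶠ i in GG, (z + Ri i * c) ^ 2 ≠ (x + Pi i * a) ^ 2 + (y + Qi i * b) ^ 2 := by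
  rw [Filter.eventually_curry_iff]
  -- eventually in the shape, the polynomial in the size is nontrivial
  have h1 : ∀ᶠ s : ℕ in atTop,
      ((((s : ℤ) + 2) ^ 2 + 1) ^ 2 * c ^ 2 - 4 * ((s : ℤ) + 2) ^ 2 * a ^ 2 -
        (((s : ℤ) + 2) ^ 2 - 1) ^ 2 * b ^ 2 ≠ 0) ∨
      ((((s : ℤ) + 2) ^ 2 + 1) * (z * c) - 2 * ((s : ℤ) + 2) * (x * a) -
        (((s : ℤ) + 2) ^ 2 - 1) * (y * b) ≠ 0) := by
    have hsh : Tendsto (fun s : ℕ => s + 2) atTop atTop := tendsto_add_atTop_nat 2
    have hsq : Tendsto (fun s : ℕ => (s + 2) ^ 2) atTop atTop :=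
      (tendsto_pow_atTop (two_ne_zero)).comp hsh
    by_cases hbc : c ^ 2 = b ^ 2
    · by_cases hac : a ^ 2 = c ^ 2
      · -- all equal
        have hc0 : c ≠ 0 := by
          rintro rfl
          apply hl
          have hb : b = 0 := by nlinarith [sq_nonneg b]
          have ha : a = 0 := by nlinarith [sq_nonneg a]
          exact ⟨ha, hb, rfl⟩
        have hb0 : b ≠ 0 := by
          rintro rfl
          apply hc0; nlinarith [sq_nonneg c]
        have ha0 : a ≠ 0 := by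
          rintro rfl
          apply hc0; nlinarith [sq_nonneg c]
        have hne : z * c - y * b ≠ 0 ∨ -(2 * (x * a)) ≠ 0 ∨ z * c + y * b ≠ 0 := by
          by_contra hcon
          push Not at hcon
          obtain ⟨e1, e2, e3⟩ := hcon
          apply hκ
          have hx : x * a = 0 := by linarith
          have hz : z * c = 0 := by linarith
          have hy : y * b = 0 := by linarith
          exact ⟨by simpa [ha0] using hx, by simpa [hb0] using hy, by simpa [hc0] using hz⟩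
        filter_upwards [hsh.eventually (quad_ev _ _ _ hne)] with s hs
        right
        intro h
        apply hs
        push_cast
        rw [← h]
        ring
      · filter_upwards with s
        left
        intro h
        have h2 : 4 * ((s : ℤ) + 2) ^ 2 * (c ^ 2 - a ^ 2) = 0 := by
          rw [← h, ← hbc]; ring
        have h3 : (4 * ((s : ℤ) + 2) ^ 2) ≠ 0 := by positivity
        have h4 := (mul_eq_zero.1 h2).resolve_left h3
        apply hac; linarith
    · have hne : c ^ 2 - b ^ 2 ≠ 0 ∨ (2 * c ^ 2 - 4 * a ^ 2 + 2 * b ^ 2) ≠ 0 ∨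
          c ^ 2 - b ^ 2 ≠ 0 := Or.inl (sub_ne_zero.2 hbc)
      filter_upwards [hsq.eventually (quad_ev _ _ _ hne)] with s hs
      left
      intro h
      apply hs
      push_cast
      rw [← h]
      ring
  filter_upwards [h1] with s hs
  have hne : ((((s : ℤ) + 2) ^ 2 + 1) ^ 2 * c ^ 2 - 4 * ((s : ℤ) + 2) ^ 2 * a ^ 2 -
        (((s : ℤ) + 2) ^ 2 - 1) ^ 2 * b ^ 2 ≠ 0) ∨
      (2 * ((((s : ℤ) + 2) ^ 2 + 1) * (z * c) - 2 * ((s : ℤ) + 2) * (x * a) -
        (((s : ℤ) + 2) ^ 2 - 1) * (y * b)) ≠ 0) ∨ z ^ 2 - x ^ 2 - y ^ 2 ≠ 0 := by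
    rcases hs with h | h
    · exact Or.inl h
    · right; left
      exact mul_ne_zero two_ne_zero h
  have hsh : Tendsto (fun m : ℕ => m + 1) atTop atTop := tendsto_add_atTop_nat 1
  filter_upwards [hsh.eventually (quad_ev _ _ _ hne)] with m hm h
  apply hm
  have h2 : (z + Ri (s, m) * c) ^ 2 - ((x + Pi (s, m) * a) ^ 2 + (y + Qi (s, m) * b) ^ 2) = 0 :=
    sub_eq_zero.2 h
  rw [← h2]
  unfold Pi Qi Ri
  push_cast
  ring

/-! ### Dilations -/

/-- The dilation matrix. -/
def Dm (i : ℕ × ℕ) : Matrix (Fin 3) (Fin 3) ℤ := Matrix.diagonal ![Pi i, Qi i, Ri i]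

theorem RInv_Dm (i : ℕ × ℕ) : RInv (Dm i) := by
  refine ⟨Pi i * Qi i * Ri i, Matrix.diagonal ![Qi i * Ri i, Pi i * Ri i, Pi i * Qi i], ?_, ?_⟩
  · exact (mul_pos (mul_pos (Pi_pos i) (Qi_pos i)) (Ri_pos i)).ne'
  · rw [Dm, Matrix.diagonal_mul_diagonal]
    ext a b
    fin_cases a <;> fin_cases b <;> simp [Matrix.diagonal] <;> ring

/-- Dilated index. -/
def dk (i : ℕ × ℕ) (l : Fin 3 → ℤ) : Fin 3 → ℤ := ![Pi i * l 0, Qi i * l 1, Ri i * l 2]

/-- Dilation of functions. -/
def Dil (i : ℕ × ℕ) : K 3 →ₗᵢ[ℂ] K 3 := cmp (RInv_Dm i) 0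

theorem Dil_ev (i : ℕ × ℕ) (l : Fin 3 → ℤ) : Dil i (ev l) = ev (dk i l) := by
  rw [Dil, cmp_ev]
  have h1 : UnitAddTorus.mFourier l (0 : Tr 3) = 1 := by
    change ∏ i : Fin 3, (fourier (l i) (0 : UnitAddCircle) : ℂ) = 1
    simp
  rw [h1, one_smul]
  congr 1
  ext j
  fin_cases j <;> simp [dk, Dm, Matrix.diagonal, mul_comm]

/-! ### Multiplication by bounded functions -/

theorem memLp_mul {F : Tr 3 → ℂ} (h : BM F) (f : K 3) : MemLp (fun y => F y * f y) 2 (mu 3) := by
  obtain ⟨B, hB⟩ := h.bdd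
  refine (Lp.memLp f).of_le_mul (c := B)
    (h.meas.aestronglyMeasurable.mul (Lp.aestronglyMeasurable f)) (Eventually.of_forall fun y => ?_)
  rw [norm_mul]
  exact mul_le_mul_of_nonneg_right (hB y) (norm_nonneg _)

/-- Multiplication by a bounded function. -/
def mulF {F : Tr 3 → ℂ} (h : BM F) (f : K 3) : K 3 := (memLp_mul h f).toLp _

theorem coeFn_mulF {F : Tr 3 → ℂ} (h : BM F) (f : K 3) :
    mulF h f =ᵐ[mu 3] fun y => F y * f y := MemLp.coeFn_toLp _

theorem norm_mulF_le {F : Tr 3 → ℂ} (h : BM F) {B : ℝ} (hB : ∀ y, ‖F y‖ ≤ B) (f : K 3) :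
    ‖mulF h f‖ ≤ B * ‖f‖ := by
  refine Lp.norm_le_mul_norm_of_ae_le_mul ?_
  filter_upwards [coeFn_mulF h f] with y hy
  rw [hy, norm_mul]
  exact mul_le_mul_of_nonneg_right (hB y) (norm_nonneg _)

theorem mulF_add {F : Tr 3 → ℂ} (h : BM F) (f g : K 3) :
    mulF h (f + g) = mulF h f + mulF h g := by
  apply Lp.ext
  filter_upwards [coeFn_mulF h f, coeFn_mulF h g, coeFn_mulF h (f + g), Lp.coeFn_add f g,
    Lp.coeFn_add (mulF h f) (mulF h g)] with y h1 h2 h3 h4 h5
  rw [h3, h5, Pi.add_apply, h1, h2, h4, Pi.add_apply, mul_add]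

theorem mulF_smul {F : Tr 3 → ℂ} (h : BM F) (c : ℂ) (f : K 3) :
    mulF h (c • f) = c • mulF h f := by
  apply Lp.ext
  filter_upwards [coeFn_mulF h f, coeFn_mulF h (c • f), Lp.coeFn_smul c f,
    Lp.coeFn_smul c (mulF h f)] with y h1 h2 h3 h4
  rw [h2, h4, Pi.smul_apply, h1, h3, Pi.smul_apply, smul_eq_mul, smul_eq_mul]
  ring

theorem mulF_sub {F : Tr 3 → ℂ} (h : BM F) (f g : K 3) :
    mulF h (f - g) = mulF h f - mulF h g := by
  have h1 : f - g = f + (-1 : ℂ) • g := by simp [sub_eq_add_neg]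
  rw [h1, mulF_add, mulF_smul]
  simp [sub_eq_add_neg]

theorem bm_mFourier (l : Fin 3 → ℤ) : BM (UnitAddTorus.mFourier l : Tr 3 → ℂ) :=
  ⟨(UnitAddTorus.mFourier l).continuous.measurable, 1, fun y => by
    have := (UnitAddTorus.mFourier l).norm_coe_le_norm y
    rwa [UnitAddTorus.mFourier_norm] at this⟩

theorem mFourier_le (l : Fin 3 → ℤ) (y : Tr 3) : ‖UnitAddTorus.mFourier l y‖ ≤ 1 := by
  have := (UnitAddTorus.mFourier l).norm_coe_le_norm y
  rwa [UnitAddTorus.mFourier_norm] at this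

theorem mulF_char_ev (l m : Fin 3 → ℤ) : mulF (bm_mFourier l) (ev m) = ev (m + l) := by
  apply Lp.ext
  filter_upwards [coeFn_mulF (bm_mFourier l) (ev m), coeFn_ev m, coeFn_ev (m + l)] with y h1 h2 h3
  rw [h1, h2, h3, UnitAddTorus.mFourier_add, mul_comm]

theorem mulF_ev {F : Tr 3 → ℂ} (h : BM F) (l : Fin 3 → ℤ) :
    mulF h (ev l) = mulF (bm_mFourier l) (cl h) := by
  apply Lp.ext
  filter_upwards [coeFn_mulF h (ev l), coeFn_ev l, coeFn_mulF (bm_mFourier l) (cl h),
    coeFn_cl h] with y h1 h2 h3 h4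
  rw [h1, h2, h3, h4, mul_comm]

/-! ### The decoupling theorem -/

theorem closed_tendsto {I E G : Type*} {l : Filter I} [NormedAddCommGroup E]
    [NormedAddCommGroup G] (T : I → E → G) (hsub : ∀ i x y, T i (x - y) = T i x - T i y) {C : ℝ}
    (hT : ∀ i x, ‖T i x‖ ≤ C * ‖x‖) : IsClosed {x | Tendsto (fun i => T i x) l (𝓝 0)} := by
  rw [← isSeqClosed_iff_isClosed]
  intro u x hu hx
  change Tendsto (fun i => T i x) l (𝓝 0)
  rw [Metric.tendsto_nhds]
  intro ε hε
  have h1 : Tendsto (fun n => C * ‖x - u n‖) atTop (𝓝 0) := by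
    have := (tendsto_iff_norm_sub_tendsto_zero.1 hx).const_mul C
    simp only [mul_zero] at this
    refine this.congr fun n => ?_
    rw [norm_sub_rev]
  obtain ⟨n, hn⟩ := (h1.eventually_lt_const (half_pos hε)).exists
  have h2 := (Metric.tendsto_nhds.1 (hu n)) (ε / 2) (half_pos hε)
  filter_upwards [h2] with i hi
  rw [dist_zero_right] at hi ⊢
  have h3 : T i x = T i (x - u n) + T i (u n) := by rw [hsub]; abel
  rw [h3]
  refine (norm_add_le _ _).trans_lt ?_
  have h4 := hT i (x - u n)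
  linarith

/-- Mean. -/
def Em (f : K 3) : ℂ := inner ℂ (ev 0) f

theorem Em_sub (f g : K 3) : Em (f - g) = Em f - Em g := inner_sub_right _ _ _
theorem Em_add (f g : K 3) : Em (f + g) = Em f + Em g := inner_add_right _ _ _
theorem Em_smul (c : ℂ) (f : K 3) : Em (c • f) = c * Em f := inner_smul_right _ _ _
theorem norm_Em_le (f : K 3) : ‖Em f‖ ≤ ‖f‖ := by
  have := norm_inner_le_norm (𝕜 := ℂ) (ev 0 : K 3) f
  rwa [norm_ev, one_mul] at this

theorem dk_zero (i : ℕ × ℕ) : dk i 0 = 0 := by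
  ext j; fin_cases j <;> simp [dk]

variable {G : Type*} [NormedAddCommGroup G] [NormedSpace ℂ G]

/-- Property of a functional which vanishes on decoupled characters. -/
def Dec (L : K 3 →L[ℂ] G) : Prop :=
  ∀ κ l : Fin 3 → ℤ, κ ≠ 0 → l ≠ 0 → ∀ᶠ i in GG, L (ev (κ + dk i l)) = 0

theorem struct_char {L : K 3 →L[ℂ] G} (hL : Dec L) (l : Fin 3 → ℤ) (f : K 3) :
    Tendsto (fun i => L (mulF (bm_mFourier (dk i l)) f) - Em (ev l) • L f -
      Em f • L (ev (dk i l)) + (Em f * Em (ev l)) • L (ev 0)) GG (𝓝 0) := by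
  classical
  have hEl : ‖Em (ev l)‖ ≤ 1 := by have := norm_Em_le (ev l); rwa [norm_ev] at this
  have hLn : ∀ x, ‖L x‖ ≤ ‖L‖ * ‖x‖ := fun x => L.le_opNorm x
  refine K_induct (p := fun f => Tendsto (fun i => L (mulF (bm_mFourier (dk i l)) f) -
      Em (ev l) • L f - Em f • L (ev (dk i l)) + (Em f * Em (ev l)) • L (ev 0)) GG (𝓝 0))
      ?_ ?_ ?_ ?_ f
  · refine closed_tendsto (C := 4 * ‖L‖) (fun i f => L (mulF (bm_mFourier (dk i l)) f) -
      Em (ev l) • L f - Em f • L (ev (dk i l)) + (Em f * Em (ev l)) • L (ev 0)) ?_ ?_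
    · intro i x y
      simp only [mulF_sub, map_sub, Em_sub, smul_sub, sub_smul, sub_mul]
      abel
    · intro i x
      have h1 : ‖L (mulF (bm_mFourier (dk i l)) x)‖ ≤ ‖L‖ * ‖x‖ := by
        refine (hLn _).trans (mul_le_mul_of_nonneg_left ?_ (norm_nonneg _))
        have := norm_mulF_le (bm_mFourier (dk i l)) (mFourier_le _) x
        rwa [one_mul] at this
      have h2 : ‖Em (ev l) • L x‖ ≤ ‖L‖ * ‖x‖ := by
        rw [norm_smul]
        calc _ ≤ 1 * ‖L x‖ := mul_le_mul_of_nonneg_right hEl (norm_nonneg _)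
          _ ≤ _ := by rw [one_mul]; exact hLn x
      have h3 : ‖Em x • L (ev (dk i l))‖ ≤ ‖L‖ * ‖x‖ := by
        rw [norm_smul, mul_comm]
        refine mul_le_mul ?_ (norm_Em_le x) (norm_nonneg _) (norm_nonneg _)
        have := hLn (ev (dk i l)); rwa [norm_ev, mul_one] at this
      have h4 : ‖(Em x * Em (ev l)) • L (ev 0)‖ ≤ ‖L‖ * ‖x‖ := by
        rw [norm_smul, mul_comm, norm_mul]
        refine mul_le_mul ?_ ?_ (by positivity) (norm_nonneg _)
        · have := hLn (ev 0); rwa [norm_ev, mul_one] at this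
        · calc _ ≤ ‖x‖ * 1 := mul_le_mul (norm_Em_le x) hEl (norm_nonneg _) (norm_nonneg _)
            _ = _ := mul_one _
      calc _ ≤ ‖L (mulF (bm_mFourier (dk i l)) x)‖ + ‖Em (ev l) • L x‖ +
            ‖Em x • L (ev (dk i l))‖ + ‖(Em x * Em (ev l)) • L (ev 0)‖ := by
              refine (norm_add_le _ _).trans ?_
              gcongr
              refine (norm_sub_le _ _).trans ?_
              gcongr
              exact norm_sub_le _ _
        _ ≤ _ := by linarith
  · have h1 : ∀ i, mulF (bm_mFourier (dk i l)) (0 : K 3) = 0 := fun i => by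
      have := mulF_smul (bm_mFourier (dk i l)) 0 (0 : K 3)
      simpa using this
    have h2 : Em (0 : K 3) = 0 := by simp [Em]
    simp only [h1, h2, map_zero, smul_zero, zero_smul, zero_mul, sub_zero, add_zero]
    exact tendsto_const_nhds
  · intro x y hx hy
    have := hx.add hy
    rw [add_zero] at this
    refine this.congr fun i => ?_
    simp only [mulF_add, map_add, Em_add, smul_add, add_smul, add_mul]
    abel
  · intro c κ
    have hmain : Tendsto (fun i => c • (L (ev (κ + dk i l)) - Em (ev l) • L (ev κ) -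
        Em (ev κ) • L (ev (dk i l)) + (Em (ev κ) * Em (ev l)) • L (ev 0))) GG (𝓝 0) := by
      have hE : ∀ m : Fin 3 → ℤ, Em (ev m) = if (0 : Fin 3 → ℤ) = m then 1 else 0 := fun m =>
        inner_ev 0 m
      by_cases hl : l = 0
      · subst hl
        refine tendsto_const_nhds.congr fun i => ?_
        rw [dk_zero, hE 0, hE κ]
        simp
      · by_cases hκ : κ = 0
        · subst hκ
          refine tendsto_const_nhds.congr fun i => ?_
          rw [hE 0, hE l, if_neg (Ne.symm hl)]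
          simp
        · refine tendsto_const_nhds.congr' ?_
          filter_upwards [hL κ l hκ hl] with i hi
          rw [hi, hE l, hE κ, if_neg (Ne.symm hl), if_neg (Ne.symm hκ)]
          simp
    refine hmain.congr fun i => ?_
    rw [mulF_smul, mulF_char_ev, map_smul, map_smul, Em_smul]
    simp only [smul_add, smul_sub, smul_smul]
    congr 2
    · congr 1
      · rw [mul_comm]
    · ring

theorem struct_tendsto {L : K 3 →L[ℂ] G} (hL : Dec L) {F : Tr 3 → ℂ} (hF : BM F) (γ : K 3) :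
    Tendsto (fun i => L (mulF hF (Dil i γ)) - Em γ • L (cl hF) -
      Em (cl hF) • L (Dil i γ) + (Em (cl hF) * Em γ) • L (ev 0)) GG (𝓝 0) := by
  obtain ⟨B, hB⟩ := hF.bdd
  have hB0 : 0 ≤ B := (norm_nonneg _).trans (hB 0)
  have hLn : ∀ x, ‖L x‖ ≤ ‖L‖ * ‖x‖ := fun x => L.le_opNorm x
  refine K_induct (p := fun γ => Tendsto (fun i => L (mulF hF (Dil i γ)) - Em γ • L (cl hF) -
      Em (cl hF) • L (Dil i γ) + (Em (cl hF) * Em γ) • L (ev 0)) GG (𝓝 0)) ?_ ?_ ?_ ?_ γ
  · refine closed_tendsto (C := ‖L‖ * B + 3 * (‖L‖ * ‖cl hF‖)) (fun i γ => L (mulF hF (Dil i γ)) -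
      Em γ • L (cl hF) - Em (cl hF) • L (Dil i γ) + (Em (cl hF) * Em γ) • L (ev 0)) ?_ ?_
    · intro i x y
      simp only [map_sub, mulF_sub, Em_sub, smul_sub, sub_smul, mul_sub]
      abel
    · intro i x
      have h1 : ‖L (mulF hF (Dil i x))‖ ≤ ‖L‖ * B * ‖x‖ := by
        refine (hLn _).trans ?_
        rw [mul_assoc]
        refine mul_le_mul_of_nonneg_left ?_ (norm_nonneg _)
        have := norm_mulF_le hF hB (Dil i x)
        rwa [(Dil i).norm_map] at this
      have h2 : ‖Em x • L (cl hF)‖ ≤ ‖L‖ * ‖cl hF‖ * ‖x‖ := by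
        rw [norm_smul, mul_comm]
        exact mul_le_mul (hLn _) (norm_Em_le x) (norm_nonneg _) (by positivity)
      have h3 : ‖Em (cl hF) • L (Dil i x)‖ ≤ ‖L‖ * ‖cl hF‖ * ‖x‖ := by
        rw [norm_smul]
        have h := hLn (Dil i x)
        rw [(Dil i).norm_map] at h
        calc _ ≤ ‖cl hF‖ * (‖L‖ * ‖x‖) :=
              mul_le_mul (norm_Em_le _) h (norm_nonneg _) (norm_nonneg _)
          _ = _ := by ring
      have h4 : ‖(Em (cl hF) * Em x) • L (ev 0)‖ ≤ ‖L‖ * ‖cl hF‖ * ‖x‖ := by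
        rw [norm_smul, norm_mul]
        have h := hLn (ev 0)
        rw [norm_ev, mul_one] at h
        calc _ ≤ (‖cl hF‖ * ‖x‖) * ‖L‖ :=
              mul_le_mul (mul_le_mul (norm_Em_le _) (norm_Em_le _) (norm_nonneg _) (norm_nonneg _))
                h (norm_nonneg _) (by positivity)
          _ = _ := by ring
      calc _ ≤ ‖L (mulF hF (Dil i x))‖ + ‖Em x • L (cl hF)‖ +
            ‖Em (cl hF) • L (Dil i x)‖ + ‖(Em (cl hF) * Em x) • L (ev 0)‖ := by
              refine (norm_add_le _ _).trans ?_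
              gcongr
              refine (norm_sub_le _ _).trans ?_
              gcongr
              exact norm_sub_le _ _
        _ ≤ _ := by linarith
  · have h1 : mulF hF (0 : K 3) = 0 := by
      have := mulF_smul hF 0 (0 : K 3)
      simpa using this
    have h2 : Em (0 : K 3) = 0 := by simp [Em]
    simp only [h1, h2, map_zero, smul_zero, zero_smul, mul_zero, sub_zero, add_zero]
    exact tendsto_const_nhds
  · intro x y hx hy
    have := hx.add hy
    rw [add_zero] at this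
    refine this.congr fun i => ?_
    simp only [mulF_add, map_add, Em_add, smul_add, add_smul, mul_add]
    abel
  · intro c l
    have := (struct_char hL l (cl hF)).const_smul c
    rw [smul_zero] at this
    refine this.congr fun i => ?_
    rw [map_smul, Dil_ev, mulF_smul, mulF_ev, map_smul, map_smul, Em_smul]
    simp only [smul_add, smul_sub, smul_smul]
    congr 2
    · congr 1
      · rw [mul_comm]
    · ring

/-- `ϑ` without the zero mode. -/
def Th0 : K 3 →L[ℂ] K 2 := Th - (innerSL ℂ (ev 0 : K 3)).smulRight (ev 0 : K 2)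

theorem Th0_apply (f : K 3) : Th0 f = Th f - Em f • ev 0 := rfl

theorem norm_Th0_le (f : K 3) : ‖Th0 f‖ ≤ 2 * ‖f‖ := by
  rw [Th0_apply]
  refine (norm_sub_le _ _).trans ?_
  rw [norm_smul, norm_ev, mul_one]
  have := norm_Th_le f
  have := norm_Em_le f
  linarith

theorem Th_ev_zero : Th (ev 0) = ev 0 := by
  classical
  rw [Th_ev]
  have h : nk (sp 0) = ((0 : Fin 3 → ℤ) 2 : ℤ) := by simp [nk, sp]
  rw [if_pos h]
  congr 1
  ext j; fin_cases j <;> simp [sp]

theorem Th0_ev_zero : Th0 (ev 0) = 0 := by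
  rw [Th0_apply, Th_ev_zero]
  have : Em (ev 0 : K 3) = 1 := by
    classical
    have := inner_ev (0 : Fin 3 → ℤ) 0
    simpa [Em] using this
  rw [this, one_smul, sub_self]

theorem ne_zero_iff3 (κ : Fin 3 → ℤ) : κ ≠ 0 ↔ ¬(κ 0 = 0 ∧ κ 1 = 0 ∧ κ 2 = 0) := by
  constructor
  · intro h hc
    apply h
    ext j
    fin_cases j
    · exact hc.1
    · exact hc.2.1
    · exact hc.2.2
  · rintro h rfl
    exact h ⟨rfl, rfl, rfl⟩

theorem dec_aux {κ l : Fin 3 → ℤ} (hκ : κ ≠ 0) (hl : l ≠ 0) :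
    ∀ᶠ i in GG, Th (ev (κ + dk i l)) = 0 ∧ Em (ev (κ + dk i l)) = 0 := by
  classical
  have h1 := null_ev ((ne_zero_iff3 κ).1 hκ) ((ne_zero_iff3 l).1 hl)
  filter_upwards [h1] with i hi
  have h2 : ((κ + dk i l) 2) ^ 2 ≠ ((κ + dk i l) 0) ^ 2 + ((κ + dk i l) 1) ^ 2 := by
    simpa [dk] using hi
  constructor
  · rw [Th_ev, if_neg]
    intro h
    apply h2
    have h3 : (nk (sp (κ + dk i l))) ^ 2 = (((κ + dk i l) 2 : ℤ) : ℝ) ^ 2 := by rw [h]
    rw [nk, Real.sq_sqrt (by positivity)] at h3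
    have h4 : (((κ + dk i l) 0 : ℤ) : ℝ) ^ 2 + (((κ + dk i l) 1 : ℤ) : ℝ) ^ 2 =
        (((κ + dk i l) 2 : ℤ) : ℝ) ^ 2 := h3
    exact_mod_cast h4.symm
  · rw [Em, inner_ev, if_neg]
    intro h
    apply h2
    rw [← h]; simp

theorem dec_Th0 : Dec Th0 := fun κ l hκ hl => by
  filter_upwards [dec_aux hκ hl] with i hi
  rw [Th0_apply, hi.1, hi.2]; simp

/-- The mean as a functional. -/
def EmL : K 3 →L[ℂ] ℂ := innerSL ℂ (ev 0 : K 3)

theorem EmL_apply (f : K 3) : EmL f = Em f := rfl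

theorem dec_EmL : Dec EmL := fun κ l hκ hl => by
  filter_upwards [dec_aux hκ hl] with i hi
  exact hi.2

theorem Em_Dil (i : ℕ × ℕ) (γ : K 3) : Em (Dil i γ) = Em γ := by
  classical
  refine K_induct (p := fun γ => Em (Dil i γ) = Em γ) ?_ ?_ ?_ ?_ γ
  · exact isClosed_eq (continuous_const.inner (Dil i).continuous)
      (continuous_const.inner continuous_id)
  · simp
  · intro x y hx hy
    rw [map_add, Em_add, Em_add, hx, hy]
  · intro c l
    rw [map_smul, Em_smul, Em_smul, Dil_ev, Em, Em, inner_ev, inner_ev]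
    congr 1
    by_cases h : (0 : Fin 3 → ℤ) = l
    · rw [if_pos h, ← h, dk_zero, if_pos rfl]
    · rw [if_neg h, if_neg]
      intro h2
      apply h
      ext j
      have := congrFun h2 j
      fin_cases j
      · simp only [dk, Fin.zero_eta, Pi.zero_apply, Matrix.cons_val_zero] at this
        rcases mul_eq_zero.1 this.symm with h3 | h3
        · exact absurd h3 (Pi_pos i).ne'
        · exact h3.symm
      · simp only [dk, Fin.mk_one, Pi.zero_apply, Matrix.cons_val_one, Matrix.cons_val_zero] at this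
        rcases mul_eq_zero.1 this.symm with h3 | h3
        · exact absurd h3 (Qi_pos i).ne'
        · exact h3.symm
      · have h4 : (0 : ℤ) = Ri i * l 2 := this
        rcases mul_eq_zero.1 h4.symm with h3 | h3
        · exact absurd h3 (Ri_pos i).ne'
        · exact h3.symm

/-- Decoupling for `ϑ`. -/
theorem decouple_Th {F : Tr 3 → ℂ} (hF : BM F) (γ : K 3) :
    Tendsto (fun i => Th0 (mulF hF (Dil i γ)) - Em γ • Th0 (cl hF) -
      Em (cl hF) • Th0 (Dil i γ)) GG (𝓝 0) := by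
  refine (struct_tendsto dec_Th0 hF γ).congr fun i => ?_
  rw [Th0_ev_zero, smul_zero, add_zero]

/-- Decoupling for the mean. -/
theorem decouple_Em {F : Tr 3 → ℂ} (hF : BM F) (γ : K 3) :
    Tendsto (fun i => Em (mulF hF (Dil i γ))) GG (𝓝 (Em (cl hF) * Em γ)) := by
  have h := struct_tendsto dec_EmL hF γ
  have h1 : EmL (ev 0) = 1 := by
    classical
    have := inner_ev (0 : Fin 3 → ℤ) 0
    simpa [EmL] using this
  have h2 := h.add_const (Em (cl hF) * Em γ)
  rw [zero_add] at h2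
  refine h2.congr fun i => ?_
  rw [h1, EmL_apply, EmL_apply, EmL_apply, Em_Dil]
  simp only [smul_eq_mul]
  ring

end

end Pool.Agent.Lib_helper45.W2
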