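import Pool.Agent.Lib_helper45.W2.Basis
import Pool.Agent.Lib_helper45.W2.Asym

/-!
The half wave group on the two dimensional torus.
-/

open MeasureTheory Set Filter Topology
open scoped NNReal ENNReal ComplexConjugate

namespace Pool.Agent.Lib_helper45.W2

noncomputable section

/-- Length of the frequency. -/
def nk (k : Fin 2 → ℤ) : ℝ := Real.sqrt ((k 0 : ℝ) ^ 2 + (k 1 : ℝ) ^ 2)

theorem nk_nonneg (k : Fin 2 → ℤ) : 0 ≤ nk k := Real.sqrt_nonneg _

theorem nk_neg (k : Fin 2 → ℤ) : nk (-k) = nk k := by simp [nk]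

/-- Phase. -/
def ph (t : ℝ) (k : Fin 2 → ℤ) : ℂ := Complex.exp (((2 * Real.pi * nk k * t : ℝ) : ℂ) * Complex.I)

theorem norm_ph (t : ℝ) (k : Fin 2 → ℤ) : ‖ph t k‖ = 1 := Complex.norm_exp_ofReal_mul_I _

theorem ph_add (s t : ℝ) (k : Fin 2 → ℤ) : ph (s + t) k = ph s k * ph t k := by
  rw [ph, ph, ph, ← Complex.exp_add]
  congr 1
  push_cast
  ring

theorem ph_zero (k : Fin 2 → ℤ) : ph 0 k = 1 := by simp [ph]

theorem conj_ph (t : ℝ) (k : Fin 2 → ℤ) : conj (ph t k) = ph (-t) k := by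
  rw [ph, ph, ← Complex.exp_conj]
  congr 1
  rw [map_mul, Complex.conj_I, Complex.conj_ofReal]
  push_cast
  ring

theorem ph_neg_k (t : ℝ) (k : Fin 2 → ℤ) : ph t (-k) = ph t k := by rw [ph, ph, nk_neg]

/-- The half wave group. -/
def Ug (t : ℝ) : K 2 →L[ℂ] K 2 := (mulOf (eb 2) (a := ph t) (norm_ph t)).toContinuousLinearMap

theorem Ug_ev (t : ℝ) (k : Fin 2 → ℤ) : Ug t (ev k) = ph t k • ev k := by
  have := mulOf_basis (eb 2) (a := ph t) (norm_ph t) k
  rw [eb_apply] at this
  exact this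

theorem norm_Ug (t : ℝ) (x : K 2) : ‖Ug t x‖ = ‖x‖ :=
  (mulOf (eb 2) (a := ph t) (norm_ph t)).norm_map x

theorem Ug_add (s t : ℝ) (x : K 2) : Ug (s + t) x = Ug s (Ug t x) := by
  have : Ug (s + t) = (Ug s).comp (Ug t) := K_ext fun k => by
    rw [ContinuousLinearMap.comp_apply, Ug_ev, Ug_ev, map_smul, Ug_ev, smul_smul, ph_add, mul_comm]
  rw [this]; rfl

theorem Ug_zero (x : K 2) : Ug 0 x = x := by
  have : Ug 0 = ContinuousLinearMap.id ℂ (K 2) := K_ext fun k => by
    rw [Ug_ev, ph_zero, one_smul]; rfl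
  rw [this]; rfl

theorem inner_ev_Ug (k : Fin 2 → ℤ) (t : ℝ) (x : K 2) :
    inner ℂ (ev k) (Ug t x) = ph t k * inner ℂ (ev k) x := by
  refine K_induct (p := fun x => inner ℂ (ev k) (Ug t x) = ph t k * inner ℂ (ev k) x) ?_ ?_ ?_ ?_ x
  · exact isClosed_eq (continuous_const.inner (Ug t).continuous)
      (continuous_const.mul (continuous_const.inner continuous_id))
  · simp
  · intro x y hx hy
    rw [map_add, inner_add_right, inner_add_right, hx, hy, mul_add]
  · intro c l
    classical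
    rw [map_smul, Ug_ev, inner_smul_right, inner_smul_right, inner_smul_right, inner_ev]
    split_ifs with h
    · subst h; ring
    · simp

theorem continuous_Ug (x : K 2) : Continuous fun t => Ug t x := by
  refine K_induct (p := fun x => Continuous fun t => Ug t x) ?_ ?_ ?_ ?_ x
  · apply IsSeqClosed.isClosed
    intro u x hu hx
    have hunif : TendstoUniformly (fun n t => Ug t (u n)) (fun t => Ug t x) atTop := by
      rw [Metric.tendstoUniformly_iff]
      intro ε hε
      have := (tendsto_iff_norm_sub_tendsto_zero.1 hx).eventually_lt_const hε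
      filter_upwards [this] with n hn t
      rw [dist_eq_norm, ← map_sub, norm_Ug, norm_sub_rev]
      exact hn
    exact hunif.continuous (Eventually.frequently (Eventually.of_forall fun n => hu n))
  · simpa using continuous_const
  · intro x y hx hy
    simp only [map_add]
    exact hx.add hy
  · intro c k
    simp only [map_smul, Ug_ev]
    have : Continuous fun t => ph t k := by unfold ph; fun_prop
    exact (this.smul continuous_const).const_smul c

/-- The group as real linear maps. -/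
def UR (t : ℝ) : K 2 →L[ℝ] K 2 := (Ug t).restrictScalars ℝ

theorem UR_apply (t : ℝ) (x : K 2) : UR t x = Ug t x := rfl

theorem isEvo_UR : IsEvo UR where
  zero := Ug_zero
  add := Ug_add
  norm := norm_Ug
  cont := continuous_Ug

theorem inner_real_eq {d : ℕ} (x y : K d) : inner ℝ x y = (inner ℂ x y : ℂ).re := by
  rw [MeasureTheory.L2.inner_def, MeasureTheory.L2.inner_def]
  have h1 := (MeasureTheory.L2.integrable_inner (𝕜 := ℂ) x y)
  have h2 := integral_re h1
  exact h2

/-- The space of `1`-periodic free waves. -/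
def FixU : Submodule ℂ (K 2) :=
  LinearMap.eqLocus (Ug (-1) : K 2 →L[ℂ] K 2).toLinearMap (1 : K 2 →L[ℂ] K 2).toLinearMap

theorem mem_FixU (x : K 2) : x ∈ FixU ↔ Ug (-1) x = x := Iff.rfl

theorem isClosed_FixU : IsClosed (FixU : Set (K 2)) :=
  isClosed_eq (Ug (-1)).continuous continuous_id

instance : CompleteSpace FixU := isClosed_FixU.completeSpace_coe

/-- Projection onto the `1`-periodic free waves. -/
def PF : K 2 →L[ℂ] K 2 := FixU.starProjection

theorem PF_mem (x : K 2) : PF x ∈ FixU := by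
  rw [PF]; exact Submodule.starProjection_apply_mem _ _

theorem PF_of_mem {x : K 2} (hx : x ∈ FixU) : PF x = x :=
  Submodule.starProjection_eq_self_iff.2 hx

theorem norm_PF_le (x : K 2) : ‖PF x‖ ≤ ‖x‖ := by
  rw [PF]; exact Submodule.norm_starProjection_apply_le _ _

theorem Ug_natCast_of_mem {x : K 2} (hx : x ∈ FixU) (m : ℕ) : Ug (-m) x = x := by
  induction m with
  | zero => simp [Ug_zero]
  | succ m ih =>
    have h1 : (-((m + 1 : ℕ) : ℝ)) = -1 + -m := by push_cast; ring
    rw [h1, Ug_add, ih]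
    exact hx

theorem Ug_one_of_mem {x : K 2} (hx : x ∈ FixU) : Ug 1 x = x := by
  have h1 : Ug 1 (Ug (-1) x) = x := by rw [← Ug_add]; simp [Ug_zero]
  rw [(mem_FixU x).1 hx] at h1
  exact h1

/-- Mean ergodic theorem. -/
theorem ergodic (x : K 2) : Tendsto (fun n : ℕ => (n : ℝ)⁻¹ • ∑ k ∈ Finset.range n,
    (UR (-1))^[k] x) atTop (𝓝 (PF x)) := by
  have h1 := ContinuousLinearMap.tendsto_birkhoffAverage_orthogonalProjection (Ug (-1))
    (ContinuousLinearMap.opNorm_le_bound _ zero_le_one fun y => by rw [norm_Ug, one_mul]) x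
  have h2 : (((LinearMap.eqLocus (Ug (-1) : K 2 →L[ℂ] K 2).toLinearMap
      (1 : K 2 →L[ℂ] K 2).toLinearMap).orthogonalProjectionOnto x : _) : K 2) = PF x := rfl
  rw [← h2]
  refine h1.congr fun n => ?_
  rw [birkhoffAverage, birkhoffSum]
  have h3 : ((n : ℂ)⁻¹) = (((n : ℝ)⁻¹ : ℝ) : ℂ) := by push_cast; rfl
  rw [h3]
  have h4 : ∀ k, (UR (-1))^[k] x = (Ug (-1))^[k] x := fun k => rfl
  simp only [h4]
  exact Complex.coe_smul _ _

theorem PF_ev_of_int {k : Fin 2 → ℤ} {n : ℤ} (hn : nk k = n) : PF (ev k) = ev k := by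
  apply PF_of_mem
  rw [mem_FixU, Ug_ev]
  have : ph (-1) k = 1 := by
    rw [ph, hn, Complex.exp_eq_one_iff]
    exact ⟨-n, by push_cast; ring⟩
  rw [this, one_smul]

theorem PF_ev_of_not_int {k : Fin 2 → ℤ} (hn : ∀ n : ℤ, nk k ≠ n) : PF (ev k) = 0 := by
  rw [PF, Submodule.starProjection_apply_eq_zero_iff, Submodule.mem_orthogonal]
  intro z hz
  have h1 : inner ℂ (ev k) (Ug (-1) z) = ph (-1) k * inner ℂ (ev k) z := inner_ev_Ug k (-1) z
  rw [(mem_FixU z).1 hz] at h1
  have h2 : ph (-1) k ≠ 1 := by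
    intro h
    rw [ph, Complex.exp_eq_one_iff] at h
    obtain ⟨n, hn'⟩ := h
    apply hn (-n)
    have h3 : ((2 * Real.pi * nk k * (-1) : ℝ) : ℂ) * Complex.I =
        ((2 * Real.pi * n : ℝ) : ℂ) * Complex.I := by
      rw [hn']; push_cast; ring
    have h4 := mul_right_cancel₀ Complex.I_ne_zero h3
    have h5 : 2 * Real.pi * nk k * (-1) = 2 * Real.pi * n := by exact_mod_cast h4
    have h6 : (2 * Real.pi) * (nk k) = (2 * Real.pi) * (-n) := by linarith
    have h7 := mul_left_cancel₀ (by positivity : (2 * Real.pi : ℝ) ≠ 0) h6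
    rw [h7]; push_cast; ring
  have h3 : (1 - ph (-1) k) * inner ℂ (ev k) z = 0 := by
    rw [sub_mul, one_mul, ← h1, sub_self]
  have h4 : inner ℂ (ev k) z = 0 := by
    rcases mul_eq_zero.1 h3 with h | h
    · exact absurd (sub_eq_zero.1 h).symm h2
    · exact h
  rw [← inner_conj_symm, h4, map_zero]

end

end Pool.Agent.Lib_helper45.W2
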