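import Pool.Agent.Lib_helper45.W2.Maps
import Pool.Agent.Lib_helper45.W2.Torus

/-!
The operator `ϑ` from `L²` of space-time to the periodic free waves.
-/

open MeasureTheory Set Filter Topology
open scoped NNReal ENNReal ComplexConjugate

namespace Pool.Agent.Lib_helper45.W2

noncomputable section

/-- Space-time point. -/
def sl (t : UnitAddCircle) (x : Tr 2) : Tr 3 := ![x 0, x 1, t]

/-- The index of the space-time character attached to `k`. -/
def kk (k : Fin 2 → ℤ) (n : ℤ) : Fin 3 → ℤ := ![k 0, k 1, n]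

theorem mFourier_sl (k : Fin 2 → ℤ) (n : ℤ) (t : UnitAddCircle) (x : Tr 2) :
    UnitAddTorus.mFourier (kk k n) (sl t x) = UnitAddTorus.mFourier k x * fourier n t := by
  change ∏ i : Fin 3, (fourier (kk k n i) (sl t x i) : ℂ) = (∏ i : Fin 2, (fourier (k i) (x i) : ℂ)) * _
  rw [Fin.prod_univ_three, Fin.prod_univ_two]
  rfl

instance prodHaar :
    ((AddCircle.haarAddCircle : Measure UnitAddCircle).prod (mu 2)).IsAddHaarMeasure := by
  have : IsTopologicalAddGroup (Tr 2) := inferInstance
  have : MeasurableAdd₂ (Tr 2) := inferInstance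
  have : (mu 2).IsAddHaarMeasure := inferInstance
  have : SFinite (mu 2) := inferInstance
  infer_instance

/-- Space-time is measure theoretically the product. -/
theorem mp_sl : MeasurePreserving (fun p : UnitAddCircle × Tr 2 => sl p.1 p.2)
    ((AddCircle.haarAddCircle : Measure UnitAddCircle).prod (mu 2)) (mu 3) := by
  let f : UnitAddCircle × Tr 2 →+ Tr 3 :=
    { toFun := fun p => sl p.1 p.2
      map_zero' := by
        ext i; fin_cases i <;> simp [sl]
      map_add' := by
        intro p q
        ext i; fin_cases i <;> simp [sl] }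
  have hf : Continuous f := by
    refine continuous_pi fun i => ?_
    fin_cases i
    · exact (continuous_apply (0 : Fin 2)).comp continuous_snd
    · exact (continuous_apply (1 : Fin 2)).comp continuous_snd
    · exact continuous_fst
  refine AddMonoidHom.measurePreserving (f := f) hf (fun y => ⟨(y 2, ![y 0, y 1]), ?_⟩) (by simp)
  ext i; fin_cases i <;> simp [f, sl]

theorem mp_real : MeasurePreserving (fun t : ℝ => (t : UnitAddCircle))
    (volume.restrict (Ioc (0 : ℝ) 1)) (AddCircle.haarAddCircle : Measure UnitAddCircle) := by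
  have h := AddCircle.measurePreserving_mk (1 : ℝ) 0
  rw [zero_add] at h
  have h2 : (volume : Measure UnitAddCircle) = AddCircle.haarAddCircle := by
    rw [AddCircle.volume_eq_smul_haarAddCircle]; simp
  rwa [h2] at h

/-- Fubini on space-time. -/
theorem integral_st (G : Tr 3 → ℂ) (hG : Integrable G (mu 3)) :
    ∫ y, G y ∂(mu 3) = ∫ t in (0 : ℝ)..1, ∫ x, G (sl t x) ∂(mu 2) := by
  rw [← mp_sl.map_eq, integral_map mp_sl.measurable.aemeasurable
    (by rw [mp_sl.map_eq]; exact hG.aestronglyMeasurable)]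
  have h1 : Integrable (fun p : UnitAddCircle × Tr 2 => G (sl p.1 p.2))
      ((AddCircle.haarAddCircle : Measure UnitAddCircle).prod (mu 2)) :=
    mp_sl.integrable_comp_of_integrable hG
  rw [integral_prod _ h1, intervalIntegral.integral_of_le zero_le_one, ← mp_real.map_eq,
    integral_map mp_real.measurable.aemeasurable]
  rw [mp_real.map_eq]
  exact h1.integral_prod_left.aestronglyMeasurable

/-- The frequency in time. -/
def tf (k : Fin 2 → ℤ) : ℤ := ⌊nk k⌋

theorem kk_inj {k l : Fin 2 → ℤ} {m n : ℤ} (h : kk k m = kk l n) : k = l := by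
  ext i
  fin_cases i
  · have := congrFun h 0; simpa [kk] using this
  · have := congrFun h 1; simpa [kk] using this

theorem orth_J : Orthonormal ℂ fun k : Fin 2 → ℤ => (ev (kk k (tf k)) : K 3) := by
  have := (ev_orthonormal 3).comp (fun k : Fin 2 → ℤ => kk k (tf k)) fun k l h => kk_inj h
  exact this

/-- The isometry of the waves into space-time. -/
def JJ : K 2 →ₗᵢ[ℂ] K 3 := isoOf (eb 2) orth_J

theorem JJ_ev (k : Fin 2 → ℤ) : JJ (ev k) = ev (kk k (tf k)) := by
  have := isoOf_basis (eb 2) orth_J k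
  rw [eb_apply] at this
  exact this

/-- The operator `ϑ`. -/
def Th : K 3 →L[ℂ] K 2 := PF.comp (ContinuousLinearMap.adjoint JJ.toContinuousLinearMap)

theorem Th_mem (f : K 3) : Th f ∈ FixU := PF_mem _

theorem norm_Th_le (f : K 3) : ‖Th f‖ ≤ ‖f‖ := by
  refine (norm_PF_le _).trans ?_
  have h1 : ‖ContinuousLinearMap.adjoint JJ.toContinuousLinearMap‖ ≤ 1 := by
    rw [LinearIsometryEquiv.norm_map]
    exact JJ.norm_toContinuousLinearMap_le
  refine (ContinuousLinearMap.le_opNorm _ _).trans ?_
  calc _ ≤ 1 * ‖f‖ := mul_le_mul_of_nonneg_right h1 (norm_nonneg _)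
    _ = ‖f‖ := one_mul _

theorem inner_PF (x y : K 2) : inner ℂ (PF x) y = inner ℂ x (PF y) :=
  Submodule.inner_starProjection_left_eq_right _ x y

theorem inner_ev_Th (k : Fin 2 → ℤ) (f : K 3) :
    inner ℂ (ev k) (Th f) = if nk k = tf k then inner ℂ (ev (kk k (tf k))) f else 0 := by
  change inner ℂ (ev k) (PF (ContinuousLinearMap.adjoint JJ.toContinuousLinearMap f)) = _
  rw [← inner_PF]
  split_ifs with h
  · rw [PF_ev_of_int h, ContinuousLinearMap.adjoint_inner_right]
    change inner ℂ (JJ (ev k)) f = _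
    rw [JJ_ev]
  · rw [PF_ev_of_not_int, inner_zero_left]
    intro n hn
    apply h
    have : tf k = n := by rw [tf, hn]; simp
    rw [hn, this]

/-- Space part of an index. -/
def sp (κ : Fin 3 → ℤ) : Fin 2 → ℤ := ![κ 0, κ 1]

theorem kk_sp (κ : Fin 3 → ℤ) : kk (sp κ) (κ 2) = κ := by
  ext i; fin_cases i <;> rfl

theorem sp_kk (k : Fin 2 → ℤ) (n : ℤ) : sp (kk k n) = k := by
  ext i; fin_cases i <;> rfl

theorem Th_ev (κ : Fin 3 → ℤ) [Decidable (nk (sp κ) = κ 2)] :
    Th (ev κ) = if nk (sp κ) = κ 2 then ev (sp κ) else 0 := by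
  classical
  apply K_ext'
  intro k
  rw [inner_ev_Th]
  split_ifs with h1 h2 h2
  · rw [inner_ev, inner_ev]
    by_cases h3 : k = sp κ
    · subst h3
      have h4 : tf (sp κ) = κ 2 := by rw [tf, h2]; simp
      rw [h4, kk_sp]; simp
    · have h4 : kk k (tf k) ≠ κ := by
        intro h
        apply h3
        rw [← h, sp_kk]
      simp [h3, h4]
  · rw [inner_ev, inner_zero_right, if_neg]
    intro h
    apply h2
    rw [← h, sp_kk, h1]
    rfl
  · rw [inner_ev, if_neg]
    rintro rfl
    apply h1
    rw [tf, h2]; simp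
  · simp

/-- Bounded measurable functions on space-time. -/
structure BM (F : Tr 3 → ℂ) : Prop where
  meas : Measurable F
  bdd : ∃ B : ℝ, ∀ y, ‖F y‖ ≤ B

theorem BM.memLp {F : Tr 3 → ℂ} (h : BM F) : MemLp F 2 (mu 3) := by
  obtain ⟨B, hB⟩ := h.bdd
  exact MemLp.of_bound h.meas.aestronglyMeasurable B (Eventually.of_forall hB)

/-- Class in `L²`. -/
def cl {F : Tr 3 → ℂ} (h : BM F) : K 3 := h.memLp.toLp F

theorem coeFn_cl {F : Tr 3 → ℂ} (h : BM F) : cl h =ᵐ[mu 3] F := MemLp.coeFn_toLp _

theorem continuous_sl (t : UnitAddCircle) : Continuous (sl t) := by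
  refine continuous_pi fun i => ?_
  fin_cases i
  · exact continuous_apply (0 : Fin 2)
  · exact continuous_apply (1 : Fin 2)
  · exact continuous_const

theorem BM.memLp_sl {F : Tr 3 → ℂ} (h : BM F) (t : UnitAddCircle) :
    MemLp (fun x => F (sl t x)) 2 (mu 2) := by
  obtain ⟨B, hB⟩ := h.bdd
  exact MemLp.of_bound (h.meas.comp (continuous_sl t).measurable).aestronglyMeasurable B
    (Eventually.of_forall fun x => hB _)

/-- The curve of time slices. -/
def cur {F : Tr 3 → ℂ} (h : BM F) (t : ℝ) : K 2 := (h.memLp_sl t).toLp _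

theorem coeFn_cur {F : Tr 3 → ℂ} (h : BM F) (t : ℝ) :
    cur h t =ᵐ[mu 2] fun x => F (sl t x) := MemLp.coeFn_toLp _

theorem cur_periodic {F : Tr 3 → ℂ} (h : BM F) (t : ℝ) : cur h (t + 1) = cur h t := by
  have h1 : ((t + 1 : ℝ) : UnitAddCircle) = (t : UnitAddCircle) := AddCircle.coe_add_period 1 t
  unfold cur
  congr 1
  simp only [h1]

/-- The link between the mean of a curve and `ϑ`. -/
theorem PF_mean {F : Tr 3 → ℂ} (h : BM F) (hc : Continuous (cur h)) :
    PF (∫ s in (0 : ℝ)..1, UR (-s) (cur h s)) = Th (cl h) := by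
  classical
  have hVc : Continuous fun s => UR (-s) (cur h s) := pull_continuous isEvo_UR hc
  apply K_ext'
  intro k
  rw [← inner_PF, inner_ev_Th]
  split_ifs with hk
  · rw [PF_ev_of_int hk]
    have h1 : inner ℂ (ev k) (∫ s in (0 : ℝ)..1, UR (-s) (cur h s)) =
        ∫ s in (0 : ℝ)..1, inner ℂ (ev k) (UR (-s) (cur h s)) := by
      have := ContinuousLinearMap.intervalIntegral_comp_comm (innerSL ℂ (ev k : K 2))
        (hVc.intervalIntegrable (0 : ℝ) 1) (μ := volume)
      simpa only [innerSL_apply_apply] using this.symm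
    have h2 : inner ℂ (ev (kk k (tf k))) (cl h) =
        ∫ y, conj (UnitAddTorus.mFourier (kk k (tf k)) y) * F y ∂(mu 3) := by
      rw [MeasureTheory.L2.inner_def]
      refine integral_congr_ae ?_
      filter_upwards [coeFn_ev (kk k (tf k)), coeFn_cl h] with y hy1 hy2
      rw [hy1, hy2, RCLike.inner_apply, mul_comm]
    rw [h1, h2, integral_st]
    · refine intervalIntegral.integral_congr fun s _ => ?_
      rw [UR_apply, inner_ev_Ug, MeasureTheory.L2.inner_def, ← integral_const_mul]
      refine integral_congr_ae ?_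
      filter_upwards [coeFn_ev k, coeFn_cur h s] with x hx1 hx2
      rw [hx1, hx2, RCLike.inner_apply, mFourier_sl, map_mul]
      have h3 : conj (fourier (tf k) ((s : ℝ) : UnitAddCircle) : ℂ) = ph (-s) k := by
        rw [← fourier_neg, fourier_coe_apply, ph]
        congr 1
        rw [hk]
        push_cast
        ring
      rw [h3]
      ring
    · obtain ⟨B, hB⟩ := h.bdd
      refine Integrable.of_bound (C := B) ?_ (Eventually.of_forall fun y => ?_)
      · exact ((Complex.continuous_conj.comp
          (UnitAddTorus.mFourier (kk k (tf k))).continuous).measurable.mul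
          h.meas).aestronglyMeasurable
      · rw [norm_mul, RCLike.norm_conj]
        have h4 : ‖UnitAddTorus.mFourier (kk k (tf k)) y‖ ≤ 1 := by
          have := (UnitAddTorus.mFourier (kk k (tf k))).norm_coe_le_norm y
          rwa [UnitAddTorus.mFourier_norm] at this
        have h5 := norm_nonneg (F y)
        calc _ ≤ 1 * ‖F y‖ := mul_le_mul_of_nonneg_right h4 h5
          _ ≤ B := by rw [one_mul]; exact hB y
  · rw [PF_ev_of_not_int, inner_zero_left]
    intro n hn
    apply hk
    have : tf k = n := by rw [tf, hn]; simp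
    rw [hn, this]

end

end Pool.Agent.Lib_helper45.W2
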