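import Pool.Agent.Lib_helper45.W2.Mult

/-!
The integrated form of the wave equation satisfied by `ZZ`.
-/

open MeasureTheory Set Filter Topology
open scoped NNReal ENNReal ComplexConjugate

namespace Pool.Agent.Lib_helper45.W2

noncomputable section

/-- The forcing. -/
def FF (ω : K 2) (t : ℝ) : K 2 := NN (Ug t ω)

/-- Forcing minus damping. -/
def qq (Z₀ ω : K 2) (t : ℝ) : K 2 := FF ω t - NN (ZZ Z₀ ω t)

theorem continuous_ZZ (Z₀ ω : K 2) : Continuous (ZZ Z₀ ω) :=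
  isEvo_UR.continuous_apply continuous_id (fl_traj Z₀ ω).cont

theorem continuous_FF (ω : K 2) : Continuous (FF ω) :=
  NN_firm.continuous.comp (continuous_Ug ω)

theorem continuous_qq (Z₀ ω : K 2) : Continuous (qq Z₀ ω) :=
  (continuous_FF ω).sub (NN_firm.continuous.comp (continuous_ZZ Z₀ ω))

theorem FF_periodic {ω : K 2} (hω : ω ∈ FixU) (t : ℝ) : FF ω (t + 1) = FF ω t := by
  unfold FF
  rw [Ug_add, Ug_one_of_mem hω]

theorem ZZ_bound (Z₀ ω : K 2) {t : ℝ} (ht : 0 ≤ t) : ‖ZZ Z₀ ω t‖ ≤ ‖Z₀ - ω‖ + ‖ω‖ := by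
  have h1 := (fl_traj Z₀ ω).bound isEvo_UR NN_firm le_rfl ht
  rw [fl_zero] at h1
  unfold ZZ
  rw [norm_Ug]
  have h2 : fl Z₀ ω t = (fl Z₀ ω t - ω) + ω := by abel
  rw [h2]
  exact (norm_add_le _ _).trans (by linarith)

theorem ZZ_odd {Z₀ ω : K 2} (hZ : IsOdd Z₀) (hω : IsOdd ω) {t : ℝ} (ht : 0 ≤ t) :
    IsOdd (ZZ Z₀ ω t) := by
  intro j
  unfold ZZ
  rw [← Ug_Rf, fl_odd (hZ j) (hω j) ht, map_neg]

theorem NN_odd {x : K 2} (hx : IsOdd x) : IsOdd (NN x) := by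
  intro j
  rw [← NN_Rf, hx j, NN_neg]

theorem Ug_odd {x : K 2} (hx : IsOdd x) (t : ℝ) : IsOdd (Ug t x) := by
  intro j
  rw [← Ug_Rf, hx j, map_neg]

theorem IsOdd.sub {x y : K 2} (hx : IsOdd x) (hy : IsOdd y) : IsOdd (x - y) := by
  intro j
  rw [map_sub, hx j, hy j]
  abel

theorem qq_odd {Z₀ ω : K 2} (hZ : IsOdd Z₀) (hω : IsOdd ω) {t : ℝ} (ht : 0 ≤ t) :
    IsOdd (qq Z₀ ω t) :=
  (NN_odd (Ug_odd hω t)).sub (NN_odd (ZZ_odd hZ hω ht))

theorem star_NN (x : K 2) : star (NN x) = NN x := by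
  apply Lp.ext
  filter_upwards [coeFn_starK (NN x), coeFn_NN x] with y h1 h2
  rw [h1, h2, Complex.conj_ofReal]

theorem star_qq (Z₀ ω : K 2) (t : ℝ) : star (qq Z₀ ω t) = qq Z₀ ω t := by
  unfold qq FF
  rw [starK_sub, star_NN, star_NN]

theorem hasDerivAt_ph (k : Fin 2 → ℤ) (t : ℝ) :
    HasDerivAt (fun t => ph t k) (((2 * Real.pi * nk k : ℝ) : ℂ) * Complex.I * ph t k) t := by
  have h1 : HasDerivAt (fun t : ℝ => ((2 * Real.pi * nk k * t : ℝ) : ℂ) * Complex.I)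
      (((2 * Real.pi * nk k : ℝ) : ℂ) * Complex.I) t := by
    have h2 : HasDerivAt (fun t : ℝ => 2 * Real.pi * nk k * t) (2 * Real.pi * nk k) t := by
      have := (hasDerivAt_id t).const_mul (2 * Real.pi * nk k)
      simpa using this
    exact h2.ofReal_comp.mul_const Complex.I
  have h2 := h1.cexp
  unfold ph
  convert h2 using 1
  ring

theorem hasDerivAt_coeff (Z₀ ω : K 2) (k : Fin 2 → ℤ) {t : ℝ} (ht : 0 < t) :
    HasDerivAt (fun t => (inner ℂ (ev k) (ZZ Z₀ ω t) : ℂ))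
      (((2 * Real.pi * nk k : ℝ) : ℂ) * Complex.I * inner ℂ (ev k) (ZZ Z₀ ω t) +
        inner ℂ (ev k) (qq Z₀ ω t)) t := by
  have h1 : HasDerivAt (fun t => (inner ℂ (ev k) (fl Z₀ ω t) : ℂ))
      (inner ℂ (ev k) (UR (-t) (qq Z₀ ω t))) t := by
    have h2 := (fl_traj Z₀ ω).hasDerivAt isEvo_UR NN_firm ht
    exact ((innerSL ℂ (ev k : K 2)).restrictScalars ℝ).hasFDerivAt.comp_hasDerivAt t h2
  have h2 := (hasDerivAt_ph k t).mul h1
  have h3 : (fun t => (inner ℂ (ev k) (ZZ Z₀ ω t) : ℂ)) =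
      fun t => ph t k * inner ℂ (ev k) (fl Z₀ ω t) := by
    funext t
    unfold ZZ
    rw [inner_ev_Ug]
  rw [h3]
  refine h2.congr_deriv ?_
  have h4 : (inner ℂ (ev k) (UR (-t) (qq Z₀ ω t)) : ℂ) = ph (-t) k * inner ℂ (ev k) (qq Z₀ ω t) :=
    inner_ev_Ug k (-t) _
  have h5 : ph t k * ph (-t) k = 1 := by rw [← ph_add, add_neg_cancel, ph_zero]
  rw [h4]
  unfold ZZ
  rw [inner_ev_Ug]
  linear_combination (inner ℂ (ev k) (qq Z₀ ω t)) * h5

/-- The integrated equation. -/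
theorem L0_ZZ {Z₀ ω : K 2} (hZ : IsOdd Z₀) (hω : IsOdd ω) {t : ℝ} (ht : 0 ≤ t) :
    L0 (ZZ Z₀ ω t) - L0 (ZZ Z₀ ω 0) =
      ∫ s in (0 : ℝ)..t, (((2 * Real.pi : ℝ) : ℂ) * Complex.I) • ZZ Z₀ ω s + L0 (qq Z₀ ω s) := by
  have hc : Continuous fun s => (((2 * Real.pi : ℝ) : ℂ) * Complex.I) • ZZ Z₀ ω s +
      L0 (qq Z₀ ω s) :=
    ((continuous_ZZ Z₀ ω).const_smul (((2 * Real.pi : ℝ) : ℂ) * Complex.I)).add
      (L0.continuous.comp (continuous_qq Z₀ ω))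
  apply K_ext'
  intro k
  have h1 := ((innerSL ℂ (ev k : K 2)).restrictScalars ℝ).intervalIntegral_comp_comm
    (hc.intervalIntegrable (μ := volume) 0 t)
  change _ = inner ℂ (ev k) _ at h1
  rw [← h1, inner_sub_right]
  have h2 : ∀ x, inner ℂ (ev k) (L0 x) = (b0 k : ℂ) * inner ℂ (ev k) x := fun x =>
    inner_ev_Mb b0_le k x
  rw [h2, h2]
  have h3 : ∀ s, ((innerSL ℂ (ev k : K 2)).restrictScalars ℝ)
      ((((2 * Real.pi : ℝ) : ℂ) * Complex.I) • ZZ Z₀ ω s + L0 (qq Z₀ ω s)) =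
      ((2 * Real.pi : ℝ) : ℂ) * Complex.I * inner ℂ (ev k) (ZZ Z₀ ω s) +
        (b0 k : ℂ) * inner ℂ (ev k) (qq Z₀ ω s) := by
    intro s
    change inner ℂ (ev k) _ = _
    rw [inner_add_right, inner_smul_right, h2]
  by_cases hk : k = 0
  · have h4 : b0 k = 0 := by unfold b0; rw [hk, nk_zero]; simp
    have h5 : (∫ s in (0 : ℝ)..t, ((innerSL ℂ (ev k : K 2)).restrictScalars ℝ)
      ((((2 * Real.pi : ℝ) : ℂ) * Complex.I) • ZZ Z₀ ω s + L0 (qq Z₀ ω s))) =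
        ∫ s in (0 : ℝ)..t, (0 : ℂ) := by
      refine intervalIntegral.integral_congr fun s hs => ?_
      rw [uIcc_of_le ht] at hs
      rw [h3, h4, hk, (ZZ_odd hZ hω hs.1).mean]
      simp
    rw [h5, h4]
    simp
  · have hnk : (nk k : ℂ) ≠ 0 := by
      have := one_le_nk hk
      exact_mod_cast (by linarith : nk k ≠ 0)
    have h4 : (b0 k : ℂ) * nk k = 1 := by
      unfold b0; push_cast; field_simp
    have h5 := intervalIntegral.integral_eq_sub_of_hasDerivAt_of_le ht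
      (f := fun s => (b0 k : ℂ) * inner ℂ (ev k) (ZZ Z₀ ω s))
      (f' := fun s => ((innerSL ℂ (ev k : K 2)).restrictScalars ℝ)
        ((((2 * Real.pi : ℝ) : ℂ) * Complex.I) • ZZ Z₀ ω s + L0 (qq Z₀ ω s)))
      (continuous_const.mul (continuous_const.inner (continuous_ZZ Z₀ ω))).continuousOn
      (fun s hs => by
        have h6 := (hasDerivAt_coeff Z₀ ω k hs.1).const_mul (b0 k : ℂ)
        refine h6.congr_deriv ?_
        rw [h3]
        push_cast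
        linear_combination (2 * Real.pi * Complex.I * inner ℂ (ev k) (ZZ Z₀ ω s)) * h4)
      ((((innerSL ℂ (ev k : K 2)).restrictScalars ℝ).continuous.comp hc).intervalIntegrable _ _)
    rw [h5]

end

end Pool.Agent.Lib_helper45.W2
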