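import Pool.Agent.Lib_helper45.W2.Restr

/-!
The weak form of the equation.
-/

open MeasureTheory Set Filter Topology
open scoped NNReal ENNReal ComplexConjugate ContDiff

namespace Pool.Agent.Lib_helper45.W2

open Pool.Agent.WaveND

noncomputable section

/-! ### Characters -/

/-- The phase of a character. -/
def lk (k : Fin 2 → ℤ) : EN 2 →L[ℝ] ℝ :=
  (2 * Real.pi * k 0) • (ContinuousLinearMap.proj 0 : EN 2 →L[ℝ] ℝ) +
    (2 * Real.pi * k 1) • (ContinuousLinearMap.proj 1 : EN 2 →L[ℝ] ℝ)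

theorem lk_apply (k : Fin 2 → ℤ) (x : EN 2) :
    lk k x = 2 * Real.pi * k 0 * x 0 + 2 * Real.pi * k 1 * x 1 := rfl

theorem lk_single (k : Fin 2 → ℤ) (j : Fin 2) :
    lk k (Pi.single j 1 : EN 2) = 2 * Real.pi * k j := by
  rw [lk_apply]
  fin_cases j <;> simp

theorem mFourier_iot (k : Fin 2 → ℤ) (x : EN 2) :
    UnitAddTorus.mFourier k (iot x) = Complex.exp (((lk k x : ℝ) : ℂ) * Complex.I) := by
  change ∏ i : Fin 2, (fourier (k i) ((x i : ℝ) : UnitAddCircle) : ℂ) = _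
  rw [Fin.prod_univ_two, fourier_coe_apply, fourier_coe_apply, ← Complex.exp_add, lk_apply]
  congr 1
  push_cast
  ring

/-- The real function `Re (c exp(i s))`. -/
def Gs (c : ℂ) (s : ℝ) : ℝ := (c * Complex.exp ((s : ℂ) * Complex.I)).re

theorem hasDerivAt_Gs (c : ℂ) (s : ℝ) : HasDerivAt (Gs c) (Gs (c * Complex.I) s) s := by
  have h1 : HasDerivAt (fun s : ℝ => ((s : ℂ)) * Complex.I) (Complex.I) s := by
    have := (Complex.ofRealCLM.hasDerivAt (x := s)).mul_const Complex.I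
    simpa using this
  have h2 := (h1.cexp.const_mul c)
  have h3 := Complex.reCLM.hasFDerivAt.comp_hasDerivAt s h2
  refine h3.congr_deriv ?_
  change (c * (Complex.exp ((s : ℂ) * Complex.I) * Complex.I)).re = _
  unfold Gs
  congr 1
  ring

theorem contDiff_Gs (c : ℂ) : ContDiff ℝ ∞ (Gs c) := by
  unfold Gs
  have h1 : ContDiff ℝ ∞ fun s : ℝ => ((s : ℂ)) * Complex.I :=
    Complex.ofRealCLM.contDiff.mul contDiff_const
  have h2 : ContDiff ℝ ∞ fun s : ℝ => c * Complex.exp ((s : ℂ) * Complex.I) :=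
    contDiff_const.mul h1.cexp
  exact Complex.reCLM.contDiff.comp h2

/-- Real part of a multiple of a character. -/
def Fk (c : ℂ) (k : Fin 2 → ℤ) (x : EN 2) : ℝ := Gs c (lk k x)

theorem contDiff_Fk (c : ℂ) (k : Fin 2 → ℤ) : ContDiff ℝ ∞ (Fk c k) :=
  (contDiff_Gs c).comp (lk k).contDiff

theorem pd_Fk (c : ℂ) (k : Fin 2 → ℤ) (j : Fin 2) (x : EN 2) :
    partialD (Fk c k) j x = Fk (c * (2 * Real.pi * Complex.I * k j)) k x := by
  have h1 : HasFDerivAt (Fk c k) (Gs (c * Complex.I) (lk k x) • lk k) x :=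
    (hasDerivAt_Gs c (lk k x)).comp_hasFDerivAt x (lk k).hasFDerivAt
  unfold partialD
  rw [h1.fderiv]
  change Gs (c * Complex.I) (lk k x) * lk k (Pi.single j 1 : EN 2) = _
  rw [lk_single]
  unfold Fk Gs
  have h2 : c * (2 * Real.pi * Complex.I * k j) * Complex.exp (((lk k x : ℝ) : ℂ) * Complex.I) =
      ((2 * Real.pi * k j : ℝ) : ℂ) * (c * Complex.I * Complex.exp (((lk k x : ℝ) : ℂ) * Complex.I)) := by
    push_cast; ring
  rw [h2, Complex.re_ofReal_mul, mul_comm]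

theorem coeFn_smul_ev (c : ℂ) (k : Fin 2 → ℤ) :
    reO (c • ev k) =ᵐ[volume.restrict Sq] Fk c k := by
  filter_upwards [coeFn_reO (c • ev k), ae_iot (Lp.coeFn_smul c (ev k : K 2)),
    ae_iot (coeFn_ev k)] with x h1 h2 h3
  rw [h1, h2, Pi.smul_apply, h3, mFourier_iot, smul_eq_mul]
  rfl

/-! ### Test functions -/

theorem tst_memLp {φ : EN 2 → ℝ} (h : IsTest Sq φ) : MemLp φ 2 (volume.restrict Sq) :=
  (h.1.continuous.memLp_of_hasCompactSupport h.2.1).restrict Sq

theorem tst_pd_continuous {φ : EN 2 → ℝ} (h : IsTest Sq φ) (j : Fin 2) :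
    Continuous (partialD φ j) := by
  have h1 : Continuous (fderiv ℝ φ) := h.1.continuous_fderiv (by simp)
  exact h1.clm_apply continuous_const

theorem tst_pd_compact {φ : EN 2 → ℝ} (h : IsTest Sq φ) (j : Fin 2) :
    HasCompactSupport (partialD φ j) := h.2.1.fderiv_apply ℝ _

theorem tst_pd_memLp {φ : EN 2 → ℝ} (h : IsTest Sq φ) (j : Fin 2) :
    MemLp (partialD φ j) 2 (volume.restrict Sq) :=
  ((tst_pd_continuous h j).memLp_of_hasCompactSupport (tst_pd_compact h j)).restrict Sq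

theorem tst_eq_zero {φ : EN 2 → ℝ} (h : IsTest Sq φ) {x : EN 2} (hx : x ∉ Sq) : φ x = 0 :=
  image_eq_zero_of_notMem_tsupport fun h' => hx (h.2.2 h')

theorem tst_pd_eq_zero {φ : EN 2 → ℝ} (h : IsTest Sq φ) (j : Fin 2) {x : EN 2}
    (hx : x ∉ Sq) : partialD φ j x = 0 := by
  unfold partialD
  rw [fderiv_of_notMem_tsupport ℝ fun h' => hx (h.2.2 h')]
  rfl

/-- Integration by parts. -/
theorem ibp {φ : EN 2 → ℝ} (h : IsTest Sq φ) {F : EN 2 → ℝ} (hF : ContDiff ℝ ∞ F) (j : Fin 2) :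
    ∫ x in Sq, F x * partialD φ j x = -∫ x in Sq, partialD F j x * φ x := by
  have hFd : Continuous (partialD F j) := (hF.continuous_fderiv (by simp)).clm_apply continuous_const
  rw [setIntegral_eq_integral_of_forall_compl_eq_zero fun x hx => by
      rw [tst_pd_eq_zero h j hx, mul_zero],
    setIntegral_eq_integral_of_forall_compl_eq_zero fun x hx => by rw [tst_eq_zero h hx, mul_zero]]
  refine integral_mul_fderiv_eq_neg_fderiv_mul_of_integrable ?_ ?_ ?_ ?_ ?_
  · exact (hFd.mul h.1.continuous).integrable_of_hasCompactSupport h.2.1.mul_left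
  · exact (hF.continuous.mul (tst_pd_continuous h j)).integrable_of_hasCompactSupport
      (tst_pd_compact h j).mul_left
  · exact (hF.continuous.mul h.1.continuous).integrable_of_hasCompactSupport h.2.1.mul_left
  · exact fun x _ => hF.differentiable (by simp) x
  · exact fun x _ => h.1.differentiable (by simp) x

/-- Class of the test function. -/
def cT {φ : EN 2 → ℝ} (h : IsTest Sq φ) : L2 Sq := (tst_memLp h).toLp φ

/-- Class of the partial derivatives. -/
def cD {φ : EN 2 → ℝ} (h : IsTest Sq φ) (j : Fin 2) : L2 Sq := (tst_pd_memLp h j).toLp _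

theorem coeFn_cT {φ : EN 2 → ℝ} (h : IsTest Sq φ) : cT h =ᵐ[volume.restrict Sq] φ :=
  MemLp.coeFn_toLp _

theorem coeFn_cD {φ : EN 2 → ℝ} (h : IsTest Sq φ) (j : Fin 2) :
    cD h j =ᵐ[volume.restrict Sq] partialD φ j := MemLp.coeFn_toLp _

/-- The Fourier coefficients of the partial derivatives. -/
theorem coeff_cD {φ : EN 2 → ℝ} (h : IsTest Sq φ) (j : Fin 2) (k : Fin 2 → ℤ) :
    inner ℂ (ev k) (exO (cD h j)) = 2 * Real.pi * Complex.I * k j * inner ℂ (ev k) (exO (cT h)) := by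
  -- real parts
  have key : ∀ c : ℂ, (conj c * inner ℂ (ev k) (exO (cD h j))).re =
      (conj c * (2 * Real.pi * Complex.I * k j * inner ℂ (ev k) (exO (cT h)))).re := by
    intro c
    have h1 : (conj c * inner ℂ (ev k) (exO (cD h j))).re = ∫ x in Sq, Fk c k x * partialD φ j x := by
      rw [← inner_smul_left, ← inner_real_eq, inner_exO, inner_L2]
      refine integral_congr_ae ?_
      filter_upwards [coeFn_smul_ev c k, coeFn_cD h j] with x h1 h2
      rw [h1, h2]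
    have h2 : (conj (c * (2 * Real.pi * Complex.I * k j)) * inner ℂ (ev k) (exO (cT h))).re =
        ∫ x in Sq, Fk (c * (2 * Real.pi * Complex.I * k j)) k x * φ x := by
      rw [← inner_smul_left, ← inner_real_eq, inner_exO, inner_L2]
      refine integral_congr_ae ?_
      filter_upwards [coeFn_smul_ev (c * (2 * Real.pi * Complex.I * k j)) k, coeFn_cT h]
        with x h1 h2
      rw [h1, h2]
    have h3 : conj (c * (2 * Real.pi * Complex.I * k j)) =
        -(conj c * (2 * Real.pi * Complex.I * k j)) := by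
      simp only [map_mul, Complex.conj_ofReal, Complex.conj_I, map_ofNat, map_intCast]
      ring
    have h4 := ibp h (contDiff_Fk c k) j
    simp only [pd_Fk] at h4
    rw [h1, h4, ← h2, h3, neg_mul, Complex.neg_re, neg_neg, mul_assoc]
  have h1 := key (inner ℂ (ev k) (exO (cD h j)) -
    2 * Real.pi * Complex.I * k j * inner ℂ (ev k) (exO (cT h)))
  set a := inner ℂ (ev k) (exO (cD h j)) with ha
  set b := 2 * Real.pi * Complex.I * k j * inner ℂ (ev k) (exO (cT h)) with hb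
  have h2 : (conj (a - b) * (a - b)).re = 0 := by
    rw [mul_sub, Complex.sub_re, h1, sub_self]
  rw [← Complex.normSq_eq_conj_mul_self, Complex.ofReal_re, Complex.normSq_eq_zero] at h2
  exact sub_eq_zero.1 h2

/-! ### The weak equation -/

/-- `-i Σ_j B_j p_j / (2π)`. -/
def wT {φ : EN 2 → ℝ} (h : IsTest Sq φ) : K 2 :=
  (-(Complex.I / (2 * Real.pi))) • (Bj 0 (exO (cD h 0)) + Bj 1 (exO (cD h 1)))

theorem two_pi_ne : (2 * Real.pi : ℂ) ≠ 0 := by
  have := Real.pi_pos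
  exact_mod_cast (by positivity : (2 * Real.pi : ℝ) ≠ 0)

theorem L0_wT {φ : EN 2 → ℝ} (h : IsTest Sq φ) :
    L0 (wT h) = exO (cT h) - (inner ℂ (ev 0 : K 2) (exO (cT h)) : ℂ) • ev 0 := by
  classical
  apply K_ext'
  intro k
  have hB : ∀ j x, inner ℂ (ev k) (Bj j x) = (bj j k : ℂ) * inner ℂ (ev k) x := fun j x =>
    inner_ev_Mb (bj_le j) k x
  have hL : ∀ x, inner ℂ (ev k) (L0 x) = (b0 k : ℂ) * inner ℂ (ev k) x := fun x =>
    inner_ev_Mb b0_le k x
  rw [hL, wT, inner_smul_right, inner_add_right, hB, hB, coeff_cD, coeff_cD, inner_sub_right,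
    inner_smul_right, inner_ev]
  by_cases hk : k = 0
  · have h4 : b0 k = 0 := by unfold b0; rw [hk, nk_zero]; simp
    rw [if_pos hk, h4, hk]
    simp
  · rw [if_neg hk]
    have h1 := one_le_nk hk
    have h3 : (nk k : ℂ) ^ 2 = (k 0 : ℂ) ^ 2 + (k 1 : ℂ) ^ 2 := by
      have : nk k ^ 2 = (k 0 : ℝ) ^ 2 + (k 1 : ℝ) ^ 2 := Real.sq_sqrt (by positivity)
      exact_mod_cast this
    have h4 : (nk k : ℂ) ≠ 0 := by exact_mod_cast (by linarith : nk k ≠ 0)
    have h5 := two_pi_ne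
    have h6 : (Real.pi : ℂ) ≠ 0 := by exact_mod_cast Real.pi_ne_zero
    unfold b0 bj
    push_cast
    set a := inner ℂ (ev k) (exO (cT h)) with ha
    have h7 : (1 / (nk k : ℂ)) * (-(Complex.I / (2 * Real.pi)) *
        ((k 0 : ℂ) / nk k * (2 * Real.pi * Complex.I * k 0 * a) +
          (k 1 : ℂ) / nk k * (2 * Real.pi * Complex.I * k 1 * a))) =
        -(Complex.I ^ 2) * (((k 0 : ℂ) ^ 2 + (k 1 : ℂ) ^ 2) / (nk k : ℂ) ^ 2) * a := by
      field_simp
    rw [h7, ← h3, Complex.I_sq, div_self (pow_ne_zero 2 h4)]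
    ring

theorem inner_L0_wT {φ : EN 2 → ℝ} (h : IsTest Sq φ) {x : K 2} (hx : inner ℂ (ev 0 : K 2) x = 0) :
    inner ℝ (L0 x) (wT h) = inner ℝ (reO x) (cT h) := by
  have h1 : inner ℝ (L0 x) (wT h) = inner ℝ x (L0 (wT h)) := inner_Mb_real _ _ _
  have h2 : inner ℂ x (ev 0 : K 2) = 0 := by
    rw [← inner_conj_symm, hx, map_zero]
  rw [h1, L0_wT, inner_sub_right, inner_exO]
  have h3 : inner ℝ x ((inner ℂ (ev 0 : K 2) (exO (cT h)) : ℂ) • (ev 0 : K 2)) = 0 := by
    rw [inner_real_eq, inner_smul_right, h2]; simp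
  rw [h3, sub_zero]

theorem inner_I_wT {φ : EN 2 → ℝ} (h : IsTest Sq φ) (x : K 2) :
    inner ℝ ((((2 * Real.pi : ℝ) : ℂ) * Complex.I) • x) (wT h) =
      -inner ℝ (reO (Bj 0 x)) (cD h 0) - inner ℝ (reO (Bj 1 x)) (cD h 1) := by
  have h5 := two_pi_ne
  have h1 : inner ℝ ((((2 * Real.pi : ℝ) : ℂ) * Complex.I) • x) (wT h) =
      -inner ℝ x (Bj 0 (exO (cD h 0)) + Bj 1 (exO (cD h 1))) := by
    rw [inner_real_eq, inner_real_eq, wT, inner_smul_left, inner_smul_right, ← Complex.neg_re]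
    congr 1
    simp only [map_mul, Complex.conj_ofReal, Complex.conj_I]
    have h6 : (((2 * Real.pi : ℝ) : ℂ) * -Complex.I) * (-(Complex.I / (2 * Real.pi))) = -1 := by
      push_cast
      have h7 : ((2 : ℂ) * Real.pi * -Complex.I) * (-(Complex.I / (2 * Real.pi))) =
          Complex.I ^ 2 * ((2 * Real.pi) / (2 * Real.pi)) := by ring
      rw [h7, div_self h5, Complex.I_sq, mul_one]
    rw [← mul_assoc, h6]
    ring
  have h2 : ∀ j, inner ℝ x (Bj j (exO (cD h j))) = inner ℝ (reO (Bj j x)) (cD h j) := by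
    intro j
    rw [← inner_exO]
    exact (inner_Mb_real _ _ _).symm
  rw [h1, inner_add_right, h2, h2]
  ring

theorem weak_abstract {Z₀ W₀ : K 2} (hZ : IsOdd Z₀) (hW₀ : IsOdd W₀) {φ : EN 2 → ℝ}
    (h : IsTest Sq φ) {t : ℝ} (ht : 0 ≤ t) :
    inner ℝ (reO (ZZ Z₀ W₀ t)) (cT h) - inner ℝ (reO (ZZ Z₀ W₀ 0)) (cT h) =
      ∫ s in (0 : ℝ)..t, (inner ℝ (reO (qq Z₀ W₀ s)) (cT h) -
        inner ℝ (reO (Bj 0 (ZZ Z₀ W₀ s))) (cD h 0) - inner ℝ (reO (Bj 1 (ZZ Z₀ W₀ s))) (cD h 1)) := by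
  have hc : Continuous fun s => (((2 * Real.pi : ℝ) : ℂ) * Complex.I) • ZZ Z₀ W₀ s +
      L0 (qq Z₀ W₀ s) :=
    ((continuous_ZZ Z₀ W₀).const_smul (((2 * Real.pi : ℝ) : ℂ) * Complex.I)).add
      (L0.continuous.comp (continuous_qq Z₀ W₀))
  have h0 := L0_ZZ hZ hW₀ ht
  have h1 := (innerSL ℝ (wT h)).intervalIntegral_comp_comm
    (hc.intervalIntegrable (μ := volume) 0 t)
  rw [← h0] at h1
  change _ = inner ℝ (wT h) _ at h1
  rw [inner_sub_right, real_inner_comm, real_inner_comm (L0 (ZZ Z₀ W₀ 0)),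
    inner_L0_wT h (ZZ_odd hZ hW₀ ht).mean, inner_L0_wT h (ZZ_odd hZ hW₀ le_rfl).mean] at h1
  rw [← h1]
  refine intervalIntegral.integral_congr fun s hs => ?_
  rw [uIcc_of_le ht] at hs
  change inner ℝ (wT h) _ = _
  rw [real_inner_comm, inner_add_left, inner_I_wT, inner_L0_wT h (qq_odd hZ hW₀ hs.1).mean]
  ring

end

end Pool.Agent.Lib_helper45.W2
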